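import Pool.Agent.HDT.Defs
import Pool.Agent.HD.Multi

/-!
MP_134267_co, Theorem HDT, row R8 (helper6): the absorbers are built in the reserve. For every `x`
one step `z x → α (x,0)` and one step `s x → δ (x,0)`, a link `α (x,0) → z x` with `2j-1` interior
vertices and a link `δ (x,0) → s x` with `2j-2` interior vertices, then the links `β → γ`.
-/

set_option autoImplicit false

namespace Pool.Agent.HDT

open Finset Pool.Agent.HD

/-- one new neighbour for every index -/
theorem ab_multi_step {V ι : Type} [DecidableEq V] [Fintype ι] [DecidableEq ι]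
    {G : SimpleGraph V} {W : Finset V} {m h K : ℕ} (hc : FPCtx G W m h K) {U : Finset V}
    {r : V → ℕ} (hs : FPState G W m U r) (c : ι → V) (hinj : Function.Injective c)
    (hcU : ∀ i, c i ∈ U) (hr : ∀ i, 1 ≤ r (c i))
    (hcap : (U ∩ W).card + Fintype.card ι ≤ K) (s : Finset ι) :
    ∃ y : ι → V, Set.InjOn y s ∧ (∀ i ∈ s, y i ∉ U) ∧ (∀ i ∈ s, G.Adj (c i) (y i)) ∧
      FPState G W m (U ∪ s.image y) (fun v => if v ∈ s.image y then 2 else
        if v ∈ s.image c then r v - 1 else r v) := by
  induction s using Finset.induction_on with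
  | empty =>
    refine ⟨c, by simp, by simp, by simp, ?_⟩
    simpa using hs
  | insert i s his ih =>
    obtain ⟨y, h1, h2, h3, h4⟩ := ih
    have hcy : ∀ j, c j ∉ s.image y := by
      intro j hj
      rw [Finset.mem_image] at hj
      obtain ⟨k, hk, hk'⟩ := hj
      exact h2 k hk (hk' ▸ hcU j)
    have hci : c i ∉ s.image c := by
      intro hj
      rw [Finset.mem_image] at hj
      obtain ⟨k, hk, hk'⟩ := hj
      exact his (hinj hk' ▸ hk)
    have hcard : ((U ∪ s.image y) ∩ W).card ≤ (U ∩ W).card + s.card := by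
      calc ((U ∪ s.image y) ∩ W).card ≤ ((U ∩ W) ∪ s.image y).card := by
            apply Finset.card_le_card
            intro z hz
            rw [mem_inter, mem_union] at hz
            rw [mem_union, mem_inter]
            tauto
        _ ≤ (U ∩ W).card + (s.image y).card := Finset.card_union_le _ _
        _ ≤ _ := Nat.add_le_add_left Finset.card_image_le _
    have hsc : s.card ≤ Fintype.card ι := Finset.card_le_univ s
    obtain ⟨y0, g1, g2, g3⟩ := h4.step hc (by omega) (mem_union_left _ (hcU i))
      (by rw [if_neg (hcy i), if_neg hci]; exact hr i)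
    rw [if_neg (hcy i), if_neg hci] at g3
    have hy0U : y0 ∉ U := fun h' => g1 (mem_union_left _ h')
    have hy0s : y0 ∉ s.image y := fun h' => g1 (mem_union_right _ h')
    have hupd : ∀ j ∈ s, Function.update y i y0 j = y j := by
      intro j hj
      rw [Function.update_of_ne]
      rintro rfl; exact his hj
    have himg : (insert i s).image (Function.update y i y0) = insert y0 (s.image y) := by
      rw [Finset.image_insert, Function.update_self]
      congr 1
      exact Finset.image_congr (fun j hj => hupd j hj)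
    refine ⟨Function.update y i y0, ?_, ?_, ?_, ?_⟩
    · rw [Finset.coe_insert, Set.injOn_insert (by exact_mod_cast his)]
      refine ⟨?_, ?_⟩
      · intro a ha b hb hab
        rw [hupd a ha, hupd b hb] at hab
        exact h1 ha hb hab
      · rintro ⟨j, hj, hj'⟩
        rw [Function.update_self, hupd j hj] at hj'
        exact hy0s (Finset.mem_image.2 ⟨j, hj, hj'⟩)
    · intro j hj
      rw [mem_insert] at hj
      rcases hj with rfl | hj
      · rw [Function.update_self]; exact hy0U
      · rw [hupd j hj]; exact h2 j hj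
    · intro j hj
      rw [mem_insert] at hj
      rcases hj with rfl | hj
      · rw [Function.update_self]; exact g2
      · rw [hupd j hj]; exact h3 j hj
    · have e1 : U ∪ (insert i s).image (Function.update y i y0) = insert y0 (U ∪ s.image y) := by
        rw [himg, Finset.union_insert]
      rw [e1]
      have e2 : (fun v => if v ∈ (insert i s).image (Function.update y i y0) then 2 else
          if v ∈ (insert i s).image c then r v - 1 else r v)
          = Function.update (fun v => if v ∈ s.image y then 2 else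
              if v ∈ s.image c then r v - 1 else r v) (c i) (r (c i) - 1) := by
        funext v
        rw [himg]
        by_cases hv : v = c i
        · rw [hv, Function.update_self, if_neg, if_pos]
          · exact Finset.mem_image_of_mem c (mem_insert_self i s)
          · rw [mem_insert, not_or]
            exact ⟨fun h' => hy0U (h' ▸ hcU i), hcy i⟩
        · rw [Function.update_of_ne hv]
          have hmem : v ∈ (insert i s).image c ↔ v ∈ s.image c := by
            rw [Finset.image_insert, mem_insert]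
            tauto
          by_cases hvy : v = y0
          · have hyc : y0 ∉ s.image c := by
              intro h'
              rw [Finset.mem_image] at h'
              obtain ⟨k, _, hk'⟩ := h'
              exact hy0U (hk' ▸ hcU k)
            have h5 := h4.r2 y0 g1
            rw [if_neg hy0s, if_neg hyc] at h5
            rw [hvy, if_pos (mem_insert_self _ _), if_neg hy0s, if_neg hyc, h5]
          · have hmem' : v ∈ insert y0 (s.image y) ↔ v ∈ s.image y := by
              rw [mem_insert]; tauto
            simp only [hmem, hmem']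
      rw [e2]
      exact g3

/-- a list of length `2j` is the union of the pairs of entries `2i`, `2i+1` -/
theorem ab_pairs {V : Type} : ∀ (j : ℕ) (L : List V) (hL : L.length = 2 * j),
    ∑ i : Fin j, (({L[2 * (i : ℕ)]'(by omega)} : Multiset V) + {L[2 * (i : ℕ) + 1]'(by omega)})
      = (L : Multiset V) := by
  intro j
  induction j with
  | zero =>
    intro L hL
    have : L = [] := List.length_eq_zero_iff.1 (by omega)
    subst this
    simp
  | succ j ih =>
    intro L hL
    match L, hL with
    | [], hL => simp at hL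
    | [a], hL => simp at hL; omega
    | a :: b :: L, hL =>
      have hL' : L.length = 2 * j := by simp only [List.length_cons] at hL; omega
      rw [Fin.sum_univ_succ]
      have h1 := ih L hL'
      have h2 : ∑ i : Fin j, (({(a :: b :: L)[2 * ((i.succ : Fin (j + 1)) : ℕ)]'(by
          simp only [List.length_cons, Fin.val_succ]; omega)} : Multiset V)
          + {(a :: b :: L)[2 * ((i.succ : Fin (j + 1)) : ℕ) + 1]'(by
          simp only [List.length_cons, Fin.val_succ]; omega)}) = (L : Multiset V) := by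
        rw [← h1]
        refine Finset.sum_congr rfl fun i _ => ?_
        have e1 : 2 * ((i.succ : Fin (j + 1)) : ℕ) = 2 * (i : ℕ) + 1 + 1 := by
          rw [Fin.val_succ]; ring
        simp only [e1, List.getElem_cons_succ]
      rw [h2]
      simp only [Fin.val_zero, Nat.mul_zero, List.getElem_cons_zero, Nat.zero_add,
        List.getElem_cons_succ]
      rw [← Multiset.cons_coe, ← Multiset.cons_coe, add_assoc, Multiset.singleton_add,
        Multiset.singleton_add]

/-- number of indices with a given value -/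
theorem ab_count {V ι : Type} [DecidableEq V] [Fintype ι] (c : ι → V) (v : V) :
    (univ.filter (fun i => c i = v)).card = Multiset.count v (∑ i, ({c i} : Multiset V)) := by
  rw [Multiset.count_sum', Finset.card_filter]
  refine Finset.sum_congr rfl fun i _ => ?_
  rw [Multiset.count_singleton]
  by_cases h : c i = v
  · rw [if_pos h, if_pos h.symm]
  · rw [if_neg h, if_neg (fun h' => h h'.symm)]

theorem ab_sum_image {V ι : Type} [DecidableEq V] [Fintype ι] (f : ι → V)
    (hf : Function.Injective f) : ∑ i, ({f i} : Multiset V) = (univ.image f).val := by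
  rw [Finset.image_val_of_injOn hf.injOn, ← Multiset.sum_map_singleton (Multiset.map f _),
    Multiset.map_map]
  rfl

/-- consecutive entries of the list `L` followed by `e` -/
theorem ab_chain {V : Type} {adj : V → V → Prop} (L : List V) (e : V)
    (h : (L ++ [e]).IsChain adj) :
    (∀ k (hk : k + 1 < L.length), adj L[k] L[k + 1]) ∧
    (∀ k (hk : k < L.length), k + 1 = L.length → adj L[k] e) := by
  rw [List.isChain_iff_getElem] at h
  refine ⟨?_, ?_⟩
  · intro k hk
    have h1 := h k (by rw [List.length_append]; omega)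
    rw [List.getElem_append_left (by omega), List.getElem_append_left hk] at h1
    exact h1
  · intro k hk hk'
    have h1 := h k (by rw [List.length_append, List.length_singleton]; omega)
    rw [List.getElem_append_left hk, List.getElem_append_right (by omega)] at h1
    simpa using h1

/-- **Row R8** -/
theorem absorbers_build {V ζ : Type} [DecidableEq V] [Fintype ζ] [DecidableEq ζ]
    {G : SimpleGraph V} {W : Finset V} {m h K : ℕ} (hc : FPCtx G W m h K) {U : Finset V}
    {r : V → ℕ} (hs : FPState G W m U r) (z s : ζ → V)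
    (hinj : Function.Injective (Sum.elim z s)) (hz : ∀ x, z x ∈ U) (hsU : ∀ x, s x ∈ U)
    (hrz : ∀ x, r (z x) = 3) (hrs : ∀ x, r (s x) = 3) (j q0 : ℕ) (hj : h + 2 ≤ j)
    (hq0 : 2 * h + 2 ≤ q0)
    (hcap : (U ∩ W).card + Fintype.card ζ * (4 * j + j * q0) + 2 ^ (h + 2) ≤ K) :
    ∃ (S S₂ : Finset V) (α β γ δ : ζ × Fin j → V) (r' : V → ℕ),
      Disjoint S U ∧ Pat G.Adj j z α β γ δ ∧ Links G.Adj S₂ β γ (fun _ => q0) ∧
      (∑ p, ({α p} + {β p} + {γ p} + {δ p} : Multiset V) + S₂.val =
        S.val + ∑ x, ({s x} : Multiset V)) ∧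
      (∀ p, 1 ≤ r' (α p)) ∧ (∀ p, 1 ≤ r' (δ p)) ∧
      (∀ v, v ∉ S → v ∉ Set.range z → v ∉ Set.range s → r' v = r v) ∧
      FPState G W m (U ∪ S) r' := by
  have hcapz : Fintype.card ζ * (4 * j + j * q0)
      = Fintype.card ζ * (4 * j) + Fintype.card ζ * (j * q0) := by ring
  have hsinj : Function.Injective s := fun x x' hx => by
    have := hinj (a₁ := Sum.inr x) (a₂ := Sum.inr x') hx
    exact Sum.inr_injective this
  have hcU : ∀ i, Sum.elim z s i ∈ U := by
    rintro (x | x)
    · exact hz x
    · exact hsU x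
  have hrc : ∀ i, r (Sum.elim z s i) = 3 := by
    rintro (x | x)
    · exact hrz x
    · exact hrs x
  have hcardzz : Fintype.card (ζ ⊕ ζ) = Fintype.card ζ + Fintype.card ζ := Fintype.card_sum
  have hjpos : 1 ≤ j := by omega
  have hj4 : Fintype.card ζ * (4 * j) = Fintype.card ζ + Fintype.card ζ
      + (Fintype.card ζ * (2 * j - 1) + Fintype.card ζ * (2 * j - 2)) + Fintype.card ζ := by
    obtain ⟨j', rfl⟩ : ∃ j', j = j' + 1 := ⟨j - 1, by omega⟩
    have e1 : 2 * (j' + 1) - 1 = 2 * j' + 1 := by omega
    have e2 : 2 * (j' + 1) - 2 = 2 * j' := by omega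
    rw [e1, e2]
    ring
  have hpw : 0 < 2 ^ (h + 2) := by positivity
  -- step 1
  obtain ⟨y, y1, y2, y3, y4⟩ := ab_multi_step hc hs (Sum.elim z s) hinj hcU
    (fun i => by rw [hrc]; norm_num) (by omega) univ
  have hyinj : Function.Injective y := by
    rwa [Finset.coe_univ, Set.injOn_univ] at y1
  have hyU : ∀ i, y i ∉ U := fun i => y2 i (mem_univ i)
  have hyadj : ∀ i, G.Adj (Sum.elim z s i) (y i) := fun i => y3 i (mem_univ i)
  generalize hS1 : univ.image y = S1 at y4
  have hmemS1 : ∀ v, v ∈ S1 ↔ ∃ i, y i = v := by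
    intro v; rw [← hS1]; simp
  have hS1U : ∀ v ∈ S1, v ∉ U := by
    intro v hv
    obtain ⟨i, rfl⟩ := (hmemS1 v).1 hv
    exact hyU i
  have hS1c : S1.card = Fintype.card ζ + Fintype.card ζ := by
    rw [← hS1, Finset.card_image_of_injective _ hyinj, Finset.card_univ, hcardzz]
  have hmemC : ∀ v, v ∈ univ.image (Sum.elim z s) ↔ ∃ i, Sum.elim z s i = v := by
    intro v; simp
  have hcnt1 : ∀ (f : ζ ⊕ ζ → V), Function.Injective f → ∀ v,
      (univ.filter (fun i => f i = v)).card ≤ 1 := by
    intro f hf v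
    rw [Finset.card_le_one]
    intro a ha b hb
    rw [mem_filter] at ha hb
    exact hf (ha.2.trans hb.2.symm)
  have hcnt0 : ∀ (f : ζ ⊕ ζ → V) (v : V), (¬ ∃ i, f i = v) →
      (univ.filter (fun i => f i = v)).card = 0 := by
    intro f v hv
    rw [Finset.card_eq_zero, Finset.filter_eq_empty_iff]
    intro i _ hi
    exact hv ⟨i, hi⟩
  have hcap1 : ((U ∪ S1) ∩ W).card ≤ (U ∩ W).card + S1.card := by
    calc ((U ∪ S1) ∩ W).card ≤ ((U ∩ W) ∪ S1).card := by
          apply Finset.card_le_card
          intro z hz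
          rw [mem_inter, mem_union] at hz
          rw [mem_union, mem_inter]
          tauto
      _ ≤ (U ∩ W).card + S1.card := Finset.card_union_le _ _
  have hqsum : ∑ i : ζ ⊕ ζ, (Sum.elim (fun _ => 2 * j - 1) (fun _ => 2 * j - 2) i : ℕ)
      = Fintype.card ζ * (2 * j - 1) + Fintype.card ζ * (2 * j - 2) := by
    rw [Fintype.sum_sum_type]
    simp
  -- step 2
  obtain ⟨S2, s1, s2, ⟨I, i1, i2, i3⟩, s4⟩ := y4.multi_link hc y (Sum.elim z s)
    (Sum.elim (fun _ => 2 * j - 1) (fun _ => 2 * j - 2))
    (by rintro (x | x) <;> simp only [Sum.elim_inl, Sum.elim_inr] <;> omega)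
    (by rw [hqsum]; omega)
    (fun i => mem_union_right _ ((hmemS1 _).2 ⟨i, rfl⟩))
    (fun i => mem_union_left _ (hcU i))
    (fun i hi => hyU i (hi ▸ hcU i))
    (by
      intro v
      by_cases hv : v ∈ S1
      · rw [if_pos hv, hcnt0 (Sum.elim z s) v (by
          rintro ⟨i, rfl⟩
          exact hS1U _ hv (hcU i))]
        have := hcnt1 y hyinj v
        omega
      · rw [if_neg hv, hcnt0 y v (fun h' => hv ((hmemS1 v).2 h'))]
        by_cases hv' : v ∈ univ.image (Sum.elim z s)
        · rw [if_pos hv']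
          obtain ⟨i, rfl⟩ := (hmemC v).1 hv'
          have := hcnt1 _ hinj (Sum.elim z s i)
          have := hrc i
          omega
        · rw [if_neg hv', hcnt0 (Sum.elim z s) v (fun h' => hv' ((hmemC v).2 h'))]
          exact Nat.zero_le _)
  generalize hr2 : (fun x => if x ∈ S2 then 1 else
    (if x ∈ S1 then 2 else if x ∈ univ.image (Sum.elim z s) then r x - 1 else r x)
      - (univ.filter (fun i => y i = x)).card
      - (univ.filter (fun i => Sum.elim z s i = x)).card) = r2 at s4
  have hS2U : ∀ v ∈ S2, v ∉ U := fun v hv hvU =>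
    (Finset.disjoint_left.1 s1) hv (mem_union_left _ hvU)
  have hS2S1 : ∀ v ∈ S2, v ∉ S1 := fun v hv hvU =>
    (Finset.disjoint_left.1 s1) hv (mem_union_right _ hvU)
  have hd12 : Disjoint S1 S2 := Finset.disjoint_left.2 fun v hv hv' => hS2S1 v hv' hv
  -- the lists
  have hLlen : ∀ x, (y (Sum.inl x) :: I (Sum.inl x)).length = 2 * j := by
    intro x
    have := i2 (Sum.inl x)
    simp only [Sum.elim_inl] at this
    rw [List.length_cons, this]
    omega
  have hMlen : ∀ x, (y (Sum.inr x) :: (I (Sum.inr x) ++ [s x])).length = 2 * j := by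
    intro x
    have := i2 (Sum.inr x)
    simp only [Sum.elim_inr] at this
    rw [List.length_cons, List.length_append, this, List.length_singleton]
    omega
  obtain ⟨L, hL⟩ : ∃ L : ζ → List V, ∀ x, L x = y (Sum.inl x) :: I (Sum.inl x) :=
    ⟨fun x => _, fun _ => rfl⟩
  obtain ⟨M, hM⟩ : ∃ M : ζ → List V, ∀ x, M x = y (Sum.inr x) :: (I (Sum.inr x) ++ [s x]) :=
    ⟨fun x => _, fun _ => rfl⟩
  have hL2 : ∀ x, (L x).length = 2 * j := fun x => by rw [hL]; exact hLlen x
  have hM2 : ∀ x, (M x).length = 2 * j := fun x => by rw [hM]; exact hMlen x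
  obtain ⟨α, hα⟩ : ∃ α : ζ × Fin j → V, ∀ p, α p = (L p.1)[2 * (p.2 : ℕ)]'(by
    rw [hL2]; omega) := ⟨fun p => _, fun _ => rfl⟩
  obtain ⟨β, hβ⟩ : ∃ β : ζ × Fin j → V, ∀ p, β p = (L p.1)[2 * (p.2 : ℕ) + 1]'(by
    rw [hL2]; omega) := ⟨fun p => _, fun _ => rfl⟩
  obtain ⟨δ, hδ⟩ : ∃ δ : ζ × Fin j → V, ∀ p, δ p = (M p.1)[2 * (p.2 : ℕ)]'(by
    rw [hM2]; omega) := ⟨fun p => _, fun _ => rfl⟩
  obtain ⟨γ, hγ⟩ : ∃ γ : ζ × Fin j → V, ∀ p, γ p = (M p.1)[2 * (p.2 : ℕ) + 1]'(by
    rw [hM2]; omega) := ⟨fun p => _, fun _ => rfl⟩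
  -- the multiset of all the vertices of the cycles
  have htot : ∑ p, ({α p} : Multiset V) + ∑ p, ({β p} : Multiset V) + ∑ p, ({γ p} : Multiset V)
      + ∑ p, ({δ p} : Multiset V) = S1.val + S2.val + ∑ x, ({s x} : Multiset V) := by
    have e1 : ∑ p, ({α p} : Multiset V) + ∑ p, ({β p} : Multiset V)
        = ∑ x, ((L x : List V) : Multiset V) := by
      rw [← Finset.sum_add_distrib, Fintype.sum_prod_type]
      refine Finset.sum_congr rfl fun x _ => ?_
      rw [← ab_pairs j (L x) (hL2 x)]
      refine Finset.sum_congr rfl fun i _ => ?_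
      rw [hα, hβ]
    have e2 : ∑ p, ({γ p} : Multiset V) + ∑ p, ({δ p} : Multiset V)
        = ∑ x, ((M x : List V) : Multiset V) := by
      rw [add_comm, ← Finset.sum_add_distrib, Fintype.sum_prod_type]
      refine Finset.sum_congr rfl fun x _ => ?_
      rw [← ab_pairs j (M x) (hM2 x)]
      refine Finset.sum_congr rfl fun i _ => ?_
      rw [hδ, hγ]
    rw [add_assoc, e1, e2]
    have e3 : S1.val = ∑ i, ({y i} : Multiset V) := by
      rw [ab_sum_image y hyinj, hS1]
    rw [e3, ← i3, Fintype.sum_sum_type, Fintype.sum_sum_type]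
    have e4 : ∑ x, ((L x : List V) : Multiset V)
        = ∑ x, ({y (Sum.inl x)} : Multiset V) + ∑ x, ((I (Sum.inl x) : List V) : Multiset V) := by
      rw [← Finset.sum_add_distrib]
      refine Finset.sum_congr rfl fun x _ => ?_
      rw [hL, ← Multiset.cons_coe, Multiset.singleton_add]
    have e5 : ∑ x, ((M x : List V) : Multiset V)
        = ∑ x, ({y (Sum.inr x)} : Multiset V) + ∑ x, ((I (Sum.inr x) : List V) : Multiset V)
          + ∑ x, ({s x} : Multiset V) := by
      rw [← Finset.sum_add_distrib, ← Finset.sum_add_distrib]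
      refine Finset.sum_congr rfl fun x _ => ?_
      rw [hM, ← Multiset.cons_coe, ← Multiset.coe_add, Multiset.coe_singleton, add_assoc,
        Multiset.singleton_add]
    rw [e4, e5]
    abel
  have hnod : (S1.val + S2.val + ∑ x, ({s x} : Multiset V)).Nodup := by
    rw [ab_sum_image s hsinj, ← Finset.disjUnion_val _ _ hd12]
    have hd3 : Disjoint (S1.disjUnion S2 hd12) (univ.image s) := by
      rw [Finset.disjoint_left]
      intro v hv hv'
      rw [Finset.mem_image] at hv'
      obtain ⟨x, _, rfl⟩ := hv'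
      rw [Finset.mem_disjUnion] at hv
      rcases hv with hv | hv
      · exact hS1U _ hv (hsU x)
      · exact hS2U _ hv (hsU x)
    rw [← Finset.disjUnion_val _ _ hd3]
    exact Finset.nodup _
  have hcount : ∀ v, (univ.filter (fun p => α p = v)).card
      + (univ.filter (fun p => β p = v)).card + (univ.filter (fun p => γ p = v)).card
      + (univ.filter (fun p => δ p = v)).card ≤ 1 := by
    intro v
    rw [ab_count, ab_count, ab_count, ab_count, ← Multiset.count_add, ← Multiset.count_add,
      ← Multiset.count_add, htot]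
    exact Multiset.nodup_iff_count_le_one.1 hnod v
  have hmemT : ∀ v, (v ∈ S1 ∨ v ∈ S2 ∨ ∃ x, s x = v) ↔
      v ∈ ∑ p, ({α p} : Multiset V) + ∑ p, ({β p} : Multiset V) + ∑ p, ({γ p} : Multiset V)
        + ∑ p, ({δ p} : Multiset V) := by
    intro v
    rw [htot, Multiset.mem_add, Multiset.mem_add, Finset.mem_val, Finset.mem_val,
      ab_sum_image s hsinj, Finset.mem_val, Finset.mem_image]
    simp only [Finset.mem_univ, true_and, or_assoc]
  have hmemf : ∀ (f : ζ × Fin j → V) (p : ζ × Fin j), f p ∈ ∑ p, ({f p} : Multiset V) := by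
    intro f p
    rw [Multiset.mem_sum]
    exact ⟨p, Finset.mem_univ p, Multiset.mem_singleton_self _⟩
  have hαT : ∀ p, α p ∈ S1 ∨ α p ∈ S2 ∨ ∃ x, s x = α p := fun p =>
    (hmemT _).2 (by simp only [Multiset.mem_add]; exact Or.inl (Or.inl (Or.inl (hmemf α p))))
  have hβT : ∀ p, β p ∈ S1 ∨ β p ∈ S2 ∨ ∃ x, s x = β p := fun p =>
    (hmemT _).2 (by simp only [Multiset.mem_add]; exact Or.inl (Or.inl (Or.inr (hmemf β p))))
  have hγT : ∀ p, γ p ∈ S1 ∨ γ p ∈ S2 ∨ ∃ x, s x = γ p := fun p =>
    (hmemT _).2 (by simp only [Multiset.mem_add]; exact Or.inl (Or.inr (hmemf γ p)))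
  have hδT : ∀ p, δ p ∈ S1 ∨ δ p ∈ S2 ∨ ∃ x, s x = δ p := fun p =>
    (hmemT _).2 (by simp only [Multiset.mem_add]; exact Or.inr (hmemf δ p))
  have hTU : ∀ v, (v ∈ S1 ∨ v ∈ S2 ∨ ∃ x, s x = v) → v ∈ U ∪ S1 ∪ S2 := by
    intro v hv
    rw [mem_union, mem_union]
    rcases hv with hv | hv | ⟨x, rfl⟩
    · exact Or.inl (Or.inr hv)
    · exact Or.inr hv
    · exact Or.inl (Or.inl (hsU x))
  have hr2T : ∀ v, (v ∈ S1 ∨ v ∈ S2 ∨ ∃ x, s x = v) → 1 ≤ r2 v := by
    intro v hv
    rw [← hr2]
    by_cases hv2 : v ∈ S2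
    · simp only [if_pos hv2]; exact le_refl _
    · simp only [if_neg hv2]
      by_cases hv1 : v ∈ S1
      · rw [if_pos hv1, hcnt0 (Sum.elim z s) v (by
          rintro ⟨i, rfl⟩
          exact hS1U _ hv1 (hcU i))]
        have := hcnt1 y hyinj v
        omega
      · rw [if_neg hv1, hcnt0 y v (fun h' => hv1 ((hmemS1 v).2 h'))]
        have hx : ∃ x, s x = v := by tauto
        obtain ⟨x, rfl⟩ := hx
        rw [if_pos ((hmemC (s x)).2 ⟨Sum.inr x, rfl⟩), hrs x]
        have := hcnt1 _ hinj (s x)
        omega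
  have hpos : ∀ (f : ζ × Fin j → V) (p : ζ × Fin j),
      1 ≤ (univ.filter (fun p' => f p' = f p)).card := by
    intro f p
    rw [Nat.succ_le_iff, Finset.card_pos]
    exact ⟨p, by simp⟩
  have hcap2 : ((U ∪ S1 ∪ S2) ∩ W).card ≤ ((U ∪ S1) ∩ W).card + S2.card := by
    calc ((U ∪ S1 ∪ S2) ∩ W).card ≤ (((U ∪ S1) ∩ W) ∪ S2).card := by
          apply Finset.card_le_card
          intro z hz
          rw [mem_inter, mem_union] at hz
          rw [mem_union, mem_inter]
          tauto
      _ ≤ ((U ∪ S1) ∩ W).card + S2.card := Finset.card_union_le _ _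
  have hq3 : ∑ _p : ζ × Fin j, q0 = Fintype.card ζ * (j * q0) := by
    rw [Finset.sum_const, Finset.card_univ, Fintype.card_prod, Fintype.card_fin, smul_eq_mul,
      mul_assoc]
  -- step 3
  obtain ⟨S3, t1, t2, t3, t4⟩ := s4.multi_link hc β γ (fun _ => q0) (fun _ => hq0)
    (by rw [hq3]; rw [hqsum] at s2; omega)
    (fun p => hTU _ (hβT p)) (fun p => hTU _ (hγT p))
    (fun p hp => by
      have h1 := hcount (β p)
      have h2 := hpos β p
      have h3 := hpos γ p
      rw [← hp] at h3
      omega)
    (by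
      intro v
      have h1 := hcount v
      by_cases hv : v ∈ S1 ∨ v ∈ S2 ∨ ∃ x, s x = v
      · have h2 := hr2T v hv
        omega
      · rw [hmemT, Multiset.mem_add, Multiset.mem_add, Multiset.mem_add, not_or, not_or,
          not_or] at hv
        have h2 := Multiset.count_eq_zero.2 hv.1.1.2
        have h3 := Multiset.count_eq_zero.2 hv.1.2
        rw [← ab_count] at h2 h3
        omega)
  have hS3 : ∀ v ∈ S3, v ∉ U ∧ v ∉ S1 ∧ v ∉ S2 := by
    intro v hv
    have := (Finset.disjoint_left.1 t1) hv
    rw [mem_union, mem_union, not_or, not_or] at this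
    exact ⟨this.1.1, this.1.2, this.2⟩
  have hd123 : Disjoint (S1.disjUnion S2 hd12) S3 := by
    rw [Finset.disjoint_left]
    intro v hv hv'
    rw [Finset.mem_disjUnion] at hv
    rcases hv with hv | hv
    · exact (hS3 v hv').2.1 hv
    · exact (hS3 v hv').2.2 hv
  generalize hr3 : (fun x => if x ∈ S3 then 1 else
    r2 x - (univ.filter (fun i => β i = x)).card - (univ.filter (fun i => γ i = x)).card) = r3 at t4
  have e1 : U ∪ (S1.disjUnion S2 hd12).disjUnion S3 hd123 = U ∪ S1 ∪ S2 ∪ S3 := by
    rw [Finset.disjUnion_eq_union, Finset.disjUnion_eq_union, ← Finset.union_assoc,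
      ← Finset.union_assoc]
  refine ⟨(S1.disjUnion S2 hd12).disjUnion S3 hd123, S3, α, β, γ, δ, r3, ?_, ?_, t3, ?_, ?_, ?_,
    ?_, by rw [e1]; exact t4⟩
  · rw [Finset.disjoint_left]
    intro v hv
    rw [Finset.mem_disjUnion, Finset.mem_disjUnion] at hv
    rcases hv with (hv | hv) | hv
    · exact hS1U v hv
    · exact hS2U v hv
    · exact (hS3 v hv).1
  · -- the pattern
    have hLc : ∀ x, (L x ++ [z x]).IsChain G.Adj := by
      intro x
      have := i1 (Sum.inl x)
      rw [hL, List.cons_append]
      exact this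
    have hMc : ∀ x, (M x ++ [M x |>.head (by rw [hM]; simp)]).IsChain G.Adj := by
      intro x
      have h1 := i1 (Sum.inr x)
      have h2 : M x = y (Sum.inr x) :: (I (Sum.inr x) ++ [s x]) := hM x
      rw [List.isChain_append]
      refine ⟨by rw [h2]; exact h1, List.isChain_singleton _, ?_⟩
      intro u hu v hv
      have h3 : (M x).getLast? = some (s x) := by
        rw [h2, ← List.cons_append, List.getLast?_concat]
      have h4 : M x = y (Sum.inr x) :: (I (Sum.inr x) ++ [s x]) := h2
      rw [h3, Option.mem_some_iff] at hu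
      simp only [h4, List.head_cons, List.head?_cons, Option.mem_some_iff] at hv
      rw [← hu, ← hv]
      exact hyadj (Sum.inr x)
    have hM0 : ∀ x, (M x).head (by rw [hM]; simp) = (M x)[0]'(by rw [hM2]; omega) := by
      intro x
      rw [List.head_eq_getElem]
    refine ⟨?_, ?_, ?_, ?_, ?_, ?_, ?_⟩
    · intro p
      rw [hα, hβ]
      exact (ab_chain _ _ (hLc p.1)).1 _ _
    · intro x i i' hii
      rw [hα, hβ]
      have h1 := (ab_chain _ _ (hLc x)).1 (2 * (i : ℕ) + 1) (by rw [hL2]; omega)
      have e1 : 2 * (i' : ℕ) = 2 * (i : ℕ) + 1 + 1 := by omega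
      simp only [e1]
      exact h1
    · intro x i hi
      rw [hβ]
      exact (ab_chain _ _ (hLc x)).2 _ _ (by rw [hL2]; simp only; omega)
    · intro x i hi
      rw [hα]
      have e1 : 2 * (i : ℕ) = 0 := by omega
      simp only [e1, hL, List.getElem_cons_zero]
      exact hyadj (Sum.inl x)
    · intro p
      rw [hγ, hδ]
      exact ((ab_chain _ _ (hMc p.1)).1 _ _).symm
    · intro x i i' hii
      rw [hγ, hδ]
      have h1 := (ab_chain _ _ (hMc x)).1 (2 * (i : ℕ) + 1) (by rw [hM2]; omega)
      have e1 : 2 * (i' : ℕ) = 2 * (i : ℕ) + 1 + 1 := by omega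
      simp only [e1]
      exact h1
    · intro x i i' hi hi'
      rw [hγ, hδ]
      have h1 := (ab_chain _ _ (hMc x)).2 (2 * (i : ℕ) + 1) (by rw [hM2]; omega)
        (by rw [hM2]; omega)
      have e1 : 2 * (i' : ℕ) = 0 := by omega
      rw [hM0] at h1
      simp only [e1]
      exact h1
  · rw [Finset.disjUnion_val, Finset.disjUnion_val]
    have e1 : ∑ p, ({α p} + {β p} + {γ p} + {δ p} : Multiset V)
        = ∑ p, ({α p} : Multiset V) + ∑ p, ({β p} : Multiset V) + ∑ p, ({γ p} : Multiset V)
          + ∑ p, ({δ p} : Multiset V) := by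
      simp only [Finset.sum_add_distrib]
    rw [e1, htot]
    abel
  · intro p
    have h1 : α p ∉ S3 := fun h' => Finset.disjoint_left.1 t1 h' (hTU _ (hαT p))
    have h2 := hcount (α p)
    have h3 := hpos α p
    have h4 := hr2T _ (hαT p)
    rw [← hr3]
    simp only [if_neg h1]
    omega
  · intro p
    have h1 : δ p ∉ S3 := fun h' => Finset.disjoint_left.1 t1 h' (hTU _ (hδT p))
    have h2 := hcount (δ p)
    have h3 := hpos δ p
    have h4 := hr2T _ (hδT p)
    rw [← hr3]
    simp only [if_neg h1]
    omega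
  · intro v hv hvz hvs
    rw [Finset.mem_disjUnion, Finset.mem_disjUnion, not_or, not_or] at hv
    have hvT : ¬ (v ∈ S1 ∨ v ∈ S2 ∨ ∃ x, s x = v) := by
      rintro (h' | h' | h')
      · exact hv.1.1 h'
      · exact hv.1.2 h'
      · exact hvs h'
    rw [hmemT, Multiset.mem_add, Multiset.mem_add, Multiset.mem_add, not_or, not_or,
      not_or] at hvT
    have h2 := Multiset.count_eq_zero.2 hvT.1.1.2
    have h3 := Multiset.count_eq_zero.2 hvT.1.2
    rw [← ab_count] at h2 h3
    have hvC : ¬ ∃ i, Sum.elim z s i = v := by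
      rintro ⟨i | i, hi⟩
      · exact hvz ⟨i, hi⟩
      · exact hvs ⟨i, hi⟩
    rw [← hr3]
    simp only [if_neg hv.2]
    rw [h2, h3, ← hr2]
    simp only [if_neg hv.1.2, if_neg hv.1.1]
    rw [hcnt0 y v (fun h' => hv.1.1 ((hmemS1 v).2 h')), hcnt0 _ v hvC,
      if_neg (fun h' => hvC ((hmemC v).1 h'))]
    simp

end Pool.Agent.HDT
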