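import Pool.Agent.HDT.Defs

/-!
MP_134267_co, Theorem HDT, row R9 (helper6): switching of the absorbers (pure list algebra).
-/

set_option autoImplicit false

namespace Pool.Agent.HDT

open Finset Pool.Agent.HD

/-- gluing of two chains at a common vertex -/
theorem abs_glue {V : Type} {adj : V → V → Prop} (a c : V) (L R : List V)
    (h1 : (a :: (L ++ [c])).IsChain adj) (h2 : (c :: R).IsChain adj) :
    (a :: (L ++ c :: R)).IsChain adj := by
  have e1 : a :: (L ++ c :: R) = (a :: L) ++ (c :: R) := by simp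
  have e2 : a :: (L ++ [c]) = (a :: L) ++ [c] := by simp
  rw [e2, List.isChain_append] at h1
  rw [e1, List.isChain_append]
  refine ⟨h1.1, h2, ?_⟩
  intro u hu v hv
  refine h1.2.2 u hu v ?_
  simpa using hv

/-- **Row R9** -/
theorem absorb {V ζ : Type} [Fintype ζ] [DecidableEq ζ] {adj : V → V → Prop}
    (hsymm : ∀ u v, adj u v → adj v u) (j : ℕ) (hj : 1 ≤ j) (z : ζ → V)
    (α β γ δ : ζ × Fin j → V) (hpat : Pat adj j z α β γ δ)
    {S₁ S₂ S₃ : Finset V} {a b : ζ × Fin j → V} {q0 : ℕ} {q1 q3 : ζ × Fin j → ℕ}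
    (hL1 : Links adj S₁ a α q1) (hL2 : Links adj S₂ β γ (fun _ => q0))
    (hL3 : Links adj S₃ δ b q3) (Zs : Finset ζ) {S : Finset V}
    (hS : S₁.val + S₂.val + S₃.val + ∑ p, ({α p} + {β p} + {γ p} + {δ p} : Multiset V) +
      ∑ x ∈ Zs, ({z x} : Multiset V) = S.val) :
    Links adj S a b (fun p => q1 p + q0 + q3 p + 4 +
      if p.1 ∈ Zs ∧ (p.2 : ℕ) = 0 then 1 else 0) := by
  obtain ⟨I1, a1, a2, a3⟩ := hL1
  obtain ⟨I2, b1, b2, b3⟩ := hL2
  obtain ⟨I3, c1, c2, c3⟩ := hL3
  -- the permutation `(x, i) ↦ (x, i - 1)` for `x ∈ Zs`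
  obtain ⟨σ, hσ1, hσ2⟩ : ∃ σ : Equiv.Perm (ζ × Fin j),
      (∀ p, p.1 ∉ Zs → σ p = p) ∧
      (∀ p, p.1 ∈ Zs → (σ p).1 = p.1 ∧ (((p.2 : ℕ) = 0 ∧ ((σ p).2 : ℕ) + 1 = j) ∨
        (((σ p).2 : ℕ) + 1 = p.2))) := by
    obtain ⟨j', rfl⟩ : ∃ j', j = j' + 1 := ⟨j - 1, by omega⟩
    refine ⟨Equiv.prodShear (Equiv.refl ζ)
      (fun x => if x ∈ Zs then (finRotate (j' + 1)).symm else Equiv.refl _), ?_, ?_⟩
    · rintro ⟨x, i⟩ hx
      simp only at hx
      simp [Equiv.prodShear, hx]
    · rintro ⟨x, i⟩ hx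
      simp only at hx
      refine ⟨rfl, ?_⟩
      have h1 : ((Equiv.prodShear (Equiv.refl ζ)
        (fun x => if x ∈ Zs then (finRotate (j' + 1)).symm else Equiv.refl _)) (x, i)).2
          = (finRotate (j' + 1)).symm i := by
        simp [Equiv.prodShear, hx]
      rw [h1]
      generalize hk : (finRotate (j' + 1)).symm i = k
      have h2 : i = finRotate (j' + 1) k := by rw [← hk]; simp
      rcases Nat.lt_or_ge (k : ℕ) j' with hk' | hk'
      · right
        rw [h2]
        have := finRotate_of_lt (n := j') (k := (k : ℕ)) hk'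
        have h3 : k = ⟨(k : ℕ), k.2⟩ := rfl
        rw [h3, this]
      · left
        have hk2 : (k : ℕ) = j' := by have := k.2; omega
        have h3 : k = Fin.last j' := Fin.ext hk2
        rw [h2, h3, finRotate_last]
        simp
  refine ⟨fun p => I1 p ++ α p :: ((if p.1 ∈ Zs ∧ (p.2 : ℕ) = 0 then [z p.1] else []) ++
    β (σ p) :: (I2 (σ p) ++ γ (σ p) :: δ p :: I3 p)), ?_, ?_, ?_⟩
  · intro p
    -- the last part
    have t1 : (δ p :: (I3 p ++ [b p])).IsChain adj := c1 p
    have hγδ : adj (γ (σ p)) (δ p) := by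
      by_cases hp : p.1 ∈ Zs
      · obtain ⟨e1, e2⟩ := hσ2 p hp
        have e3 : σ p = (p.1, (σ p).2) := Prod.ext e1 rfl
        rw [e3]
        rcases e2 with ⟨e2, e2'⟩ | e2
        · exact hpat.cz p.1 _ p.2 e2' e2
        · exact hpat.cd' p.1 _ p.2 e2
      · rw [hσ1 p hp]
        exact hpat.cd p
    have t2 : (γ (σ p) :: δ p :: (I3 p ++ [b p])).IsChain adj := by
      rw [List.isChain_cons_cons]
      exact ⟨hγδ, t1⟩
    have t3 : (β (σ p) :: (I2 (σ p) ++ γ (σ p) :: δ p :: (I3 p ++ [b p]))).IsChain adj :=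
      abs_glue _ _ _ _ (b1 (σ p)) t2
    have t4 : (α p :: ((if p.1 ∈ Zs ∧ (p.2 : ℕ) = 0 then [z p.1] else []) ++
        β (σ p) :: (I2 (σ p) ++ γ (σ p) :: δ p :: (I3 p ++ [b p])))).IsChain adj := by
      by_cases hp : p.1 ∈ Zs
      · obtain ⟨e1, e2⟩ := hσ2 p hp
        have e3 : σ p = (p.1, (σ p).2) := Prod.ext e1 rfl
        by_cases hp0 : (p.2 : ℕ) = 0
        · rw [if_pos ⟨hp, hp0⟩]
          rcases e2 with ⟨_, e2'⟩ | e2
          · rw [List.singleton_append, List.isChain_cons_cons, List.isChain_cons_cons]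
            refine ⟨?_, ?_, t3⟩
            · exact hsymm _ _ (hpat.za p.1 p.2 hp0)
            · refine hsymm _ _ ?_
              rw [e3]
              exact hpat.bz p.1 _ e2'
          · omega
        · rw [if_neg (fun h' => hp0 h'.2), List.nil_append, List.isChain_cons_cons]
          refine ⟨?_, t3⟩
          rcases e2 with ⟨e2, _⟩ | e2
          · exact absurd e2 hp0
          · refine hsymm _ _ ?_
            rw [e3]
            exact hpat.ba p.1 _ p.2 e2
      · rw [if_neg (fun h' => hp h'.1), List.nil_append, List.isChain_cons_cons]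
        refine ⟨?_, t3⟩
        rw [hσ1 p hp]
        exact hpat.ab p
    have t5 := abs_glue _ _ _ _ (a1 p) t4
    have e4 : a p :: ((I1 p ++ α p :: ((if p.1 ∈ Zs ∧ (p.2 : ℕ) = 0 then [z p.1] else []) ++
        β (σ p) :: (I2 (σ p) ++ γ (σ p) :: δ p :: I3 p))) ++ [b p])
        = a p :: (I1 p ++ α p :: ((if p.1 ∈ Zs ∧ (p.2 : ℕ) = 0 then [z p.1] else []) ++
        β (σ p) :: (I2 (σ p) ++ γ (σ p) :: δ p :: (I3 p ++ [b p])))) := by
      simp only [List.append_assoc, List.cons_append]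
    rw [e4]
    exact t5
  · intro p
    simp only [List.length_append, List.length_cons, a2, b2, c2]
    split_ifs <;> simp <;> omega
  · have hsplit : ∀ p, ((I1 p ++ α p :: ((if p.1 ∈ Zs ∧ (p.2 : ℕ) = 0 then [z p.1] else []) ++
        β (σ p) :: (I2 (σ p) ++ γ (σ p) :: δ p :: I3 p)) : List V) : Multiset V)
        = ((I1 p : List V) : Multiset V) + ((I3 p : List V) : Multiset V)
          + ({α p} + {δ p} : Multiset V)
          + (((I2 (σ p) : List V) : Multiset V) + ({β (σ p)} + {γ (σ p)} : Multiset V))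
          + (if p.1 ∈ Zs ∧ (p.2 : ℕ) = 0 then ({z p.1} : Multiset V) else 0) := by
      intro p
      have e5 : (((if p.1 ∈ Zs ∧ (p.2 : ℕ) = 0 then [z p.1] else []) : List V) : Multiset V)
          = (if p.1 ∈ Zs ∧ (p.2 : ℕ) = 0 then ({z p.1} : Multiset V) else 0) := by
        split_ifs <;> rfl
      rw [← Multiset.coe_add, ← Multiset.cons_coe, ← Multiset.coe_add, ← Multiset.cons_coe,
        ← Multiset.coe_add, ← Multiset.cons_coe, ← Multiset.cons_coe, e5]
      simp only [← Multiset.singleton_add]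
      abel
    rw [← hS]
    simp only [hsplit, Finset.sum_add_distrib]
    have e6 : ∑ p, ((I2 (σ p) : List V) : Multiset V) = S₂.val := by
      rw [Equiv.sum_comp σ (fun p => ((I2 p : List V) : Multiset V))]
      exact b3
    have e7 : ∑ p, ({β (σ p)} : Multiset V) = ∑ p, ({β p} : Multiset V) :=
      Equiv.sum_comp σ (fun p => ({β p} : Multiset V))
    have e8 : ∑ p, ({γ (σ p)} : Multiset V) = ∑ p, ({γ p} : Multiset V) :=
      Equiv.sum_comp σ (fun p => ({γ p} : Multiset V))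
    have e9 : ∑ p : ζ × Fin j, (if p.1 ∈ Zs ∧ (p.2 : ℕ) = 0 then ({z p.1} : Multiset V) else 0)
        = ∑ x ∈ Zs, ({z x} : Multiset V) := by
      rw [Fintype.sum_prod_type, ← Finset.sum_filter_add_sum_filter_not univ (fun x => x ∈ Zs)]
      have e10 : ∑ x ∈ univ.filter (fun x => x ∉ Zs), ∑ i : Fin j,
          (if (x, i).1 ∈ Zs ∧ ((x, i).2 : ℕ) = 0 then ({z (x, i).1} : Multiset V) else 0) = 0 := by
        refine Finset.sum_eq_zero fun x hx => Finset.sum_eq_zero fun i _ => ?_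
        rw [Finset.mem_filter] at hx
        rw [if_neg]
        exact fun h' => hx.2 h'.1
      rw [e10, add_zero]
      have e11 : univ.filter (fun x => x ∈ Zs) = Zs := by
        ext x; simp
      rw [e11]
      refine Finset.sum_congr rfl fun x hx => ?_
      rw [Finset.sum_eq_single (⟨0, by omega⟩ : Fin j)]
      · rw [if_pos ⟨hx, rfl⟩]
      · intro i _ hi
        rw [if_neg]
        rintro ⟨_, h'⟩
        exact hi (Fin.ext h')
      · intro h'
        exact absurd (Finset.mem_univ _) h'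
    rw [e6, e7, e8, e9, a3, c3]
    abel

end Pool.Agent.HDT
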