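import Pool.Agent.HDT.Defs

/-!
MP_134267_co, Theorem HDT, row R12: disjoint label sets, pads of exact size (helper66).
-/

namespace Pool.Agent.HDT

open Finset Pool.Agent.HD

theorem alloc {ι : Type} [Fintype ι] (K : ℕ) (sz : ι → ℕ) (h : ∑ i, sz i ≤ K) :
    ∃ I : ι → Finset (Fin K), (∀ i, (I i).card = sz i) ∧ ∀ i j, i ≠ j → Disjoint (I i) (I j) := by
  classical
  have hc : Fintype.card (Σ i, Fin (sz i)) ≤ Fintype.card (Fin K) := by
    rw [Fintype.card_sigma]
    simpa using h
  obtain ⟨e⟩ := Function.Embedding.nonempty_of_card_le hc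
  refine ⟨fun i => univ.map ⟨fun x : Fin (sz i) => e ⟨i, x⟩, ?_⟩, ?_, ?_⟩
  · intro x y hxy
    have := e.injective hxy
    simpa using this
  · intro i
    simp
  · intro i j hij
    rw [disjoint_left]
    intro k hk hk'
    simp only [mem_map, mem_univ, true_and] at hk hk'
    obtain ⟨x, rfl⟩ := hk
    obtain ⟨y, hy⟩ := hk'
    have := e.injective hy
    simp only [Sigma.mk.injEq] at this
    exact hij this.1.symm

/-- size of a union of classes from above -/
theorem pads3_upper {V : Type} [Fintype V] [DecidableEq V] {G : SimpleGraph V}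
    [DecidableRel G.Adj] {d K : ℕ} {ε : ℝ} {f : V → Fin K} (hL : Lab G d K ε f)
    (I : Finset (Fin K)) : K * (cls f I).card ≤ 2 * I.card * Fintype.card V := by
  classical
  have h1 : (cls f I).card = ∑ i ∈ I, (cls f {i}).card := by
    rw [cls, card_eq_sum_card_fiberwise (f := f) (t := I)]
    · refine sum_congr rfl fun i hi => ?_
      congr 1
      ext v
      simp only [mem_filter, mem_univ, true_and, cls, mem_singleton]
      constructor
      · rintro ⟨_, h⟩
        exact h
      · intro h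
        exact ⟨h ▸ hi, h⟩
    · intro v hv
      simpa using hv
  rw [h1, mul_sum]
  have h2 : ∀ i ∈ I, K * (cls f {i}).card ≤ 2 * Fintype.card V := by
    intro i _
    have := (hL.size i).2
    exact_mod_cast this
  refine (sum_le_sum h2).trans (le_of_eq ?_)
  rw [sum_const, smul_eq_mul]
  ring

/-- size of a union of classes from below -/
theorem pads3_lower {V : Type} [Fintype V] [DecidableEq V] {G : SimpleGraph V}
    [DecidableRel G.Adj] {d K : ℕ} {ε : ℝ} {f : V → Fin K} (hL : Lab G d K ε f)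
    (I : Finset (Fin K)) : I.card * Fintype.card V ≤ 2 * K * (cls f I).card := by
  classical
  have h1 : (cls f I).card = ∑ i ∈ I, (cls f {i}).card := by
    rw [cls, card_eq_sum_card_fiberwise (f := f) (t := I)]
    · refine sum_congr rfl fun i hi => ?_
      congr 1
      ext v
      simp only [mem_filter, mem_univ, true_and, cls, mem_singleton]
      constructor
      · rintro ⟨_, h⟩
        exact h
      · intro h
        exact ⟨h ▸ hi, h⟩
    · intro v hv
      simpa using hv
  rw [h1, mul_sum]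
  have h2 : ∀ i ∈ I, Fintype.card V ≤ 2 * K * (cls f {i}).card := by
    intro i _
    have := (hL.size i).1
    exact_mod_cast this
  refine le_trans (le_of_eq ?_) (sum_le_sum h2)
  rw [sum_const, smul_eq_mul]

theorem pads3 {V : Type} [Fintype V] [DecidableEq V] {G : SimpleGraph V} [DecidableRel G.Adj]
    {d K : ℕ} {ε : ℝ} {f : V → Fin K} (hL : Lab G d K ε f) (hK : 1 ≤ K) (T : ℕ)
    (Is Ip Ig : Finset (Fin K)) (hsp : Disjoint Is Ip) (hsg : Disjoint Is Ig)
    (hpg : Disjoint Ip Ig) (h1 : 2 * Is.card * Fintype.card V ≤ K * T)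
    (h2 : 2 * Ip.card * Fintype.card V ≤ K * T) (h3 : 6 * (K * T) ≤ Ig.card * Fintype.card V) :
    ∃ A₀ A₁ Tg : Finset V, cls f Is ⊆ A₀ ∧ A₀ ⊆ cls f (Is ∪ Ig) ∧ cls f Ip ⊆ A₁ ∧
      A₁ ⊆ cls f (Ip ∪ Ig) ∧ Tg ⊆ cls f Ig ∧ A₀.card = T ∧ A₁.card = T ∧ Tg.card = T ∧
      Disjoint A₀ A₁ ∧ Disjoint A₀ Tg ∧ Disjoint A₁ Tg := by
  classical
  have hdis : ∀ I J : Finset (Fin K), Disjoint I J → Disjoint (cls f I) (cls f J) := by
    intro I J hIJ
    rw [disjoint_left]
    intro v hv hv'
    simp only [cls, mem_filter, mem_univ, true_and] at hv hv'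
    exact (disjoint_left.1 hIJ) hv hv'
  have hun : ∀ I J : Finset (Fin K), cls f (I ∪ J) = cls f I ∪ cls f J := by
    intro I J
    ext v
    simp [cls]
  have hs : (cls f Is).card ≤ T := by
    have := pads3_upper hL Is
    exact Nat.le_of_mul_le_mul_left (this.trans h1) (by omega)
  have hp : (cls f Ip).card ≤ T := by
    have := pads3_upper hL Ip
    exact Nat.le_of_mul_le_mul_left (this.trans h2) (by omega)
  have hg : 3 * T ≤ (cls f Ig).card := by
    have := pads3_lower hL Ig
    have h4 : 6 * (K * T) ≤ 2 * K * (cls f Ig).card := h3.trans this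
    have h5 : K * (3 * T) ≤ K * (cls f Ig).card := by linarith
    exact Nat.le_of_mul_le_mul_left h5 (by omega)
  -- three disjoint subsets of the filler
  obtain ⟨X, hX, hXc⟩ := exists_subset_card_eq (s := cls f Ig) (n := T - (cls f Is).card)
    (by omega)
  obtain ⟨Y, hY, hYc⟩ := exists_subset_card_eq (s := cls f Ig \ X) (n := T - (cls f Ip).card)
    (by rw [card_sdiff_of_subset hX]; omega)
  obtain ⟨Z, hZ, hZc⟩ := exists_subset_card_eq (s := (cls f Ig \ X) \ Y) (n := T)
    (by rw [card_sdiff_of_subset hY, card_sdiff_of_subset hX]; omega)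
  have hYg : Y ⊆ cls f Ig := hY.trans sdiff_subset
  have hZg : Z ⊆ cls f Ig := (hZ.trans sdiff_subset).trans sdiff_subset
  have hXY : Disjoint X Y := by
    rw [disjoint_left]
    intro v hv hv'
    exact (mem_sdiff.1 (hY hv')).2 hv
  have hXZ : Disjoint X Z := by
    rw [disjoint_left]
    intro v hv hv'
    exact (mem_sdiff.1 (mem_sdiff.1 (hZ hv')).1).2 hv
  have hYZ : Disjoint Y Z := by
    rw [disjoint_left]
    intro v hv hv'
    exact (mem_sdiff.1 (hZ hv')).2 hv
  have dsg := hdis _ _ hsg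
  have dpg := hdis _ _ hpg
  have dsp := hdis _ _ hsp
  have dsX : Disjoint (cls f Is) X := dsg.mono_right hX
  have dsY : Disjoint (cls f Is) Y := dsg.mono_right hYg
  have dsZ : Disjoint (cls f Is) Z := dsg.mono_right hZg
  have dpX : Disjoint (cls f Ip) X := dpg.mono_right hX
  have dpY : Disjoint (cls f Ip) Y := dpg.mono_right hYg
  have dpZ : Disjoint (cls f Ip) Z := dpg.mono_right hZg
  refine ⟨cls f Is ∪ X, cls f Ip ∪ Y, Z, subset_union_left, ?_, subset_union_left, ?_, hZg,
    ?_, ?_, hZc, ?_, ?_, ?_⟩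
  · rw [hun]
    exact union_subset_union_right hX
  · rw [hun]
    exact union_subset_union_right hYg
  · rw [card_union_of_disjoint dsX, hXc]
    omega
  · rw [card_union_of_disjoint dpY, hYc]
    omega
  · rw [disjoint_union_left, disjoint_union_right, disjoint_union_right]
    exact ⟨⟨dsp, dsY⟩, dpX.symm, hXY⟩
  · rw [disjoint_union_left]
    exact ⟨dsZ, hXZ⟩
  · rw [disjoint_union_left]
    exact ⟨dpZ, hYZ⟩

end Pool.Agent.HDT
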