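import Pool.Agent.HDT.ParamsDef
import Pool.Agent.HDT.Level

/-!
MP_134267_co, Theorem HDT, row R14 part 2 (helper88): the allocation of the labels, the numbers of
requests of the classes.
-/

set_option autoImplicit false

namespace Pool.Agent.HDT

open Finset Pool.Agent.HD

/-- numbers of labels of the level `i` -/
def szL (K k N u : ℕ) (i : ℕ) : Fin 7 → ℕ :=
  if i = 0 then ![K / 10, K / 10, 0, K / (8 * k), K / (8 * k), 8 * K / k + 1, k * (100 ^ N * u)]
  else ![k * (100 * 100 ^ (N - i) * u), k * (100 * 100 ^ (N - i) * u),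
    40 * (k * (100 * 100 ^ (N - i) * u)), 4 * (100 * 100 ^ (N - i) * u),
    4 * (100 * 100 ^ (N - i) * u), 120 * (100 * 100 ^ (N - i) * u), k * (100 ^ (N - i) * u)]

theorem sum_pow_100 (N : ℕ) : ∑ i ∈ range N, 100 ^ (N - (i + 1)) * 99 + 1 = 100 ^ N := by
  induction N with
  | zero => simp
  | succ N ih =>
    rw [sum_range_succ']
    have e : ∑ k ∈ range N, 100 ^ (N + 1 - (k + 1 + 1)) * 99
        = ∑ k ∈ range N, 100 ^ (N - (k + 1)) * 99 := by
      refine sum_congr rfl fun k _ => ?_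
      congr 2
      omega
    rw [e]
    have e2 : 100 ^ (N + 1 - (0 + 1)) = 100 ^ N := by
      congr 1
    rw [e2, pow_succ]
    omega

theorem szL_sum {n d t : ℕ} {lam : ℝ} {h κ B K Q N μ u : ℕ}
    (P : ParamsT n d t lam h κ B K Q N μ u) :
    ∑ i ∈ range (N + 1), ∑ a, szL K (2 * κ + 1) N u i a ≤ K / 4 := by
  have hk := P.hk
  have hKk := P.hKk
  have ha := P.hKμ1
  have hN1 := P.hN1
  have hN := P.hN
  set k := 2 * κ + 1 with hkk
  have hkbig : 10 ^ 10 ≤ k := by
    have : 1 ≤ 2 * h + 2 := by omega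
    calc 10 ^ 10 = 10 ^ 10 * 1 := by ring
      _ ≤ _ := Nat.mul_le_mul_left _ this
      _ ≤ k := hk
  have hpow : 100 ^ N = 100 * 100 ^ (N - 1) := by
    rw [← pow_succ']
    congr 1
    omega
  -- `1600000 k 100^N u ≤ K`
  have hX : 1600000 * (k * (100 ^ N * u)) ≤ K := by
    have e1 : 1600000 * (k * (100 ^ N * u)) * μ ≤ K * μ := by
      calc 1600000 * (k * (100 ^ N * u)) * μ = 1600 * u * (k * 100 ^ (N - 1) * μ * 10 ^ 5) := by
            rw [hpow]; ring
        _ ≤ 1600 * u * n := Nat.mul_le_mul_left _ hN1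
        _ ≤ K * μ := ha
    exact Nat.le_of_mul_le_mul_right e1 P.hμ1
  set X := k * (100 ^ N * u) with hXX
  -- the levels `≥ 1`
  have hlev : ∀ i ∈ range N, ∑ a, szL K k N u (i + 1) a ≤ 4400 * (k * u) * 100 ^ (N - (i + 1)) := by
    intro i _
    unfold szL
    rw [if_neg (Nat.succ_ne_zero i)]
    rw [Fin.sum_univ_seven]
    simp only [Matrix.cons_val]
    set c := 100 ^ (N - (i + 1)) with hc
    have e1 : 128 * (100 * c * u) ≤ k * (c * u) := by
      calc 128 * (100 * c * u) = 12800 * (c * u) := by ring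
        _ ≤ k * (c * u) := Nat.mul_le_mul_right _ (by omega)
    have e2 : k * (100 * c * u) = 100 * (k * (c * u)) := by ring
    have e3 : 4400 * (k * u) * c = 4400 * (k * (c * u)) := by ring
    omega
  have h1 : ∑ i ∈ range N, ∑ a, szL K k N u (i + 1) a ≤ 4500 * X := by
    refine (sum_le_sum hlev).trans ?_
    rw [← mul_sum]
    have e1 := sum_pow_100 N
    rw [← sum_mul] at e1
    have e2 : ∑ i ∈ range N, 100 ^ (N - (i + 1)) * 99 ≤ 100 ^ N := by
      rw [← sum_mul]
      omega
    rw [← sum_mul] at e2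
    set Sg := ∑ i ∈ range N, 100 ^ (N - (i + 1)) with hSg
    have e3 : 99 * (4400 * (k * u) * Sg) ≤ 99 * (4500 * X) := by
      calc 99 * (4400 * (k * u) * Sg) = 4400 * (k * u) * (Sg * 99) := by ring
        _ ≤ 4400 * (k * u) * 100 ^ N := Nat.mul_le_mul_left _ e2
        _ = 4400 * X := by rw [hXX]; ring
        _ ≤ 99 * (4500 * X) := by omega
    omega
  rw [sum_range_succ']
  have h0 : ∑ a, szL K k N u 0 a = K / 10 + K / 10 + 0 + K / (8 * k) + K / (8 * k)
      + (8 * K / k + 1) + X := by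
    unfold szL
    rw [if_pos rfl, Fin.sum_univ_seven]
    simp only [Matrix.cons_val]
    rw [hXX]
  rw [h0]
  have hk8 : 8000 ≤ k := le_trans (by norm_num) hkbig
  clear hkk h0 hlev hpow hXX
  clear_value X k
  clear hk hkbig hN1 ha
  have e1 : K / (8 * k) ≤ K / 1000 := Nat.div_le_div_left (by omega) (by norm_num)
  have e2 : 8 * K / k ≤ K / 1000 := by
    have : 8 * K / k ≤ 8 * K / 8000 := Nat.div_le_div_left (by omega) (by norm_num)
    have e3 : 8 * K / 8000 = K / 1000 := by
      rw [show (8000 : ℕ) = 8 * 1000 by norm_num, Nat.mul_div_mul_left _ _ (by norm_num)]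
    omega
  have e4 : 4501 * X ≤ K / 300 := by
    rw [Nat.le_div_iff_mul_le (by norm_num)]
    omega
  have e5 : 10 ≤ K / 1000 := by
    rw [Nat.le_div_iff_mul_le (by norm_num)]
    omega
  omega

/-- the disjoint sets of labels -/
theorem core_alloc {n d t : ℕ} {lam : ℝ} {h κ B K Q N μ u : ℕ}
    (P : ParamsT n d t lam h κ B K Q N μ u) :
    ∃ (St Wb : Finset (Fin K)) (L : ℕ → Fin 7 → Finset (Fin K)),
      St.card = K / 5 + 1 ∧ Wb.card = K / 5 + 1 ∧
      (∀ i ≤ N, ∀ a, (L i a).card = szL K (2 * κ + 1) N u i a) ∧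
      Disjoint St Wb ∧ (∀ i a, Disjoint St (L i a)) ∧ (∀ i a, Disjoint Wb (L i a)) ∧
      (∀ i a i' a', (i, a) ≠ (i', a') → Disjoint (L i a) (L i' a')) := by
  have hKk := P.hKk
  have hs := szL_sum P
  obtain ⟨I, hI1, hI2⟩ := alloc (ι := Fin 2 ⊕ (Fin (N + 1) × Fin 7)) K
    (Sum.elim (fun _ => K / 5 + 1) (fun p => szL K (2 * κ + 1) N u p.1 p.2)) (by
      rw [Fintype.sum_sum_type]
      simp only [Sum.elim_inl, Sum.elim_inr, sum_const, card_univ, Fintype.card_fin, smul_eq_mul]
      rw [Fintype.sum_prod_type, Fin.sum_univ_eq_sum_range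
        (fun i => ∑ a, szL K (2 * κ + 1) N u i a)]
      omega)
  refine ⟨I (Sum.inl 0), I (Sum.inl 1), fun i a => if hi : i < N + 1 then I (Sum.inr (⟨i, hi⟩, a))
    else ∅, ?_, ?_, ?_, ?_, ?_, ?_, ?_⟩
  · rw [hI1]
    rfl
  · rw [hI1]
    rfl
  · intro i hi a
    simp only [dif_pos (Nat.lt_succ_of_le hi)]
    rw [hI1]
    rfl
  · exact hI2 _ _ (by simp)
  · intro i a
    simp only
    split_ifs with hi
    · exact hI2 _ _ (by simp)
    · exact disjoint_empty_right _
  · intro i a
    simp only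
    split_ifs with hi
    · exact hI2 _ _ (by simp)
    · exact disjoint_empty_right _
  · intro i a i' a' hne
    simp only
    split_ifs with hi hi'
    · refine hI2 _ _ ?_
      intro he
      have he2 := Sum.inr_injective he
      rw [Prod.mk.injEq, Fin.mk.injEq] at he2
      exact hne (by rw [he2.1, he2.2])
    · exact disjoint_empty_right _
    · exact disjoint_empty_left _
    · exact disjoint_empty_right _

end Pool.Agent.HDT
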