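import Pool.Agent.HDT.Defs

/-!
MP_134267_co, Theorem HDT, row R7 (helper28): the stages one after the other.
-/

namespace Pool.Agent.HDT

open Finset Pool.Agent.HD

theorem iterate_union {V : Type} [DecidableEq V] {A B : Finset V} (h : Disjoint A B) :
    (A ∪ B).val = A.val + B.val := by
  rw [← Finset.disjUnion_eq_union A B h]
  rfl

theorem iterate_sdiff {V : Type} [DecidableEq V] {A S : Finset V} (h : S ⊆ A) :
    (A \ S).val + S.val = A.val := by
  rw [← iterate_union Finset.sdiff_disjoint, Finset.sdiff_union_of_subset h]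

theorem iterate {V : Type} [DecidableEq V] {adj : V → V → Prop} (N : ℕ) (m : ℕ → ℕ)
    (X Wr : ℕ → Finset V) (ℓ len : ℕ) (σ τ : ∀ i, Fin (m i) → V)
    (hnd : (∑ i ∈ range (N + 1), ((X i).val + (Wr i).val)).Nodup)
    (h0 : ∃ S' ⊆ Wr 0, S'.card = m 0 * ℓ ∧ Lk adj (X 0 ∪ S') (σ 0) (τ 0) (fun _ => len))
    (hs : ∀ i < N, ∀ S ⊆ Wr i, S.card = m i * ℓ → ∃ S' ⊆ Wr (i + 1), S'.card = m (i + 1) * ℓ ∧
      Lk adj (X (i + 1) ∪ (Wr i \ S) ∪ S') (σ (i + 1)) (τ (i + 1)) (fun _ => len)) :
    ∃ S' ⊆ Wr N, S'.card = m N * ℓ ∧ ∃ S : Finset V,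
      S.val = ∑ i ∈ range (N + 1), (X i).val + ∑ i ∈ range N, (Wr i).val + S'.val ∧
      Lk adj S (fun p : Σ i : Fin (N + 1), Fin (m i) => σ p.1 p.2) (fun p => τ p.1 p.2)
        (fun _ => len) := by
  classical
  -- the sequence of the used parts of the reserves
  have key : ∀ k ≤ N, ∃ Sq Y : ℕ → Finset V, (∀ i ≤ k, Sq i ⊆ Wr i ∧ (Sq i).card = m i * ℓ ∧
      Lk adj (Y i) (σ i) (τ i) (fun _ => len)) ∧ Y 0 = X 0 ∪ Sq 0 ∧
      ∀ i < k, Y (i + 1) = X (i + 1) ∪ (Wr i \ Sq i) ∪ Sq (i + 1) := by
    intro k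
    induction k with
    | zero =>
      intro _
      obtain ⟨S', h1, h2, h3⟩ := h0
      refine ⟨fun _ => S', fun _ => X 0 ∪ S', ?_, rfl, fun i hi => absurd hi (Nat.not_lt_zero i)⟩
      intro i hi
      obtain rfl : i = 0 := Nat.le_zero.mp hi
      exact ⟨h1, h2, h3⟩
    | succ k ih =>
      intro hk
      obtain ⟨Sq, Y, ha, hb, hc⟩ := ih (by omega)
      obtain ⟨h1, h2, -⟩ := ha k le_rfl
      obtain ⟨S', g1, g2, g3⟩ := hs k (by omega) (Sq k) h1 h2
      refine ⟨Function.update Sq (k + 1) S',
        Function.update Y (k + 1) (X (k + 1) ∪ (Wr k \ Sq k) ∪ S'), ?_, ?_, ?_⟩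
      · intro i hi
        by_cases hik : i = k + 1
        · subst hik
          rw [Function.update_self, Function.update_self]
          exact ⟨g1, g2, g3⟩
        · rw [Function.update_of_ne hik, Function.update_of_ne hik]
          exact ha i (by omega)
      · rw [Function.update_of_ne (by omega), Function.update_of_ne (by omega)]
        exact hb
      · intro i hi
        by_cases hik : i = k
        · subst hik
          rw [Function.update_self, Function.update_self, Function.update_of_ne (by omega)]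
        · rw [Function.update_of_ne (by omega), Function.update_of_ne (by omega),
            Function.update_of_ne (by omega)]
          exact hc i (by omega)
  obtain ⟨Sq, Y, ha, hb, hc⟩ := key N le_rfl
  -- disjointness
  have hcount : ∀ v, ∑ i ∈ range (N + 1), (X i).val.count v +
      ∑ i ∈ range (N + 1), (Wr i).val.count v ≤ 1 := by
    intro v
    have h1 := Multiset.nodup_iff_count_le_one.mp hnd v
    rw [Multiset.count_sum'] at h1
    simp only [Multiset.count_add] at h1
    rw [Finset.sum_add_distrib] at h1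
    exact h1
  have hone : ∀ (A : Finset V) (v : V), v ∈ A → 1 ≤ A.val.count v := fun A v hv =>
    Multiset.one_le_count_iff_mem.mpr hv
  have hXW : ∀ i ≤ N, ∀ j ≤ N, Disjoint (X i) (Wr j) := by
    intro i hi j hj
    rw [Finset.disjoint_left]
    intro v hv hv'
    have h1 : (X i).val.count v ≤ ∑ i ∈ range (N + 1), (X i).val.count v :=
      Finset.single_le_sum (f := fun i => (X i).val.count v) (fun _ _ => Nat.zero_le _)
        (mem_range.mpr (by omega))
    have h2 : (Wr j).val.count v ≤ ∑ i ∈ range (N + 1), (Wr i).val.count v :=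
      Finset.single_le_sum (f := fun i => (Wr i).val.count v) (fun _ _ => Nat.zero_le _)
        (mem_range.mpr (by omega))
    have h3 := hcount v
    have h4 := hone _ v hv
    have h5 := hone _ v hv'
    omega
  have hWW : ∀ i ≤ N, ∀ j ≤ N, i ≠ j → Disjoint (Wr i) (Wr j) := by
    intro i hi j hj hij
    rw [Finset.disjoint_left]
    intro v hv hv'
    have h1 : ∑ k ∈ ({i, j} : Finset ℕ), (Wr k).val.count v ≤
        ∑ i ∈ range (N + 1), (Wr i).val.count v := by
      refine Finset.sum_le_sum_of_subset ?_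
      intro k hk
      rw [mem_insert, mem_singleton] at hk
      rw [mem_range]
      omega
    rw [Finset.sum_pair hij] at h1
    have h3 := hcount v
    have h4 := hone _ v hv
    have h5 := hone _ v hv'
    omega
  -- the multisets
  have hY0 : (Y 0).val = (X 0).val + (Sq 0).val := by
    rw [hb, iterate_union]
    exact Finset.disjoint_of_subset_right (ha 0 (Nat.zero_le _)).1 (hXW 0 (Nat.zero_le _) 0 (Nat.zero_le _))
  have hYs : ∀ i < N, (Y (i + 1)).val = (X (i + 1)).val + (Wr i \ Sq i).val + (Sq (i + 1)).val := by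
    intro i hi
    have hsub := (ha (i + 1) (by omega)).1
    rw [hc i hi, iterate_union, iterate_union]
    · exact Finset.disjoint_of_subset_right Finset.sdiff_subset (hXW (i + 1) (by omega) i (by omega))
    · rw [Finset.disjoint_union_left]
      exact ⟨Finset.disjoint_of_subset_right hsub (hXW (i + 1) (by omega) (i + 1) (by omega)),
        Finset.disjoint_of_subset_left Finset.sdiff_subset
          (Finset.disjoint_of_subset_right hsub (hWW i (by omega) (i + 1) (by omega) (by omega)))⟩
  have hsum : ∀ k ≤ N, ∑ i ∈ range (k + 1), (Y i).val =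
      ∑ i ∈ range (k + 1), (X i).val + ∑ i ∈ range k, (Wr i).val + (Sq k).val := by
    intro k
    induction k with
    | zero =>
      intro _
      rw [Finset.sum_range_one, Finset.sum_range_one, Finset.sum_range_zero, add_zero, hY0]
    | succ k ih =>
      intro hk
      rw [Finset.sum_range_succ (fun i => (Y i).val) (k + 1), ih (by omega), hYs k (by omega),
        Finset.sum_range_succ (fun i => (X i).val) (k + 1),
        Finset.sum_range_succ (fun i => (Wr i).val) k, ← iterate_sdiff (ha k (by omega)).1]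
      abel
  -- the union of all stages
  have hnd' : (∑ i ∈ range (N + 1), (Y i).val).Nodup := by
    rw [hsum N le_rfl]
    refine Multiset.nodup_of_le ?_ hnd
    rw [Finset.sum_add_distrib, Finset.sum_range_succ (fun i => (Wr i).val) N, add_assoc]
    exact add_le_add le_rfl (add_le_add le_rfl (Finset.val_le_iff.mpr (ha N le_rfl).1))
  refine ⟨Sq N, (ha N le_rfl).1, (ha N le_rfl).2.1,
    ⟨∑ i ∈ range (N + 1), (Y i).val, hnd'⟩, hsum N le_rfl, ?_⟩
  have hLk : ∀ i : Fin (N + 1), Lk adj (Y i) (σ i) (τ i) (fun _ => len) := fun i =>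
    (ha i (by omega)).2.2
  choose P hP1 hP2 hP3 hP4 hP5 using hLk
  refine ⟨fun p => P p.1 p.2, fun p => hP1 p.1 p.2, fun p => hP2 p.1 p.2, fun p => hP3 p.1 p.2,
    fun p => hP4 p.1 p.2, ?_⟩
  show ∑ p : (Σ i : Fin (N + 1), Fin (m i)), ((P p.1 p.2 : List V) : Multiset V) =
    ∑ i ∈ range (N + 1), (Y i).val
  rw [Fintype.sum_sigma, Finset.sum_range]
  exact Finset.sum_congr rfl (fun i _ => hP5 i)

end Pool.Agent.HDT
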