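import Pool.Agent.HDT.AbsBuild
import Pool.Agent.HDT.Absorb
import Pool.Agent.HD.NetBuild

/-! MP_134267_co, Theorem HDT, row R10 (helper52): everything that is built inside the large
reserve `W`. -/

set_option autoImplicit false

namespace Pool.Agent.HDT

open Finset Pool.Agent.HD

/-! ### auxiliary lemmas -/

/-- links with all end points different, variable lengths -/
theorem r10_link {V κ : Type} [DecidableEq V] [Fintype κ] {G : SimpleGraph V}
    {W : Finset V} {m h K : ℕ} (hc : FPCtx G W m h K) {U : Finset V} {r : V → ℕ}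
    (hs : FPState G W m U r) (a b : κ → V) (q : κ → ℕ) (hq : ∀ i, 2 * h + 2 ≤ q i)
    (hcap : (U ∩ W).card + ∑ i, q i + 2 ^ (h + 2) ≤ K)
    (ha : ∀ i, a i ∈ U) (hb : ∀ i, b i ∈ U) (hinj : Function.Injective (Sum.elim a b))
    (hra : ∀ i, 1 ≤ r (a i)) (hrb : ∀ i, 1 ≤ r (b i)) :
    ∃ S : Finset V, Disjoint S U ∧ S.card = ∑ i, q i ∧ Links G.Adj S a b q := by
  obtain ⟨S, h1, h2, h3, -⟩ := FPState.multi_link hc hs a b q hq hcap ha hb
    (fun i hi => by
      have := @hinj (Sum.inl i) (Sum.inr i) hi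
      exact absurd this (by simp))
    (fun v => by
      have h5 := nb_count_le_one a b hinj v
      by_cases hv1 : ∃ i, a i = v
      · obtain ⟨i, rfl⟩ := hv1
        exact h5.trans (hra i)
      · by_cases hv2 : ∃ i, b i = v
        · obtain ⟨i, rfl⟩ := hv2
          exact h5.trans (hrb i)
        · rw [nb_count_zero (fun x hx => hv1 ⟨x, hx⟩), nb_count_zero (fun x hx => hv2 ⟨x, hx⟩)]
          exact Nat.zero_le _)
  exact ⟨S, h1, h2, h3⟩

/-- a linkage indexed by a sum splits -/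
theorem r10_split {V ι κ : Type} [Fintype ι] [Fintype κ] {adj : V → V → Prop} {S : Finset V}
    {a b : ι ⊕ κ → V} {q : ι ⊕ κ → ℕ} (h : Links adj S a b q) :
    ∃ S₁ S₂ : Finset V, S₁.val + S₂.val = S.val ∧
      Links adj S₁ (fun i => a (Sum.inl i)) (fun i => b (Sum.inl i)) (fun i => q (Sum.inl i)) ∧
      Links adj S₂ (fun i => a (Sum.inr i)) (fun i => b (Sum.inr i)) (fun i => q (Sum.inr i)) := by
  obtain ⟨I, h1, h2, h3⟩ := h
  rw [Fintype.sum_sum_type] at h3
  have n : (∑ i, ((I (Sum.inl i) : List V) : Multiset V) +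
      ∑ i, ((I (Sum.inr i) : List V) : Multiset V)).Nodup := by
    rw [h3]
    exact S.nodup
  rw [Multiset.nodup_add] at n
  exact ⟨⟨_, n.1⟩, ⟨_, n.2.1⟩, h3, ⟨fun i => I (Sum.inl i), fun i => h1 _, fun i => h2 _, rfl⟩,
    ⟨fun i => I (Sum.inr i), fun i => h1 _, fun i => h2 _, rfl⟩⟩

/-- the number of vertices of a linkage -/
theorem r10_card {V ι : Type} [Fintype ι] {adj : V → V → Prop} {S : Finset V}
    {a b : ι → V} {q : ι → ℕ} (h : Links adj S a b q) : S.card = ∑ i, q i := by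
  obtain ⟨I, -, h2, h3⟩ := h
  rw [← Finset.card_val, ← h3, Multiset.card_sum]
  exact Finset.sum_congr rfl fun i _ => by rw [Multiset.coe_card, h2 i]

/-- four families which form a set together have different values -/
theorem r10_nodup {V ι : Type} [Fintype ι] {α β γ δ : ι → V} {M : Multiset V}
    (h : (∑ p, ({α p} + {β p} + {γ p} + {δ p} : Multiset V) + M).Nodup) :
    Function.Injective (Sum.elim α δ) := by
  have e : ∑ p, ({α p} + {β p} + {γ p} + {δ p} : Multiset V) =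
      (∑ p, ({α p} : Multiset V) + ∑ p, ({δ p} : Multiset V)) +
        (∑ p, ({β p} : Multiset V) + ∑ p, ({γ p} : Multiset V)) := by
    simp only [Finset.sum_add_distrib]
    abel
  rw [e] at h
  have h1 : (∑ p, ({α p} : Multiset V) + ∑ p, ({δ p} : Multiset V)).Nodup := by
    refine Multiset.nodup_of_le ?_ h
    rw [add_assoc]
    exact Multiset.le_add_right _ _
  have h2 : (∑ p, ({α p} : Multiset V) + ∑ p, ({δ p} : Multiset V)) =
      (univ : Finset (ι ⊕ ι)).val.map (Sum.elim α δ) := by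
    have h3 : ∑ x : ι ⊕ ι, ({Sum.elim α δ x} : Multiset V) =
        (univ : Finset (ι ⊕ ι)).val.map (Sum.elim α δ) := by
      have h := Multiset.sum_map_singleton ((univ : Finset (ι ⊕ ι)).val.map (Sum.elim α δ))
      rw [Multiset.map_map] at h
      exact h
    rw [← h3, Fintype.sum_sum_type]
    rfl
  rw [h2] at h1
  intro x y hxy
  exact Multiset.inj_on_of_nodup_map h1 x (Finset.mem_univ x) y (Finset.mem_univ y) hxy

/-- rearranging the end points -/
theorem r10_inj {V P R : Type} {a b α δ : P → V} {y σ τ y' : R → V}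
    (h : Function.Injective (Sum.elim (Sum.elim α δ) (Sum.elim (Sum.elim a b)
      (Sum.elim (Sum.elim y σ) (Sum.elim τ y'))))) :
    Function.Injective (Sum.elim (Sum.elim a (Sum.elim δ (Sum.elim y τ)))
      (Sum.elim α (Sum.elim b (Sum.elim σ y')))) := by
  let φ : (P ⊕ (P ⊕ (R ⊕ R))) ⊕ (P ⊕ (P ⊕ (R ⊕ R))) →
      (P ⊕ P) ⊕ ((P ⊕ P) ⊕ ((R ⊕ R) ⊕ (R ⊕ R))) := fun x => match x with
    | Sum.inl (Sum.inl p) => Sum.inr (Sum.inl (Sum.inl p))
    | Sum.inl (Sum.inr (Sum.inl p)) => Sum.inl (Sum.inr p)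
    | Sum.inl (Sum.inr (Sum.inr (Sum.inl r))) => Sum.inr (Sum.inr (Sum.inl (Sum.inl r)))
    | Sum.inl (Sum.inr (Sum.inr (Sum.inr r))) => Sum.inr (Sum.inr (Sum.inr (Sum.inl r)))
    | Sum.inr (Sum.inl p) => Sum.inl (Sum.inl p)
    | Sum.inr (Sum.inr (Sum.inl p)) => Sum.inr (Sum.inl (Sum.inr p))
    | Sum.inr (Sum.inr (Sum.inr (Sum.inl r))) => Sum.inr (Sum.inr (Sum.inl (Sum.inr r)))
    | Sum.inr (Sum.inr (Sum.inr (Sum.inr r))) => Sum.inr (Sum.inr (Sum.inr (Sum.inr r)))
  let ψ : (P ⊕ P) ⊕ ((P ⊕ P) ⊕ ((R ⊕ R) ⊕ (R ⊕ R))) →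
      (P ⊕ (P ⊕ (R ⊕ R))) ⊕ (P ⊕ (P ⊕ (R ⊕ R))) := fun x => match x with
    | Sum.inr (Sum.inl (Sum.inl p)) => Sum.inl (Sum.inl p)
    | Sum.inl (Sum.inr p) => Sum.inl (Sum.inr (Sum.inl p))
    | Sum.inr (Sum.inr (Sum.inl (Sum.inl r))) => Sum.inl (Sum.inr (Sum.inr (Sum.inl r)))
    | Sum.inr (Sum.inr (Sum.inr (Sum.inl r))) => Sum.inl (Sum.inr (Sum.inr (Sum.inr r)))
    | Sum.inl (Sum.inl p) => Sum.inr (Sum.inl p)
    | Sum.inr (Sum.inl (Sum.inr p)) => Sum.inr (Sum.inr (Sum.inl p))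
    | Sum.inr (Sum.inr (Sum.inl (Sum.inr r))) => Sum.inr (Sum.inr (Sum.inr (Sum.inl r)))
    | Sum.inr (Sum.inr (Sum.inr (Sum.inr r))) => Sum.inr (Sum.inr (Sum.inr (Sum.inr r)))
  have h1 : Function.LeftInverse ψ φ := by
    rintro ((p | p | p | p) | (p | p | p | p)) <;> rfl
  have h2 : Sum.elim (Sum.elim a (Sum.elim δ (Sum.elim y τ)))
      (Sum.elim α (Sum.elim b (Sum.elim σ y'))) =
      Sum.elim (Sum.elim α δ) (Sum.elim (Sum.elim a b)
      (Sum.elim (Sum.elim y σ) (Sum.elim τ y'))) ∘ φ := by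
    funext x
    rcases x with (p | p | p | p) | (p | p | p | p) <;> rfl
  rw [h2]
  exact h.comp h1.injective

/-! ### the row -/

theorem reserve2 {V ζ ρ : Type} [Fintype V] [DecidableEq V] [Fintype ζ] [DecidableEq ζ]
    [Fintype ρ] [DecidableEq ρ] {G : SimpleGraph V} {W : Finset V} {m h K : ℕ}
    (hc : FPCtx G W m h K)
    (hs : FPState G W m (univ \ W) (fun x => if x ∈ W then 2 else 3))
    (j ℓ q1 : ℕ) (hj : h + 2 ≤ j) (hℓ : 2 * h + 2 ≤ ℓ) (hq1 : 2 * h + 2 ≤ q1)
    (z s : ζ → V) (a b : ζ × Fin j → V) (y σ τ y' : ρ → V) (qa : ρ → ℕ)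
    (hqa : ∀ r, 2 * h + 2 ≤ qa r)
    (hinj : Function.Injective (Sum.elim (Sum.elim z s) (Sum.elim (Sum.elim a b)
      (Sum.elim (Sum.elim y σ) (Sum.elim τ y')))))
    (hW : ∀ x, Sum.elim (Sum.elim z s) (Sum.elim (Sum.elim a b)
      (Sum.elim (Sum.elim y σ) (Sum.elim τ y'))) x ∉ W)
    (hcap : Fintype.card ζ * (j * (4 + ℓ + q1 + ℓ)) + ∑ r, (qa r + ℓ) + 2 ^ (h + 2) ≤ K) :
    ∃ SA S₁ S₂ : Finset V, (∀ x, s x ∈ SA) ∧ (∀ v ∈ SA, v ∈ W ∨ ∃ x, v = s x) ∧ S₁ ⊆ W ∧
      S₂ ⊆ W ∧ Disjoint SA S₁ ∧ Disjoint SA S₂ ∧ Disjoint S₁ S₂ ∧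
      SA.card = Fintype.card ζ * (j * (4 + ℓ + q1 + ℓ)) ∧
      S₁.card = ∑ r, qa r ∧ S₂.card = Fintype.card ρ * ℓ ∧
      (∀ (Zs : Finset ζ) (S : Finset V), S.val = SA.val + ∑ x ∈ Zs, ({z x} : Multiset V) →
        Links G.Adj S a b (fun p => q1 + ℓ + ℓ + 4 +
          if p.1 ∈ Zs ∧ (p.2 : ℕ) = 0 then 1 else 0)) ∧
      Links G.Adj S₁ y σ qa ∧ Links G.Adj S₂ τ y' (fun _ => ℓ) := by
  classical
  -- the end points are outside of `W`
  have hzW : ∀ x, z x ∉ W := fun x => hW (Sum.inl (Sum.inl x))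
  have hsW : ∀ x, s x ∉ W := fun x => hW (Sum.inl (Sum.inr x))
  have haW : ∀ x, a x ∉ W := fun x => hW (Sum.inr (Sum.inl (Sum.inl x)))
  have hbW : ∀ x, b x ∉ W := fun x => hW (Sum.inr (Sum.inl (Sum.inr x)))
  have hyW : ∀ x, y x ∉ W := fun x => hW (Sum.inr (Sum.inr (Sum.inl (Sum.inl x))))
  have hσW : ∀ x, σ x ∉ W := fun x => hW (Sum.inr (Sum.inr (Sum.inl (Sum.inr x))))
  have hτW : ∀ x, τ x ∉ W := fun x => hW (Sum.inr (Sum.inr (Sum.inr (Sum.inl x))))
  have hy'W : ∀ x, y' x ∉ W := fun x => hW (Sum.inr (Sum.inr (Sum.inr (Sum.inr x))))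
  have hU : ∀ v, v ∉ W → v ∈ univ \ W := fun v hv => by
    rw [mem_sdiff]
    exact ⟨mem_univ v, hv⟩
  have hr3 : ∀ v, v ∉ W → (fun x => if x ∈ W then 2 else 3) v = 3 := fun v hv => if_neg hv
  have hUW : (univ \ W) ∩ W = ∅ := by
    rw [Finset.sdiff_inter_self]
  have hzs : Function.Injective (Sum.elim z s) := by
    intro p p' hp
    have := @hinj (Sum.inl p) (Sum.inl p') hp
    exact Sum.inl_injective this
  have hcap1 : Fintype.card ζ * (4 * j + j * ℓ) ≤ Fintype.card ζ * (j * (4 + ℓ + q1 + ℓ)) := by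
    refine Nat.mul_le_mul_left _ ?_
    nlinarith [Nat.zero_le (j * q1), Nat.zero_le (j * ℓ)]
  obtain ⟨S, S₂', α, β, γ, δ, r', hd, hpat, hL2, hms, hrα, hrδ, hr', hst⟩ :=
    absorbers_build hc hs z s hzs (fun x => hU _ (hzW x)) (fun x => hU _ (hsW x))
      (fun x => hr3 _ (hzW x)) (fun x => hr3 _ (hsW x)) j ℓ hj hℓ
      (by rw [hUW, Finset.card_empty]; omega)
  -- the set of the absorbers
  have hSW : S ⊆ W := by
    intro v hv
    by_contra h'
    exact Finset.disjoint_left.1 hd hv (hU v h')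
  have hsinj : Function.Injective s := fun x x' hx =>
    Sum.inr_injective (@hzs (Sum.inr x) (Sum.inr x') hx)
  have hSs : Disjoint S (univ.image s) := by
    rw [Finset.disjoint_left]
    intro v hv hv'
    obtain ⟨x, -, rfl⟩ := Finset.mem_image.1 hv'
    exact hsW x (hSW hv)
  have hsval : ∑ x, ({s x} : Multiset V) = (univ.image s).val := by
    rw [Finset.image_val_of_injOn hsinj.injOn]
    have h := Multiset.sum_map_singleton ((univ : Finset ζ).val.map s)
    rw [Multiset.map_map] at h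
    exact h
  have hB : S.val + ∑ x, ({s x} : Multiset V) = (S ∪ univ.image s).val := by
    rw [hsval, nb_union_val hSs]
  rw [hB] at hms
  have hnd : (∑ p, ({α p} + {β p} + {γ p} + {δ p} : Multiset V) + S₂'.val).Nodup := by
    rw [hms]
    exact Finset.nodup _
  have hαδ := r10_nodup hnd
  have hmem : ∀ p, α p ∈ S ∪ univ.image s ∧ δ p ∈ S ∪ univ.image s := by
    intro p
    have h1 : ({α p} + {β p} + {γ p} + {δ p} : Multiset V) ≤ (S ∪ univ.image s).val := by
      rw [← hms]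
      refine le_trans ?_ (Multiset.le_add_right _ _)
      exact Finset.single_le_sum
        (f := fun p => ({α p} + {β p} + {γ p} + {δ p} : Multiset V))
        (fun _ _ => Multiset.zero_le _) (mem_univ p)
    constructor
    · have h2 := Multiset.mem_of_le h1 (show α p ∈ ({α p} + {β p} + {γ p} + {δ p} : Multiset V)
        by simp)
      rwa [Finset.mem_val] at h2
    · have h2 := Multiset.mem_of_le h1 (show δ p ∈ ({α p} + {β p} + {γ p} + {δ p} : Multiset V)
        by simp)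
      rwa [Finset.mem_val] at h2
  have hcardS : Fintype.card ζ * (j * (4 + ℓ)) = (S ∪ univ.image s).card := by
    rw [← Finset.card_val, ← hms, Multiset.card_add, Multiset.card_sum]
    have e1 : ∀ p, Multiset.card ({α p} + {β p} + {γ p} + {δ p} : Multiset V) = 4 := by
      intro p
      simp
    rw [Finset.sum_congr rfl fun p _ => e1 p, Finset.card_val, r10_card hL2]
    simp only [Finset.sum_const, Finset.card_univ, Fintype.card_prod, Fintype.card_fin,
      smul_eq_mul]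
    ring
  -- all the links
  have hQ : ∑ i : (ζ × Fin j) ⊕ ((ζ × Fin j) ⊕ (ρ ⊕ ρ)),
      Sum.elim (fun _ => q1) (Sum.elim (fun _ => ℓ) (Sum.elim qa (fun _ => ℓ))) i =
      Fintype.card ζ * (j * (q1 + ℓ)) + ∑ r, (qa r + ℓ) := by
    rw [Fintype.sum_sum_type, Fintype.sum_sum_type, Fintype.sum_sum_type]
    simp only [Sum.elim_inl, Sum.elim_inr, Finset.sum_const, Finset.card_univ,
      Fintype.card_prod, Fintype.card_fin, smul_eq_mul, Finset.sum_add_distrib]
    ring
  have hout : Function.Injective (Sum.elim (Sum.elim a b)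
      (Sum.elim (Sum.elim y σ) (Sum.elim τ y'))) := by
    intro p p' hp
    have := @hinj (Sum.inr p) (Sum.inr p') hp
    exact Sum.inr_injective this
  have hin : ∀ p, Sum.elim α δ p ∈ S ∪ univ.image s := by
    rintro (p | p)
    · exact (hmem p).1
    · exact (hmem p).2
  have hnotin : ∀ p, Sum.elim (Sum.elim a b) (Sum.elim (Sum.elim y σ) (Sum.elim τ y')) p ∉
      S ∪ univ.image s := by
    intro p hp
    rw [mem_union] at hp
    rcases hp with hp | hp
    · exact hW (Sum.inr p) (hSW hp)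
    · obtain ⟨x, -, hx⟩ := Finset.mem_image.1 hp
      have := @hinj (Sum.inl (Sum.inr x)) (Sum.inr p) hx
      exact absurd this (by simp)
  have hI := r10_inj (hαδ.sumElim hout fun p p' hp => hnotin p' (hp ▸ hin p))
  have hUS : ∀ v ∈ S ∪ univ.image s, v ∈ univ \ W ∪ S := by
    intro v hv
    rw [mem_union] at hv ⊢
    rcases hv with hv | hv
    · exact Or.inr hv
    · obtain ⟨x, -, rfl⟩ := Finset.mem_image.1 hv
      exact Or.inl (hU _ (hsW x))
  have hUo : ∀ v, v ∉ W → v ∈ univ \ W ∪ S := fun v hv => mem_union_left _ (hU v hv)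
  have hcapS : ((univ \ W ∪ S) ∩ W).card ≤ S.card := by
    apply Finset.card_le_card
    intro v hv
    rw [mem_inter, mem_union, mem_sdiff] at hv
    tauto
  have hcS : S.card ≤ Fintype.card ζ * (j * (4 + ℓ)) := by
    rw [hcardS]
    exact Finset.card_le_card Finset.subset_union_left
  have hro : ∀ p, r' (Sum.elim (Sum.elim a b) (Sum.elim (Sum.elim y σ) (Sum.elim τ y')) p) =
      3 := by
    intro p
    refine (hr' _ (fun h' => hW (Sum.inr p) (hSW h')) ?_ ?_).trans (hr3 _ (hW (Sum.inr p)))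
    · rintro ⟨x, hx⟩
      have := @hinj (Sum.inl (Sum.inl x)) (Sum.inr p) hx
      exact absurd this (by simp)
    · rintro ⟨x, hx⟩
      have := @hinj (Sum.inl (Sum.inr x)) (Sum.inr p) hx
      exact absurd this (by simp)
  obtain ⟨T, hT1, hT2, hT3⟩ := r10_link hc hst
    (Sum.elim a (Sum.elim δ (Sum.elim y τ))) (Sum.elim α (Sum.elim b (Sum.elim σ y')))
    (Sum.elim (fun _ => q1) (Sum.elim (fun _ => ℓ) (Sum.elim qa (fun _ => ℓ))))
    (by
      rintro (p | p | p | p)
      · exact hq1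
      · exact hℓ
      · exact hqa p
      · exact hℓ)
    (by
      rw [hQ]
      have e : Fintype.card ζ * (j * (4 + ℓ + q1 + ℓ)) =
        Fintype.card ζ * (j * (4 + ℓ)) + Fintype.card ζ * (j * (q1 + ℓ)) := by ring
      omega)
    (by
      rintro (p | p | p | p)
      · exact hUo _ (haW p)
      · exact hUS _ (hmem p).2
      · exact hUo _ (hyW p)
      · exact hUo _ (hτW p))
    (by
      rintro (p | p | p | p)
      · exact hUS _ (hmem p).1
      · exact hUo _ (hbW p)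
      · exact hUo _ (hσW p)
      · exact hUo _ (hy'W p))
    hI
    (by
      rintro (p | p | p | p)
      · exact (show 1 ≤ r' (a p) by rw [show r' (a p) = 3 from hro (Sum.inl (Sum.inl p))]; omega)
      · exact hrδ p
      · exact (show 1 ≤ r' (y p) by
          rw [show r' (y p) = 3 from hro (Sum.inr (Sum.inl (Sum.inl p)))]; omega)
      · exact (show 1 ≤ r' (τ p) by
          rw [show r' (τ p) = 3 from hro (Sum.inr (Sum.inr (Sum.inl p)))]; omega))
    (by
      rintro (p | p | p | p)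
      · exact hrα p
      · exact (show 1 ≤ r' (b p) by rw [show r' (b p) = 3 from hro (Sum.inl (Sum.inr p))]; omega)
      · exact (show 1 ≤ r' (σ p) by
          rw [show r' (σ p) = 3 from hro (Sum.inr (Sum.inl (Sum.inr p)))]; omega)
      · exact (show 1 ≤ r' (y' p) by
          rw [show r' (y' p) = 3 from hro (Sum.inr (Sum.inr (Sum.inr p)))]; omega))
  obtain ⟨T1, Ta, ea, hL1, hTa⟩ := r10_split hT3
  obtain ⟨T3, Tb, eb, hL3, hTb⟩ := r10_split hTa
  obtain ⟨S₁, S₂, ec, hS1, hS2⟩ := r10_split hTb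
  -- everything together
  have hTW : ∀ v ∈ T, v ∈ W ∧ v ∉ S := by
    intro v hv
    have h1 : v ∉ univ \ W ∪ S := fun h' => Finset.disjoint_left.1 hT1 hv h'
    rw [mem_union, mem_sdiff] at h1
    constructor
    · by_contra h2
      exact h1 (Or.inl ⟨mem_univ v, h2⟩)
    · exact fun h2 => h1 (Or.inr h2)
  have hTval : T.val = T1.val + T3.val + S₁.val + S₂.val := by
    rw [← ea, ← eb, ← ec, add_assoc, add_assoc]
  have hTB : Disjoint (S ∪ univ.image s) T := by
    rw [Finset.disjoint_left]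
    intro v hv hv'
    obtain ⟨h1, h2⟩ := hTW v hv'
    rw [mem_union] at hv
    rcases hv with hv | hv
    · exact h2 hv
    · obtain ⟨x, -, rfl⟩ := Finset.mem_image.1 hv
      exact hsW x h1
  have hall : ((S ∪ univ.image s).val + (T1.val + T3.val + S₁.val + S₂.val)).Nodup := by
    rw [← hTval, ← nb_union_val hTB]
    exact Finset.nodup _
  have hnA : ((S ∪ univ.image s).val + T1.val + T3.val).Nodup := by
    refine Multiset.nodup_of_le ?_ hall
    rw [add_assoc, add_assoc (T1.val + T3.val)]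
    exact add_le_add_right (Multiset.le_add_right _ _) _
  have hreg : ((S ∪ univ.image s).val + T1.val + T3.val) + S₁.val + S₂.val =
      (S ∪ univ.image s).val + (T1.val + T3.val + S₁.val + S₂.val) := by abel
  rw [← hreg] at hall
  obtain ⟨hn1, hn2, hn3⟩ := Multiset.nodup_add.1 hall
  obtain ⟨hn4, hn5, hn6⟩ := Multiset.nodup_add.1 hn1
  obtain ⟨SA, hSA⟩ : ∃ SA : Finset V, SA.val = (S ∪ univ.image s).val + T1.val + T3.val :=
    ⟨⟨_, hnA⟩, rfl⟩
  have hmemA : ∀ v, v ∈ SA ↔ v ∈ S ∪ univ.image s ∨ v ∈ T1 ∨ v ∈ T3 := by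
    intro v
    rw [← Finset.mem_val, hSA, Multiset.mem_add, Multiset.mem_add, Finset.mem_val,
      Finset.mem_val, Finset.mem_val, or_assoc]
  have hmemT : ∀ v, v ∈ T ↔ ((v ∈ T1 ∨ v ∈ T3) ∨ v ∈ S₁) ∨ v ∈ S₂ := by
    intro v
    rw [← Finset.mem_val, hTval, Multiset.mem_add, Multiset.mem_add, Multiset.mem_add]
    simp only [Finset.mem_val]
  rw [← hSA] at hn1 hn3 hn6
  have hd3 : ∀ v, v ∈ SA ∨ v ∈ S₁ → v ∉ S₂ := by
    intro v hv hv'
    have g1 : v ∈ SA.val + S₁.val := by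
      rw [Multiset.mem_add, Finset.mem_val, Finset.mem_val]
      exact hv
    have g2 : v ∈ S₂.val := by
      rw [Finset.mem_val]
      exact hv'
    exact Multiset.disjoint_left.1 hn3 g1 g2
  refine ⟨SA, S₁, S₂, ?_, ?_, ?_, ?_, ?_, ?_, ?_, ?_, ?_, ?_, ?_, hS1, hS2⟩
  · intro x
    rw [hmemA]
    exact Or.inl (mem_union_right _ (Finset.mem_image_of_mem s (mem_univ x)))
  · intro v hv
    rw [hmemA, mem_union] at hv
    rcases hv with (hv | hv) | hv
    · exact Or.inl (hSW hv)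
    · obtain ⟨x, -, rfl⟩ := Finset.mem_image.1 hv
      exact Or.inr ⟨x, rfl⟩
    · exact Or.inl (hTW v ((hmemT v).2 (Or.inl (Or.inl hv)))).1
  · exact fun v hv => (hTW v ((hmemT v).2 (Or.inl (Or.inr hv)))).1
  · exact fun v hv => (hTW v ((hmemT v).2 (Or.inr hv))).1
  · rw [Finset.disjoint_left]
    intro v hv hv'
    have g1 : v ∈ SA.val := by
      rw [Finset.mem_val]
      exact hv
    have g2 : v ∈ S₁.val := by
      rw [Finset.mem_val]
      exact hv'
    exact Multiset.disjoint_left.1 hn6 g1 g2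
  · rw [Finset.disjoint_left]
    exact fun v hv => hd3 v (Or.inl hv)
  · rw [Finset.disjoint_left]
    exact fun v hv => hd3 v (Or.inr hv)
  · rw [← Finset.card_val, hSA, Multiset.card_add, Multiset.card_add, Finset.card_val,
      Finset.card_val, Finset.card_val, ← hcardS, r10_card hL1, r10_card hL3]
    simp only [Sum.elim_inl, Sum.elim_inr, Finset.sum_const, Finset.card_univ,
      Fintype.card_prod, Fintype.card_fin, smul_eq_mul]
    ring
  · exact r10_card hS1
  · rw [r10_card hS2]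
    simp only [Sum.elim_inr, Finset.sum_const, Finset.card_univ, smul_eq_mul]
  · intro Zs S' hS'
    refine absorb (fun _ _ hh => hh.symm) j (by omega) z α β γ δ hpat hL1 hL2 hL3 Zs ?_
    rw [hS', hSA, ← hms]
    abel

end Pool.Agent.HDT
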