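import Pool.Agent.HDT.CoreSets
import Pool.Agent.HDT.Iterate
import Pool.Agent.HDT.Links
import Pool.Agent.HDT.Reserve

/-!
MP_134267_co, Theorem HDT, row R14 part 5 (helper88): the assembly, without labels.
-/

set_option autoImplicit false

namespace Pool.Agent.HDT

open Finset Pool.Agent.HD

theorem sum_split_sigma {V : Type} (N : ℕ) (m : ℕ → ℕ) (σ : ∀ i, Fin (m i) → V)
    (A : ℕ → Finset V) (h : ∀ i ≤ N, ∑ x, ({σ i x} : Multiset V) = (A i).val) :
    ∑ p : Σ i : Fin (N + 1), Fin (m i), ({σ p.1 p.2} : Multiset V) =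
      ∑ i ∈ range (N + 1), (A i).val := by
  rw [Fintype.sum_sigma, ← Fin.sum_univ_eq_sum_range (fun i => (A i).val)]
  exact Finset.sum_congr rfl fun i _ => h i (by have := i.2; omega)

theorem union4_val {V : Type} [DecidableEq V] {A B C D : Finset V}
    (h : (A.val + B.val + C.val + D.val).Nodup) :
    (A ∪ B ∪ C ∪ D).val = A.val + B.val + C.val + D.val := by
  rw [Multiset.nodup_add, Multiset.nodup_add, Multiset.nodup_add] at h
  obtain ⟨⟨⟨-, -, h1⟩, -, h2⟩, -, h3⟩ := h
  have d1 : Disjoint A B := Finset.disjoint_val.1 h1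
  have e1 : (A ∪ B).val = A.val + B.val := nb_union_val d1
  rw [← e1] at h2 h3
  have d2 : Disjoint (A ∪ B) C := Finset.disjoint_val.1 h2
  have e2 : (A ∪ B ∪ C).val = (A ∪ B).val + C.val := nb_union_val d2
  rw [← e2] at h3
  have d3 : Disjoint (A ∪ B ∪ C) D := Finset.disjoint_val.1 h3
  rw [nb_union_val d3, e2, e1]

/-- the leaves that are used -/
theorem leaves_le {V : Type} (t : ℕ) (y : Fin t × Fin t → V) :
    ∑ r : Pr t, ({y (r.1.1, r.1.2)} : Multiset V) + ∑ r : Pr t, ({y (r.1.2, r.1.1)} : Multiset V)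
      ≤ ∑ p, ({y p} : Multiset V) := by
  classical
  set g : Pr t ⊕ Pr t → Fin t × Fin t := Sum.elim (fun r => (r.1.1, r.1.2))
    (fun r => (r.1.2, r.1.1)) with hg
  have hgi : Function.Injective g := by
    rintro (r | r) (r' | r') h
    · simp only [hg, Sum.elim_inl, Prod.mk.injEq] at h
      congr 1
      exact Subtype.ext (Prod.ext h.1 h.2)
    · simp only [hg, Sum.elim_inl, Sum.elim_inr, Prod.mk.injEq] at h
      have h1 := r.2
      have h2 := r'.2
      rw [h.1, h.2] at h1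
      exact absurd h1 (lt_asymm h2)
    · simp only [hg, Sum.elim_inl, Sum.elim_inr, Prod.mk.injEq] at h
      have h1 := r.2
      have h2 := r'.2
      rw [h.1, h.2] at h1
      exact absurd h1 (lt_asymm h2)
    · simp only [hg, Sum.elim_inr, Prod.mk.injEq] at h
      congr 1
      exact Subtype.ext (Prod.ext h.2 h.1)
  have h1 : ∑ u, ({y (g u)} : Multiset V) = ∑ p ∈ univ.image g, ({y p} : Multiset V) := by
    rw [Finset.sum_image (fun a _ b _ hab => hgi hab)]
  rw [Fintype.sum_sum_type] at h1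
  simp only [hg, Sum.elim_inl, Sum.elim_inr] at h1
  rw [h1]
  exact Finset.sum_le_sum_of_subset (Finset.subset_univ _)

theorem finish {V : Type} [Fintype V] [DecidableEq V] (G : SimpleGraph V) [DecidableRel G.Adj]
    (t N nz j ℓ κ B q1 : ℕ) (ht : 1 ≤ t) (m : ℕ → ℕ) (x : Fin t → V) (y : Fin t × Fin t → V)
    (hxy : ∀ p, G.Adj (x p.1) (y p)) (z s : Fin nz → V) (W : Finset V) {mm hh Kc : ℕ}
    (hc : FPCtx G W mm hh Kc) (hs : FPState G W mm (univ \ W) (fun x => if x ∈ W then 2 else 3))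
    (A₀ A₁ Tg body Wr : ℕ → Finset V) (C0 : Finset V)
    (hz : ∑ x, ({z x} : Multiset V) = (Wr N).val)
    (hHB : (∑ i, ({x i} : Multiset V) + ∑ p, ({y p} : Multiset V)) + ∑ x, ({s x} : Multiset V) +
      W.val + ∑ i ∈ range (N + 1), ((A₀ i).val + (A₁ i).val + (Tg i).val + (Wr i).val) +
      ∑ i ∈ range N, (body i).val + C0.val ≤ (univ : Finset V).val)
    (hA₀ : ∀ i ≤ N, (A₀ i).card = m i) (hA₁ : ∀ i ≤ N, (A₁ i).card = m i)
    (hTg : ∀ i ≤ N, (Tg i).card = m i)
    (hbody : ∀ i < N, (body i).card + (Wr i).card = (2 * κ + 1) * m (i + 1) + m i * ℓ)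
    (hm : nz * j + ∑ i ∈ range (N + 1), m i = Fintype.card (Pr t))
    (stage0 : ∀ A : Finset V, C0 ⊆ A → A.card = (2 * κ + 1) * m 0 →
      ((A₀ 0).val + (A₁ 0).val + (Tg 0).val + A.val + (Wr 0).val).Nodup →
      ∀ σ τ : Fin (m 0) → V, ∑ x, ({σ x} : Multiset V) = (A₀ 0).val →
        ∑ x, ({τ x} : Multiset V) = (Tg 0).val → ∃ S' ⊆ Wr 0, S'.card = m 0 * ℓ ∧
        Lk G.Adj (A₀ 0 ∪ A₁ 0 ∪ Tg 0 ∪ A ∪ S') σ τ (fun _ => 2 * κ + 4 + ℓ))
    (stages : ∀ i < N, ((A₀ (i + 1)).val + (A₁ (i + 1)).val + (Tg (i + 1)).val + (body i).val +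
        (Wr i).val + (Wr (i + 1)).val).Nodup →
      ∀ σ τ : Fin (m (i + 1)) → V, ∑ x, ({σ x} : Multiset V) = (A₀ (i + 1)).val →
        ∑ x, ({τ x} : Multiset V) = (Tg (i + 1)).val → ∀ S ⊆ Wr i, S.card = m i * ℓ →
        ∃ S' ⊆ Wr (i + 1), S'.card = m (i + 1) * ℓ ∧
        Lk G.Adj (A₀ (i + 1) ∪ A₁ (i + 1) ∪ Tg (i + 1) ∪ body i ∪ (Wr i \ S) ∪ S') σ τ
          (fun _ => 2 * κ + 4 + ℓ))
    (hj : hh + 2 ≤ j) (hℓ : 2 * hh + 2 ≤ ℓ) (hq1 : 2 * hh + 2 ≤ q1)
    (hB : 4 + ℓ + q1 + ℓ = B + 1)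
    (qa : (Σ i : Fin (N + 1), Fin (m i)) → ℕ) (qa1 : ∀ r, 2 * hh + 2 ≤ qa r)
    (qa3 : ∀ r, B ≤ qa r + (2 * κ + 4 + 2 * ℓ)) (qa4 : ∀ r, qa r + (2 * κ + 4 + 2 * ℓ) ≤ B + 2)
    (qa5 : t + 2 * Fintype.card (Pr t) + nz * (j * (B + 1)) +
        (∑ r, qa r + (∑ i ∈ range (N + 1), m i) * (2 * κ + 4 + 2 * ℓ)) + nz =
        Fintype.card V + ℓ * m N)
    (hcap : nz * (j * (B + 1)) + ∑ r, (qa r + ℓ) + 2 ^ (hh + 2) ≤ Kc) : HasSubdivision G t := by
  classical
  -- the enumerations of the pads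
  have hen : ∀ i, ∃ σ τ : Fin (m i) → V, i ≤ N → ∑ x, ({σ x} : Multiset V) = (A₀ i).val ∧
      ∑ x, ({τ x} : Multiset V) = (Tg i).val := by
    intro i
    by_cases hi : i ≤ N
    · obtain ⟨σ, hσ⟩ := enum (A₀ i) (m i) (hA₀ i hi)
      obtain ⟨τ, hτ⟩ := enum (Tg i) (m i) (hTg i hi)
      exact ⟨σ, τ, fun _ => ⟨hσ, hτ⟩⟩
    · exact ⟨fun _ => x ⟨0, ht⟩, fun _ => x ⟨0, ht⟩, fun h => absurd h hi⟩
  choose σ τ hστ using hen
  have hσs : ∑ p : Σ i : Fin (N + 1), Fin (m i), ({σ p.1 p.2} : Multiset V) =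
      ∑ i ∈ range (N + 1), (A₀ i).val := sum_split_sigma N m σ A₀ (fun i hi => (hστ i hi).1)
  have hτs : ∑ p : Σ i : Fin (N + 1), Fin (m i), ({τ p.1 p.2} : Multiset V) =
      ∑ i ∈ range (N + 1), (Tg i).val := sum_split_sigma N m τ Tg (fun i hi => (hστ i hi).2)
  -- the requests
  obtain ⟨e⟩ : Nonempty (Pr t ≃ (Fin nz × Fin j) ⊕ (Σ i : Fin (N + 1), Fin (m i))) := by
    rw [← Fintype.card_eq, Fintype.card_sum, Fintype.card_prod, Fintype.card_sigma]
    simp only [Fintype.card_fin]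
    rw [Fin.sum_univ_eq_sum_range (fun i => m i)]
    exact hm.symm
  set l1 : Pr t → V := fun r => y (r.1.1, r.1.2) with hl1
  set l2 : Pr t → V := fun r => y (r.1.2, r.1.1) with hl2
  have hL12 := leaves_le t y
  have hs1 : ∑ p, ({l1 (e.symm (Sum.inl p))} : Multiset V) +
      ∑ r, ({l1 (e.symm (Sum.inr r))} : Multiset V) = ∑ r, ({l1 r} : Multiset V) := by
    rw [← Equiv.sum_comp e.symm (fun r => ({l1 r} : Multiset V)), Fintype.sum_sum_type]
  have hs2 : ∑ p, ({l2 (e.symm (Sum.inl p))} : Multiset V) +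
      ∑ r, ({l2 (e.symm (Sum.inr r))} : Multiset V) = ∑ r, ({l2 r} : Multiset V) := by
    rw [← Equiv.sum_comp e.symm (fun r => ({l2 r} : Multiset V)), Fintype.sum_sum_type]
  -- the big sum without the leaves that are not used
  set X : Multiset V := ∑ i, ({x i} : Multiset V) with hX
  set L1 : Multiset V := ∑ r, ({l1 r} : Multiset V) with hL1
  set L2 : Multiset V := ∑ r, ({l2 r} : Multiset V) with hL2
  set Sd : Multiset V := ∑ x, ({s x} : Multiset V) with hSd
  set Sg : Multiset V := ∑ i ∈ range (N + 1), ((A₀ i).val + (A₁ i).val + (Tg i).val +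
    (Wr i).val) with hSg
  set Bd : Multiset V := ∑ i ∈ range N, (body i).val with hBd
  have hHB2 : X + (L1 + L2) + Sd + W.val + Sg + Bd + C0.val ≤ (univ : Finset V).val :=
    le_trans (by gcongr) hHB
  -- splitting of `Sg`
  have hSg1 : Sg = ∑ i ∈ range (N + 1), (A₀ i).val + ∑ i ∈ range (N + 1), (A₁ i).val +
      ∑ i ∈ range (N + 1), (Tg i).val + ∑ i ∈ range (N + 1), (Wr i).val := by
    rw [hSg, sum_add_distrib, sum_add_distrib, sum_add_distrib]
  have hWrN : (Wr N).val ≤ ∑ i ∈ range (N + 1), (Wr i).val :=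
    Finset.single_le_sum (f := fun i => (Wr i).val) (fun _ _ => Multiset.zero_le _)
      (mem_range.2 (Nat.lt_succ_self N))
  -- injectivity of the terminals
  have hsum : ∑ u, ({Sum.elim (Sum.elim z s) (Sum.elim (Sum.elim
      (fun p => l1 (e.symm (Sum.inl p))) (fun p => l2 (e.symm (Sum.inl p))))
      (Sum.elim (Sum.elim (fun r => l1 (e.symm (Sum.inr r)))
        (fun r : Σ i : Fin (N + 1), Fin (m i) => σ r.1 r.2))
        (Sum.elim (fun r : Σ i : Fin (N + 1), Fin (m i) => τ r.1 r.2)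
          (fun r => l2 (e.symm (Sum.inr r)))))) u} : Multiset V) =
      (Wr N).val + Sd + (L1 + L2) + ∑ i ∈ range (N + 1), (A₀ i).val +
        ∑ i ∈ range (N + 1), (Tg i).val := by
    rw [Fintype.sum_sum_type, Fintype.sum_sum_type, Fintype.sum_sum_type, Fintype.sum_sum_type,
      Fintype.sum_sum_type, Fintype.sum_sum_type, Fintype.sum_sum_type]
    simp only [Sum.elim_inl, Sum.elim_inr]
    rw [hz, hσs, hτs, ← hs1, ← hs2]
    abel
  have hsumW : (Wr N).val + Sd + (L1 + L2) + ∑ i ∈ range (N + 1), (A₀ i).val +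
        ∑ i ∈ range (N + 1), (Tg i).val + W.val ≤ (univ : Finset V).val := by
    refine le_trans ?_ hHB2
    rw [hSg1]
    calc (Wr N).val + Sd + (L1 + L2) + ∑ i ∈ range (N + 1), (A₀ i).val +
          ∑ i ∈ range (N + 1), (Tg i).val + W.val
        ≤ ∑ i ∈ range (N + 1), (Wr i).val + Sd + (L1 + L2) + ∑ i ∈ range (N + 1), (A₀ i).val +
          ∑ i ∈ range (N + 1), (Tg i).val + W.val := by gcongr
      _ ≤ (∑ i ∈ range (N + 1), (Wr i).val + Sd + (L1 + L2) + ∑ i ∈ range (N + 1), (A₀ i).val +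
          ∑ i ∈ range (N + 1), (Tg i).val + W.val) +
          (X + ∑ i ∈ range (N + 1), (A₁ i).val + Bd + C0.val) := Multiset.le_add_right _ _
      _ = _ := by abel
  have hnod := le_univ_iff.1 hsumW
  rw [Multiset.nodup_add] at hnod
  obtain ⟨hnod1, -, hnod2⟩ := hnod
  rw [← hsum] at hnod1 hnod2
  have hinj := inj_of_nodup hnod1
  have hWnot : ∀ u, Sum.elim (Sum.elim z s) (Sum.elim (Sum.elim
      (fun p => l1 (e.symm (Sum.inl p))) (fun p => l2 (e.symm (Sum.inl p))))
      (Sum.elim (Sum.elim (fun r => l1 (e.symm (Sum.inr r)))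
        (fun r : Σ i : Fin (N + 1), Fin (m i) => σ r.1 r.2))
        (Sum.elim (fun r : Σ i : Fin (N + 1), Fin (m i) => τ r.1 r.2)
          (fun r => l2 (e.symm (Sum.inr r)))))) u ∉ W := by
    intro u hu
    refine Multiset.disjoint_left.1 hnod2 ?_ hu
    rw [Multiset.mem_sum]
    exact ⟨u, mem_univ _, Multiset.mem_singleton_self _⟩
  -- everything inside the reserve
  obtain ⟨SA, S₁, S₂, r1, r2, r3, r4, r5, r6, r7, r8, r9, r10, r11, r12, r13⟩ :=
    reserve2 hc hs j ℓ q1 hj hℓ hq1 z s (fun p => l1 (e.symm (Sum.inl p)))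
      (fun p => l2 (e.symm (Sum.inl p))) (fun r => l1 (e.symm (Sum.inr r)))
      (fun r : Σ i : Fin (N + 1), Fin (m i) => σ r.1 r.2)
      (fun r : Σ i : Fin (N + 1), Fin (m i) => τ r.1 r.2) (fun r => l2 (e.symm (Sum.inr r))) qa qa1
      hinj hWnot (by
        rw [hB, Fintype.card_fin]
        exact hcap)
  have hSdn : (Sd + W.val).Nodup := by
    refine le_univ_iff.1 (le_trans ?_ hHB2)
    calc Sd + W.val ≤ (Sd + W.val) + (X + (L1 + L2) + Sg + Bd + C0.val) :=
          Multiset.le_add_right _ _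
      _ = _ := by abel
  have hSA : SA.val + S₁.val + S₂.val ≤ Sd + W.val := by
    have hn1 : (SA.val + S₁.val + S₂.val).Nodup := by
      rw [Multiset.nodup_add, Multiset.nodup_add]
      refine ⟨⟨SA.nodup, S₁.nodup, Finset.disjoint_val.2 r5⟩, S₂.nodup, ?_⟩
      rw [Multiset.disjoint_add_left]
      exact ⟨Finset.disjoint_val.2 r6, Finset.disjoint_val.2 r7⟩
    rw [Multiset.le_iff_subset hn1]
    intro v hv
    rw [Multiset.mem_add, Multiset.mem_add] at hv
    rw [Multiset.mem_add]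
    rcases hv with (hv | hv) | hv
    · rcases r2 v hv with h | ⟨u, h⟩
      · exact Or.inr h
      · left
        rw [hSd, Multiset.mem_sum]
        exact ⟨u, mem_univ _, by rw [h]; exact Multiset.mem_singleton_self _⟩
    · exact Or.inr (r3 hv)
    · exact Or.inr (r4 hv)
  -- the used vertices
  set Us : Multiset V := X + (L1 + L2) + (SA.val + S₁.val + S₂.val) + Sg + Bd with hUs
  have hUC : Us + C0.val ≤ (univ : Finset V).val := by
    refine le_trans ?_ hHB2
    have e1 : X + (L1 + L2) + Sd + W.val + Sg + Bd + C0.val =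
        X + (L1 + L2) + (Sd + W.val) + Sg + Bd + C0.val := by abel
    rw [e1, hUs]
    gcongr
  obtain ⟨F, hF⟩ := exists_val (le_trans (Multiset.le_add_right _ _) hUC)
  set A0 : Finset V := univ \ F with hA0
  have hFA : F.val + A0.val = (univ : Finset V).val := by
    rw [← nb_union_val (by rw [hA0]; exact disjoint_sdiff), hA0,
      Finset.union_sdiff_of_subset (subset_univ F)]
  have hC0 : C0 ⊆ A0 := by
    rw [← Finset.val_le_iff]
    have h1 : Us + C0.val ≤ Us + A0.val := by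
      rw [← hF, hFA]
      rw [← hF] at hUC
      exact hUC
    exact (add_le_add_iff_left Us).1 h1
  -- the size of `A0`
  have hcardX : Multiset.card X = t := by
    rw [hX, Multiset.card_sum]
    simp
  have hcardL1 : Multiset.card L1 = Fintype.card (Pr t) := by
    rw [hL1, Multiset.card_sum]
    simp
  have hcardL2 : Multiset.card L2 = Fintype.card (Pr t) := by
    rw [hL2, Multiset.card_sum]
    simp
  have hcardWr : (Wr N).card = nz := by
    rw [Finset.card, ← hz, Multiset.card_sum]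
    simp
  have hA0c : A0.card = (2 * κ + 1) * m 0 := by
    have h1 := congrArg Multiset.card hFA
    rw [Multiset.card_add, hF, hUs, Multiset.card_add, Multiset.card_add, Multiset.card_add,
      Multiset.card_add, Multiset.card_add, Multiset.card_add, Multiset.card_add, hcardX, hcardL1,
      hcardL2, hSg, hBd, Multiset.card_sum, Multiset.card_sum] at h1
    simp only [Multiset.card_add, Finset.card_val] at h1
    rw [r8, r9, r10, Fintype.card_sigma, Fintype.card_fin, hB] at h1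
    simp only [Fintype.card_fin] at h1
    rw [Fin.sum_univ_eq_sum_range (fun i => m i), card_univ] at h1
    have h2 : ∑ i ∈ range (N + 1), ((A₀ i).card + (A₁ i).card + (Tg i).card + (Wr i).card) =
        3 * ∑ i ∈ range (N + 1), m i + (∑ i ∈ range N, (Wr i).card + nz) := by
      rw [← hcardWr, ← Finset.sum_range_succ (fun i => (Wr i).card), mul_sum, ← sum_add_distrib]
      refine sum_congr rfl fun i hi => ?_
      have hi' : i ≤ N := Nat.lt_succ_iff.1 (mem_range.1 hi)
      rw [hA₀ i hi', hA₁ i hi', hTg i hi']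
      ring
    have h3 : ∑ i ∈ range N, (body i).card + ∑ i ∈ range N, (Wr i).card =
        (2 * κ + 1) * ∑ i ∈ range N, m (i + 1) + (∑ i ∈ range N, m i) * ℓ := by
      rw [← sum_add_distrib, mul_sum, sum_mul, ← sum_add_distrib]
      exact sum_congr rfl fun i hi => hbody i (mem_range.1 hi)
    have h4 : ∑ i ∈ range (N + 1), m i = ∑ i ∈ range N, m (i + 1) + m 0 := sum_range_succ' _ _
    have h5 : ∑ i ∈ range (N + 1), m i = ∑ i ∈ range N, m i + m N := sum_range_succ _ _
    rw [h2] at h1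
    have h6 := qa5
    set R := ∑ i ∈ range (N + 1), m i with hR
    set R1 := ∑ i ∈ range N, m (i + 1) with hR1
    set R0 := ∑ i ∈ range N, m i with hR0
    have e1 : R * (2 * κ + 4 + 2 * ℓ) = (2 * κ + 1) * R + 3 * R + 2 * (R * ℓ) := by ring
    have e2 : (2 * κ + 1) * R = (2 * κ + 1) * R1 + (2 * κ + 1) * m 0 := by rw [h4]; ring
    have e3 : R * ℓ = R0 * ℓ + ℓ * m N := by rw [h5]; ring
    rw [e1] at h6
    set n := Fintype.card V with hn
    set M := Fintype.card (Pr t) with hM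
    set c1 := nz * (j * (B + 1)) with hc1
    set c2 := ∑ r, qa r with hc2
    set c3 := R * ℓ with hc3
    set c4 := (2 * κ + 1) * R with hc4
    set c5 := (2 * κ + 1) * R1 with hc5
    set c6 := (2 * κ + 1) * m 0 with hc6
    set c7 := R0 * ℓ with hc7
    set c8 := ℓ * m N with hc8
    clear_value c1 c2 c3 c4 c5 c6 c7 c8 n M
    omega
  -- all the bodies
  set Ab : ℕ → Finset V := fun i => if i = 0 then A0 else body (i - 1) with hAb
  have hAb0 : Ab 0 = A0 := by simp [hAb]
  have hAbs : ∀ i, Ab (i + 1) = body i := by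
    intro i
    simp [hAb]
  set Y : ℕ → Multiset V := fun i => (A₀ i).val + (A₁ i).val + (Tg i).val + (Ab i).val +
    (Wr i).val with hY
  have hTot : X + (L1 + L2) + (SA.val + S₁.val + S₂.val) + ∑ i ∈ range (N + 1), Y i =
      (univ : Finset V).val := by
    have e1 : ∑ i ∈ range (N + 1), Y i = Sg + ∑ i ∈ range (N + 1), (Ab i).val := by
      rw [hSg, ← sum_add_distrib]
      exact sum_congr rfl fun i _ => by simp only [hY]; abel
    have e2 : ∑ i ∈ range (N + 1), (Ab i).val = Bd + A0.val := by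
      rw [sum_range_succ', hAb0, hBd]
      congr 1
    rw [← hFA, hF, hUs, e1, e2]
    abel
  have hSumY : ∑ i ∈ range (N + 1), Y i ≤ (univ : Finset V).val := by
    rw [← hTot]
    exact Multiset.le_add_left _ _
  have hY1 : ∀ i ≤ N, Y i ≤ (univ : Finset V).val := by
    intro i hi
    exact (Finset.single_le_sum (f := Y) (fun _ _ => Multiset.zero_le _)
      (mem_range.2 (Nat.lt_succ_of_le hi))).trans hSumY
  have hY2 : ∀ i < N, Y i + Y (i + 1) ≤ (univ : Finset V).val := by
    intro i hi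
    refine le_trans ?_ hSumY
    rw [← Finset.sum_pair (f := Y) (show i ≠ i + 1 by omega)]
    refine Finset.sum_le_sum_of_subset ?_
    intro k hk
    rw [mem_insert, mem_singleton] at hk
    rw [mem_range]
    omega
  have hXv : ∀ i ≤ N, (A₀ i ∪ A₁ i ∪ Tg i ∪ Ab i).val =
      (A₀ i).val + (A₁ i).val + (Tg i).val + (Ab i).val := by
    intro i hi
    refine union4_val (Multiset.nodup_of_le ?_ (le_univ_iff.1 (hY1 i hi)))
    exact Multiset.le_add_right _ _
  have hXY : ∑ i ∈ range (N + 1), ((A₀ i ∪ A₁ i ∪ Tg i ∪ Ab i).val + (Wr i).val) =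
      ∑ i ∈ range (N + 1), Y i := by
    refine sum_congr rfl fun i hi => ?_
    rw [hXv i (Nat.lt_succ_iff.1 (mem_range.1 hi))]
  -- the stages
  obtain ⟨S', i1, i2, Sf, i3, i4⟩ := iterate (adj := G.Adj) N m
    (fun i => A₀ i ∪ A₁ i ∪ Tg i ∪ Ab i) Wr ℓ (2 * κ + 4 + ℓ) σ τ (by
      rw [hXY]
      exact le_univ_iff.1 hSumY) (by
      have h1 := stage0 A0 hC0 hA0c (by
        have := le_univ_iff.1 (hY1 0 (Nat.zero_le _))
        simp only [hY, hAb0] at this
        exact this) (σ 0) (τ 0) (hστ 0 (Nat.zero_le _)).1 (hστ 0 (Nat.zero_le _)).2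
      exact h1) (by
      intro i hi S hS1 hS2
      have h1 := stages i hi (by
        refine Multiset.nodup_of_le ?_ (le_univ_iff.1 (hY2 i hi))
        simp only [hY, hAbs]
        calc (A₀ (i + 1)).val + (A₁ (i + 1)).val + (Tg (i + 1)).val + (body i).val + (Wr i).val +
              (Wr (i + 1)).val
            ≤ ((A₀ (i + 1)).val + (A₁ (i + 1)).val + (Tg (i + 1)).val + (body i).val +
              (Wr i).val + (Wr (i + 1)).val) + ((A₀ i).val + (A₁ i).val + (Tg i).val +
              (Ab i).val) := Multiset.le_add_right _ _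
          _ = _ := by abel) (σ (i + 1)) (τ (i + 1)) (hστ (i + 1) (by omega)).1
        (hστ (i + 1) (by omega)).2 S hS1 hS2
      rw [hAbs]
      exact h1)
  -- the vertices which have to be absorbed
  set Zs : Finset (Fin nz) := univ.filter (fun u => z u ∉ S') with hZs
  have hzmem := mem_of_sum hz
  have hZ1 : ∑ u ∈ univ.filter (fun u => z u ∈ S'), ({z u} : Multiset V) +
      ∑ u ∈ Zs, ({z u} : Multiset V) = (Wr N).val := by
    rw [← hz, hZs]
    exact Finset.sum_filter_add_sum_filter_not _ _ _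
  have hZ2 : ∑ u ∈ univ.filter (fun u => z u ∈ S'), ({z u} : Multiset V) = S'.val := by
    have hn1 : (∑ u ∈ univ.filter (fun u => z u ∈ S'), ({z u} : Multiset V)).Nodup :=
      Multiset.nodup_of_le (by rw [← hZ1]; exact Multiset.le_add_right _ _) (Wr N).nodup
    rw [Multiset.Nodup.ext hn1 S'.nodup]
    intro v
    rw [Multiset.mem_sum]
    constructor
    · rintro ⟨u, hu, hv⟩
      rw [Multiset.mem_singleton] at hv
      rw [hv]
      exact (mem_filter.1 hu).2
    · intro hv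
      obtain ⟨u, hu⟩ := (hzmem v).1 (i1 hv)
      refine ⟨u, mem_filter.2 ⟨mem_univ _, ?_⟩, ?_⟩
      · rw [hu]
        exact hv
      · rw [hu]
        exact Multiset.mem_singleton_self _
  rw [hZ2] at hZ1
  -- the total vertex set of the paths
  have hXs : ∑ i ∈ range (N + 1), (A₀ i ∪ A₁ i ∪ Tg i ∪ Ab i).val +
      ∑ i ∈ range (N + 1), (Wr i).val = ∑ i ∈ range (N + 1), Y i := by
    rw [← hXY, sum_add_distrib]
  have hXs2 : Sf.val + ∑ u ∈ Zs, ({z u} : Multiset V) = ∑ i ∈ range (N + 1), Y i := by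
    rw [i3, ← hXs, sum_range_succ (fun i => (Wr i).val), ← hZ1]
    abel
  have hall : X + (L1 + L2) + (SA.val + ∑ u ∈ Zs, ({z u} : Multiset V) +
      (S₁.val + Sf.val + S₂.val)) = (univ : Finset V).val := by
    rw [← hTot, ← hXs2]
    abel
  obtain ⟨SZ, hSZ⟩ := exists_val (M := SA.val + ∑ u ∈ Zs, ({z u} : Multiset V))
    (S := (univ : Finset V)) (by
      rw [← hall]
      exact le_trans (Multiset.le_add_right _ _) (Multiset.le_add_left _ _))
  obtain ⟨Sw, hSw⟩ := exists_val (M := S₁.val + Sf.val + S₂.val) (S := (univ : Finset V)) (by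
      rw [← hall]
      exact le_trans (Multiset.le_add_left _ _) (Multiset.le_add_left _ _))
  obtain ⟨St, hSt⟩ := exists_val (M := SZ.val + Sw.val) (S := (univ : Finset V)) (by
      rw [← hall, hSZ, hSw]
      exact Multiset.le_add_left _ _)
  have hLa := r11 Zs SZ hSZ
  have hLw := Links.comp3 r12 i4 r13 hSw.symm
  have hLs := Links.sum hLa hLw hSt.symm
  have hLe := Links.reindex hLs e
  have ha1 : Sum.elim (fun p => l1 (e.symm (Sum.inl p))) (fun r => l1 (e.symm (Sum.inr r))) ∘ e =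
      l1 := by
    funext r
    rw [Function.comp_apply]
    rcases hr : e r with p | p
    · rw [Sum.elim_inl, ← hr, e.symm_apply_apply]
    · rw [Sum.elim_inr, ← hr, e.symm_apply_apply]
  have ha2 : Sum.elim (fun p => l2 (e.symm (Sum.inl p))) (fun r => l2 (e.symm (Sum.inr r))) ∘ e =
      l2 := by
    funext r
    rw [Function.comp_apply]
    rcases hr : e r with p | p
    · rw [Sum.elim_inl, ← hr, e.symm_apply_apply]
    · rw [Sum.elim_inr, ← hr, e.symm_apply_apply]
  rw [ha1, ha2] at hLe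
  refine assemble3 G t x y hxy St B _ ?_ hLe ?_
  · intro r
    rw [Function.comp_apply]
    rcases hr : e r with p | p
    · rw [Sum.elim_inl]
      split_ifs <;> omega
    · rw [Sum.elim_inr]
      have h1 := qa3 p
      have h2 := qa4 p
      omega
  · rw [hSt, hSZ, hSw, sum_add_distrib]
    exact hall

end Pool.Agent.HDT
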