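import Pool.Agent.HDT.Defs

/-!
MP_134267_co, Theorem HDT, row R2 (helper93): algebra of norm bounds, unions of classes.
-/

namespace Pool.Agent.HDT

open Finset Pool.Agent.HD

theorem NB.mono {V : Type} [Fintype V] [DecidableEq V] {G : SimpleGraph V} [DecidableRel G.Adj]
    {d : ℕ} {S S' T T' : Finset V} {Λ Λ' : ℝ} (h : NB G d S S' Λ) (hS : T ⊆ S) (hS' : T' ⊆ S')
    (hΛ : Λ ≤ Λ') : NB G d T T' Λ' := by
  intro x
  have h1 := h (fun v => if v ∈ T' then x v else 0)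
  have e1 : ∀ u, ∑ v ∈ S', Mx G d u v * (if v ∈ T' then x v else 0) =
      ∑ v ∈ T', Mx G d u v * x v := by
    intro u
    rw [← sum_subset hS']
    · exact sum_congr rfl fun v hv => by rw [if_pos hv]
    · intro v _ hv
      rw [if_neg hv, mul_zero]
  have e2 : ∑ v ∈ S', (if v ∈ T' then x v else 0) ^ 2 = ∑ v ∈ T', x v ^ 2 := by
    rw [← sum_subset hS']
    · exact sum_congr rfl fun v hv => by rw [if_pos hv]
    · intro v _ hv
      rw [if_neg hv]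
      norm_num
  simp_rw [e1] at h1
  rw [e2] at h1
  calc ∑ u ∈ T, (∑ v ∈ T', Mx G d u v * x v) ^ 2
      ≤ ∑ u ∈ S, (∑ v ∈ T', Mx G d u v * x v) ^ 2 :=
        sum_le_sum_of_subset_of_nonneg hS fun _ _ _ => sq_nonneg _
    _ ≤ Λ * ∑ v ∈ T', x v ^ 2 := h1
    _ ≤ Λ' * ∑ v ∈ T', x v ^ 2 :=
        mul_le_mul_of_nonneg_right hΛ (sum_nonneg fun _ _ => sq_nonneg _)

theorem NB.symm {V : Type} [Fintype V] [DecidableEq V] {G : SimpleGraph V} [DecidableRel G.Adj]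
    {d : ℕ} {S S' : Finset V} {Λ : ℝ} (h : NB G d S S' Λ) (hΛ : 0 ≤ Λ) : NB G d S' S Λ := by
  intro x
  set y : V → ℝ := fun v => ∑ u ∈ S, Mx G d v u * x u with hy
  have h1 : ∑ v ∈ S', y v ^ 2 = ∑ u ∈ S, x u * (∑ v ∈ S', Mx G d u v * y v) := by
    have : ∀ v, y v ^ 2 = ∑ u ∈ S, x u * (Mx G d u v * y v) := by
      intro v
      rw [sq]
      nth_rewrite 1 [hy]
      rw [sum_mul]
      exact sum_congr rfl fun u _ => by rw [Mx_symm G d v u]; ring
    simp_rw [this]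
    rw [sum_comm]
    exact sum_congr rfl fun u _ => by rw [mul_sum]
  have h2 : (∑ u ∈ S, x u * (∑ v ∈ S', Mx G d u v * y v)) ^ 2 ≤
      (∑ u ∈ S, x u ^ 2) * ∑ u ∈ S, (∑ v ∈ S', Mx G d u v * y v) ^ 2 :=
    sum_mul_sq_le_sq_mul_sq _ _ _
  rw [← h1] at h2
  have h3 := h y
  have hF : 0 ≤ ∑ u ∈ S, x u ^ 2 := sum_nonneg fun _ _ => sq_nonneg _
  have hY : 0 ≤ ∑ v ∈ S', y v ^ 2 := sum_nonneg fun _ _ => sq_nonneg _
  have h4 : (∑ v ∈ S', y v ^ 2) ^ 2 ≤ (∑ u ∈ S, x u ^ 2) * (Λ * ∑ v ∈ S', y v ^ 2) :=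
    h2.trans (mul_le_mul_of_nonneg_left h3 hF)
  change ∑ v ∈ S', y v ^ 2 ≤ Λ * ∑ u ∈ S, x u ^ 2
  rcases hY.eq_or_lt with h0 | h0
  · rw [← h0]
    exact mul_nonneg hΛ hF
  · have : (∑ v ∈ S', y v ^ 2) * (∑ v ∈ S', y v ^ 2) ≤
        (Λ * ∑ u ∈ S, x u ^ 2) * (∑ v ∈ S', y v ^ 2) := by
      nlinarith [h4]
    exact le_of_mul_le_mul_right this h0

/-- sums over a union of classes -/
theorem union_sum_cls {V : Type} [Fintype V] {K : ℕ} (f : V → Fin K) (I : Finset (Fin K))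
    (g : V → ℝ) : ∑ v ∈ cls f I, g v = ∑ i ∈ I, ∑ v ∈ cls f {i}, g v := by
  classical
  have h1 : ∀ i, ∑ v ∈ cls f {i}, g v = ∑ v, if f v = i then g v else 0 := by
    intro i
    unfold cls
    rw [sum_filter]
    exact sum_congr rfl fun v _ => by simp only [mem_singleton]
  simp_rw [h1]
  rw [sum_comm]
  unfold cls
  rw [sum_filter]
  refine sum_congr rfl fun v _ => ?_
  rw [sum_ite_eq]

theorem union_card_cls {V : Type} [Fintype V] [DecidableEq V] {K : ℕ} (f : V → Fin K)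
    (I : Finset (Fin K)) (F : Finset V) :
    ((F ∩ cls f I).card : ℝ) = ∑ i ∈ I, ((F ∩ cls f {i}).card : ℝ) := by
  have h1 : ∀ J : Finset (Fin K), ((F ∩ cls f J).card : ℝ) =
      ∑ v ∈ cls f J, (if v ∈ F then (1 : ℝ) else 0) := by
    intro J
    rw [sum_ite, sum_const_zero, add_zero, sum_const, nsmul_eq_mul, mul_one]
    congr 2
    ext v
    simp only [mem_inter, mem_filter]
    tauto
  rw [h1, union_sum_cls]
  exact sum_congr rfl fun i _ => (h1 {i}).symm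

theorem union_card_cls' {V : Type} [Fintype V] [DecidableEq V] {K : ℕ} (f : V → Fin K)
    (I : Finset (Fin K)) : ((cls f I).card : ℝ) = ∑ i ∈ I, ((cls f {i}).card : ℝ) := by
  have := union_card_cls f I univ
  simpa only [univ_inter] using this

/-- the off-diagonal part -/
theorem union_off {V : Type} [Fintype V] [DecidableEq V] {G : SimpleGraph V}
    [DecidableRel G.Adj] {d K : ℕ} {ε : ℝ} {f : V → Fin K} (h : Lab G d K ε f)
    (i : Fin K) (J : Finset (Fin K)) (hi : i ∉ J) (x : V → ℝ) :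
    ∑ u ∈ cls f {i}, (∑ v ∈ cls f J, Mx G d u v * x v) ^ 2 ≤
      J.card * (ε * d / K) ^ 2 * ∑ v ∈ cls f J, x v ^ 2 := by
  have h1 : ∀ u, (∑ v ∈ cls f J, Mx G d u v * x v) ^ 2 ≤
      J.card * ∑ j ∈ J, (∑ v ∈ cls f {j}, Mx G d u v * x v) ^ 2 := by
    intro u
    rw [union_sum_cls]
    exact sq_sum_le_card_mul_sum_sq
  calc ∑ u ∈ cls f {i}, (∑ v ∈ cls f J, Mx G d u v * x v) ^ 2
      ≤ ∑ u ∈ cls f {i}, (J.card : ℝ) * ∑ j ∈ J, (∑ v ∈ cls f {j}, Mx G d u v * x v) ^ 2 :=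
        sum_le_sum fun u _ => h1 u
    _ = J.card * ∑ j ∈ J, ∑ u ∈ cls f {i}, (∑ v ∈ cls f {j}, Mx G d u v * x v) ^ 2 := by
        rw [← mul_sum, sum_comm]
    _ ≤ J.card * ∑ j ∈ J, (ε * d / K) ^ 2 * ∑ v ∈ cls f {j}, x v ^ 2 := by
        refine mul_le_mul_of_nonneg_left (sum_le_sum fun j hj => ?_) (Nat.cast_nonneg _)
        exact h.two i j (fun e => hi (e ▸ hj)) x
    _ = J.card * (ε * d / K) ^ 2 * ∑ v ∈ cls f J, x v ^ 2 := by
        rw [← mul_sum, ← union_sum_cls, mul_assoc]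

theorem Lab.nb {V : Type} [Fintype V] [DecidableEq V] {G : SimpleGraph V} [DecidableRel G.Adj]
    {d K : ℕ} {ε : ℝ} {f : V → Fin K} (h : Lab G d K ε f) (hK : 1 ≤ K) (I J : Finset (Fin K)) :
    NB G d (cls f I) (cls f J) (2 * ((I.card : ℝ) * J.card / K ^ 2 + 1 / K) * (ε * d) ^ 2) := by
  intro x
  have hK0 : (0 : ℝ) < K := by exact_mod_cast hK
  have hsum : ∀ i, ∑ u ∈ cls f {i}, (∑ v ∈ cls f J, Mx G d u v * x v) ^ 2 ≤
      2 * (J.card * (ε * d / K) ^ 2 * ∑ v ∈ cls f J, x v ^ 2) +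
      2 * (if i ∈ J then (ε * d) ^ 2 / K * ∑ v ∈ cls f {i}, x v ^ 2 else 0) := by
    intro i
    by_cases hi : i ∈ J
    · rw [if_pos hi]
      have e1 : ∀ u, ∑ v ∈ cls f J, Mx G d u v * x v =
          ∑ v ∈ cls f (J.erase i), Mx G d u v * x v + ∑ v ∈ cls f {i}, Mx G d u v * x v := by
        intro u
        rw [union_sum_cls f J, union_sum_cls f (J.erase i), sum_erase_add _ _ hi]
      have e2 : ∀ u, (∑ v ∈ cls f J, Mx G d u v * x v) ^ 2 ≤
          2 * (∑ v ∈ cls f (J.erase i), Mx G d u v * x v) ^ 2 +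
          2 * (∑ v ∈ cls f {i}, Mx G d u v * x v) ^ 2 := by
        intro u
        rw [e1]
        nlinarith [sq_nonneg (∑ v ∈ cls f (J.erase i), Mx G d u v * x v -
          ∑ v ∈ cls f {i}, Mx G d u v * x v)]
      have e3 := union_off h i (J.erase i) (notMem_erase i J) x
      have e4 : NB G d (cls f {i}) (cls f {i}) ((ε * d) ^ 2 / K) :=
        (h.one i).mono (Subset.refl _) (subset_univ _) le_rfl
      have e5 := e4 x
      have e6 : ((J.erase i).card : ℝ) ≤ J.card := by exact_mod_cast card_erase_le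
      have e7 : ∑ v ∈ cls f (J.erase i), x v ^ 2 ≤ ∑ v ∈ cls f J, x v ^ 2 := by
        rw [union_sum_cls f J, union_sum_cls f (J.erase i)]
        exact sum_le_sum_of_subset_of_nonneg (erase_subset _ _)
          fun _ _ _ => sum_nonneg fun _ _ => sq_nonneg _
      have e8 : ((J.erase i).card : ℝ) * (ε * d / K) ^ 2 * ∑ v ∈ cls f (J.erase i), x v ^ 2 ≤
          J.card * (ε * d / K) ^ 2 * ∑ v ∈ cls f J, x v ^ 2 := by
        refine mul_le_mul (mul_le_mul_of_nonneg_right e6 (sq_nonneg _)) e7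
          (sum_nonneg fun _ _ => sq_nonneg _) ?_
        positivity
      calc ∑ u ∈ cls f {i}, (∑ v ∈ cls f J, Mx G d u v * x v) ^ 2
          ≤ ∑ u ∈ cls f {i}, (2 * (∑ v ∈ cls f (J.erase i), Mx G d u v * x v) ^ 2 +
              2 * (∑ v ∈ cls f {i}, Mx G d u v * x v) ^ 2) := sum_le_sum fun u _ => e2 u
        _ = 2 * ∑ u ∈ cls f {i}, (∑ v ∈ cls f (J.erase i), Mx G d u v * x v) ^ 2 +
              2 * ∑ u ∈ cls f {i}, (∑ v ∈ cls f {i}, Mx G d u v * x v) ^ 2 := by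
            rw [sum_add_distrib, mul_sum, mul_sum]
        _ ≤ _ := by linarith
    · rw [if_neg hi]
      have e3 := union_off h i J hi x
      have e9 : 0 ≤ J.card * (ε * d / K) ^ 2 * ∑ v ∈ cls f J, x v ^ 2 :=
        mul_nonneg (by positivity) (sum_nonneg fun _ _ => sq_nonneg _)
      linarith
  have hX : 0 ≤ ∑ v ∈ cls f J, x v ^ 2 := sum_nonneg fun _ _ => sq_nonneg _
  have hdiag : ∑ i ∈ I, (if i ∈ J then (ε * d) ^ 2 / K * ∑ v ∈ cls f {i}, x v ^ 2 else 0) ≤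
      (ε * d) ^ 2 / K * ∑ v ∈ cls f J, x v ^ 2 := by
    rw [← sum_filter, ← mul_sum]
    refine mul_le_mul_of_nonneg_left ?_ (by positivity)
    rw [union_sum_cls f J]
    exact sum_le_sum_of_subset_of_nonneg (fun i hi => (mem_filter.1 hi).2)
      fun _ _ _ => sum_nonneg fun _ _ => sq_nonneg _
  calc ∑ u ∈ cls f I, (∑ v ∈ cls f J, Mx G d u v * x v) ^ 2
      = ∑ i ∈ I, ∑ u ∈ cls f {i}, (∑ v ∈ cls f J, Mx G d u v * x v) ^ 2 := union_sum_cls f I _
    _ ≤ ∑ i ∈ I, (2 * (J.card * (ε * d / K) ^ 2 * ∑ v ∈ cls f J, x v ^ 2) +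
      2 * (if i ∈ J then (ε * d) ^ 2 / K * ∑ v ∈ cls f {i}, x v ^ 2 else 0)) :=
        sum_le_sum fun i _ => hsum i
    _ = I.card * (2 * (J.card * (ε * d / K) ^ 2 * ∑ v ∈ cls f J, x v ^ 2)) +
      2 * ∑ i ∈ I, (if i ∈ J then (ε * d) ^ 2 / K * ∑ v ∈ cls f {i}, x v ^ 2 else 0) := by
        rw [sum_add_distrib, sum_const, nsmul_eq_mul, ← mul_sum]
    _ ≤ I.card * (2 * (J.card * (ε * d / K) ^ 2 * ∑ v ∈ cls f J, x v ^ 2)) +
      2 * ((ε * d) ^ 2 / K * ∑ v ∈ cls f J, x v ^ 2) := by linarith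
    _ = 2 * ((I.card : ℝ) * J.card / K ^ 2 + 1 / K) * (ε * d) ^ 2 * ∑ v ∈ cls f J, x v ^ 2 := by
        field_simp

theorem Lab.nb_disj {V : Type} [Fintype V] [DecidableEq V] {G : SimpleGraph V}
    [DecidableRel G.Adj] {d K : ℕ} {ε : ℝ} {f : V → Fin K} (h : Lab G d K ε f) (hK : 1 ≤ K)
    (I J : Finset (Fin K)) (hIJ : Disjoint I J) :
    NB G d (cls f I) (cls f J) ((I.card : ℝ) * J.card / K ^ 2 * (ε * d) ^ 2) := by
  intro x
  have hK0 : (0 : ℝ) < K := by exact_mod_cast hK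
  calc ∑ u ∈ cls f I, (∑ v ∈ cls f J, Mx G d u v * x v) ^ 2
      = ∑ i ∈ I, ∑ u ∈ cls f {i}, (∑ v ∈ cls f J, Mx G d u v * x v) ^ 2 := union_sum_cls f I _
    _ ≤ ∑ i ∈ I, J.card * (ε * d / K) ^ 2 * ∑ v ∈ cls f J, x v ^ 2 :=
        sum_le_sum fun i hi => union_off h i J (disjoint_left.1 hIJ hi) x
    _ = (I.card : ℝ) * J.card / K ^ 2 * (ε * d) ^ 2 * ∑ v ∈ cls f J, x v ^ 2 := by
        rw [sum_const, nsmul_eq_mul]
        field_simp

theorem Lab.card_lower {V : Type} [Fintype V] [DecidableEq V] {G : SimpleGraph V}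
    [DecidableRel G.Adj] {d K : ℕ} {ε : ℝ} {f : V → Fin K} (h : Lab G d K ε f)
    (I : Finset (Fin K)) : (I.card : ℝ) * Fintype.card V ≤ 2 * K * (cls f I).card := by
  rw [union_card_cls' f I, mul_sum, ← nsmul_eq_mul, ← sum_const]
  exact sum_le_sum fun i _ => (h.size i).1

theorem Lab.card_upper {V : Type} [Fintype V] [DecidableEq V] {G : SimpleGraph V}
    [DecidableRel G.Adj] {d K : ℕ} {ε : ℝ} {f : V → Fin K} (h : Lab G d K ε f)
    (I : Finset (Fin K)) : (K : ℝ) * (cls f I).card ≤ 2 * I.card * Fintype.card V := by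
  rw [union_card_cls' f I, mul_sum]
  calc ∑ i ∈ I, (K : ℝ) * (cls f {i}).card ≤ ∑ _i ∈ I, 2 * (Fintype.card V : ℝ) :=
        sum_le_sum fun i _ => (h.size i).2
    _ = 2 * I.card * Fintype.card V := by
        rw [sum_const, nsmul_eq_mul]
        ring

theorem Lab.deg_lower {V : Type} [Fintype V] [DecidableEq V] {G : SimpleGraph V}
    [DecidableRel G.Adj] {d K : ℕ} {ε : ℝ} {f : V → Fin K} (h : Lab G d K ε f)
    (I : Finset (Fin K)) (v : V) :
    (I.card : ℝ) * d ≤ 2 * K * (G.neighborFinset v ∩ cls f I).card := by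
  rw [union_card_cls f I, mul_sum, ← nsmul_eq_mul, ← sum_const]
  exact sum_le_sum fun i _ => (h.deg v i).1

theorem Lab.deg_upper {V : Type} [Fintype V] [DecidableEq V] {G : SimpleGraph V}
    [DecidableRel G.Adj] {d K : ℕ} {ε : ℝ} {f : V → Fin K} (h : Lab G d K ε f)
    (I : Finset (Fin K)) (v : V) :
    (K : ℝ) * (G.neighborFinset v ∩ cls f I).card ≤ 9 * I.card * d := by
  rw [union_card_cls f I, mul_sum]
  calc ∑ i ∈ I, (K : ℝ) * (G.neighborFinset v ∩ cls f {i}).card ≤ ∑ _i ∈ I, 9 * (d : ℝ) :=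
        sum_le_sum fun i _ => (h.deg v i).2
    _ = 9 * I.card * d := by
        rw [sum_const, nsmul_eq_mul]
        ring

end Pool.Agent.HDT
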