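import Pool.Agent.HDT.Stage
import Pool.Agent.HDT.Union

/-!
MP_134267_co, Theorem HDT, row R12 (helper28): the label form of a stage.
-/

namespace Pool.Agent.HDT

open Finset Pool.Agent.HD

/-- monotonicity of `cls` -/
theorem stage_lab_cls_mono {V : Type} [Fintype V] {K : ℕ} {f : V → Fin K}
    {I J : Finset (Fin K)} (h : I ⊆ J) : cls f I ⊆ cls f J := by
  intro v hv
  rw [cls, mem_filter] at hv ⊢
  exact ⟨hv.1, h hv.2⟩

theorem stage_lab_disj {V : Type} [Fintype V] {K : ℕ} {f : V → Fin K}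
    {I J : Finset (Fin K)} (h : Disjoint I J) : Disjoint (cls f I) (cls f J) := by
  rw [Finset.disjoint_left] at h ⊢
  intro v hv hv'
  rw [cls, mem_filter] at hv hv'
  exact h hv.2 hv'.2

/-- small inequalities, in their own contexts -/
theorem stage_lab_div {x s T n K a : ℝ} (hK : 0 < K) (hn : 0 < n) (hx : x ≤ s)
    (hs : s * n ≤ a * T * K) : x / K ≤ a * (T / n) := by
  rw [div_le_iff₀ hK, show a * (T / n) * K = (a * T * K) / n by ring, le_div_iff₀ hn]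
  exact (mul_le_mul_of_nonneg_right hx hn.le).trans hs

theorem stage_lab_num {K T d : ℝ} (h : 0 ≤ K * T * d) :
    9 * d * (20 * (K * T)) ≤ 1000 * T * d * K := by nlinarith

theorem stage_lab_sq (x : ℝ) : 6 / 10 ^ 10 * 1 ^ 2 * x ^ 2 ≤ (x / 1000) ^ 2 := by
  nlinarith [sq_nonneg x]

theorem stage_lab_sub {ι : Type} [DecidableEq ι] (a b c d : Finset ι) :
    a ⊆ a ∪ b ∪ c ∪ d ∧ b ∪ d ⊆ a ∪ b ∪ c ∪ d ∧ c ∪ d ⊆ a ∪ b ∪ c ∪ d ∧
      c ⊆ b ∪ c ∪ a := by
  refine ⟨?_, ?_, ?_, ?_⟩ <;> (intro i hi; simp only [mem_union] at hi ⊢; tauto)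

theorem stage_lab {V : Type} [Fintype V] [DecidableEq V] (G : SimpleGraph V)
    [DecidableRel G.Adj] {d K : ℕ} {ε : ℝ} {f : V → Fin K} (hL : Lab G d K ε f)
    (hd1 : 1 ≤ d) (hdn : d ≤ Fintype.card V) (hK : 1 ≤ K) (T κ Q ℓ sp : ℕ) (hT : 1 ≤ T)
    (hκ : 1 ≤ κ) (hQ : 1 ≤ Q) (hωT : (2 * κ + 1) * T ≤ Fintype.card V) (hε0 : 0 ≤ ε)
    (hε : 100000 * ε ≤ 1) (Is Ip Ig IR Ico Ice Iw : Finset (Fin K)) (A₀ A₁ Tg A Wp : Finset V)
    (hA₀ : cls f Is ⊆ A₀) (hA₀' : A₀ ⊆ cls f (Is ∪ Ig)) (hA₁ : cls f Ip ⊆ A₁)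
    (hA₁' : A₁ ⊆ cls f (Ip ∪ Ig)) (hTg : Tg ⊆ cls f Ig) (hCo : cls f Ico ⊆ A)
    (hCe : cls f Ice ⊆ A) (hIoe : Disjoint Ico Ice) (hAR : A ⊆ cls f IR) (hWp : Wp ⊆ cls f IR)
    (hnd : (A₀.val + A₁.val + Tg.val + A.val + Wp.val + (cls f Iw).val).Nodup)
    (hA₀c : A₀.card = T) (hA₁c : A₁.card = T) (hTgc : Tg.card = T)
    (hA : A.card + Wp.card = (2 * κ + 1) * T + sp)
    (c1 : 2 * Ico.card * Fintype.card V ≤ K * (κ * T))
    (c1' : 2 * Ice.card * Fintype.card V ≤ K * (κ * T))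
    (c2 : (2 * κ + 1) * T * K ≤ 20 * Ico.card * Fintype.card V)
    (c2' : (2 * κ + 1) * T * K ≤ 20 * Ice.card * Fintype.card V)
    (c3 : (IR ∪ Is ∪ Ip ∪ Ig).card * Fintype.card V ≤ 3 * ((2 * κ + 1) * T) * K)
    (c4 : K * T ≤ 40 * Is.card * Fintype.card V) (c4' : K * T ≤ 40 * Ip.card * Fintype.card V)
    (c5 : (Is.card + Ig.card) * Fintype.card V ≤ 20 * (K * T))
    (c5' : (Ip.card + Ig.card) * Fintype.card V ≤ 20 * (K * T))
    (c6 : Fintype.card V ^ 2 ≤ 90 * ((2 * κ + 1) * T) * T * K)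
    (c6' : Fintype.card V ^ 2 ≤ ((2 * κ + 1) * T) ^ 2 * K)
    (c7 : Ip.card + Ig.card ≤ Iw.card) (c8 : K ≤ Iw.card ^ 2)
    (c9 : 400 * K ≤ Iw.card * Fintype.card V)
    (c10 : 10 * (T * ℓ) * K ≤ Iw.card * Fintype.card V)
    (hP : 10 ^ 12 * (Q : ℝ) * Fintype.card V ≤ d * T)
    (hQ8 : 4 * ((Fintype.card V : ℝ) + 1) * Fintype.card V * Fintype.card V ≤ 8 ^ Q)
    (h3 : 4 * ((κ : ℝ) + 2) < Real.exp ((κ * T : ℝ) / (4 * (κ + 2) ^ 3)))
    (hℓ : 2 * Nat.clog 2 (Fintype.card V) + 2 ≤ ℓ)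
    (σ τ : Fin T → V) (hσ : ∑ x, ({σ x} : Multiset V) = A₀.val)
    (hτ : ∑ x, ({τ x} : Multiset V) = Tg.val) :
    ∀ S ⊆ Wp, S.card = sp → ∃ S' ⊆ cls f Iw, S'.card = T * ℓ ∧
      Lk G.Adj (A₀ ∪ A₁ ∪ Tg ∪ A ∪ (Wp \ S) ∪ S') σ τ (fun _ => 2 * κ + 4 + ℓ) := by
  classical
  have hn1 : 1 ≤ Fintype.card V := hd1.trans hdn
  have hn0 : (0 : ℝ) < Fintype.card V := by exact_mod_cast hn1
  have hK0 : (0 : ℝ) < K := by exact_mod_cast hK
  have hT0 : (0 : ℝ) < T := by exact_mod_cast hT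
  have hd0 : (0 : ℝ) < d := by exact_mod_cast hd1
  have hc0 : (0 : ℝ) < 2 * κ + 1 := by positivity
  have r1 : 2 * (Ico.card : ℝ) * Fintype.card V ≤ K * (κ * T) := by exact_mod_cast c1
  have r1' : 2 * (Ice.card : ℝ) * Fintype.card V ≤ K * (κ * T) := by exact_mod_cast c1'
  have r2 : (2 * (κ : ℝ) + 1) * T * K ≤ 20 * Ico.card * Fintype.card V := by exact_mod_cast c2
  have r2' : (2 * (κ : ℝ) + 1) * T * K ≤ 20 * Ice.card * Fintype.card V := by exact_mod_cast c2'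
  have r3 : ((IR ∪ Is ∪ Ip ∪ Ig).card : ℝ) * Fintype.card V ≤ 3 * ((2 * κ + 1) * T) * K := by
    exact_mod_cast c3
  have r4 : (K : ℝ) * T ≤ 40 * Is.card * Fintype.card V := by exact_mod_cast c4
  have r4' : (K : ℝ) * T ≤ 40 * Ip.card * Fintype.card V := by exact_mod_cast c4'
  have r5 : ((Is.card : ℝ) + Ig.card) * Fintype.card V ≤ 20 * (K * T) := by exact_mod_cast c5
  have r5' : ((Ip.card : ℝ) + Ig.card) * Fintype.card V ≤ 20 * (K * T) := by exact_mod_cast c5'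
  have r6 : (Fintype.card V : ℝ) ^ 2 ≤ 90 * ((2 * κ + 1) * T) * T * K := by exact_mod_cast c6
  have r6' : (Fintype.card V : ℝ) ^ 2 ≤ ((2 * κ + 1) * T) ^ 2 * K := by exact_mod_cast c6'
  have r7 : (Ip.card : ℝ) + Ig.card ≤ Iw.card := by exact_mod_cast c7
  have r8 : (K : ℝ) ≤ (Iw.card : ℝ) ^ 2 := by exact_mod_cast c8
  have r9 : 400 * (K : ℝ) ≤ Iw.card * Fintype.card V := by exact_mod_cast c9
  have r10 : 10 * ((T : ℝ) * ℓ) * K ≤ Iw.card * Fintype.card V := by exact_mod_cast c10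
  have rω : (2 * (κ : ℝ) + 1) * T ≤ Fintype.card V := by exact_mod_cast hωT
  -- the densities
  obtain ⟨ω, hωd⟩ : ∃ ω : ℝ, ω = (2 * κ + 1) * T / Fintype.card V := ⟨_, rfl⟩
  obtain ⟨p, hpd⟩ : ∃ p : ℝ, p = T / Fintype.card V := ⟨_, rfl⟩
  obtain ⟨w, hwd⟩ : ∃ w : ℝ, w = Iw.card / K := ⟨_, rfl⟩
  have hω : ω * Fintype.card V = (2 * κ + 1) * T := by rw [hωd]; field_simp
  have hp : p * Fintype.card V = T := by rw [hpd]; field_simp
  have hw : w * K = Iw.card := by rw [hwd]; field_simp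
  have hω0 : 0 < ω := by rw [hωd]; positivity
  have hp0 : 0 < p := by rw [hpd]; positivity
  have hw0 : 0 ≤ w := by rw [hwd]; positivity
  -- the numbers of labels as densities
  have hJ : ∀ I : Finset (Fin K), I ⊆ IR ∪ Is ∪ Ip ∪ Ig → (I.card : ℝ) / K ≤ 3 * ω := by
    intro I hI
    have h1 : (I.card : ℝ) ≤ (IR ∪ Is ∪ Ip ∪ Ig).card := by exact_mod_cast card_le_card hI
    rw [hωd]
    exact stage_lab_div hK0 hn0 h1 r3
  have hg : ∀ I : Finset (Fin K), ((I.card : ℝ) + Ig.card) * Fintype.card V ≤ 20 * (K * T) →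
      ((I ∪ Ig).card : ℝ) / K ≤ 20 * p := by
    intro I hI
    have h1 : ((I ∪ Ig).card : ℝ) ≤ I.card + Ig.card := by exact_mod_cast card_union_le _ _
    rw [hpd]
    refine stage_lab_div hK0 hn0 h1 (hI.trans (le_of_eq ?_))
    ring
  have hK1 : 1 / (K : ℝ) ≤ ω ^ 2 := by
    rw [hωd, div_pow, div_le_div_iff₀ hK0 (by positivity), one_mul]
    exact r6'
  have hK2 : 1 / (K : ℝ) ≤ 90 * (ω * p) := by
    rw [hωd, hpd, div_le_iff₀ hK0]
    rw [show 90 * ((2 * (κ : ℝ) + 1) * T / Fintype.card V * (T / Fintype.card V)) * K =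
      (90 * ((2 * κ + 1) * T) * T * K) / (Fintype.card V : ℝ) ^ 2 by field_simp]
    rw [le_div_iff₀ (by positivity), one_mul]
    exact r6
  have hK3 : 1 / (K : ℝ) ≤ w ^ 2 := by
    rw [hwd, div_pow, div_le_div_iff₀ hK0 (by positivity), one_mul, sq (K : ℝ)]
    exact mul_le_mul_of_nonneg_right r8 hK0.le
  -- degrees
  have hdlow : ∀ I : Finset (Fin K), (2 * (κ : ℝ) + 1) * T * K ≤ 20 * I.card * Fintype.card V →
      ∀ v, ω * d ≤ 40 * (G.neighborFinset v ∩ cls f I).card := by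
    intro I hI v
    have h1 := hL.deg_lower I v
    have h2 : ω * d * (Fintype.card V * K) ≤
        40 * (G.neighborFinset v ∩ cls f I).card * (Fintype.card V * K) := by
      calc ω * d * (Fintype.card V * K) = (2 * (κ : ℝ) + 1) * T * K * d := by
            rw [← hω]; ring
        _ ≤ 20 * I.card * Fintype.card V * d := mul_le_mul_of_nonneg_right hI hd0.le
        _ = 20 * Fintype.card V * (I.card * d) := by ring
        _ ≤ 20 * Fintype.card V * (2 * K * (G.neighborFinset v ∩ cls f I).card) :=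
            mul_le_mul_of_nonneg_left h1 (by positivity)
        _ = _ := by ring
    exact le_of_mul_le_mul_right h2 (by positivity)
  have hplow : ∀ (I : Finset (Fin K)) (B : Finset V), cls f I ⊆ B →
      (K : ℝ) * T ≤ 40 * I.card * Fintype.card V →
      ∀ v, (T : ℝ) * d ≤ 80 * Fintype.card V * (G.neighborFinset v ∩ B).card := by
    intro I B hIB hI v
    have h0 : ((G.neighborFinset v ∩ cls f I).card : ℝ) ≤ (G.neighborFinset v ∩ B).card := by
      exact_mod_cast card_le_card (inter_subset_inter (Subset.refl _) hIB)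
    have h1 := hL.deg_lower I v
    have h2 : (T : ℝ) * d * K ≤ 80 * Fintype.card V * (G.neighborFinset v ∩ B).card * K := by
      calc (T : ℝ) * d * K = K * T * d := by ring
        _ ≤ 40 * I.card * Fintype.card V * d := mul_le_mul_of_nonneg_right hI hd0.le
        _ = 40 * Fintype.card V * (I.card * d) := by ring
        _ ≤ 40 * Fintype.card V * (2 * K * (G.neighborFinset v ∩ cls f I).card) :=
            mul_le_mul_of_nonneg_left h1 (by positivity)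
        _ ≤ 40 * Fintype.card V * (2 * K * (G.neighborFinset v ∩ B).card) := by
            apply mul_le_mul_of_nonneg_left _ (by positivity)
            exact mul_le_mul_of_nonneg_left h0 (by positivity)
        _ = _ := by ring
    exact le_of_mul_le_mul_right h2 hK0
  have hpup : ∀ (I : Finset (Fin K)) (B : Finset V), B ⊆ cls f (I ∪ Ig) →
      ((I.card : ℝ) + Ig.card) * Fintype.card V ≤ 20 * (K * T) →
      ∀ v, (Fintype.card V : ℝ) * (G.neighborFinset v ∩ B).card ≤ 1000 * T * d := by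
    intro I B hIB hI v
    have h0 : ((G.neighborFinset v ∩ B).card : ℝ) ≤
        (G.neighborFinset v ∩ cls f (I ∪ Ig)).card := by
      exact_mod_cast card_le_card (inter_subset_inter (Subset.refl _) hIB)
    have h1 := hL.deg_upper (I ∪ Ig) v
    have h3 : ((I ∪ Ig).card : ℝ) ≤ I.card + Ig.card := by exact_mod_cast card_union_le _ _
    have h2 : (Fintype.card V : ℝ) * (G.neighborFinset v ∩ B).card * K ≤ 1000 * T * d * K := by
      calc (Fintype.card V : ℝ) * (G.neighborFinset v ∩ B).card * K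
          = Fintype.card V * (K * (G.neighborFinset v ∩ B).card) := by ring
        _ ≤ Fintype.card V * (K * (G.neighborFinset v ∩ cls f (I ∪ Ig)).card) := by
            apply mul_le_mul_of_nonneg_left _ hn0.le
            exact mul_le_mul_of_nonneg_left h0 hK0.le
        _ ≤ Fintype.card V * (9 * (I ∪ Ig).card * d) := mul_le_mul_of_nonneg_left h1 hn0.le
        _ ≤ Fintype.card V * (9 * (I.card + Ig.card) * d) := by
            apply mul_le_mul_of_nonneg_left _ hn0.le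
            apply mul_le_mul_of_nonneg_right _ hd0.le
            exact mul_le_mul_of_nonneg_left h3 (by norm_num)
        _ = 9 * d * ((I.card + Ig.card) * Fintype.card V) := by ring
        _ ≤ 9 * d * (20 * (K * T)) := mul_le_mul_of_nonneg_left hI (by positivity)
        _ ≤ 1000 * T * d * K := stage_lab_num (by positivity)
    exact le_of_mul_le_mul_right h2 hK0
  -- inclusions
  have hAWp : A ∪ Wp ⊆ cls f IR := union_subset hAR hWp
  have hcols : A₀ ∪ A₁ ∪ A ∪ Wp ⊆ cls f (IR ∪ Is ∪ Ip ∪ Ig) := by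
    obtain ⟨s1, s2, s3, -⟩ := stage_lab_sub IR Is Ip Ig
    exact union_subset (union_subset (union_subset (hA₀'.trans (stage_lab_cls_mono s2))
      (hA₁'.trans (stage_lab_cls_mono s3))) (hAR.trans (stage_lab_cls_mono s1)))
      (hWp.trans (stage_lab_cls_mono s1))
  have hIRsub : IR ⊆ IR ∪ Is ∪ Ip ∪ Ig := (stage_lab_sub IR Is Ip Ig).1
  have hJJ := hJ _ (Subset.refl _)
  have hJR := hJ _ hIRsub
  -- the norm of a pad
  have hpad : ∀ (I : Finset (Fin K)) (B : Finset V), B ⊆ cls f (I ∪ Ig) →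
      ((I.card : ℝ) + Ig.card) * Fintype.card V ≤ 20 * (K * T) →
      NB G d B (A₀ ∪ A₁ ∪ A ∪ Wp) (300 * ε ^ 2 * ω * (T / Fintype.card V) * d ^ 2) := by
    intro I B hB hI
    refine (hL.nb hK (I ∪ Ig) (IR ∪ Is ∪ Ip ∪ Ig)).mono hB hcols ?_
    have h1 := hg I hI
    rw [← hpd]
    have h2 : ((I ∪ Ig).card : ℝ) * (IR ∪ Is ∪ Ip ∪ Ig).card / K ^ 2 ≤ 60 * (ω * p) := by
      calc ((I ∪ Ig).card : ℝ) * (IR ∪ Is ∪ Ip ∪ Ig).card / K ^ 2
          = ((I ∪ Ig).card / K) * ((IR ∪ Is ∪ Ip ∪ Ig).card / K) := by field_simp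
        _ ≤ (20 * p) * (3 * ω) := mul_le_mul h1 hJJ (by positivity) (by positivity)
        _ = 60 * (ω * p) := by ring
    calc 2 * (((I ∪ Ig).card : ℝ) * (IR ∪ Is ∪ Ip ∪ Ig).card / K ^ 2 + 1 / K) * (ε * d) ^ 2
        ≤ 2 * (60 * (ω * p) + 90 * (ω * p)) * (ε * d) ^ 2 := by
          apply mul_le_mul_of_nonneg_right _ (sq_nonneg _)
          exact mul_le_mul_of_nonneg_left (add_le_add h2 hK2) (by norm_num)
      _ = 300 * ε ^ 2 * ω * p * d ^ 2 := by ring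
  refine stage G hd1 hdn T κ Q hT hκ hQ ω ε w hω ?_ hε0 hε A₀ A₁ Tg A Wp (cls f Iw) (cls f Ico)
    (cls f Ice) sp ℓ hnd hA₀c hA₁c hTgc hCo hCe (stage_lab_disj hIoe) ?_ ?_ hA
    (hdlow Ico r2) (hdlow Ice r2') ?_ (hplow Is A₀ hA₀ r4) (hplow Ip A₁ hA₁ r4')
    (hpup Is A₀ hA₀' r5) (hpup Ip A₁ hA₁' r5') ?_ (hpad Is A₀ hA₀' r5) (hpad Ip A₁ hA₁' r5')
    hP hQ8 h3 ?_ ?_ ?_ ?_ hℓ ?_ σ τ hσ hτ
  · rw [hωd, div_le_one hn0]
    exact rω
  · have h1 := hL.card_upper Ico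
    have h2 : (K : ℝ) * (cls f Ico).card ≤ K * (κ * T) := h1.trans r1
    have h4 := le_of_mul_le_mul_left h2 hK0
    exact_mod_cast h4
  · have h1 := hL.card_upper Ice
    have h2 : (K : ℝ) * (cls f Ice).card ≤ K * (κ * T) := h1.trans r1'
    have h4 := le_of_mul_le_mul_left h2 hK0
    have h5 : (cls f Ice).card ≤ κ * T := by exact_mod_cast h4
    refine h5.trans (Nat.mul_le_mul_right T (Nat.le_succ κ))
  · intro v
    have h0 : ((G.neighborFinset v ∩ (A ∪ Wp)).card : ℝ) ≤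
        (G.neighborFinset v ∩ cls f IR).card := by
      exact_mod_cast card_le_card (inter_subset_inter (Subset.refl _) hAWp)
    have h1 := hL.deg_upper IR v
    have h2 : (K : ℝ) * (G.neighborFinset v ∩ cls f IR).card ≤ K * (27 * ω * d) := by
      have h3 : (IR.card : ℝ) ≤ 3 * ω * K := by
        rw [div_le_iff₀ hK0] at hJR
        exact hJR
      calc (K : ℝ) * (G.neighborFinset v ∩ cls f IR).card ≤ 9 * IR.card * d := h1
        _ ≤ 9 * (3 * ω * K) * d := by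
            apply mul_le_mul_of_nonneg_right _ hd0.le
            exact mul_le_mul_of_nonneg_left h3 (by norm_num)
        _ = K * (27 * ω * d) := by ring
    exact h0.trans (le_of_mul_le_mul_left h2 hK0)
  · refine (hL.nb hK IR (IR ∪ Is ∪ Ip ∪ Ig)).mono hAWp hcols ?_
    have h2 : (IR.card : ℝ) * (IR ∪ Is ∪ Ip ∪ Ig).card / K ^ 2 ≤ 9 * ω ^ 2 := by
      calc (IR.card : ℝ) * (IR ∪ Is ∪ Ip ∪ Ig).card / K ^ 2
          = (IR.card / K) * ((IR ∪ Is ∪ Ip ∪ Ig).card / K) := by field_simp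
        _ ≤ (3 * ω) * (3 * ω) := mul_le_mul hJR hJJ (by positivity) (by positivity)
        _ = 9 * ω ^ 2 := by ring
    calc 2 * ((IR.card : ℝ) * (IR ∪ Is ∪ Ip ∪ Ig).card / K ^ 2 + 1 / K) * (ε * d) ^ 2
        ≤ 2 * (9 * ω ^ 2 + ω ^ 2) * (ε * d) ^ 2 := by
          apply mul_le_mul_of_nonneg_right _ (sq_nonneg _)
          exact mul_le_mul_of_nonneg_left (add_le_add h2 hK1) (by norm_num)
      _ = 20 * (ε * ω * d) ^ 2 := by ring
  · rw [hwd, div_mul_eq_mul_div, le_div_iff₀ hK0]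
    exact r9
  · have h1 := hL.card_lower Iw
    rw [hwd, div_mul_eq_mul_div, div_le_iff₀ hK0]
    linarith only [h1]
  · intro v
    have h1 := hL.deg_lower Iw v
    rw [hwd, div_mul_eq_mul_div, div_le_iff₀ hK0]
    linarith only [h1]
  · have hrows : A₁ ∪ Tg ∪ cls f Iw ⊆ cls f (Ip ∪ Ig ∪ Iw) := by
      refine union_subset (union_subset ?_ ?_) ?_
      · exact hA₁'.trans (stage_lab_cls_mono subset_union_left)
      · exact hTg.trans (stage_lab_cls_mono (stage_lab_sub Iw Ip Ig ∅).2.2.2)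
      · exact stage_lab_cls_mono subset_union_right
    refine (hL.nb hK (Ip ∪ Ig ∪ Iw) Iw).mono hrows (Subset.refl _) ?_
    have h1 : ((Ip ∪ Ig ∪ Iw).card : ℝ) ≤ 2 * Iw.card := by
      have h2 : (Ip ∪ Ig ∪ Iw).card ≤ Ip.card + Ig.card + Iw.card :=
        (card_union_le _ _).trans (Nat.add_le_add_right (card_union_le _ _) _)
      have h3 : ((Ip ∪ Ig ∪ Iw).card : ℝ) ≤ Ip.card + Ig.card + Iw.card := by exact_mod_cast h2
      linarith only [h3, r7]
    have h2 : ((Ip ∪ Ig ∪ Iw).card : ℝ) * Iw.card / K ^ 2 ≤ 2 * w ^ 2 := by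
      rw [hwd, div_pow, ← mul_div_assoc]
      apply div_le_div_of_nonneg_right _ (by positivity)
      refine (mul_le_mul_of_nonneg_right h1 (Nat.cast_nonneg _)).trans (le_of_eq ?_)
      ring
    have h4 : (100000 * ε) ^ 2 ≤ 1 ^ 2 := pow_le_pow_left₀ (by positivity) hε 2
    calc 2 * (((Ip ∪ Ig ∪ Iw).card : ℝ) * Iw.card / K ^ 2 + 1 / K) * (ε * d) ^ 2
        ≤ 2 * (2 * w ^ 2 + w ^ 2) * (ε * d) ^ 2 := by
          apply mul_le_mul_of_nonneg_right _ (sq_nonneg _)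
          exact mul_le_mul_of_nonneg_left (add_le_add h2 hK3) (by norm_num)
      _ = 6 / 10 ^ 10 * (100000 * ε) ^ 2 * (w * d) ^ 2 := by ring
      _ ≤ 6 / 10 ^ 10 * 1 ^ 2 * (w * d) ^ 2 := by
          apply mul_le_mul_of_nonneg_right _ (sq_nonneg _)
          exact mul_le_mul_of_nonneg_left h4 (by norm_num)
      _ ≤ (w * d / 1000) ^ 2 := stage_lab_sq (w * d)
  · rw [hwd, div_mul_eq_mul_div, le_div_iff₀ hK0]
    exact r10

end Pool.Agent.HDT
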