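import Pool.Agent.HDT.ParamsDef
import Pool.Agent.HDT.StageLab

/-!
MP_134267_co, Theorem HDT, row R14 part 1 (helper88): the stages with the actual numbers.
-/

set_option autoImplicit false

namespace Pool.Agent.HDT

open Finset Pool.Agent.HD

/-- monotonicity of the last numerical condition -/
theorem exp3_mono {κ μ T : ℕ} (hT : μ ≤ T)
    (h : 4 * ((κ : ℝ) + 2) < Real.exp ((κ * μ : ℝ) / (4 * (κ + 2) ^ 3))) :
    4 * ((κ : ℝ) + 2) < Real.exp ((κ * T : ℝ) / (4 * (κ + 2) ^ 3)) := by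
  refine h.trans_le (Real.exp_le_exp.2 ?_)
  refine div_le_div_of_nonneg_right ?_ (by positivity)
  have : (μ : ℝ) ≤ T := by exact_mod_cast hT
  exact mul_le_mul_of_nonneg_left this (Nat.cast_nonneg _)

/-- the `8 ^ Q` condition of a stage -/
theorem q8_stage {n Q : ℕ} (hn : 10 ^ 6 ≤ n) (h : 16 * (n : ℝ) ^ 3 ≤ 8 ^ Q) :
    4 * ((n : ℝ) + 1) * n * n ≤ 8 ^ Q := by
  refine le_trans ?_ h
  have h1 : (1 : ℝ) ≤ n := by exact_mod_cast (le_trans (by norm_num) hn)
  have h2 : (n : ℝ) + 1 ≤ 2 * n := by linarith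
  calc 4 * ((n : ℝ) + 1) * n * n ≤ 4 * (2 * n) * n * n := by gcongr
    _ = 8 * (n : ℝ) ^ 3 := by ring
    _ ≤ 16 * (n : ℝ) ^ 3 := by
      have : (0 : ℝ) ≤ (n : ℝ) ^ 3 := by positivity
      linarith

/-- the density condition `hP` of a stage -/
theorem hP_stage {n d K Q μ u T : ℕ} (hu : 1 ≤ u) (hT : μ ≤ T) (h1 : 1600 * u * n ≤ K * μ)
    (h2 : 10 ^ 13 * Q * K ≤ d) :
    10 ^ 12 * (Q : ℝ) * n ≤ d * T := by
  have h3 : 10 ^ 12 * Q * n ≤ d * T := by
    have e1 : 10 ^ 13 * Q * K * μ ≤ d * μ := Nat.mul_le_mul_right _ h2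
    have e2 : d * μ ≤ d * T := Nat.mul_le_mul_left _ hT
    have e3 : n ≤ K * μ := by
      refine le_trans ?_ h1
      calc n = 1 * 1 * n := by ring
        _ ≤ 1600 * u * n := Nat.mul_le_mul_right _ (Nat.mul_le_mul (by norm_num) hu)
    have e4 : 10 ^ 12 * Q * n ≤ 10 ^ 12 * Q * (K * μ) := Nat.mul_le_mul_left _ e3
    have e5 : 10 ^ 12 * Q * (K * μ) ≤ 10 ^ 13 * Q * K * μ := by
      have : 10 ^ 13 * Q * K * μ = 10 * (10 ^ 12 * Q * (K * μ)) := by ring
      omega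
    omega
  exact_mod_cast h3

/-- a stage `i ≥ 1`: `T = c μ` tokens, unit `U = 100 c u`, next unit `c u` -/
theorem stage_pos {V : Type} [Fintype V] [DecidableEq V] (G : SimpleGraph V)
    [DecidableRel G.Adj] {d t : ℕ} {lam : ℝ} {h κ B K Q N μ u : ℕ}
    (P : ParamsT (Fintype.card V) d t lam h κ B K Q N μ u) {ε : ℝ} (hε0 : 0 ≤ ε)
    (hε : 100000 * ε ≤ 1) {f : V → Fin K} (hL : Lab G d K ε f) (c : ℕ) (hc : 1 ≤ c)
    (hcn : (2 * κ + 1) * (c * μ) ≤ Fintype.card V)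
    (L : Fin 7 → Finset (Fin K)) (Lp : Finset (Fin K))
    (l0 : (L 0).card = (2 * κ + 1) * (100 * c * u)) (l1 : (L 1).card = (2 * κ + 1) * (100 * c * u))
    (l2 : (L 2).card = 40 * ((2 * κ + 1) * (100 * c * u))) (l3 : (L 3).card = 4 * (100 * c * u))
    (l4 : (L 4).card = 4 * (100 * c * u)) (l5 : (L 5).card = 120 * (100 * c * u))
    (l6 : (L 6).card = (2 * κ + 1) * (c * u)) (lp : Lp.card = (2 * κ + 1) * (100 * c * u))
    (hdis : ∀ a b, a ≠ b → Disjoint (L a) (L b))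
    (A₀ A₁ Tg A : Finset V)
    (hA₀ : cls f (L 3) ⊆ A₀) (hA₀' : A₀ ⊆ cls f (L 3 ∪ L 5)) (hA₁ : cls f (L 4) ⊆ A₁)
    (hA₁' : A₁ ⊆ cls f (L 4 ∪ L 5)) (hTg : Tg ⊆ cls f (L 5)) (hCo : cls f (L 0) ⊆ A)
    (hCe : cls f (L 1) ⊆ A) (hAR : A ⊆ cls f (L 0 ∪ L 1 ∪ L 2))
    (hnd : (A₀.val + A₁.val + Tg.val + A.val + (cls f Lp).val + (cls f (L 6)).val).Nodup)
    (hA₀c : A₀.card = c * μ) (hA₁c : A₁.card = c * μ) (hTgc : Tg.card = c * μ) (sp : ℕ)
    (hA : A.card + (cls f Lp).card = (2 * κ + 1) * (c * μ) + sp)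
    (σ τ : Fin (c * μ) → V) (hσ : ∑ x, ({σ x} : Multiset V) = A₀.val)
    (hτ : ∑ x, ({τ x} : Multiset V) = Tg.val) :
    ∀ S ⊆ cls f Lp, S.card = sp → ∃ S' ⊆ cls f (L 6), S'.card = c * μ * (2 * h + 2) ∧
      Lk G.Adj (A₀ ∪ A₁ ∪ Tg ∪ A ∪ (cls f Lp \ S) ∪ S') σ τ
        (fun _ => 2 * κ + 4 + (2 * h + 2)) := by
  have hμc : μ ≤ c * μ := Nat.le_mul_of_pos_left _ hc
  have hT1 : 1 ≤ c * μ := le_trans P.hμ1 hμc
  have hk := P.hk
  have hκ1 : 1 ≤ κ := by
    by_contra hlt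
    have : κ = 0 := by omega
    subst this
    have : 2 ≤ 2 * h + 2 := by omega
    omega
  have hK1 : 1 ≤ K := by
    have := P.hKk
    omega
  have hd1 : 1 ≤ d := by
    have := P.hst
    have := P.ht
    omega
  -- the two basic products
  have ha := P.hKμ1
  have hb := P.hKμ2
  set n := Fintype.card V with hn
  have ha' : 1600 * (u * n) ≤ K * μ := by
    calc 1600 * (u * n) = 1600 * u * n := by ring
      _ ≤ _ := ha
  have hb' : K * μ ≤ 1700 * (u * n) := by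
    calc K * μ ≤ 1700 * u * n := hb
      _ = _ := by ring
  set a := K * μ with haa
  set b := u * n with hbb
  have key : ∀ x y : ℕ, x * b ≤ y * a → x * (c * b) ≤ y * (c * a) := by
    intro x y hxy
    calc x * (c * b) = c * (x * b) := by ring
      _ ≤ c * (y * a) := Nat.mul_le_mul_left _ hxy
      _ = y * (c * a) := by ring
  have key' : ∀ x y : ℕ, y * a ≤ x * b → y * (c * a) ≤ x * (c * b) := by
    intro x y hxy
    calc y * (c * a) = c * (y * a) := by ring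
      _ ≤ c * (x * b) := Nat.mul_le_mul_left _ hxy
      _ = x * (c * b) := by ring
  have eU : 100 * c * u * n = 100 * (c * b) := by rw [hbb]; ring
  have eT : K * (c * μ) = c * a := by rw [haa]; ring
  set k := 2 * κ + 1 with hkk
  have hkbig : 12400 ≤ k := by omega
  refine stage_lab G hL hd1 P.hdn hK1 (c * μ) κ Q (2 * h + 2) sp hT1 hκ1 P.hQ hcn hε0 hε
    (L 3) (L 4) (L 5) (L 0 ∪ L 1 ∪ L 2 ∪ Lp) (L 0) (L 1) (L 6) A₀ A₁ Tg A (cls f Lp)
    hA₀ hA₀' hA₁ hA₁' hTg hCo hCe (hdis 0 1 (by decide)) ?_ ?_ hnd hA₀c hA₁c hTgc hA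
    ?_ ?_ ?_ ?_ ?_ ?_ ?_ ?_ ?_ ?_ ?_ ?_ ?_ ?_ ?_
    (hP_stage P.hu1 hμc ha P.hdQK) (q8_stage P.hn P.hQ8) (exp3_mono hμc P.hexp3) (by rw [P.hh])
    σ τ hσ hτ
  · refine hAR.trans ?_
    intro v hv
    unfold cls at hv ⊢
    rw [mem_filter] at hv ⊢
    exact ⟨mem_univ _, mem_union_left _ hv.2⟩
  · intro v hv
    unfold cls at hv ⊢
    rw [mem_filter] at hv ⊢
    exact ⟨mem_univ _, mem_union_right _ hv.2⟩
  · -- c1
    rw [l0]
    have e1 : 2 * (k * (100 * c * u)) * n = 200 * (k * (c * b)) := by rw [hbb]; ring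
    have e2 : K * (κ * (c * μ)) = κ * (c * a) := by rw [haa]; ring
    rw [e1, e2]
    have e3 : 1600 * (c * b) ≤ 1 * (c * a) := key 1600 1 (by omega)
    calc 200 * (k * (c * b)) = (200 * k) * (c * b) := by ring
      _ ≤ (1600 * κ) * (c * b) := Nat.mul_le_mul_right _ (by omega)
      _ = κ * (1600 * (c * b)) := by ring
      _ ≤ κ * (1 * (c * a)) := Nat.mul_le_mul_left _ e3
      _ = κ * (c * a) := by ring
  · rw [l1]
    have e1 : 2 * (k * (100 * c * u)) * n = 200 * (k * (c * b)) := by rw [hbb]; ring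
    have e2 : K * (κ * (c * μ)) = κ * (c * a) := by rw [haa]; ring
    rw [e1, e2]
    have e3 : 1600 * (c * b) ≤ 1 * (c * a) := key 1600 1 (by omega)
    calc 200 * (k * (c * b)) = (200 * k) * (c * b) := by ring
      _ ≤ (1600 * κ) * (c * b) := Nat.mul_le_mul_right _ (by omega)
      _ = κ * (1600 * (c * b)) := by ring
      _ ≤ κ * (1 * (c * a)) := Nat.mul_le_mul_left _ e3
      _ = κ * (c * a) := by ring
  · -- c2
    rw [l0]
    have e1 : k * (c * μ) * K = k * (1 * (c * a)) := by rw [haa]; ring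
    have e2 : 20 * (k * (100 * c * u)) * n = k * (2000 * (c * b)) := by rw [hbb]; ring
    rw [e1, e2]
    exact Nat.mul_le_mul_left _ (key' 2000 1 (by omega))
  · rw [l1]
    have e1 : k * (c * μ) * K = k * (1 * (c * a)) := by rw [haa]; ring
    have e2 : 20 * (k * (100 * c * u)) * n = k * (2000 * (c * b)) := by rw [hbb]; ring
    rw [e1, e2]
    exact Nat.mul_le_mul_left _ (key' 2000 1 (by omega))
  · -- c3
    have e0 : (L 0 ∪ L 1 ∪ L 2 ∪ Lp ∪ L 3 ∪ L 4 ∪ L 5).card ≤ 44 * (k * (100 * c * u)) := by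
      have c1 := card_union_le (L 0) (L 1)
      have c2 := card_union_le (L 0 ∪ L 1) (L 2)
      have c3 := card_union_le (L 0 ∪ L 1 ∪ L 2) Lp
      have c4 := card_union_le (L 0 ∪ L 1 ∪ L 2 ∪ Lp) (L 3)
      have c5 := card_union_le (L 0 ∪ L 1 ∪ L 2 ∪ Lp ∪ L 3) (L 4)
      have c6 := card_union_le (L 0 ∪ L 1 ∪ L 2 ∪ Lp ∪ L 3 ∪ L 4) (L 5)
      rw [l0, l1] at c1
      rw [l2] at c2
      rw [lp] at c3
      rw [l3] at c4
      rw [l4] at c5
      rw [l5] at c6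
      have e5 : 128 * (100 * c * u) ≤ k * (100 * c * u) := Nat.mul_le_mul_right _ (by omega)
      omega
    calc (L 0 ∪ L 1 ∪ L 2 ∪ Lp ∪ L 3 ∪ L 4 ∪ L 5).card * n
        ≤ 44 * (k * (100 * c * u)) * n := Nat.mul_le_mul_right _ e0
      _ = k * (4400 * (c * b)) := by rw [hbb]; ring
      _ ≤ k * (3 * (c * a)) := Nat.mul_le_mul_left _ (key 4400 3 (by omega))
      _ = 3 * (k * (c * μ)) * K := by rw [haa]; ring
  · -- c4
    rw [l3, eT]
    calc c * a = 1 * (c * a) := by ring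
      _ ≤ 16000 * (c * b) := key' 16000 1 (by omega)
      _ = 40 * (4 * (100 * c * u)) * n := by rw [hbb]; ring
  · rw [l4, eT]
    calc c * a = 1 * (c * a) := by ring
      _ ≤ 16000 * (c * b) := key' 16000 1 (by omega)
      _ = 40 * (4 * (100 * c * u)) * n := by rw [hbb]; ring
  · -- c5
    rw [l3, l5, eT]
    calc (4 * (100 * c * u) + 120 * (100 * c * u)) * n = 12400 * (c * b) := by rw [hbb]; ring
      _ ≤ 20 * (c * a) := key 12400 20 (by omega)
  · rw [l4, l5, eT]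
    calc (4 * (100 * c * u) + 120 * (100 * c * u)) * n = 12400 * (c * b) := by rw [hbb]; ring
      _ ≤ 20 * (c * a) := key 12400 20 (by omega)
  · -- c6
    refine P.hKμ3.trans ?_
    calc 90 * (2 * κ + 1) * μ ^ 2 * K = 90 * (k * μ) * μ * K := by rw [hkk]; ring
      _ ≤ 90 * (k * (c * μ)) * (c * μ) * K := by gcongr
  · -- c6'
    refine P.hKμ3.trans ?_
    calc 90 * (2 * κ + 1) * μ ^ 2 * K = 90 * k * μ ^ 2 * K := by rw [hkk]
      _ ≤ k * k * (c * μ) ^ 2 * K := by gcongr; omega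
      _ = (k * (c * μ)) ^ 2 * K := by ring
  · -- c7
    rw [l4, l5, l6]
    calc 4 * (100 * c * u) + 120 * (100 * c * u) = 12400 * (c * u) := by ring
      _ ≤ k * (c * u) := Nat.mul_le_mul_right _ hkbig
  · -- c8
    rw [l6]
    refine P.hKu.trans ?_
    have : (2 * κ + 1) * u ≤ k * (c * u) := by
      rw [← hkk]
      exact Nat.mul_le_mul_left _ (Nat.le_mul_of_pos_left _ hc)
    exact Nat.pow_le_pow_left this 2
  · -- c9
    rw [l6]
    refine P.hK400.trans ?_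
    have : (2 * κ + 1) * u ≤ k * (c * u) := by
      rw [← hkk]
      exact Nat.mul_le_mul_left _ (Nat.le_mul_of_pos_left _ hc)
    exact Nat.mul_le_mul_right _ this
  · -- c10
    rw [l6]
    calc 10 * (c * μ * (2 * h + 2)) * K = (10 * (2 * h + 2)) * (1 * (c * a)) := by
          rw [haa]; ring
      _ ≤ (10 * (2 * h + 2)) * (1700 * (c * b)) := Nat.mul_le_mul_left _ (key' 1700 1 (by omega))
      _ = (17000 * (2 * h + 2)) * (c * b) := by ring
      _ ≤ k * (c * b) := Nat.mul_le_mul_right _ (by omega)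
      _ = k * (c * u) * n := by rw [hbb]; ring

/-- the stage `0`: `T` tokens with `n / 2 ≤ k T ≤ n`, everything else is `A` -/
theorem stage_zero {V : Type} [Fintype V] [DecidableEq V] (G : SimpleGraph V)
    [DecidableRel G.Adj] {d t : ℕ} {lam : ℝ} {h κ B K Q N μ u : ℕ}
    (P : ParamsT (Fintype.card V) d t lam h κ B K Q N μ u) {ε : ℝ} (hε0 : 0 ≤ ε)
    (hε : 100000 * ε ≤ 1) {f : V → Fin K} (hL : Lab G d K ε f) (T : ℕ)
    (hT1 : Fintype.card V ≤ 2 * ((2 * κ + 1) * T)) (hT2 : (2 * κ + 1) * T ≤ Fintype.card V)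
    (L : Fin 7 → Finset (Fin K))
    (l0 : (L 0).card = K / 10) (l1 : (L 1).card = K / 10)
    (l3 : (L 3).card = K / (8 * (2 * κ + 1)))
    (l4 : (L 4).card = K / (8 * (2 * κ + 1))) (l5 : (L 5).card = 8 * K / (2 * κ + 1) + 1)
    (l6 : (L 6).card = (2 * κ + 1) * (100 ^ N * u))
    (hdis : ∀ a b, a ≠ b → Disjoint (L a) (L b))
    (A₀ A₁ Tg A : Finset V)
    (hA₀ : cls f (L 3) ⊆ A₀) (hA₀' : A₀ ⊆ cls f (L 3 ∪ L 5)) (hA₁ : cls f (L 4) ⊆ A₁)
    (hA₁' : A₁ ⊆ cls f (L 4 ∪ L 5)) (hTg : Tg ⊆ cls f (L 5)) (hCo : cls f (L 0) ⊆ A)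
    (hCe : cls f (L 1) ⊆ A)
    (hnd : (A₀.val + A₁.val + Tg.val + A.val + (cls f (L 6)).val).Nodup)
    (hA₀c : A₀.card = T) (hA₁c : A₁.card = T) (hTgc : Tg.card = T)
    (hA : A.card = (2 * κ + 1) * T)
    (σ τ : Fin T → V) (hσ : ∑ x, ({σ x} : Multiset V) = A₀.val)
    (hτ : ∑ x, ({τ x} : Multiset V) = Tg.val) :
    ∃ S' ⊆ cls f (L 6), S'.card = T * (2 * h + 2) ∧
      Lk G.Adj (A₀ ∪ A₁ ∪ Tg ∪ A ∪ S') σ τ (fun _ => 2 * κ + 4 + (2 * h + 2)) := by
  have hk := P.hk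
  have hκ1 : 1 ≤ κ := by
    by_contra hlt
    have : κ = 0 := by omega
    subst this
    have : 2 ≤ 2 * h + 2 := by omega
    omega
  have hK1 : 1 ≤ K := by
    have := P.hKk
    omega
  have hd1 : 1 ≤ d := by
    have := P.hst
    have := P.ht
    omega
  have ha := P.hKμ1
  have hb := P.hKμ2
  have hn6 := P.hn
  have hKk := P.hKk
  have hN2 := P.hN2
  have hN1 := P.hN1
  have hN := P.hN
  set n := Fintype.card V with hn
  set k := 2 * κ + 1 with hkk
  have hkbig : 12400 ≤ k := by omega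
  have hT0 : 1 ≤ T := by
    by_contra hlt
    have : T = 0 := by omega
    subst this
    omega
  -- `μ ≤ T`
  have hpow : 100 ^ N = 100 * 100 ^ (N - 1) := by
    rw [← pow_succ']
    congr 1
    omega
  have hμT : μ ≤ T := by
    have e1 : k * μ ≤ k * 100 ^ (N - 1) * μ := by
      calc k * μ = k * 1 * μ := by ring
        _ ≤ _ := Nat.mul_le_mul_right _ (Nat.mul_le_mul_left _ (Nat.one_le_pow _ _ (by norm_num)))
    have e2 : k * μ * 2 ≤ n := by omega
    have e3 : k * μ ≤ k * T := by omega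
    exact Nat.le_of_mul_le_mul_left e3 (by omega)
  have hdiv8 : K / (8 * k) * (8 * k) ≤ K := Nat.div_mul_le_self _ _
  have hdiv8' : K < (K / (8 * k) + 1) * (8 * k) := Nat.lt_mul_of_div_lt (Nat.lt_succ_self _) (by omega)
  have hdivg : 8 * K / k * k ≤ 8 * K := Nat.div_mul_le_self _ _
  have hdivg' : 8 * K < (8 * K / k + 1) * k := Nat.lt_mul_of_div_lt (Nat.lt_succ_self _) (by omega)
  set s8 := K / (8 * k) with hs8
  set g8 := 8 * K / k with hg8
  have hs1 : K ≤ 9 * (s8 * k) := by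
    have e1 : (s8 + 1) * (8 * k) = 8 * (s8 * k) + 8 * k := by ring
    have e2 : s8 * (8 * k) = 8 * (s8 * k) := by ring
    omega
  have hs2 : 8 * (s8 * k) ≤ K := by
    have e2 : s8 * (8 * k) = 8 * (s8 * k) := by ring
    omega
  have hgk : (g8 + 1) * k = g8 * k + k := by ring
  have hemp : (∅ : Finset V) \ ∅ = ∅ := by simp
  have hmain := stage_lab G hL hd1 P.hdn hK1 T κ Q (2 * h + 2) 0 hT0 hκ1 P.hQ hT2 hε0 hε
    (L 3) (L 4) (L 5) univ (L 0) (L 1) (L 6) A₀ A₁ Tg A ∅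
    hA₀ hA₀' hA₁ hA₁' hTg hCo hCe (hdis 0 1 (by decide)) ?_ (empty_subset _) ?_ hA₀c hA₁c hTgc ?_
    ?_ ?_ ?_ ?_ ?_ ?_ ?_ ?_ ?_ ?_ ?_ ?_ ?_ ?_ ?_
    (hP_stage P.hu1 hμT ha P.hdQK) (q8_stage P.hn P.hQ8) (exp3_mono hμT P.hexp3) (by rw [P.hh])
    σ τ hσ hτ
  · obtain ⟨S', h1, h2, h3⟩ := hmain ∅ (empty_subset _) rfl
    refine ⟨S', h1, h2, ?_⟩
    rw [hemp, union_empty] at h3
    exact h3
  · intro v _
    unfold cls
    rw [mem_filter]
    exact ⟨mem_univ _, mem_univ _⟩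
  · rw [empty_val, add_zero]
    exact hnd
  · rw [card_empty, add_zero, hA]
    rfl
  · -- c1
    rw [l0]
    have e1 : 10 * (K / 10) ≤ K := Nat.mul_div_le _ _
    have e2 : n ≤ 5 * (κ * T) := by
      have e3 : k * T = 2 * (κ * T) + T := by rw [hkk]; ring
      have e4 : 2 * T ≤ κ * T := Nat.mul_le_mul_right _ (by omega)
      omega
    calc 2 * (K / 10) * n ≤ 2 * (K / 10) * (5 * (κ * T)) := Nat.mul_le_mul_left _ e2
      _ = (10 * (K / 10)) * (κ * T) := by ring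
      _ ≤ K * (κ * T) := Nat.mul_le_mul_right _ e1
  · rw [l1]
    have e1 : 10 * (K / 10) ≤ K := Nat.mul_div_le _ _
    have e2 : n ≤ 5 * (κ * T) := by
      have e3 : k * T = 2 * (κ * T) + T := by rw [hkk]; ring
      have e4 : 2 * T ≤ κ * T := Nat.mul_le_mul_right _ (by omega)
      omega
    calc 2 * (K / 10) * n ≤ 2 * (K / 10) * (5 * (κ * T)) := Nat.mul_le_mul_left _ e2
      _ = (10 * (K / 10)) * (κ * T) := by ring
      _ ≤ K * (κ * T) := Nat.mul_le_mul_right _ e1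
  · -- c2
    rw [l0]
    have e1 : K ≤ 20 * (K / 10) := by omega
    calc k * T * K ≤ n * (20 * (K / 10)) := Nat.mul_le_mul hT2 e1
      _ = 20 * (K / 10) * n := by ring
  · rw [l1]
    have e1 : K ≤ 20 * (K / 10) := by omega
    calc k * T * K ≤ n * (20 * (K / 10)) := Nat.mul_le_mul hT2 e1
      _ = 20 * (K / 10) * n := by ring
  · -- c3
    have e1 : ((univ : Finset (Fin K)) ∪ L 3 ∪ L 4 ∪ L 5).card ≤ K := by
      refine (card_le_univ _).trans ?_
      rw [Fintype.card_fin]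
    calc ((univ : Finset (Fin K)) ∪ L 3 ∪ L 4 ∪ L 5).card * n ≤ K * (3 * (k * T)) :=
          Nat.mul_le_mul e1 (by omega)
      _ = 3 * (k * T) * K := by ring
  · -- c4
    rw [l3]
    calc K * T ≤ 9 * (s8 * k) * T := Nat.mul_le_mul_right _ hs1
      _ = 9 * s8 * (k * T) := by ring
      _ ≤ 9 * s8 * n := Nat.mul_le_mul_left _ hT2
      _ ≤ 40 * s8 * n := Nat.mul_le_mul_right _ (Nat.mul_le_mul_right _ (by norm_num))
  · rw [l4]
    calc K * T ≤ 9 * (s8 * k) * T := Nat.mul_le_mul_right _ hs1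
      _ = 9 * s8 * (k * T) := by ring
      _ ≤ 9 * s8 * n := Nat.mul_le_mul_left _ hT2
      _ ≤ 40 * s8 * n := Nat.mul_le_mul_right _ (Nat.mul_le_mul_right _ (by norm_num))
  · -- c5
    rw [l3, l5]
    have e1 : (s8 + (g8 + 1)) * k ≤ 9 * K := by
      have : (s8 + (g8 + 1)) * k = s8 * k + (g8 + 1) * k := by ring
      omega
    calc (s8 + (g8 + 1)) * n ≤ (s8 + (g8 + 1)) * (2 * (k * T)) := Nat.mul_le_mul_left _ hT1
      _ = 2 * T * ((s8 + (g8 + 1)) * k) := by ring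
      _ ≤ 2 * T * (9 * K) := Nat.mul_le_mul_left _ e1
      _ = 18 * (K * T) := by ring
      _ ≤ 20 * (K * T) := Nat.mul_le_mul_right _ (by norm_num)
  · rw [l4, l5]
    have e1 : (s8 + (g8 + 1)) * k ≤ 9 * K := by
      have : (s8 + (g8 + 1)) * k = s8 * k + (g8 + 1) * k := by ring
      omega
    calc (s8 + (g8 + 1)) * n ≤ (s8 + (g8 + 1)) * (2 * (k * T)) := Nat.mul_le_mul_left _ hT1
      _ = 2 * T * ((s8 + (g8 + 1)) * k) := by ring
      _ ≤ 2 * T * (9 * K) := Nat.mul_le_mul_left _ e1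
      _ = 18 * (K * T) := by ring
      _ ≤ 20 * (K * T) := Nat.mul_le_mul_right _ (by norm_num)
  · -- c6
    refine P.hKμ3.trans ?_
    calc 90 * (2 * κ + 1) * μ ^ 2 * K = 90 * (k * μ) * μ * K := by rw [hkk]; ring
      _ ≤ 90 * (k * T) * T * K := by gcongr
  · -- c6'
    refine P.hKμ3.trans ?_
    calc 90 * (2 * κ + 1) * μ ^ 2 * K = 90 * k * μ ^ 2 * K := by rw [hkk]
      _ ≤ k * k * T ^ 2 * K := by gcongr; omega
      _ = (k * T) ^ 2 * K := by ring
  · -- c7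
    rw [l4, l5, l6]
    have e1 : (s8 + (g8 + 1)) * k ≤ 9 * K := by
      have : (s8 + (g8 + 1)) * k = s8 * k + (g8 + 1) * k := by ring
      omega
    -- `9 K ≤ k² U₁`
    have e2 : 9 * K ≤ k * (k * (100 ^ N * u)) := by
      have e3 : 9 * (K * μ) ≤ k * (k * (100 ^ N * u)) * μ := by
        have e4 : 15300 * n ≤ k * (k * 100 ^ N * μ) := by
          have e5 : n ≤ 10 ^ 5 * (k * 100 ^ N * μ) := by
            have : 10 ^ 5 * (k * 100 ^ N * μ) = k * 100 ^ (N - 1) * μ * 10 ^ 7 := by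
              rw [hpow]
              ring
            omega
          calc 15300 * n ≤ 15300 * (10 ^ 5 * (k * 100 ^ N * μ)) := Nat.mul_le_mul_left _ e5
            _ = 1530000000 * (k * 100 ^ N * μ) := by ring
            _ ≤ k * (k * 100 ^ N * μ) := Nat.mul_le_mul_right _ (by omega)
        calc 9 * (K * μ) ≤ 9 * (1700 * u * n) := Nat.mul_le_mul_left _ hb
          _ = u * (15300 * n) := by ring
          _ ≤ u * (k * (k * 100 ^ N * μ)) := Nat.mul_le_mul_left _ e4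
          _ = k * (k * (100 ^ N * u)) * μ := by ring
      have e6 : 9 * K * μ ≤ k * (k * (100 ^ N * u)) * μ := by
        calc 9 * K * μ = 9 * (K * μ) := by ring
          _ ≤ _ := e3
      exact Nat.le_of_mul_le_mul_right e6 P.hμ1
    have e7 : k * (s8 + (g8 + 1)) ≤ k * (k * (100 ^ N * u)) := by
      calc k * (s8 + (g8 + 1)) = (s8 + (g8 + 1)) * k := by ring
        _ ≤ 9 * K := e1
        _ ≤ _ := e2
    exact Nat.le_of_mul_le_mul_left e7 (by omega)
  · -- c8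
    rw [l6]
    refine P.hKu.trans ?_
    have : (2 * κ + 1) * u ≤ k * (100 ^ N * u) := by
      rw [← hkk]
      exact Nat.mul_le_mul_left _ (Nat.le_mul_of_pos_left _ (Nat.one_le_pow _ _ (by norm_num)))
    exact Nat.pow_le_pow_left this 2
  · -- c9
    rw [l6]
    refine P.hK400.trans ?_
    have : (2 * κ + 1) * u ≤ k * (100 ^ N * u) := by
      rw [← hkk]
      exact Nat.mul_le_mul_left _ (Nat.le_mul_of_pos_left _ (Nat.one_le_pow _ _ (by norm_num)))
    exact Nat.mul_le_mul_right _ this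
  · -- c10
    rw [l6]
    have e2 : 10 * (2 * h + 2) * K ≤ k * (k * (100 ^ N * u)) := by
      have e3 : 10 * (2 * h + 2) * (K * μ) ≤ k * (k * (100 ^ N * u)) * μ := by
        have e4 : 17000 * (2 * h + 2) * n ≤ k * (k * 100 ^ N * μ) := by
          have e5 : n ≤ 10 ^ 5 * (k * 100 ^ N * μ) := by
            have : 10 ^ 5 * (k * 100 ^ N * μ) = k * 100 ^ (N - 1) * μ * 10 ^ 7 := by
              rw [hpow]
              ring
            omega
          calc 17000 * (2 * h + 2) * n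
              ≤ 17000 * (2 * h + 2) * (10 ^ 5 * (k * 100 ^ N * μ)) := Nat.mul_le_mul_left _ e5
            _ = (1700000000 * (2 * h + 2)) * (k * 100 ^ N * μ) := by ring
            _ ≤ k * (k * 100 ^ N * μ) := Nat.mul_le_mul_right _ (by omega)
        calc 10 * (2 * h + 2) * (K * μ) ≤ 10 * (2 * h + 2) * (1700 * u * n) :=
              Nat.mul_le_mul_left _ hb
          _ = u * (17000 * (2 * h + 2) * n) := by ring
          _ ≤ u * (k * (k * 100 ^ N * μ)) := Nat.mul_le_mul_left _ e4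
          _ = k * (k * (100 ^ N * u)) * μ := by ring
      have e6 : 10 * (2 * h + 2) * K * μ ≤ k * (k * (100 ^ N * u)) * μ := by
        calc 10 * (2 * h + 2) * K * μ = 10 * (2 * h + 2) * (K * μ) := by ring
          _ ≤ _ := e3
      exact Nat.le_of_mul_le_mul_right e6 P.hμ1
    have e7 : k * (10 * (T * (2 * h + 2)) * K) ≤ k * (k * (100 ^ N * u) * n) := by
      calc k * (10 * (T * (2 * h + 2)) * K) = (10 * (2 * h + 2) * K) * (k * T) := by ring
        _ ≤ (k * (k * (100 ^ N * u))) * n := Nat.mul_le_mul e2 hT2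
        _ = k * (k * (100 ^ N * u) * n) := by ring
    exact Nat.le_of_mul_le_mul_left e7 (by omega)

end Pool.Agent.HDT
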