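import Pool.Agent.HDT.Defs
import Pool.Agent.HD.Partition
import Pool.Agent.HD.Spec
import Pool.Agent.Exp.Moment3

/-!
MP_134267_co, Theorem HDT, row R1: existence of a good labelling (helper38).
-/

set_option autoImplicit false

namespace Pool.Agent.HDT

open Finset Pool.Agent.HD

theorem labelling_union {ι Ω : Type} [Fintype ι] [Fintype Ω] [DecidableEq Ω]
    (E : ι → Finset Ω) (b : ℝ) (h : ∀ i, ((E i).card : ℝ) ≤ b) :
    ((univ.biUnion E).card : ℝ) ≤ Fintype.card ι * b := by
  have h4 : ((univ.biUnion E).card : ℝ) ≤ ∑ i, ((E i).card : ℝ) := by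
    exact_mod_cast Finset.card_biUnion_le
  refine h4.trans ((Finset.sum_le_sum fun i _ => h i).trans (le_of_eq ?_))
  rw [Finset.sum_const, Finset.card_univ, nsmul_eq_mul]

theorem labelling_num1 {a N X : ℝ} (hN : 0 ≤ N) (hX : 0 < X) (ha : 16 * a ≤ X) :
    a * (N * X⁻¹) ≤ N / 16 := by
  have h : a * X⁻¹ ≤ 1 / 16 := by
    rw [← div_eq_mul_inv, div_le_div_iff₀ hX (by norm_num)]
    linarith
  calc a * (N * X⁻¹) = N * (a * X⁻¹) := by ring
    _ ≤ N * (1 / 16) := mul_le_mul_of_nonneg_left h hN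
    _ = N / 16 := by ring

theorem labelling_key {ι Ω : Type} [Fintype ι] [Fintype Ω] [DecidableEq Ω] {N c q : ℝ}
    (E : ι → Finset Ω) (hE : ∀ i, q * ((E i).card : ℝ) ≤ c * N) (hq : 0 < q) (hN : 0 ≤ N)
    (hle : 16 * (Fintype.card ι * c) ≤ q) : ((univ.biUnion E).card : ℝ) ≤ N / 16 := by
  refine (labelling_union E (c * N * q⁻¹) fun i => ?_).trans ?_
  · rw [← div_eq_mul_inv, le_div_iff₀ hq]
    linarith [hE i]
  · have h := labelling_num1 (a := Fintype.card ι * c) hN hq hle
    refine le_trans (le_of_eq ?_) h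
    ring

theorem labelling_num2 {lam ε d K Q : ℝ} (hK : 2 ≤ K) (hl : 900 * lam ^ 2 ≤ (ε * d) ^ 2)
    (hQK : 1000 * (Q * K * d) ≤ (ε * d) ^ 2) :
    8 * (lam ^ 2 / K + Q * d) ≤ (ε * d) ^ 2 / K := by
  rw [le_div_iff₀ (by linarith)]
  have h4 : 8 * (lam ^ 2 / K + Q * d) * K = 8 * lam ^ 2 + 8 * (Q * K * d) := by
    field_simp
  rw [h4]
  have h5 : 0 ≤ lam ^ 2 := sq_nonneg _
  linarith

theorem labelling_num3 {lam ε d K Q : ℝ} (hK : 2 ≤ K) (hl : 900 * lam ^ 2 ≤ (ε * d) ^ 2)
    (hQK : 1000 * (Q * K * d) ≤ (ε * d) ^ 2) (hQd : 0 ≤ Q * d) :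
    8 * (8 * (lam ^ 2 / K + Q * d) / (K - 1) + Q * (11 * d / K)) ≤ (ε * d / K) ^ 2 := by
  have hK0 : 0 < K := by linarith
  set Λ := 8 * (lam ^ 2 / K + Q * d) with hΛ
  have hΛ0 : 0 ≤ Λ := by positivity
  have h4 : Λ / (K - 1) ≤ 2 * Λ / K := by
    rw [div_le_div_iff₀ (by linarith) hK0]
    have h5 := mul_nonneg hΛ0 (show 0 ≤ K - 2 by linarith)
    linarith
  have h5 : 8 * (Λ / (K - 1) + Q * (11 * d / K)) ≤ 8 * (2 * Λ / K + Q * (11 * d / K)) := by
    linarith
  refine h5.trans ?_
  rw [div_pow, le_div_iff₀ (by positivity), hΛ]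
  have h6 : 8 * (2 * (8 * (lam ^ 2 / K + Q * d)) / K + Q * (11 * d / K)) * K ^ 2
      = 128 * lam ^ 2 + 216 * (Q * K * d) := by
    field_simp
    ring
  rw [h6]
  have h7 : 0 ≤ (ε * d) ^ 2 := sq_nonneg _
  linarith

/-- the columns of a class: what the rows of the next class see -/
structure GoodCls {V : Type} [Fintype V] [DecidableEq V] (G : SimpleGraph V)
    [DecidableRel G.Adj] (d K : ℕ) (Λ : ℝ) (S : Finset V) : Prop where
  size : (K : ℝ) * S.card ≤ 2 * Fintype.card V
  deg : ∀ v, (K : ℝ) * (G.neighborFinset v ∩ S).card ≤ 9 * d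
  col : NB G d univ S Λ

/-- the bad event for a pair of different classes -/
theorem labelling_pair {V : Type} [Fintype V] [DecidableEq V] (G : SimpleGraph V)
    [DecidableRel G.Adj] {d : ℕ} (K Q : ℕ) (hK : 2 ≤ K) (hQ : 1 ≤ Q) (hd1 : 1 ≤ d)
    (hdn : d ≤ Fintype.card V) (Λ : ℝ) (hΛ0 : 0 ≤ Λ) (i j : Fin K) (hij : i ≠ j) :
    ∃ E : Finset (V → Fin K), 8 ^ Q * (E.card : ℝ) ≤
      (Fintype.card V : ℝ) * (K : ℝ) ^ Fintype.card V ∧
      ∀ f ∉ E, GoodCls G d K Λ (cls f {j}) → NB G d (cls f {i}) (cls f {j})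
        (8 * (Λ / (K - 1) + Q * (11 * d / K))) := by
  classical
  have hKr : (2 : ℝ) ≤ K := by exact_mod_cast hK
  have hdr : (1 : ℝ) ≤ d := by exact_mod_cast hd1
  have hQr : (1 : ℝ) ≤ Q := by exact_mod_cast hQ
  have hnd : (d : ℝ) ≤ Fintype.card V := by exact_mod_cast hdn
  have hn0 : (0 : ℝ) < Fintype.card V := by linarith
  set w : Finset V → V → V → ℝ := fun A v c => if c ∈ A then Mx G d v c else 0 with hw
  set X : ℝ := Λ / (K - 1) + Q * (11 * d / K) with hX
  have hX0 : 0 < X := by
    have h1 : 0 ≤ Λ / ((K : ℝ) - 1) := div_nonneg hΛ0 (by linarith)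
    have h2 : 0 < (Q : ℝ) * (11 * d / K) := by positivity
    linarith
  have hdot : ∀ (A : Finset V) (v : V) (x : V → ℝ),
      w A v ⬝ᵥ x = ∑ c ∈ A, Mx G d v c * x c := by
    intro A v x
    simp only [dotProduct, hw, ite_mul, zero_mul, Finset.sum_ite_mem, Finset.univ_inter]
  have hcard : (∑ k ∈ ({j} : Finset (Fin K))ᶜ, (1 : ℝ)) = K - 1 := by
    rw [Finset.sum_const, Finset.card_compl, Finset.card_singleton, Fintype.card_fin,
      nsmul_eq_mul, mul_one, Nat.cast_sub (by omega), Nat.cast_one]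
  have hb := Pool.Agent.Exp.bad_weight_le (V := V) (κ := Fin K) (ι := V) (fun _ => (1 : ℝ))
    {j} {i} w (GoodCls G d K Λ) (fun _ => zero_le_one)
    (by rw [Finset.disjoint_singleton]; exact hij.symm) (s := 11 * d / K) (L := Λ)
    (T := 8 * X) (by positivity) hΛ0 (by rw [hcard]; linarith)
    (fun A hA v _ => by
      rw [hdot]
      have h1 : ∑ c ∈ A, Mx G d v c * w A v c = ∑ c ∈ A, Mx G d v c ^ 2 := by
        refine Finset.sum_congr rfl fun c hc => ?_
        simp only [hw, if_pos hc]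
        ring
      rw [h1]
      refine (Mx_row_le G d v A).trans ?_
      have h2 := hA.size
      have h3 := hA.deg v
      have h4 : ((G.neighborFinset v ∩ A).card : ℝ) ≤ 9 * d / K := by
        rw [le_div_iff₀ (by linarith)]
        linarith
      have h5 : (A.card : ℝ) * ((d : ℝ) / Fintype.card V) ^ 2 ≤ 2 * d / K := by
        have h6 : (A.card : ℝ) ≤ 2 * Fintype.card V / K := by
          rw [le_div_iff₀ (by linarith)]
          linarith
        have h7 : ((d : ℝ) / Fintype.card V) ^ 2 ≤ d / Fintype.card V := by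
          have h8 : (d : ℝ) / Fintype.card V ≤ 1 := by
            rw [div_le_one hn0]
            exact hnd
          have h9 : 0 ≤ (d : ℝ) / Fintype.card V := by positivity
          nlinarith
        calc (A.card : ℝ) * ((d : ℝ) / Fintype.card V) ^ 2
            ≤ (2 * Fintype.card V / K) * (d / Fintype.card V) :=
              mul_le_mul h6 h7 (by positivity) (by positivity)
          _ = 2 * d / K := by
              field_simp
      have h10 : 11 * (d : ℝ) / K = 9 * d / K + 2 * d / K := by ring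
      linarith)
    (fun A hA x => by
      have h1 := hA.col x
      have h2 : ∑ v ∈ Aᶜ, (w A v ⬝ᵥ x) ^ 2 ≤ ∑ v, (∑ c ∈ A, Mx G d v c * x c) ^ 2 := by
        simp only [hdot]
        exact Finset.sum_le_sum_of_subset_of_nonneg (Finset.subset_univ _)
          fun _ _ _ => sq_nonneg _
      refine h2.trans (h1.trans (mul_le_mul_of_nonneg_left ?_ hΛ0))
      have h3 : x ⬝ᵥ x = ∑ v, x v ^ 2 := by
        simp only [dotProduct, sq]
      rw [h3]
      exact Finset.sum_le_sum_of_subset_of_nonneg (Finset.subset_univ _)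
        fun _ _ _ => sq_nonneg _)
    (q := Q) hQ (by positivity)
  have hwt : ∀ χ : V → Fin K, Pool.Agent.Exp.cwt (fun _ => (1 : ℝ)) χ = 1 := by
    intro χ
    simp [Pool.Agent.Exp.cwt]
  refine ⟨univ.filter fun f : V → Fin K => GoodCls G d K Λ (cls f {j}) ∧
    ¬ NB G d (cls f {i}) (cls f {j}) (8 * X), ?_, fun f hf hg => ?_⟩
  · -- counting
    have hG : Pool.Agent.Exp.Gw (V := V) (κ := Fin K) (fun _ => (1 : ℝ)) {j}
        (GoodCls G d K Λ) ≤ (K : ℝ) ^ Fintype.card V := by
      unfold Pool.Agent.Exp.Gw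
      refine (Finset.sum_le_sum (g := fun _ => (1 : ℝ)) fun χ _ => ?_).trans (le_of_eq ?_)
      · rw [hwt, one_mul]
        split_ifs <;> norm_num
      · rw [Finset.sum_const, Finset.card_univ, Fintype.card_fun, Fintype.card_fin,
          nsmul_eq_mul, mul_one]
        push_cast
        rfl
    have hfrac : ((∑ k ∈ ({i} : Finset (Fin K)), (1 : ℝ)) /
        (∑ k ∈ ({j} : Finset (Fin K))ᶜ, (1 : ℝ)) * Λ + Q * (11 * d / K)) / (8 * X) = 1 / 8 := by
      rw [hcard, Finset.sum_singleton]
      have : 1 / ((K : ℝ) - 1) * Λ + Q * (11 * d / K) = X := by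
        rw [hX]
        ring
      rw [this]
      field_simp
    rw [hfrac] at hb
    have hle : ((univ.filter fun f : V → Fin K => GoodCls G d K Λ (cls f {j}) ∧
        ¬ NB G d (cls f {i}) (cls f {j}) (8 * X)).card : ℝ) ≤
        ∑ χ : V → Fin K, Pool.Agent.Exp.cwt (fun _ => (1 : ℝ)) χ *
          (if GoodCls G d K Λ (Pool.Agent.Exp.clsS {j} χ) ∧ ¬ ∀ x : V → ℝ,
            ∑ v ∈ Pool.Agent.Exp.clsS {i} χ, (w (Pool.Agent.Exp.clsS {j} χ) v ⬝ᵥ x) ^ 2 ≤
              8 * X * (x ⬝ᵥ x) then 1 else 0) := by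
      rw [Finset.card_filter]
      push_cast
      refine Finset.sum_le_sum fun χ _ => ?_
      rw [hwt, one_mul]
      have e1 : ∀ l, Pool.Agent.Exp.clsS {l} χ = cls χ {l} := fun l => rfl
      rw [e1, e1]
      by_cases hc : GoodCls G d K Λ (cls χ {j}) ∧ ¬ NB G d (cls χ {i}) (cls χ {j}) (8 * X)
      · rw [if_pos hc, if_pos]
        refine ⟨hc.1, fun hall => hc.2 fun x => ?_⟩
        have h1 := hall (fun v => if v ∈ cls χ {j} then x v else 0)
        have h2 : ∀ v, w (cls χ {j}) v ⬝ᵥ (fun v => if v ∈ cls χ {j} then x v else 0)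
            = ∑ c ∈ cls χ {j}, Mx G d v c * x c := by
          intro v
          rw [hdot]
          refine Finset.sum_congr rfl fun c hc => ?_
          rw [if_pos hc]
        have h3 : (fun v => if v ∈ cls χ {j} then x v else 0) ⬝ᵥ
            (fun v => if v ∈ cls χ {j} then x v else 0) = ∑ v ∈ cls χ {j}, x v ^ 2 := by
          simp only [dotProduct]
          rw [← Finset.sum_filter_add_sum_filter_not univ (fun v => v ∈ cls χ {j})]
          rw [Finset.sum_eq_zero (s := univ.filter fun v => ¬ v ∈ cls χ {j}), add_zero,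
            Finset.filter_mem_eq_inter, Finset.univ_inter]
          · refine Finset.sum_congr rfl fun v hv => ?_
            rw [if_pos hv]
            ring
          · intro v hv
            rw [Finset.mem_filter] at hv
            rw [if_neg hv.2, zero_mul]
        simp only [h2] at h1
        rw [h3] at h1
        exact h1
      · rw [if_neg hc]
        split_ifs <;> norm_num
    have h8 : (8 : ℝ) ^ Q * (1 / 8) ^ Q = 1 := by
      rw [← mul_pow]
      norm_num
    calc (8 : ℝ) ^ Q * _ ≤ 8 ^ Q * ((K : ℝ) ^ Fintype.card V * Fintype.card V * (1 / 8) ^ Q) := by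
          refine mul_le_mul_of_nonneg_left (hle.trans (hb.trans ?_)) (by positivity)
          refine mul_le_mul_of_nonneg_right ?_ (by positivity)
          exact mul_le_mul_of_nonneg_right hG (by positivity)
      _ = (8 ^ Q * (1 / 8) ^ Q) * ((Fintype.card V : ℝ) * (K : ℝ) ^ Fintype.card V) := by ring
      _ = _ := by rw [h8, one_mul]
  · rw [Finset.mem_filter, not_and, not_and, not_not] at hf
    exact hf (Finset.mem_univ _) hg

/-- upper bound for the degrees into a class -/
theorem labelling_deg {V : Type} [Fintype V] [DecidableEq V] (D : Finset V) (K Q : ℕ)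
    (hK : 1 ≤ K) (hQ : 1 ≤ Q) (i : Fin K) :
    ∃ E : Finset (V → Fin K), 8 ^ Q * (E.card : ℝ) ≤ (K : ℝ) ^ Fintype.card V ∧
      ∀ f ∉ E, ((D ∩ cls f {i}).card : ℝ) ≤ 8 * (D.card / K + Q) := by
  classical
  have hind : ∀ (s : Finset V) (x : Unit → ℝ),
      ∑ v ∈ s, (∑ c : Unit, (if v ∈ D then (1 : ℝ) else 0) * x c) ^ 2
        = (D ∩ s).card * x () ^ 2 := by
    intro s x
    simp only [Finset.univ_unique, Finset.sum_singleton, ite_mul, one_mul, zero_mul]
    have h1 : ∀ v ∈ s, ((if v ∈ D then x (default : Unit) else 0) ^ 2 : ℝ)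
        = if v ∈ D then x () ^ 2 else 0 := by
      intro v _
      split_ifs
      · rfl
      · simp
    rw [Finset.sum_congr rfl h1, ← Finset.sum_filter, Finset.sum_const, nsmul_eq_mul,
      Finset.filter_mem_eq_inter, Finset.inter_comm]
  have h := moment_tail (α := V) (C := Unit) (fun v _ => if v ∈ D then (1 : ℝ) else 0) K hK i
    D.card 1 zero_le_one (by positivity) (fun x => by
      rw [hind]
      simp) (fun v => by
      by_cases hv : v ∈ D <;> simp [hv]) Q hQ
  rw [Fintype.card_unit, Nat.cast_one, one_mul] at h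
  refine ⟨_, h, fun f hf => ?_⟩
  rw [Finset.mem_filter, not_and] at hf
  have hf2 := hf (Finset.mem_univ _)
  rw [not_exists] at hf2
  have hf3 := not_lt.1 (hf2 fun _ => 1)
  rw [hind] at hf3
  have e : univ.filter (fun v => f v = i) = cls f {i} := by
    ext v
    simp [cls]
  rw [e] at hf3
  simpa using hf3

/-- **Row R1** -/
theorem labelling {V : Type} [Fintype V] [DecidableEq V] (G : SimpleGraph V) [DecidableRel G.Adj]
    {d : ℕ} {lam : ℝ} (h : IsNDL G d lam) (hlam0 : 0 ≤ lam) (K Q : ℕ) (hK : 2 ≤ K) (hQ : 1 ≤ Q)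
    (ε : ℝ) (hε0 : 0 < ε) (hε1 : ε ≤ 1) (hlam : 30 * lam ≤ ε * d)
    (hd : 1000 * (Q : ℝ) * K ≤ ε ^ 2 * d) (hdn : d ≤ Fintype.card V)
    (hQ8 : 16 * (K : ℝ) ^ 2 * Fintype.card V ≤ 8 ^ Q)
    (h2 : 16 * (Fintype.card V : ℝ) * K < Real.exp (d / (10 * K)))
    (h3 : 16 * (K : ℝ) < Real.exp (Fintype.card V / (4 * K ^ 3))) :
    ∃ f : V → Fin K, Lab G d K ε f := by
  classical
  have hKr : (2 : ℝ) ≤ K := by exact_mod_cast hK
  have hQr : (1 : ℝ) ≤ Q := by exact_mod_cast hQ
  have hd0 : (0 : ℝ) < d := by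
    have h4 : 0 < 1000 * (Q : ℝ) * K := by positivity
    have h5 : 0 < ε ^ 2 := by positivity
    by_contra hn
    have h6 : (d : ℝ) ≤ 0 := not_lt.1 hn
    nlinarith
  have hd1 : 1 ≤ d := by
    have : 0 < d := by exact_mod_cast hd0
    omega
  have hnd : (d : ℝ) ≤ Fintype.card V := by exact_mod_cast hdn
  have hn1 : (1 : ℝ) ≤ Fintype.card V := by
    have : (1 : ℝ) ≤ d := by exact_mod_cast hd1
    linarith
  set n : ℝ := (Fintype.card V : ℝ) with hn
  set N : ℝ := (K : ℝ) ^ Fintype.card V with hN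
  have hN0 : 0 < N := by positivity
  have hcls : ∀ (f : V → Fin K) (i : Fin K) (S : Finset V),
      S.filter (fun v => f v = i) = S ∩ cls f {i} := by
    intro f i S
    ext v
    simp [cls]
  set Λ : ℝ := 8 * (lam ^ 2 / K + Q * d) with hΛ
  have hΛ0 : 0 ≤ Λ := by positivity
  -- the bad events
  set E1 : Fin K → Finset (V → Fin K) := fun i => univ.filter (fun f =>
    2 * K * ((univ : Finset V).filter (fun v => f v = i)).card < (univ : Finset V).card) with hE1
  set E3 : V × Fin K → Finset (V → Fin K) := fun p => univ.filter (fun f =>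
    2 * K * ((G.neighborFinset p.1).filter (fun v => f v = p.2)).card <
      (G.neighborFinset p.1).card) with hE3
  set E2 : Fin K → Finset (V → Fin K) := fun i => univ.filter (fun f =>
    (univ : Finset V).card < (K - 1) * ((univ : Finset V).filter (fun v => f v = i)).card)
    with hE2
  choose E4 hE4 hE4' using fun p : V × Fin K =>
    labelling_deg (G.neighborFinset p.1) K Q (by omega) hQ p.2
  choose E5 hE5 hE5' using fun i : Fin K =>
    part_norm (univ : Finset V) K i Q hQ (Mx G d) (lam ^ 2) d hd0.le (sq_nonneg _)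
      (fun x => ndl_norm G h x) (fun v _ => Mx_row_full G d v (h.reg v))
  have hpair : ∀ p : Fin K × Fin K, ∃ E : Finset (V → Fin K), 8 ^ Q * (E.card : ℝ) ≤ n * N ∧
      ∀ f ∉ E, p.1 ≠ p.2 → GoodCls G d K Λ (cls f {p.2}) →
        NB G d (cls f {p.1}) (cls f {p.2}) (8 * (Λ / (K - 1) + Q * (11 * d / K))) := by
    intro p
    by_cases hp : p.1 = p.2
    · refine ⟨∅, ?_, fun f _ h' => absurd hp h'⟩
      simp only [Finset.card_empty, Nat.cast_zero, mul_zero]
      positivity
    · obtain ⟨E, h4, h5⟩ := labelling_pair G K Q hK hQ hd1 hdn Λ hΛ0 p.1 p.2 hp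
      exact ⟨E, h4, fun f hf _ hg => h5 f hf hg⟩
  choose E6 hE6 hE6' using hpair
  -- counting
  set X := Real.exp (d / (10 * K)) with hX
  have hX0 : 0 < X := Real.exp_pos _
  set Y := Real.exp (n / (4 * K ^ 3)) with hY
  have hY0 : 0 < Y := Real.exp_pos _
  have h8 : (0 : ℝ) < 8 ^ Q := by positivity
  have hnK : n * K ≤ K ^ 2 * n := by
    have h4 : n * K * 1 ≤ n * K * K := mul_le_mul_of_nonneg_left (by linarith) (by positivity)
    have h5 : (K : ℝ) ^ 2 * n = n * K * K := by ring
    linarith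
  have c1 : ((univ.biUnion E1).card : ℝ) ≤ N / 16 := by
    refine (labelling_union E1 (N * X⁻¹) fun i => ?_).trans ?_
    · refine (part_lower (univ : Finset V) K i).trans ?_
      rw [← Real.exp_neg]
      refine mul_le_mul_of_nonneg_left (Real.exp_le_exp.2 (neg_le_neg ?_)) hN0.le
      rw [Finset.card_univ]
      exact div_le_div_of_nonneg_right hnd (by positivity)
    · rw [Fintype.card_fin]
      refine labelling_num1 hN0.le hX0 (le_trans ?_ h2.le)
      have h4 : 1 * (K : ℝ) ≤ n * K := mul_le_mul_of_nonneg_right hn1 (by linarith)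
      linarith
  have c2 : ((univ.biUnion E2).card : ℝ) ≤ N / 16 := by
    obtain ⟨k, rfl⟩ : ∃ k, K = k + 1 := ⟨K - 1, by omega⟩
    refine (labelling_union E2 (N * Y⁻¹) fun i => ?_).trans ?_
    · have h4 := part_upper (univ : Finset V) k (by omega) i
      rw [Finset.card_univ] at h4
      rw [← Real.exp_neg]
      simp only [hE2, Nat.add_sub_cancel, hN, hn]
      rw [Finset.card_univ]
      push_cast at h4 ⊢
      exact h4
    · rw [Fintype.card_fin]
      exact labelling_num1 hN0.le hY0 h3.le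
  have c3 : ((univ.biUnion E3).card : ℝ) ≤ N / 16 := by
    refine (labelling_union E3 (N * X⁻¹) fun p => ?_).trans ?_
    · refine (part_lower (G.neighborFinset p.1) K p.2).trans ?_
      rw [← Real.exp_neg, h.reg]
    · rw [Fintype.card_prod, Fintype.card_fin]
      push_cast
      refine labelling_num1 hN0.le hX0 (le_trans (le_of_eq ?_) h2.le)
      ring
  have c4 : ((univ.biUnion E4).card : ℝ) ≤ N / 16 := by
    refine labelling_key (c := 1) E4 (fun p => by rw [one_mul]; exact hE4 p) h8 hN0.le ?_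
    rw [Fintype.card_prod, Fintype.card_fin]
    push_cast
    linarith
  have c5 : ((univ.biUnion E5).card : ℝ) ≤ N / 16 := by
    refine labelling_key (c := n) E5 hE5 h8 hN0.le ?_
    rw [Fintype.card_fin]
    linarith
  have c6 : ((univ.biUnion E6).card : ℝ) ≤ N / 16 := by
    refine labelling_key (c := n) E6 hE6 h8 hN0.le ?_
    rw [Fintype.card_prod, Fintype.card_fin]
    push_cast
    have h4 : (K : ℝ) * K * n = K ^ 2 * n := by ring
    linarith
  -- a good map
  set U := univ.biUnion E1 ∪ univ.biUnion E2 ∪ univ.biUnion E3 ∪ univ.biUnion E4 ∪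
    univ.biUnion E5 ∪ univ.biUnion E6 with hU
  have cU : (U.card : ℝ) < Fintype.card (V → Fin K) := by
    have h4 : (U.card : ℝ) ≤ (univ.biUnion E1).card + (univ.biUnion E2).card
        + (univ.biUnion E3).card + (univ.biUnion E4).card + (univ.biUnion E5).card
        + (univ.biUnion E6).card := by
      have h5 : U.card ≤ (univ.biUnion E1).card + (univ.biUnion E2).card
        + (univ.biUnion E3).card + (univ.biUnion E4).card + (univ.biUnion E5).card
        + (univ.biUnion E6).card := by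
        refine (Finset.card_union_le _ _).trans (Nat.add_le_add_right ?_ _)
        refine (Finset.card_union_le _ _).trans (Nat.add_le_add_right ?_ _)
        refine (Finset.card_union_le _ _).trans (Nat.add_le_add_right ?_ _)
        refine (Finset.card_union_le _ _).trans (Nat.add_le_add_right ?_ _)
        exact Finset.card_union_le _ _
      exact_mod_cast h5
    rw [Fintype.card_fun, Fintype.card_fin]
    push_cast
    rw [← hN]
    linarith
  obtain ⟨f, hf⟩ : ∃ f, f ∉ U := by
    by_contra hn'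
    push Not at hn'
    have : U = univ := Finset.eq_univ_iff_forall.2 hn'
    rw [this, Finset.card_univ] at cU
    exact lt_irrefl _ cU
  simp only [hU, Finset.mem_union, not_or, Finset.mem_biUnion, Finset.mem_univ, true_and,
    not_exists] at hf
  obtain ⟨⟨⟨⟨⟨f1, f2⟩, f3⟩, f4⟩, f5⟩, f6⟩ := hf
  -- numbers
  have hε2 : ε ^ 2 ≤ 1 := pow_le_one₀ hε0.le hε1
  have hl2 : 900 * lam ^ 2 ≤ (ε * d) ^ 2 := by
    have h4 := pow_le_pow_left₀ (by positivity) hlam 2
    have h5 : (30 * lam) ^ 2 = 900 * lam ^ 2 := by ring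
    linarith
  have hQK : 1000 * (Q * K * d) ≤ (ε * d) ^ 2 := by
    have h4 := mul_le_mul_of_nonneg_right hd hd0.le
    have h5 : ε ^ 2 * d * d = (ε * d) ^ 2 := by ring
    linarith
  have hQK1 : 1000 * (Q * K : ℝ) ≤ d := by
    have h4 : ε ^ 2 * d ≤ 1 * d := mul_le_mul_of_nonneg_right hε2 hd0.le
    linarith
  have hsize : ∀ i, (Fintype.card V : ℝ) ≤ 2 * K * (cls f {i}).card ∧
      (K : ℝ) * (cls f {i}).card ≤ 2 * Fintype.card V := by
    intro i
    have e : (univ : Finset V).filter (fun v => f v = i) = cls f {i} := by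
      rw [hcls, Finset.univ_inter]
    constructor
    · have h4 := f1 i
      simp only [hE1, Finset.mem_filter, Finset.mem_univ, true_and, not_lt] at h4
      rw [e, Finset.card_univ] at h4
      exact_mod_cast h4
    · have h4 := f2 i
      simp only [hE2, Finset.mem_filter, Finset.mem_univ, true_and, not_lt] at h4
      rw [e, Finset.card_univ] at h4
      have h5 : ((K : ℝ) - 1) * (cls f {i}).card ≤ Fintype.card V := by
        have h6 : (((K - 1) * (cls f {i}).card : ℕ) : ℝ) ≤ Fintype.card V := by exact_mod_cast h4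
        rw [Nat.cast_mul, Nat.cast_sub (by omega), Nat.cast_one] at h6
        exact h6
      have h7 := mul_nonneg (show (0 : ℝ) ≤ K - 2 by linarith)
        (show (0 : ℝ) ≤ (cls f {i}).card by positivity)
      linarith
  have hdeg : ∀ v i, (d : ℝ) ≤ 2 * K * (G.neighborFinset v ∩ cls f {i}).card ∧
      (K : ℝ) * (G.neighborFinset v ∩ cls f {i}).card ≤ 9 * d := by
    intro v i
    constructor
    · have h4 := f3 (v, i)
      simp only [hE3, Finset.mem_filter, Finset.mem_univ, true_and, not_lt] at h4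
      rw [hcls, h.reg] at h4
      exact_mod_cast h4
    · have h4 := hE4' (v, i) f (f4 (v, i))
      simp only at h4
      rw [h.reg] at h4
      have h5 : (K : ℝ) * (G.neighborFinset v ∩ cls f {i}).card ≤ K * (8 * (d / K + Q)) :=
        mul_le_mul_of_nonneg_left h4 (by positivity)
      have h6 : (K : ℝ) * (8 * (d / K + Q)) = 8 * d + 8 * (Q * K) := by
        field_simp
      linarith
  have hone : ∀ i, NB G d (cls f {i}) univ Λ := by
    intro i x
    have h4 := hE5' i f (f5 i) x
    rw [hcls, Finset.univ_inter] at h4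
    exact h4
  have hgood : ∀ i, GoodCls G d K Λ (cls f {i}) := by
    intro i
    refine ⟨(hsize i).2, fun v => (hdeg v i).2, fun x => ?_⟩
    have h4 := transpose_norm (Mx G d) (cls f {i}) Λ hΛ0 (hone i) x
    refine le_trans (le_of_eq (Finset.sum_congr rfl fun v _ => ?_)) h4
    rw [Finset.sum_congr rfl fun u _ => by rw [Mx_symm G d v u]]
  refine ⟨f, hsize, hdeg, fun i x => ?_, fun i j hij x => ?_⟩
  · refine (hone i x).trans (mul_le_mul_of_nonneg_right ?_
      (Finset.sum_nonneg fun _ _ => sq_nonneg _))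
    exact labelling_num2 hKr hl2 hQK
  · refine (hE6' (i, j) f (f6 (i, j)) hij (hgood j) x).trans (mul_le_mul_of_nonneg_right ?_
      (Finset.sum_nonneg fun _ _ => sq_nonneg _))
    exact labelling_num3 hKr hl2 hQK (by positivity)

end Pool.Agent.HDT
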