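import Pool.Agent.HDT.CoreFinish
import Pool.Agent.HDT.Labelling
import Pool.Agent.HD.Stars
import Pool.Agent.HD.FPInit

/-!
MP_134267_co, Theorem HDT, row R14 part 6 (helper88): the parameters give the subdivision.
-/

set_option autoImplicit false

namespace Pool.Agent.HDT

open Finset Pool.Agent.HD

/-- `stage_pos` with the number of the tokens up to an equation -/
theorem stage_pos' {V : Type} [Fintype V] [DecidableEq V] (G : SimpleGraph V)
    [DecidableRel G.Adj] {d t : ℕ} {lam : ℝ} {h κ B K Q N μ u : ℕ}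
    (P : ParamsT (Fintype.card V) d t lam h κ B K Q N μ u) {ε : ℝ} (hε0 : 0 ≤ ε)
    (hε : 100000 * ε ≤ 1) {f : V → Fin K} (hL : Lab G d K ε f) (c T : ℕ) (hT : T = c * μ)
    (hc : 1 ≤ c) (hcn : (2 * κ + 1) * T ≤ Fintype.card V)
    (L : Fin 7 → Finset (Fin K)) (Lp : Finset (Fin K))
    (l0 : (L 0).card = (2 * κ + 1) * (100 * c * u)) (l1 : (L 1).card = (2 * κ + 1) * (100 * c * u))
    (l2 : (L 2).card = 40 * ((2 * κ + 1) * (100 * c * u))) (l3 : (L 3).card = 4 * (100 * c * u))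
    (l4 : (L 4).card = 4 * (100 * c * u)) (l5 : (L 5).card = 120 * (100 * c * u))
    (l6 : (L 6).card = (2 * κ + 1) * (c * u)) (lp : Lp.card = (2 * κ + 1) * (100 * c * u))
    (hdis : ∀ a b, a ≠ b → Disjoint (L a) (L b))
    (A₀ A₁ Tg A : Finset V)
    (hA₀ : cls f (L 3) ⊆ A₀) (hA₀' : A₀ ⊆ cls f (L 3 ∪ L 5)) (hA₁ : cls f (L 4) ⊆ A₁)
    (hA₁' : A₁ ⊆ cls f (L 4 ∪ L 5)) (hTg : Tg ⊆ cls f (L 5)) (hCo : cls f (L 0) ⊆ A)
    (hCe : cls f (L 1) ⊆ A) (hAR : A ⊆ cls f (L 0 ∪ L 1 ∪ L 2))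
    (hnd : (A₀.val + A₁.val + Tg.val + A.val + (cls f Lp).val + (cls f (L 6)).val).Nodup)
    (hA₀c : A₀.card = T) (hA₁c : A₁.card = T) (hTgc : Tg.card = T) (sp : ℕ)
    (hA : A.card + (cls f Lp).card = (2 * κ + 1) * T + sp)
    (σ τ : Fin T → V) (hσ : ∑ x, ({σ x} : Multiset V) = A₀.val)
    (hτ : ∑ x, ({τ x} : Multiset V) = Tg.val) :
    ∀ S ⊆ cls f Lp, S.card = sp → ∃ S' ⊆ cls f (L 6), S'.card = T * (2 * h + 2) ∧
      Lk G.Adj (A₀ ∪ A₁ ∪ Tg ∪ A ∪ (cls f Lp \ S) ∪ S') σ τ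
        (fun _ => 2 * κ + 4 + (2 * h + 2)) := by
  subst hT
  exact stage_pos G P hε0 hε hL c hc hcn L Lp l0 l1 l2 l3 l4 l5 l6 lp hdis A₀ A₁ Tg A hA₀ hA₀'
    hA₁ hA₁' hTg hCo hCe hAR hnd hA₀c hA₁c hTgc sp hA σ τ hσ hτ

/-- the stars, the seeds and the whole block of the stars -/
theorem star_block {V : Type} [Fintype V] [DecidableEq V] (V₀ : Finset V) (t nz : ℕ)
    (x : Fin t → V) (y : Fin t × Fin t → V) (hinj : Function.Injective (Sum.elim x y))
    (hx : ∀ i, x i ∈ V₀) (hy : ∀ p, y p ∈ V₀) (hc : t + t ^ 2 + nz ≤ V₀.card) :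
    ∃ s : Fin nz → V, (∑ i, ({x i} : Multiset V) + ∑ p, ({y p} : Multiset V)) +
      ∑ u, ({s u} : Multiset V) ≤ V₀.val := by
  have h1 := nodup_of_inj hinj
  rw [Fintype.sum_sum_type] at h1
  simp only [Sum.elim_inl, Sum.elim_inr] at h1
  have h2 : ∑ i, ({x i} : Multiset V) + ∑ p, ({y p} : Multiset V) ≤ V₀.val := by
    rw [Multiset.le_iff_subset h1]
    intro v hv
    rw [Multiset.mem_add, Multiset.mem_sum, Multiset.mem_sum] at hv
    rcases hv with ⟨u, -, hu⟩ | ⟨u, -, hu⟩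
    · rw [Multiset.mem_singleton] at hu
      rw [hu]
      exact hx u
    · rw [Multiset.mem_singleton] at hu
      rw [hu]
      exact hy u
  obtain ⟨F, hF⟩ := exists_val h2
  have hFV : F ⊆ V₀ := by
    rw [← Finset.val_le_iff, hF]
    exact h2
  have hFc : F.card = t + t ^ 2 := by
    rw [Finset.card, hF, Multiset.card_add, Multiset.card_sum, Multiset.card_sum]
    simp [sq]
  have h3 : nz ≤ (V₀ \ F).card := by
    rw [card_sdiff_of_subset hFV, hFc]
    omega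
  obtain ⟨S, hS1, hS2⟩ := Finset.exists_subset_card_eq h3
  obtain ⟨s, hs⟩ := enum S nz hS2
  refine ⟨s, ?_⟩
  rw [hs, ← hF]
  have hd : Disjoint F S := by
    rw [Finset.disjoint_left]
    intro v hv hv'
    exact (mem_sdiff.1 (hS1 hv')).2 hv
  rw [← nb_union_val hd, Finset.val_le_iff]
  exact union_subset hFV (hS1.trans sdiff_subset)

/-- the capacity -/
theorem cap_aux {n M r S h B z mm p : ℕ} (f1 : S ≤ r * (2 * h + 5)) (f2 : r ≤ M)
    (s4 : M * B ≤ n) (s5 : 10 ^ 10 * (2 * h + 2) ≤ B) (z2 : 800 * z ≤ n)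
    (hp : p ≤ 8 * mm) (hmm : 200 * mm ≤ n) (hn : 10 ^ 6 ≤ n) :
    z + (S + r * (2 * h + 2)) + p ≤ n / 20 := by
  have h1 : 2 * (r * (2 * h + 5) + r * (2 * h + 2)) ≤ 10 * (r * (2 * h + 2)) := by
    nlinarith [Nat.zero_le (r * h), Nat.zero_le r]
  have h2 : 10 ^ 10 * (r * (2 * h + 2)) ≤ n := by
    calc 10 ^ 10 * (r * (2 * h + 2)) = r * (10 ^ 10 * (2 * h + 2)) := by ring
      _ ≤ M * B := Nat.mul_le_mul f2 s5
      _ ≤ n := s4
  clear s5 s4
  have h3 : 1000 * (r * (2 * h + 2)) ≤ n :=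
    le_trans (Nat.mul_le_mul_right _ (by norm_num)) h2
  clear h2
  generalize r * (2 * h + 2) = a at *
  generalize r * (2 * h + 5) = b at *
  omega

theorem coreT {V : Type} [Fintype V] [DecidableEq V] (G : SimpleGraph V) [DecidableRel G.Adj]
    {d t : ℕ} {lam : ℝ} (hG : IsNDL G d lam) (hlam0 : 0 ≤ lam) {h κ B K Q N μ u : ℕ}
    (P : ParamsT (Fintype.card V) d t lam h κ B K Q N μ u) : HasSubdivision G t := by
  classical
  have hKk := P.hKk
  have hN := P.hN
  have hk := P.hk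
  have hn6 := P.hn
  have hK2 : 2 ≤ K := by omega
  have hd1 : 1 ≤ d := by
    have := P.hst
    have := P.ht
    omega
  obtain ⟨s1, s2, s3, s4, s5, s6, s7, s8⟩ := core_size P
  -- the labelling
  set ε : ℝ := 1 / 100000 with hεd
  have hε0 : 0 < ε := by norm_num [hεd]
  have hε : 100000 * ε ≤ 1 := by norm_num [hεd]
  have hd0 : (0 : ℝ) ≤ d := Nat.cast_nonneg d
  obtain ⟨f, hL⟩ := labelling G hG hlam0 K Q hK2 P.hQ ε hε0 (by norm_num [hεd]) (by
      have := P.hlam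
      rw [hεd]
      linarith) (by
      have h1 : (10 : ℝ) ^ 13 * Q * K ≤ d := by exact_mod_cast P.hdQK
      rw [hεd]
      linarith) P.hdn (by
      refine le_trans ?_ P.hQ8
      have h1 : (K : ℝ) ≤ Fintype.card V := by exact_mod_cast P.hKn
      have h2 : (K : ℝ) ^ 2 ≤ (Fintype.card V : ℝ) ^ 2 := pow_le_pow_left₀ (Nat.cast_nonneg _) h1 2
      have h3 : (0 : ℝ) ≤ Fintype.card V := Nat.cast_nonneg _
      calc 16 * (K : ℝ) ^ 2 * Fintype.card V ≤ 16 * (Fintype.card V : ℝ) ^ 2 * Fintype.card V := by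
            gcongr
        _ = 16 * (Fintype.card V : ℝ) ^ 3 := by ring) P.hexp1 P.hexp2
  -- the labels of the sets
  obtain ⟨St, Wb, L, hSt, hWb, hLc, hSW, hS, hW, hdis⟩ := core_alloc P
  have hdisa : ∀ i a b, a ≠ b → Disjoint (L i a) (L i b) := by
    intro i a b hab
    refine hdis i a i b ?_
    intro he
    exact hab (Prod.mk.inj he).2
  set n := Fintype.card V with hn
  set k := 2 * κ + 1 with hkk
  -- cardinalities of the label sets of the positive levels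
  have hcpos : ∀ i, i < N → (L (i + 1) 0).card = k * (100 * 100 ^ (N - (i + 1)) * u) ∧
      (L (i + 1) 1).card = k * (100 * 100 ^ (N - (i + 1)) * u) ∧
      (L (i + 1) 2).card = 40 * (k * (100 * 100 ^ (N - (i + 1)) * u)) ∧
      (L (i + 1) 3).card = 4 * (100 * 100 ^ (N - (i + 1)) * u) ∧
      (L (i + 1) 4).card = 4 * (100 * 100 ^ (N - (i + 1)) * u) ∧
      (L (i + 1) 5).card = 120 * (100 * 100 ^ (N - (i + 1)) * u) ∧
      (L (i + 1) 6).card = k * (100 ^ (N - (i + 1)) * u) := by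
    intro i hi
    refine ⟨?_, ?_, ?_, ?_, ?_, ?_, ?_⟩ <;>
      (rw [hLc (i + 1) (by omega)]; unfold szL; rw [if_neg (Nat.succ_ne_zero i)]; rfl)
  have hcres : ∀ i, i < N → (L i 6).card = k * (100 * 100 ^ (N - (i + 1)) * u) := by
    intro i hi
    have hpow : 100 ^ (N - i) = 100 * 100 ^ (N - (i + 1)) := by
      rw [← pow_succ']
      congr 1
      omega
    rw [hLc i (by omega), ← hpow]
    unfold szL
    rcases Nat.eq_zero_or_pos i with h0 | h0
    · subst h0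
      rw [if_pos rfl]
      rfl
    · rw [if_neg (by omega)]
      rfl
  have hczero : (L 0 0).card = K / 10 ∧ (L 0 1).card = K / 10 ∧
      (L 0 3).card = K / (8 * k) ∧ (L 0 4).card = K / (8 * k) ∧
      (L 0 5).card = 8 * K / k + 1 ∧ (L 0 6).card = k * (100 ^ N * u) := by
    refine ⟨?_, ?_, ?_, ?_, ?_, ?_⟩ <;>
      (rw [hLc 0 (Nat.zero_le _)]; unfold szL; rw [if_pos rfl]; rfl)
  -- the flexible set
  set nz := (cls f (L N 6)).card with hnzd
  have hLN : (L N 6).card = k * u := by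
    obtain ⟨-, -, -, -, -, -, h6⟩ := hcpos (N - 1) (by omega)
    rw [show N - 1 + 1 = N by omega, Nat.sub_self, pow_zero, one_mul] at h6
    exact h6
  have hnz : K * nz ≤ 2 * (k * u) * n := by
    have h1 := hL.card_upper (L N 6)
    have h2 : K * (cls f (L N 6)).card ≤ 2 * (L N 6).card * n := by exact_mod_cast h1
    rw [hLN] at h2
    exact h2
  have hnz2 : (2 * h + 2) * μ ≤ nz := by
    have h1 := hL.card_lower (L N 6)
    have h2 : (L N 6).card * n ≤ 2 * K * (cls f (L N 6)).card := by exact_mod_cast h1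
    rw [hLN] at h2
    have hb := P.hKμ2
    have hun : 0 < u * n := Nat.mul_pos P.hu1 (by omega)
    have h3 : (u * n) * (k * μ) ≤ (u * n) * (3400 * nz) := by
      calc (u * n) * (k * μ) = (k * u * n) * μ := by ring
        _ ≤ (2 * K * nz) * μ := Nat.mul_le_mul_right _ h2
        _ = 2 * nz * (K * μ) := by ring
        _ ≤ 2 * nz * (1700 * u * n) := Nat.mul_le_mul_left _ hb
        _ = (u * n) * (3400 * nz) := by ring
    have h4 := Nat.le_of_mul_le_mul_left h3 hun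
    have h5 : 10 ^ 10 * (2 * h + 2) * μ ≤ k * μ := Nat.mul_le_mul_right _ hk
    have h6 : 10 ^ 10 * (2 * h + 2) * μ = 10 ^ 10 * ((2 * h + 2) * μ) := by ring
    rw [h6] at h5
    set y := (2 * h + 2) * μ
    omega
  obtain ⟨z1, z2, z3, z4, z5⟩ := core_nz P nz hnz
  obtain ⟨m1, m2, m3⟩ := mT_sum P nz hnz
  set m : ℕ → ℕ := mT (Fintype.card (Pr t)) (h + 2) N μ nz with hm
  have hmpos : ∀ i, m (i + 1) = 100 ^ (N - (i + 1)) * μ := by
    intro i
    exact mT_pos _ _ _ _ _ (by omega)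
  -- the pads
  have hpads : ∀ i, ∃ A₀ A₁ Tg : Finset V, i ≤ N → cls f (L i 3) ⊆ A₀ ∧
      A₀ ⊆ cls f (L i 3 ∪ L i 5) ∧ cls f (L i 4) ⊆ A₁ ∧ A₁ ⊆ cls f (L i 4 ∪ L i 5) ∧
      Tg ⊆ cls f (L i 5) ∧ A₀.card = m i ∧ A₁.card = m i ∧ Tg.card = m i ∧
      Disjoint A₀ A₁ ∧ Disjoint A₀ Tg ∧ Disjoint A₁ Tg := by
    intro i
    by_cases hi : i ≤ N
    · obtain ⟨A₀, A₁, Tg, h1⟩ := pads_all P hL L hLc hdis nz hnz i hi
      exact ⟨A₀, A₁, Tg, fun _ => h1⟩
    · exact ⟨∅, ∅, ∅, fun h => absurd h hi⟩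
  choose A₀ A₁ Tg hpad using hpads
  -- the bodies
  have hbodies : ∀ i, ∃ A : Finset V, i < N → cls f (L (i + 1) 0) ⊆ A ∧ cls f (L (i + 1) 1) ⊆ A ∧
      A ⊆ cls f (L (i + 1) 0 ∪ L (i + 1) 1 ∪ L (i + 1) 2) ∧
      A.card + (cls f (L i 6)).card = k * m (i + 1) + m i * (2 * h + 2) := by
    intro i
    by_cases hi : i < N
    · obtain ⟨c0, c1, c2, c3, c4, c5, c6⟩ := hcpos i hi
      obtain ⟨A, h1, h2, h3, h4⟩ := body_pos P hL (100 ^ (N - (i + 1))) (L (i + 1) 0)
        (L (i + 1) 1) (L (i + 1) 2) (L i 6) c0 c1 c2 (hcres i hi)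
        (hdisa (i + 1) 0 1 (by decide)) (hdisa (i + 1) 0 2 (by decide))
        (hdisa (i + 1) 1 2 (by decide)) (m i * (2 * h + 2)) (spent_le P nz hnz hi)
      refine ⟨A, fun _ => ⟨h1, h2, h3, ?_⟩⟩
      rw [h4, hmpos i]
    · exact ⟨∅, fun h => absurd h hi⟩
  choose body hbd using hbodies
  -- the stars
  have hStc : K ≤ 5 * St.card := by
    rw [hSt]
    omega
  have hWbc : K ≤ 5 * Wb.card := by
    rw [hWb]
    omega
  have hdegI : ∀ I : Finset (Fin K), K ≤ 5 * I.card → ∀ v,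
      d ≤ 10 * (G.neighborFinset v ∩ cls f I).card := by
    intro I hI v
    have h1 := hL.deg_lower I v
    have h2 : I.card * d ≤ 2 * K * (G.neighborFinset v ∩ cls f I).card := by exact_mod_cast h1
    have h3 : K * d ≤ K * (10 * (G.neighborFinset v ∩ cls f I).card) := by
      calc K * d ≤ (5 * I.card) * d := Nat.mul_le_mul_right _ hI
        _ = 5 * (I.card * d) := by ring
        _ ≤ 5 * (2 * K * (G.neighborFinset v ∩ cls f I).card) := Nat.mul_le_mul_left _ h2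
        _ = _ := by ring
    exact Nat.le_of_mul_le_mul_left h3 (by omega)
  have hcardI : ∀ I : Finset (Fin K), K ≤ 5 * I.card → n ≤ 10 * (cls f I).card := by
    intro I hI
    have h1 := hL.card_lower I
    have h2 : I.card * n ≤ 2 * K * (cls f I).card := by exact_mod_cast h1
    have h3 : K * n ≤ K * (10 * (cls f I).card) := by
      calc K * n ≤ (5 * I.card) * n := Nat.mul_le_mul_right _ hI
        _ = 5 * (I.card * n) := by ring
        _ ≤ 5 * (2 * K * (cls f I).card) := Nat.mul_le_mul_left _ h2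
        _ = _ := by ring
    exact Nat.le_of_mul_le_mul_left h3 (by omega)
  have hV0 := hcardI St hStc
  have hW0 := hcardI Wb hWbc
  have hst2 : 10 ^ 4 * t ^ 2 ≤ n := P.hst2
  obtain ⟨x, y, hxyinj, hx, hy, hxy⟩ := stars G d hG.reg (cls f St) (hdegI St hStc) t P.hst
    (by omega)
  have hnzn : 800 * nz ≤ n := by
    have h1 : 1 ≤ (h + 2) * (B + 1) := Nat.mul_pos (by omega) (by omega)
    have h2 : nz * 1 ≤ nz * ((h + 2) * (B + 1)) := Nat.mul_le_mul_left _ h1
    omega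
  obtain ⟨s, hs⟩ := star_block (cls f St) t nz x y hxyinj hx hy (by
    have : t ≤ t ^ 2 := by
      rw [sq]
      exact Nat.le_mul_self t
    omega)
  obtain ⟨z, hz⟩ := enum (cls f (L N 6)) nz rfl
  -- the large reserve
  set mm := n / 400 + 1 with hmm
  have hmm1 : n ≤ 400 * mm := by
    have := Nat.div_add_mod n 400
    have := Nat.mod_lt n (show 0 < 400 by norm_num)
    omega
  have hmm2 : 200 * mm ≤ n := by
    have := Nat.div_add_mod n 400
    omega
  obtain ⟨hc, hs0⟩ := fp_init G hG hd1 hlam0 (by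
      have := P.hlam
      linarith) (cls f Wb) (hdegI Wb hWbc) hW0 mm (Nat.clog 2 mm) (n / 20) hmm1 hmm2
    (Nat.le_pow_clog (by norm_num) _) (by
      have := Nat.div_mul_le_self n 20
      rw [← hn]
      omega) (by omega)
  have hhh : Nat.clog 2 mm ≤ h := by
    rw [P.hh]
    exact Nat.clog_mono_right _ (by omega)
  have hpow2 : 2 ^ (Nat.clog 2 mm + 2) ≤ 8 * mm := by
    have h1 : 2 ^ (Nat.clog 2 mm - 1) < mm := by
      have h2 : 1 < mm := by omega
      exact Nat.pow_pred_clog_lt_self (by norm_num) h2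
    have h3 : 1 ≤ Nat.clog 2 mm := Nat.clog_pos (by norm_num) (by omega)
    have h4 : 2 ^ (Nat.clog 2 mm + 2) = 8 * 2 ^ (Nat.clog 2 mm - 1) := by
      rw [show Nat.clog 2 mm + 2 = (Nat.clog 2 mm - 1) + 3 by omega, pow_add]
      ring
    omega
  -- the lengths
  have hρ : nz * (h + 2) + Fintype.card (Σ i : Fin (N + 1), Fin (m i)) =
      Fintype.card (Pr t) := by
    rw [Fintype.card_sigma]
    simp only [Fintype.card_fin]
    rw [Fin.sum_univ_eq_sum_range (fun i => m i)]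
    exact m1
  obtain ⟨qa, qa1, qa2, qa3, qa4, qa5⟩ := exists_qa P nz hnz hnz2
    (ρ := Σ i : Fin (N + 1), Fin (m i)) hρ
  have hκ1 := P.hκ1
  have hmN : m N = μ := by
    have := hmpos (N - 1)
    rw [show N - 1 + 1 = N by omega, Nat.sub_self, pow_zero, one_mul] at this
    exact this
  have hcardρ : Fintype.card (Σ i : Fin (N + 1), Fin (m i)) = ∑ i ∈ range (N + 1), m i := by
    rw [Fintype.card_sigma]
    simp only [Fintype.card_fin]
    rw [Fin.sum_univ_eq_sum_range (fun i => m i)]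
  -- the blocks
  have hblocks := blocks_le f N St Wb L hSW hS hW hdis
  refine finish G t N nz (h + 2) (2 * h + 2) κ B (B - 3 - 2 * (2 * h + 2)) (by have := P.ht; omega)
    m x y hxy z s (cls f Wb) hc hs0 A₀ A₁ Tg body (fun i => cls f (L i 6))
    (cls f (L 0 0 ∪ L 0 1 ∪ L 0 2)) hz ?_ (fun i hi => (hpad i hi).2.2.2.2.2.1)
    (fun i hi => (hpad i hi).2.2.2.2.2.2.1) (fun i hi => (hpad i hi).2.2.2.2.2.2.2.1)
    (fun i hi => (hbd i hi).2.2.2) m1 ?_ ?_ (by omega) (by omega) (by omega) (by omega) qa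
    (fun r => le_trans (by omega) (qa1 r)) qa3 qa4 ?_ ?_
  · -- the disjointness
    refine le_trans ?_ hblocks
    have e1 : ∑ i ∈ range (N + 1), ((cls f (L i 3 ∪ L i 4 ∪ L i 5)).val +
        (cls f (L i 0 ∪ L i 1 ∪ L i 2)).val + (cls f (L i 6)).val) =
        ∑ i ∈ range (N + 1), ((cls f (L i 3 ∪ L i 4 ∪ L i 5)).val + (cls f (L i 6)).val) +
        (∑ i ∈ range N, (cls f (L (i + 1) 0 ∪ L (i + 1) 1 ∪ L (i + 1) 2)).val +
          (cls f (L 0 0 ∪ L 0 1 ∪ L 0 2)).val) := by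
      rw [← sum_range_succ' (fun i => (cls f (L i 0 ∪ L i 1 ∪ L i 2)).val), ← sum_add_distrib]
      exact sum_congr rfl fun i _ => by abel
    have e2 : ∑ i ∈ range (N + 1), ((A₀ i).val + (A₁ i).val + (Tg i).val +
        (cls f (L i 6)).val) ≤
        ∑ i ∈ range (N + 1), ((cls f (L i 3 ∪ L i 4 ∪ L i 5)).val + (cls f (L i 6)).val) := by
      refine sum_le_sum fun i hi => ?_
      obtain ⟨-, p2, -, p4, p5, -, -, -, p9, p10, p11⟩ :=
        hpad i (Nat.lt_succ_iff.1 (mem_range.1 hi))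
      refine add_le_add_left ?_ _
      rw [← nb_union_val p9, ← nb_union_val (disjoint_union_left.2 ⟨p10, p11⟩),
        Finset.val_le_iff]
      refine union_subset (union_subset (p2.trans (cls_mono ?_)) (p4.trans (cls_mono ?_)))
        (p5.trans (cls_mono ?_))
      · exact union_subset_union_left subset_union_left
      · exact union_subset_union_left subset_union_right
      · exact subset_union_right
    have e3 : ∑ i ∈ range N, (body i).val ≤
        ∑ i ∈ range N, (cls f (L (i + 1) 0 ∪ L (i + 1) 1 ∪ L (i + 1) 2)).val :=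
      sum_le_sum fun i hi => Finset.val_le_iff.2 (hbd i (mem_range.1 hi)).2.2.1
    rw [e1]
    calc _ ≤ (cls f St).val + (cls f Wb).val +
          ∑ i ∈ range (N + 1), ((cls f (L i 3 ∪ L i 4 ∪ L i 5)).val + (cls f (L i 6)).val) +
          ∑ i ∈ range N, (cls f (L (i + 1) 0 ∪ L (i + 1) 1 ∪ L (i + 1) 2)).val +
          (cls f (L 0 0 ∪ L 0 1 ∪ L 0 2)).val := by gcongr
      _ = _ := by abel
  · -- the stage 0
    intro A hA1 hA2 hA3 σ τ hσ hτ
    obtain ⟨p1, p2, p3, p4, p5, p6, p7, p8, p9, p10, p11⟩ := hpad 0 (Nat.zero_le _)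
    obtain ⟨c0, c1, c3, c4, c5, c6⟩ := hczero
    exact stage_zero G P hε0.le hε hL (m 0) m2 m3 (L 0) c0 c1 c3 c4 c5 c6 (hdisa 0)
      (A₀ 0) (A₁ 0) (Tg 0) A p1 p2 p3 p4 p5
      ((cls_mono (subset_union_left.trans subset_union_left)).trans hA1)
      ((cls_mono (subset_union_right.trans subset_union_left)).trans hA1) hA3 p6 p7 p8 hA2
      σ τ hσ hτ
  · -- the other stages
    intro i hi hnd σ τ hσ hτ
    obtain ⟨p1, p2, p3, p4, p5, p6, p7, p8, p9, p10, p11⟩ := hpad (i + 1) hi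
    obtain ⟨c0, c1, c2, c3, c4, c5, c6⟩ := hcpos i hi
    obtain ⟨b1, b2, b3, b4⟩ := hbd i hi
    have hmi := hmpos i
    have hTn : k * m (i + 1) ≤ n := by
      have e1 : 100 ^ (N - (i + 1)) ≤ 100 ^ (N - 1) := Nat.pow_le_pow_right (by norm_num) (by omega)
      rw [hmi]
      calc k * (100 ^ (N - (i + 1)) * μ) ≤ k * (100 ^ (N - 1) * μ) := by gcongr
        _ = k * 100 ^ (N - 1) * μ * 1 := by ring
        _ ≤ k * 100 ^ (N - 1) * μ * 10 ^ 5 := Nat.mul_le_mul_left _ (by norm_num)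
        _ ≤ n := P.hN1
    exact stage_pos' G P hε0.le hε hL (100 ^ (N - (i + 1))) (m (i + 1)) hmi
      (Nat.one_le_pow _ _ (by norm_num)) hTn (L (i + 1)) (L i 6) c0 c1 c2 c3 c4 c5 c6
      (hcres i hi) (hdisa (i + 1)) (A₀ (i + 1)) (A₁ (i + 1)) (Tg (i + 1)) (body i) p1 p2 p3 p4 p5
      b1 b2 b3 hnd p6 p7 p8 (m i * (2 * h + 2)) b4 σ τ hσ hτ
  · -- the counting identity
    rw [hmN, ← hcardρ]
    have h1 : (2 * h + 2) * μ = (2 * h + 2) * μ := rfl
    exact qa5
  · -- the capacity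
    rw [sum_add_distrib, sum_const, card_univ, smul_eq_mul]
    have f1 : ∑ r, qa r ≤ Fintype.card (Σ i : Fin (N + 1), Fin (m i)) * (2 * h + 5) := by
      rw [← smul_eq_mul, ← card_univ, ← sum_const]
      exact sum_le_sum fun r _ => qa2 r
    have f2 : Fintype.card (Σ i : Fin (N + 1), Fin (m i)) ≤ Fintype.card (Pr t) := by
      rw [← hρ]
      exact Nat.le_add_left _ _
    exact cap_aux f1 f2 s4 s5 z2 hpow2 hmm2 hn6

end Pool.Agent.HDT
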