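import Pool.Agent.HDT.CoreAlloc

/-!
MP_134267_co, Theorem HDT, row R14 part 3 (helper88): the numbers of requests of the classes.
-/

set_option autoImplicit false

namespace Pool.Agent.HDT

open Finset Pool.Agent.HD

/-- the number of pairs -/
theorem card_Pr (t : ℕ) : 2 * Fintype.card (Pr t) + t = t ^ 2 := by
  have h1 : Fintype.card (Fin t × Fin t) = t ^ 2 := by
    rw [Fintype.card_prod, Fintype.card_fin, sq]
  have e : (Pr t ⊕ Pr t) ⊕ Fin t ≃ Fin t × Fin t :=
    { toFun := Sum.elim (Sum.elim (fun p => (p.1.1, p.1.2)) (fun p => (p.1.2, p.1.1)))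
        (fun i => (i, i))
      invFun := fun p => if h : p.1 < p.2 then Sum.inl (Sum.inl ⟨p, h⟩)
        else if h' : p.2 < p.1 then Sum.inl (Sum.inr ⟨(p.2, p.1), h'⟩) else Sum.inr p.1
      left_inv := by
        rintro ((p | p) | i)
        · simp [p.2]
        · have := p.2
          simp [this, this.le]
        · simp
      right_inv := by
        rintro ⟨a, b⟩
        simp only
        split_ifs with h h'
        · rfl
        · rfl
        · have : a = b := le_antisymm (not_lt.1 h') (not_lt.1 h)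
          simp [this] }
  have h2 := Fintype.card_congr e
  rw [h1, Fintype.card_sum, Fintype.card_sum, Fintype.card_fin] at h2
  omega

/-- basic size comparisons -/
theorem core_size {n d t : ℕ} {lam : ℝ} {h κ B K Q N μ u : ℕ}
    (P : ParamsT n d t lam h κ B K Q N μ u) :
    100 * t ≤ n ∧ 4 * Fintype.card (Pr t) + 2 * t ≤ n ∧
    99 * n ≤ 100 * (Fintype.card (Pr t) * (B + 4)) ∧ Fintype.card (Pr t) * B ≤ n ∧
    10 ^ 10 * (2 * h + 2) ≤ B ∧ 2 * κ + 1 ≤ B ∧
    10 * (B + 4) ≤ 11 * (2 * κ + 1) ∧ 1 ≤ Fintype.card (Pr t) := by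
  have h1 := card_Pr t
  have h2 := P.hst2
  have h3 := P.ht
  have hB1 := P.hB1
  have hB2 := P.hB2
  have hk := P.hk
  have hκ1 := P.hκ1
  have hκ2 := P.hκ2
  have e1 : 2 * t ≤ t ^ 2 := by
    rw [sq]
    exact Nat.mul_le_mul_right _ h3
  set M := Fintype.card (Pr t) with hM
  have hnn : 10 ^ 4 * t ^ 2 ≤ n := h2
  have hn' : n - t - 2 * M + (t + 2 * M) = n := by omega
  set n' := n - t - 2 * M with hn'd
  have e2 : M * (2 * B + 3) = 2 * (M * B) + 3 * M := by ring
  have e3 : M * (2 * B + 1) = 2 * (M * B) + M := by ring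
  have e4 : M * (B + 4) = M * B + 4 * M := by ring
  rw [e2] at hB2
  rw [e3] at hB1
  have hM1 : 1 ≤ M := by
    have : 4 ≤ t ^ 2 := by
      calc 4 = 2 ^ 2 := by norm_num
        _ ≤ t ^ 2 := Nat.pow_le_pow_left h3 2
    by_contra hlt
    have hM0 : M = 0 := by omega
    rw [hM0] at h1
    have : t ^ 2 = t := by omega
    omega
  have hB : 10 ^ 10 * (2 * h + 2) ≤ B := by omega
  have hBκ : 2 * κ + 1 ≤ B := by omega
  have hBκ2 : 10 * (B + 4) ≤ 11 * (2 * κ + 1) := by omega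
  refine ⟨?_, ?_, ?_, ?_, hB, hBκ, hBκ2, hM1⟩
  · omega
  · omega
  · rw [e4]
    omega
  · omega

/-- consequences for the number `nz` of flexible vertices -/
theorem core_nz {n d t : ℕ} {lam : ℝ} {h κ B K Q N μ u : ℕ}
    (P : ParamsT n d t lam h κ B K Q N μ u) (nz : ℕ)
    (hnz : K * nz ≤ 2 * ((2 * κ + 1) * u) * n) :
    800 * nz ≤ (2 * κ + 1) * μ ∧ 800 * (nz * ((h + 2) * (B + 1))) ≤ n ∧
    300 * (nz * (h + 2)) ≤ Fintype.card (Pr t) ∧
    300 * ((2 * h + 2) * μ) ≤ Fintype.card (Pr t) ∧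
    200 * (100 ^ N * μ) ≤ Fintype.card (Pr t) := by
  obtain ⟨s1, s2, s3, s4, s5, s6, s7, s8⟩ := core_size P
  have ha := P.hKμ1
  have hu := P.hu1
  have hn := P.hn
  have hμ := P.hμ
  have hN1 := P.hN1
  have hN := P.hN
  have hk := P.hk
  have hμ1 := P.hμ1
  set M := Fintype.card (Pr t) with hM
  set k := 2 * κ + 1 with hkk
  have hun : 0 < u * n := Nat.mul_pos (by omega) (by omega)
  have e1 : 800 * nz ≤ k * μ := by
    have : 2 * (u * n) * (800 * nz) ≤ 2 * (u * n) * (k * μ) := by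
      calc 2 * (u * n) * (800 * nz) = (1600 * u * n) * nz := by ring
        _ ≤ (K * μ) * nz := Nat.mul_le_mul_right _ ha
        _ = (K * nz) * μ := by ring
        _ ≤ (2 * (k * u) * n) * μ := Nat.mul_le_mul_right _ hnz
        _ = 2 * (u * n) * (k * μ) := by ring
    exact Nat.le_of_mul_le_mul_left this (by omega)
  have e2 : 800 * (nz * ((h + 2) * (B + 1))) ≤ n := by
    calc 800 * (nz * ((h + 2) * (B + 1))) = (800 * nz) * ((h + 2) * (B + 1)) := by ring
      _ ≤ (k * μ) * ((h + 2) * (B + 1)) := Nat.mul_le_mul_right _ e1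
      _ = k * μ * (h + 2) * (B + 1) := by ring
      _ ≤ n := hμ
  -- `n ≤ 2 M (B+1)`
  have e3 : n ≤ 2 * (M * (B + 1)) := by
    have e4 : M * (B + 4) = M * (B + 1) + 3 * M := by ring
    have e5 : 100 * M ≤ M * (B + 1) := by
      calc 100 * M = M * 100 := by ring
        _ ≤ M * (B + 1) := Nat.mul_le_mul_left _ (by omega)
    omega
  have hB1 : 0 < B + 1 := Nat.succ_pos _
  have e6 : 300 * (nz * (h + 2)) ≤ M := by
    have : (B + 1) * (400 * (nz * (h + 2))) ≤ (B + 1) * M := by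
      have e7 : (B + 1) * (800 * (nz * (h + 2))) = 800 * (nz * ((h + 2) * (B + 1))) := by ring
      have e8 : 2 * (M * (B + 1)) = 2 * ((B + 1) * M) := by ring
      have e9 : (B + 1) * (800 * (nz * (h + 2))) = 2 * ((B + 1) * (400 * (nz * (h + 2)))) := by
        ring
      omega
    have := Nat.le_of_mul_le_mul_left this hB1
    omega
  have e10 : k * μ * (h + 2) ≤ 2 * M := by
    have : (B + 1) * (k * μ * (h + 2)) ≤ (B + 1) * (2 * M) := by
      calc (B + 1) * (k * μ * (h + 2)) = k * μ * (h + 2) * (B + 1) := by ring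
        _ ≤ n := hμ
        _ ≤ 2 * (M * (B + 1)) := e3
        _ = (B + 1) * (2 * M) := by ring
    exact Nat.le_of_mul_le_mul_left this hB1
  have e11 : 300 * ((2 * h + 2) * μ) ≤ M := by
    have e12 : 10 ^ 10 * (2 * h + 2) * μ ≤ k * μ := Nat.mul_le_mul_right _ hk
    have e13 : k * μ ≤ k * μ * (h + 2) := Nat.le_mul_of_pos_right _ (by omega)
    have e14 : 10 ^ 10 * (2 * h + 2) * μ = 10 ^ 10 * ((2 * h + 2) * μ) := by ring
    rw [e14] at e12
    set y := (2 * h + 2) * μ
    omega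
  have e15 : 200 * (100 ^ N * μ) ≤ M := by
    have hpow : 100 ^ N = 100 * 100 ^ (N - 1) := by
      rw [← pow_succ']
      congr 1
      omega
    have e16 : B + 1 ≤ 2 * k := by omega
    have e17 : k * (1000 * (100 ^ N * μ)) ≤ k * (4 * M) := by
      calc k * (1000 * (100 ^ N * μ)) = k * 100 ^ (N - 1) * μ * 10 ^ 5 := by
            rw [hpow]; ring
        _ ≤ n := hN1
        _ ≤ 2 * (M * (B + 1)) := e3
        _ ≤ 2 * (M * (2 * k)) := Nat.mul_le_mul_left _ (Nat.mul_le_mul_left _ e16)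
        _ = k * (4 * M) := by ring
    have e18 := Nat.le_of_mul_le_mul_left e17 (by omega)
    omega
  exact ⟨e1, e2, e6, e11, e15⟩

/-- the number of requests of the class `i` -/
def mT (M j N μ nz : ℕ) (i : ℕ) : ℕ :=
  if i = 0 then M - nz * j - ∑ i ∈ range N, 100 ^ (N - (i + 1)) * μ else 100 ^ (N - i) * μ

theorem mT_zero (M j N μ nz : ℕ) :
    mT M j N μ nz 0 = M - nz * j - ∑ i ∈ range N, 100 ^ (N - (i + 1)) * μ := if_pos rfl

theorem mT_pos (M j N μ nz : ℕ) {i : ℕ} (hi : 1 ≤ i) :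
    mT M j N μ nz i = 100 ^ (N - i) * μ := if_neg (by omega)

theorem mT_sum {n d t : ℕ} {lam : ℝ} {h κ B K Q N μ u : ℕ}
    (P : ParamsT n d t lam h κ B K Q N μ u) (nz : ℕ)
    (hnz : K * nz ≤ 2 * ((2 * κ + 1) * u) * n) :
    nz * (h + 2) + ∑ i ∈ range (N + 1), mT (Fintype.card (Pr t)) (h + 2) N μ nz i =
      Fintype.card (Pr t) ∧
    n ≤ 2 * ((2 * κ + 1) * mT (Fintype.card (Pr t)) (h + 2) N μ nz 0) ∧
    (2 * κ + 1) * mT (Fintype.card (Pr t)) (h + 2) N μ nz 0 ≤ n := by
  obtain ⟨s1, s2, s3, s4, s5, s6, s7, s8⟩ := core_size P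
  obtain ⟨z1, z2, z3, z4, z5⟩ := core_nz P nz hnz
  set M := Fintype.card (Pr t) with hM
  set k := 2 * κ + 1 with hkk
  have e1 := sum_pow_100 N
  rw [← sum_mul] at e1
  have e0 : ∑ i ∈ range N, 100 ^ (N - (i + 1)) * μ = (∑ i ∈ range N, 100 ^ (N - (i + 1))) * μ := by
    rw [sum_mul]
  set Sg := ∑ i ∈ range N, 100 ^ (N - (i + 1)) with hSg
  have e2 : Sg * μ ≤ 100 ^ N * μ := Nat.mul_le_mul_right _ (by omega)
  have hm0 : mT M (h + 2) N μ nz 0 = M - nz * (h + 2) - Sg * μ := by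
    rw [mT_zero, e0]
  have hle : nz * (h + 2) + Sg * μ ≤ M := by omega
  refine ⟨?_, ?_, ?_⟩
  · rw [sum_range_succ']
    have e3 : ∑ i ∈ range N, mT M (h + 2) N μ nz (i + 1) = Sg * μ := by
      rw [← e0]
      exact sum_congr rfl fun i _ => mT_pos _ _ _ _ _ (by omega)
    rw [e3, hm0]
    omega
  · rw [hm0]
    -- `m0 ≥ 0.95 M`
    have e3 : 95 * M ≤ 100 * (M - nz * (h + 2) - Sg * μ) := by omega
    set m0 := M - nz * (h + 2) - Sg * μ with hm0d
    have e4 : 99 * n ≤ 100 * (M * (B + 4)) := s3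
    have e5 : 10 * (M * (B + 4)) ≤ 11 * (M * k) := by
      calc 10 * (M * (B + 4)) = M * (10 * (B + 4)) := by ring
        _ ≤ M * (11 * k) := Nat.mul_le_mul_left _ s7
        _ = 11 * (M * k) := by ring
    have e6 : 95 * (M * k) ≤ 100 * (k * m0) := by
      calc 95 * (M * k) = (95 * M) * k := by ring
        _ ≤ (100 * m0) * k := Nat.mul_le_mul_right _ e3
        _ = 100 * (k * m0) := by ring
    omega
  · rw [hm0]
    calc k * (M - nz * (h + 2) - Sg * μ) ≤ B * M := Nat.mul_le_mul s6 (by omega)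
      _ = M * B := by ring
      _ ≤ n := s4

/-- a function with values `≤ 2` and a prescribed sum -/
theorem exists_sum_le_two {ρ : Type} [Fintype ρ] (E : ℕ) (hE : E ≤ 2 * Fintype.card ρ) :
    ∃ e : ρ → ℕ, (∀ r, e r ≤ 2) ∧ ∑ r, e r = E := by
  classical
  have key : ∀ s : Finset ρ, ∀ E : ℕ, E ≤ 2 * s.card →
      ∃ e : ρ → ℕ, (∀ r, e r ≤ 2) ∧ ∑ r ∈ s, e r = E := by
    intro s
    induction s using Finset.induction_on with
    | empty =>
      intro E hE
      rw [card_empty] at hE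
      exact ⟨fun _ => 0, fun _ => Nat.zero_le _, by rw [sum_empty]; omega⟩
    | insert a s ha ih =>
      intro E hE
      rw [card_insert_of_notMem ha] at hE
      obtain ⟨e, he1, he2⟩ := ih (E - min E 2) (by omega)
      refine ⟨Function.update e a (min E 2), fun r => ?_, ?_⟩
      · by_cases hr : r = a
        · subst hr
          rw [Function.update_self]
          omega
        · rw [Function.update_of_ne hr]
          exact he1 r
      · rw [sum_insert ha, Function.update_self]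
        have : ∑ r ∈ s, Function.update e a (min E 2) r = ∑ r ∈ s, e r :=
          sum_congr rfl fun r hr => by
            rw [Function.update_of_ne]
            rintro rfl
            exact ha hr
        rw [this, he2]
        omega
  exact key univ E (by rwa [card_univ])

/-- the lengths of the first links of the walking requests -/
theorem exists_qa {n d t : ℕ} {lam : ℝ} {h κ B K Q N μ u : ℕ}
    (P : ParamsT n d t lam h κ B K Q N μ u) (nz : ℕ)
    (hnz : K * nz ≤ 2 * ((2 * κ + 1) * u) * n) (hnz2 : (2 * h + 2) * μ ≤ nz) {ρ : Type} [Fintype ρ]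
    (hρ : nz * (h + 2) + Fintype.card ρ = Fintype.card (Pr t)) :
    ∃ qa : ρ → ℕ, (∀ r, 2 * h + 2 ≤ qa r) ∧ (∀ r, qa r ≤ 2 * h + 5) ∧
      (∀ r, B ≤ qa r + (2 * κ + 4 + 2 * (2 * h + 2))) ∧
      (∀ r, qa r + (2 * κ + 4 + 2 * (2 * h + 2)) ≤ B + 2) ∧
      t + 2 * Fintype.card (Pr t) + nz * ((h + 2) * (B + 1)) +
        (∑ r, qa r + Fintype.card ρ * (2 * κ + 4 + 2 * (2 * h + 2))) + nz =
        n + (2 * h + 2) * μ := by
  obtain ⟨s1, s2, s3, s4, s5, s6, s7, s8⟩ := core_size P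
  obtain ⟨z1, z2, z3, z4, z5⟩ := core_nz P nz hnz
  have hκ1 := P.hκ1
  have hκ2 := P.hκ2
  have hB1 := P.hB1
  have hB2 := P.hB2
  set M := Fintype.card (Pr t) with hM
  set R := Fintype.card ρ with hR
  have hn' : n - t - 2 * M + (t + 2 * M) = n := by omega
  set n' := n - t - 2 * M with hn'd
  have e2 : M * (2 * B + 3) = 2 * (M * B) + 3 * M := by ring
  have e3 : M * (2 * B + 1) = 2 * (M * B) + M := by ring
  rw [e2] at hB2
  rw [e3] at hB1
  have hRB : (nz * (h + 2)) * B + R * B = M * B := by rw [← add_mul, hρ]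
  have hnzB : nz * ((h + 2) * (B + 1)) = (nz * (h + 2)) * B + nz * (h + 2) := by ring
  have hnzle : nz ≤ nz * (h + 2) := Nat.le_mul_of_pos_right _ (by omega)
  set x := nz * (h + 2) with hx
  set y := (2 * h + 2) * μ with hy
  -- the extra amount
  obtain ⟨E, hE⟩ : ∃ E : ℕ, E + (M * B + x + nz) = n' + y := ⟨n' + y - (M * B + x + nz), by omega⟩
  have hE2 : E ≤ 2 * R := by omega
  obtain ⟨e, he1, he2⟩ := exists_sum_le_two (ρ := ρ) E (by rw [← hR]; exact hE2)
  set c := B - (2 * κ + 4 + 2 * (2 * h + 2)) with hc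
  have hcB : c + (2 * κ + 4 + 2 * (2 * h + 2)) = B := by omega
  refine ⟨fun r => c + e r, fun r => ?_, fun r => ?_, fun r => ?_, fun r => ?_, ?_⟩
  · change 2 * h + 2 ≤ c + e r
    omega
  · have := he1 r
    change c + e r ≤ 2 * h + 5
    omega
  · change B ≤ c + e r + (2 * κ + 4 + 2 * (2 * h + 2))
    omega
  · have := he1 r
    change c + e r + (2 * κ + 4 + 2 * (2 * h + 2)) ≤ B + 2
    omega
  · rw [sum_add_distrib, he2, sum_const, card_univ, smul_eq_mul, ← hR]
    have e5 : R * c + R * (2 * κ + 4 + 2 * (2 * h + 2)) = R * B := by rw [← mul_add, hcB]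
    rw [hnzB]
    omega

end Pool.Agent.HDT
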