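import Pool.Agent.HDT.CoreNums
import Pool.Agent.HDT.CoreLevel
import Pool.Agent.HD.NetBuild

/-!
MP_134267_co, Theorem HDT, row R14 part 4 (helper88): the sets of the construction.
-/

set_option autoImplicit false

namespace Pool.Agent.HDT

open Finset Pool.Agent.HD

theorem mem_cls {V : Type} [Fintype V] {K : ℕ} {f : V → Fin K} {I : Finset (Fin K)} {v : V} :
    v ∈ cls f I ↔ f v ∈ I := by
  unfold cls
  rw [mem_filter]
  exact ⟨fun h => h.2, fun h => ⟨mem_univ _, h⟩⟩

theorem cls_mono {V : Type} [Fintype V] {K : ℕ} {f : V → Fin K} {I J : Finset (Fin K)}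
    (h : I ⊆ J) : cls f I ⊆ cls f J := fun _ hv => mem_cls.2 (h (mem_cls.1 hv))

theorem cls_disj {V : Type} [Fintype V] {K : ℕ} {f : V → Fin K} {I J : Finset (Fin K)}
    (h : Disjoint I J) : Disjoint (cls f I) (cls f J) := by
  rw [Finset.disjoint_left] at h ⊢
  intro v hv hv'
  exact h (mem_cls.1 hv) (mem_cls.1 hv')

/-- a multiset without repetitions is below `univ` -/
theorem le_univ_iff {V : Type} [Fintype V] {M : Multiset V} :
    M ≤ (univ : Finset V).val ↔ M.Nodup :=
  ⟨fun h => Multiset.nodup_of_le h univ.nodup,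
    fun h => (Multiset.le_iff_subset h).2 (fun v _ => mem_univ v)⟩

/-- enumeration of a finset -/
theorem enum {V : Type} (A : Finset V) (T : ℕ) (h : A.card = T) :
    ∃ σ : Fin T → V, ∑ x, ({σ x} : Multiset V) = A.val := by
  subst h
  exact ⟨fun x => A.equivFin.symm x, nb_sum_image A.equivFin.symm⟩

theorem mem_of_sum {V ι : Type} [Fintype ι] {F : ι → V} {A : Finset V}
    (h : ∑ x, ({F x} : Multiset V) = A.val) (v : V) : v ∈ A ↔ ∃ x, F x = v := by
  rw [← Finset.mem_val, ← h, Multiset.mem_sum]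
  simp [eq_comm]

theorem inj_of_nodup {V ι : Type} [Fintype ι] {F : ι → V}
    (h : (∑ x, ({F x} : Multiset V)).Nodup) : Function.Injective F := by
  classical
  intro x y hxy
  by_contra hne
  have h1 : ({F x} : Multiset V) + {F y} ≤ ∑ x, ({F x} : Multiset V) := by
    rw [← Finset.sum_pair (f := fun x => ({F x} : Multiset V)) hne]
    exact Finset.sum_le_sum_of_subset (Finset.subset_univ _)
  have h2 := Multiset.nodup_of_le h1 h
  rw [Multiset.nodup_add] at h2
  refine Multiset.disjoint_left.1 h2.2.2 (Multiset.mem_singleton_self _) ?_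
  rw [hxy]
  exact Multiset.mem_singleton_self _

theorem nodup_of_inj {V ι : Type} [Fintype ι] {F : ι → V} (h : Function.Injective F) :
    (∑ x, ({F x} : Multiset V)).Nodup := by
  classical
  have h1 : ∑ x, ({F x} : Multiset V) = (univ.image F).val := by
    have h2 : ∑ x, ({F x} : Multiset V) = ∑ v ∈ univ.image F, ({v} : Multiset V) := by
      rw [Finset.sum_image (fun a _ b _ hab => h hab)]
    rw [h2]
    exact Finset.sum_multiset_singleton _
  rw [h1]
  exact Finset.nodup _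

/-- the requirement for the sizes of the reserves -/
theorem card_reserve {V : Type} [Fintype V] [DecidableEq V] {G : SimpleGraph V}
    [DecidableRel G.Adj] {d t : ℕ} {lam : ℝ} {h κ B K Q N μ u : ℕ}
    (P : ParamsT (Fintype.card V) d t lam h κ B K Q N μ u) {ε : ℝ}
    {f : V → Fin K} (hL : Lab G d K ε f) (c : ℕ) (I : Finset (Fin K))
    (hI : I.card = (2 * κ + 1) * (100 * c * u)) : 8 * (cls f I).card ≤ (2 * κ + 1) * (c * μ) := by
  have h1 := hL.card_upper I
  have h2 : K * (cls f I).card ≤ 2 * I.card * Fintype.card V := by exact_mod_cast h1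
  have ha := P.hKμ1
  have hK : 0 < K := by
    have := P.hKk
    omega
  have h3 : K * (8 * (cls f I).card) ≤ K * ((2 * κ + 1) * (c * μ)) := by
    calc K * (8 * (cls f I).card) = 8 * (K * (cls f I).card) := by ring
      _ ≤ 8 * (2 * I.card * Fintype.card V) := Nat.mul_le_mul_left _ h2
      _ = (2 * κ + 1) * c * (1600 * u * Fintype.card V) := by rw [hI]; ring
      _ ≤ (2 * κ + 1) * c * (K * μ) := Nat.mul_le_mul_left _ ha
      _ = K * ((2 * κ + 1) * (c * μ)) := by ring
  exact Nat.le_of_mul_le_mul_left h3 hK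

/-- the body `A` of a level `i ≥ 1` -/
theorem body_pos {V : Type} [Fintype V] [DecidableEq V] {G : SimpleGraph V}
    [DecidableRel G.Adj] {d t : ℕ} {lam : ℝ} {h κ B K Q N μ u : ℕ}
    (P : ParamsT (Fintype.card V) d t lam h κ B K Q N μ u) {ε : ℝ}
    {f : V → Fin K} (hL : Lab G d K ε f) (c : ℕ)
    (I0 I1 I2 Lp : Finset (Fin K)) (l0 : I0.card = (2 * κ + 1) * (100 * c * u))
    (l1 : I1.card = (2 * κ + 1) * (100 * c * u))
    (l2 : I2.card = 40 * ((2 * κ + 1) * (100 * c * u)))
    (lp : Lp.card = (2 * κ + 1) * (100 * c * u)) (h01 : Disjoint I0 I1) (h02 : Disjoint I0 I2)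
    (h12 : Disjoint I1 I2) (sp : ℕ) (hsp : 1000 * sp ≤ (2 * κ + 1) * (c * μ)) :
    ∃ A : Finset V, cls f I0 ⊆ A ∧ cls f I1 ⊆ A ∧ A ⊆ cls f (I0 ∪ I1 ∪ I2) ∧
      A.card + (cls f Lp).card = (2 * κ + 1) * (c * μ) + sp := by
  have hK : 0 < K := by
    have := P.hKk
    omega
  have ha := P.hKμ1
  have hb := P.hKμ2
  have r0 := card_reserve P hL c I0 l0
  have r1 := card_reserve P hL c I1 l1
  have rp := card_reserve P hL c Lp lp
  have h3 := hL.card_lower (I0 ∪ I1 ∪ I2)
  have h4 : (I0 ∪ I1 ∪ I2).card * Fintype.card V ≤ 2 * K * (cls f (I0 ∪ I1 ∪ I2)).card := by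
    exact_mod_cast h3
  have h5 : (I0 ∪ I1 ∪ I2).card = 42 * ((2 * κ + 1) * (100 * c * u)) := by
    rw [card_union_of_disjoint (disjoint_union_left.2 ⟨h02, h12⟩), card_union_of_disjoint h01, l0,
      l1, l2]
    ring
  have h6 : 12 * ((2 * κ + 1) * (c * μ)) ≤ 10 * (cls f (I0 ∪ I1 ∪ I2)).card := by
    have h7 : K * (12 * ((2 * κ + 1) * (c * μ))) ≤ K * (10 * (cls f (I0 ∪ I1 ∪ I2)).card) := by
      calc K * (12 * ((2 * κ + 1) * (c * μ))) = 12 * ((2 * κ + 1) * c) * (K * μ) := by ring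
        _ ≤ 12 * ((2 * κ + 1) * c) * (1700 * u * Fintype.card V) := Nat.mul_le_mul_left _ hb
        _ = 20400 * ((2 * κ + 1) * c * u * Fintype.card V) := by ring
        _ ≤ 21000 * ((2 * κ + 1) * c * u * Fintype.card V) := Nat.mul_le_mul_right _ (by norm_num)
        _ = 5 * ((I0 ∪ I1 ∪ I2).card * Fintype.card V) := by rw [h5]; ring
        _ ≤ 5 * (2 * K * (cls f (I0 ∪ I1 ∪ I2)).card) := Nat.mul_le_mul_left _ h4
        _ = K * (10 * (cls f (I0 ∪ I1 ∪ I2)).card) := by ring
    exact Nat.le_of_mul_le_mul_left h7 hK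
  set X := (2 * κ + 1) * (c * μ) with hX
  have h8 : (cls f (I0 ∪ I1)).card ≤ (cls f I0).card + (cls f I1).card := by
    have : cls f (I0 ∪ I1) ⊆ cls f I0 ∪ cls f I1 := by
      intro v hv
      rw [mem_cls, mem_union] at hv
      rw [mem_union, mem_cls, mem_cls]
      exact hv
    exact (card_le_card this).trans (card_union_le _ _)
  obtain ⟨A, hA1, hA2, hA3⟩ := Finset.exists_subsuperset_card_eq
    (s := cls f (I0 ∪ I1)) (t := cls f (I0 ∪ I1 ∪ I2)) (n := X + sp - (cls f Lp).card)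
    (cls_mono subset_union_left) (by omega) (by omega)
  refine ⟨A, (cls_mono subset_union_left).trans hA1, (cls_mono subset_union_right).trans hA1, hA2,
    ?_⟩
  omega

/-- the spent vertices of a reserve are few: `1000 l m_{i-1} ≤ k m_i` -/
theorem spent_le {n d t : ℕ} {lam : ℝ} {h κ B K Q N μ u : ℕ}
    (P : ParamsT n d t lam h κ B K Q N μ u) (nz : ℕ)
    (hnz : K * nz ≤ 2 * ((2 * κ + 1) * u) * n) {i : ℕ} (hi : i < N) :
    1000 * (mT (Fintype.card (Pr t)) (h + 2) N μ nz i * (2 * h + 2)) ≤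
      (2 * κ + 1) * (100 ^ (N - (i + 1)) * μ) := by
  have hk := P.hk
  set k := 2 * κ + 1 with hkk
  rcases Nat.eq_zero_or_pos i with h0 | hpos
  · subst h0
    obtain ⟨-, -, hm⟩ := mT_sum P nz hnz
    have hN2 := P.hN2
    set m0 := mT (Fintype.card (Pr t)) (h + 2) N μ nz 0 with hm0
    have e1 : k * m0 ≤ k * (10 ^ 7 * (100 ^ (N - 1) * μ)) := by
      calc k * m0 ≤ n := hm
        _ ≤ k * 100 ^ (N - 1) * μ * 10 ^ 7 := hN2
        _ = k * (10 ^ 7 * (100 ^ (N - 1) * μ)) := by ring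
    have e2 := Nat.le_of_mul_le_mul_left e1 (by omega)
    calc 1000 * (m0 * (2 * h + 2)) ≤ 1000 * ((10 ^ 7 * (100 ^ (N - 1) * μ)) * (2 * h + 2)) :=
          Nat.mul_le_mul_left _ (Nat.mul_le_mul_right _ e2)
      _ = (10 ^ 10 * (2 * h + 2)) * (100 ^ (N - (0 + 1)) * μ) := by ring
      _ ≤ k * (100 ^ (N - (0 + 1)) * μ) := Nat.mul_le_mul_right _ hk
  · rw [mT_pos _ _ _ _ _ hpos]
    have e1 : 100 ^ (N - i) = 100 * 100 ^ (N - (i + 1)) := by
      rw [← pow_succ']
      congr 1
      omega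
    calc 1000 * (100 ^ (N - i) * μ * (2 * h + 2))
        = (100000 * (2 * h + 2)) * (100 ^ (N - (i + 1)) * μ) := by rw [e1]; ring
      _ ≤ (10 ^ 10 * (2 * h + 2)) * (100 ^ (N - (i + 1)) * μ) :=
          Nat.mul_le_mul_right _ (Nat.mul_le_mul_right _ (by norm_num))
      _ ≤ k * (100 ^ (N - (i + 1)) * μ) := Nat.mul_le_mul_right _ hk

/-- the pads of all levels -/
theorem pads_all {V : Type} [Fintype V] [DecidableEq V] {G : SimpleGraph V}
    [DecidableRel G.Adj] {d t : ℕ} {lam : ℝ} {h κ B K Q N μ u : ℕ}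
    (P : ParamsT (Fintype.card V) d t lam h κ B K Q N μ u) {ε : ℝ}
    {f : V → Fin K} (hL : Lab G d K ε f) (L : ℕ → Fin 7 → Finset (Fin K))
    (hLc : ∀ i ≤ N, ∀ a, (L i a).card = szL K (2 * κ + 1) N u i a)
    (hdis : ∀ i a i' a', (i, a) ≠ (i', a') → Disjoint (L i a) (L i' a')) (nz : ℕ)
    (hnz : K * nz ≤ 2 * ((2 * κ + 1) * u) * Fintype.card V) (i : ℕ) (hi : i ≤ N) :
    ∃ A₀ A₁ Tg : Finset V, cls f (L i 3) ⊆ A₀ ∧ A₀ ⊆ cls f (L i 3 ∪ L i 5) ∧ cls f (L i 4) ⊆ A₁ ∧
      A₁ ⊆ cls f (L i 4 ∪ L i 5) ∧ Tg ⊆ cls f (L i 5) ∧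
      A₀.card = mT (Fintype.card (Pr t)) (h + 2) N μ nz i ∧
      A₁.card = mT (Fintype.card (Pr t)) (h + 2) N μ nz i ∧
      Tg.card = mT (Fintype.card (Pr t)) (h + 2) N μ nz i ∧
      Disjoint A₀ A₁ ∧ Disjoint A₀ Tg ∧ Disjoint A₁ Tg := by
  have hK : 1 ≤ K := by
    have := P.hKk
    omega
  have d34 : Disjoint (L i 3) (L i 4) := hdis i 3 i 4 (by simp)
  have d35 : Disjoint (L i 3) (L i 5) := hdis i 3 i 5 (by simp)
  have d45 : Disjoint (L i 4) (L i 5) := hdis i 4 i 5 (by simp)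
  have c3 := hLc i hi 3
  have c4 := hLc i hi 4
  have c5 := hLc i hi 5
  have ha := P.hKμ1
  have hb := P.hKμ2
  set n := Fintype.card V with hn
  set k := 2 * κ + 1 with hkk
  rcases Nat.eq_zero_or_pos i with h0 | hpos
  · subst h0
    obtain ⟨-, m1, m2⟩ := mT_sum P nz hnz
    set m0 := mT (Fintype.card (Pr t)) (h + 2) N μ nz 0 with hm0
    unfold szL at c3 c4 c5
    rw [if_pos rfl] at c3 c4 c5
    simp only [Matrix.cons_val] at c3 c4 c5
    have hk0 : 0 < k := by omega
    have e1 : 2 * (K / (8 * k)) * n ≤ K * m0 := by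
      have e2 : K / (8 * k) * (8 * k) ≤ K := Nat.div_mul_le_self _ _
      calc 2 * (K / (8 * k)) * n ≤ 2 * (K / (8 * k)) * (2 * (k * m0)) :=
            Nat.mul_le_mul_left _ m1
        _ = (4 * k * (K / (8 * k))) * m0 := by ring
        _ ≤ K * m0 := Nat.mul_le_mul_right _ (by
          have e3 : K / (8 * k) * (8 * k) = 2 * (4 * k * (K / (8 * k))) := by ring
          omega)
    refine pads3 hL hK m0 (L 0 3) (L 0 4) (L 0 5) d34 d35 d45 ?_ ?_ ?_
    · rw [c3]
      exact e1
    · rw [c4]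
      exact e1
    · rw [c5]
      have e2 : 8 * K < (8 * K / k + 1) * k := Nat.lt_mul_of_div_lt (Nat.lt_succ_self _) hk0
      calc 6 * (K * m0) ≤ (8 * K) * m0 := by
            have : (8 * K) * m0 = 6 * (K * m0) + 2 * (K * m0) := by ring
            omega
        _ ≤ ((8 * K / k + 1) * k) * m0 := Nat.mul_le_mul_right _ e2.le
        _ = (8 * K / k + 1) * (k * m0) := by ring
        _ ≤ (8 * K / k + 1) * n := Nat.mul_le_mul_left _ m2
  · unfold szL at c3 c4 c5
    rw [if_neg (by omega)] at c3 c4 c5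
    simp only [Matrix.cons_val] at c3 c4 c5
    rw [mT_pos _ _ _ _ _ hpos]
    set c := 100 ^ (N - i) with hc
    have e1 : 2 * (4 * (100 * c * u)) * n ≤ K * (c * μ) := by
      calc 2 * (4 * (100 * c * u)) * n = c * (800 * u * n) := by ring
        _ ≤ c * (K * μ) := Nat.mul_le_mul_left _ (le_trans (Nat.mul_le_mul_right _
            (Nat.mul_le_mul_right _ (by norm_num))) ha)
        _ = K * (c * μ) := by ring
    refine pads3 hL hK (c * μ) (L i 3) (L i 4) (L i 5) d34 d35 d45 ?_ ?_ ?_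
    · rw [c3]
      exact e1
    · rw [c4]
      exact e1
    · rw [c5]
      calc 6 * (K * (c * μ)) = 6 * c * (K * μ) := by ring
        _ ≤ 6 * c * (1700 * u * n) := Nat.mul_le_mul_left _ hb
        _ = 10200 * (c * u * n) := by ring
        _ ≤ 12000 * (c * u * n) := Nat.mul_le_mul_right _ (by norm_num)
        _ = 120 * (100 * c * u) * n := by ring

/-- the blocks are disjoint -/
theorem blocks_le {V : Type} [Fintype V] [DecidableEq V] {K : ℕ} (f : V → Fin K) (N : ℕ)
    (St Wb : Finset (Fin K)) (L : ℕ → Fin 7 → Finset (Fin K)) (hSW : Disjoint St Wb)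
    (hS : ∀ i a, Disjoint St (L i a)) (hW : ∀ i a, Disjoint Wb (L i a))
    (hdis : ∀ i a i' a', (i, a) ≠ (i', a') → Disjoint (L i a) (L i' a')) :
    (cls f St).val + (cls f Wb).val + ∑ i ∈ range (N + 1),
      ((cls f (L i 3 ∪ L i 4 ∪ L i 5)).val + (cls f (L i 0 ∪ L i 1 ∪ L i 2)).val +
        (cls f (L i 6)).val) ≤ (univ : Finset V).val := by
  set J : Fin 2 ⊕ (Fin (N + 1) × Fin 3) → Finset (Fin K) := Sum.elim ![St, Wb]
    (fun p => ![L p.1 3 ∪ L p.1 4 ∪ L p.1 5, L p.1 0 ∪ L p.1 1 ∪ L p.1 2, L p.1 6] p.2) with hJ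
  have hLL : ∀ (i i' : ℕ) (a a' : Fin 7), ¬ (i = i' ∧ a = a') → Disjoint (L i a) (L i' a') := by
    intro i i' a a' hne
    refine hdis i a i' a' ?_
    intro he
    rw [Prod.mk.injEq] at he
    exact hne he
  have hJd : ∀ x y, x ≠ y → Disjoint (J x) (J y) := by
    have hSt : ∀ p, Disjoint St (J (Sum.inr p)) := by
      rintro ⟨i, a⟩
      fin_cases a
      · simp only [hJ, Sum.elim_inr]
        simp only [Fin.zero_eta, Matrix.cons_val_zero]
        rw [disjoint_union_right, disjoint_union_right]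
        exact ⟨⟨hS _ _, hS _ _⟩, hS _ _⟩
      · simp only [hJ, Sum.elim_inr]
        simp only [Fin.mk_one, Matrix.cons_val_one, Matrix.cons_val_zero]
        rw [disjoint_union_right, disjoint_union_right]
        exact ⟨⟨hS _ _, hS _ _⟩, hS _ _⟩
      · exact hS _ _
    have hWb : ∀ p, Disjoint Wb (J (Sum.inr p)) := by
      rintro ⟨i, a⟩
      fin_cases a
      · simp only [hJ, Sum.elim_inr]
        simp only [Fin.zero_eta, Matrix.cons_val_zero]
        rw [disjoint_union_right, disjoint_union_right]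
        exact ⟨⟨hW _ _, hW _ _⟩, hW _ _⟩
      · simp only [hJ, Sum.elim_inr]
        simp only [Fin.mk_one, Matrix.cons_val_one, Matrix.cons_val_zero]
        rw [disjoint_union_right, disjoint_union_right]
        exact ⟨⟨hW _ _, hW _ _⟩, hW _ _⟩
      · exact hW _ _
    have hpp : ∀ p q, p ≠ q → Disjoint (J (Sum.inr p)) (J (Sum.inr q)) := by
      rintro ⟨i, a⟩ ⟨i', a'⟩ hne
      by_cases hii : i = i'
      · subst hii
        have haa : a ≠ a' := fun h => hne (by rw [h])
        fin_cases a <;> fin_cases a' <;> first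
          | exact absurd rfl haa
          | (simp only [hJ, Sum.elim_inr, Fin.zero_eta, Fin.mk_one, Fin.reduceFinMk,
              Matrix.cons_val]
             try simp only [disjoint_union_left, disjoint_union_right]
             repeat' apply And.intro
             all_goals exact hLL _ _ _ _ (by simp))
      · have hii' : (i : ℕ) ≠ i' := fun h => hii (Fin.ext h)
        fin_cases a <;> fin_cases a' <;>
          (simp only [hJ, Sum.elim_inr, Fin.zero_eta, Fin.mk_one, Fin.reduceFinMk,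
              Matrix.cons_val]
           try simp only [disjoint_union_left, disjoint_union_right]
           repeat' apply And.intro
           all_goals exact hLL _ _ _ _ (fun h => hii' h.1))
    rintro (x | p) (y | q) hne
    · fin_cases x <;> fin_cases y
      · exact absurd rfl hne
      · exact hSW
      · exact hSW.symm
      · exact absurd rfl hne
    · fin_cases x
      · exact hSt q
      · exact hWb q
    · fin_cases y
      · exact (hSt p).symm
      · exact (hWb p).symm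
    · exact hpp p q (fun h => hne (by rw [h]))
  have h1 := nb_sum_biUnion (T := fun x => cls f (J x)) (fun x y hxy => cls_disj (hJd x y hxy))
  rw [Fintype.sum_sum_type, Fintype.sum_prod_type, Fin.sum_univ_two] at h1
  have h2 : ∀ i : Fin (N + 1), ∑ a : Fin 3, (cls f (J (Sum.inr (i, a)))).val =
      (cls f (L i 3 ∪ L i 4 ∪ L i 5)).val + (cls f (L i 0 ∪ L i 1 ∪ L i 2)).val +
        (cls f (L i 6)).val := by
    intro i
    rw [Fin.sum_univ_three]
    rfl
  rw [Finset.sum_congr rfl (fun i _ => h2 i), Fin.sum_univ_eq_sum_range (fun i =>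
    (cls f (L i 3 ∪ L i 4 ∪ L i 5)).val + (cls f (L i 0 ∪ L i 1 ∪ L i 2)).val +
        (cls f (L i 6)).val)] at h1
  have h3 : (cls f (J (Sum.inl 0))).val + (cls f (J (Sum.inl 1))).val =
      (cls f St).val + (cls f Wb).val := rfl
  rw [h3] at h1
  rw [h1]
  exact Finset.val_le_iff.2 (subset_univ _)

end Pool.Agent.HDT
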