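import Pool.Agent.HD.Walk
import Pool.Agent.HD.Multi
import Pool.Agent.HD.NetAlg
import Pool.Agent.HD.Final

/-!
MP_134267_co, Theorem HDT (full range of `t`, helper88): definitions shared by all modules.
-/

namespace Pool.Agent.HDT

open Finset Pool.Agent.HD

/-- norm bound for the block with rows `S` and columns `S'` of the centred adjacency matrix -/
def NB {V : Type} [Fintype V] (G : SimpleGraph V) [DecidableRel G.Adj] (d : ℕ)
    (S S' : Finset V) (Λ : ℝ) : Prop :=
  ∀ x : V → ℝ, ∑ u ∈ S, (∑ v ∈ S', Mx G d u v * x v) ^ 2 ≤ Λ * ∑ v ∈ S', x v ^ 2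

/-- the vertices with a label in `I` -/
def cls {V : Type} [Fintype V] {K : ℕ} (f : V → Fin K) (I : Finset (Fin K)) : Finset V :=
  univ.filter (fun v => f v ∈ I)

/-- a good labelling: sizes of the classes, degrees into the classes, norms of the rows of a class
and of the blocks of two different classes -/
structure Lab {V : Type} [Fintype V] [DecidableEq V] (G : SimpleGraph V) [DecidableRel G.Adj]
    (d K : ℕ) (ε : ℝ) (f : V → Fin K) : Prop where
  size : ∀ i, (Fintype.card V : ℝ) ≤ 2 * K * (cls f {i}).card ∧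
    (K : ℝ) * (cls f {i}).card ≤ 2 * Fintype.card V
  deg : ∀ v i, (d : ℝ) ≤ 2 * K * (G.neighborFinset v ∩ cls f {i}).card ∧
    (K : ℝ) * (G.neighborFinset v ∩ cls f {i}).card ≤ 9 * d
  one : ∀ i, NB G d (cls f {i}) univ ((ε * d) ^ 2 / K)
  two : ∀ i j, i ≠ j → NB G d (cls f {i}) (cls f {j}) ((ε * d / K) ^ 2)

/-- the pattern of the absorbers: for every `x` an odd closed walk
`α x 0, β x 0, α x 1, β x 1, ..., β x (j-1), z x` and an even one `δ x 0, γ x 0, ..., γ x (j-1)` -/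
structure Pat {V ζ : Type} (adj : V → V → Prop) (j : ℕ) (z : ζ → V)
    (α β γ δ : ζ × Fin j → V) : Prop where
  ab : ∀ p, adj (α p) (β p)
  ba : ∀ x (i i' : Fin j), (i : ℕ) + 1 = i' → adj (β (x, i)) (α (x, i'))
  bz : ∀ x (i : Fin j), (i : ℕ) + 1 = j → adj (β (x, i)) (z x)
  za : ∀ x (i : Fin j), (i : ℕ) = 0 → adj (z x) (α (x, i))
  cd : ∀ p, adj (γ p) (δ p)
  cd' : ∀ x (i i' : Fin j), (i : ℕ) + 1 = i' → adj (γ (x, i)) (δ (x, i'))
  cz : ∀ x (i i' : Fin j), (i : ℕ) + 1 = j → (i' : ℕ) = 0 → adj (γ (x, i)) (δ (x, i'))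

end Pool.Agent.HDT
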