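import Pool.Agent.HDT.Defs
import Pool.Agent.HD.Multi
import Pool.Agent.HD.Spec

/-!
MP_134267_co, Theorem HDT, row R3 (helper6): links inside a sparse reserve `W`, by Friedman-Pippenger in
the subgraph induced on `U`.
-/

set_option autoImplicit false

namespace Pool.Agent.HDT

open Finset Pool.Agent.HD

section linkstage

variable {V : Type} [Fintype V] [DecidableEq V] (G : SimpleGraph V) [DecidableRel G.Adj]

/-- expander mixing from `NB` -/
lemma ls_mix {d : ℕ} (U W : Finset V) (L : ℝ) (hL : 0 ≤ L) (hNB : NB G d U W (L ^ 2))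
    (S T : Finset V) (hS : S ⊆ U) (hT : T ⊆ W) :
    |(eST G S T : ℝ) - (d : ℝ) / Fintype.card V * S.card * T.card| ≤ L * √(S.card * T.card) := by
  refine mixing_of_norm G ((d : ℝ) / Fintype.card V) L hL U W ?_ S T hS hT
  intro x _
  exact hNB x

/-- no edges: the product of the sizes is small -/
lemma ls_noedge {d : ℕ} (hd : 1 ≤ d) (U W : Finset V) (w : ℝ) (hw : 0 ≤ w)
    (hNB : NB G d U W ((w * d / 1000) ^ 2)) (S T : Finset V) (hS : S ⊆ U) (hT : T ⊆ W)
    (he : eST G S T = 0) :
    1000000 * ((S.card : ℝ) * T.card) ≤ (w * Fintype.card V) ^ 2 := by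
  rcases Nat.eq_zero_or_pos S.card with hS0 | hS0
  · rw [hS0]; simp only [Nat.cast_zero, zero_mul, mul_zero]; positivity
  rcases Nat.eq_zero_or_pos T.card with hT0 | hT0
  · rw [hT0]; simp only [Nat.cast_zero, mul_zero]; positivity
  have hd0 : (0 : ℝ) < d := by exact_mod_cast hd
  have h1 := ls_mix G U W (w * d / 1000) (by positivity) hNB S T hS hT
  rw [he] at h1
  have hn : (0 : ℝ) < Fintype.card V := by
    exact_mod_cast lt_of_lt_of_le hS0 (Finset.card_le_univ S)
  have hS1 : (0 : ℝ) < S.card := by exact_mod_cast hS0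
  have hT1 : (0 : ℝ) < T.card := by exact_mod_cast hT0
  set P : ℝ := (S.card : ℝ) * T.card with hP
  have hP0 : 0 < P := by positivity
  have hsq : √P * √P = P := Real.mul_self_sqrt hP0.le
  have hsp : 0 < √P := Real.sqrt_pos.2 hP0
  have h3 : (d : ℝ) / Fintype.card V * P ≤ w * d / 1000 * √P := by
    have e1 : |((0 : ℕ) : ℝ) - (d : ℝ) / Fintype.card V * S.card * T.card|
        = (d : ℝ) / Fintype.card V * P := by
      rw [Nat.cast_zero, zero_sub, abs_neg, abs_of_nonneg (by positivity), hP]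
      ring
    rw [e1] at h1
    exact h1
  have h4 : (d : ℝ) / Fintype.card V * √P ≤ w * d / 1000 := by
    have : (d : ℝ) / Fintype.card V * √P * √P ≤ w * d / 1000 * √P := by
      rw [mul_assoc, hsq]; exact h3
    exact le_of_mul_le_mul_right this hsp
  have h5 : (d : ℝ) * √P ≤ w * d / 1000 * Fintype.card V := by
    rw [div_mul_eq_mul_div, div_le_iff₀ hn] at h4
    exact h4
  have h6 : (d : ℝ) * (1000 * √P) ≤ d * (w * Fintype.card V) := by nlinarith
  have h7 : 1000 * √P ≤ w * Fintype.card V := le_of_mul_le_mul_left h6 hd0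
  have h8 : (1000 * √P) ^ 2 ≤ (w * Fintype.card V) ^ 2 :=
    pow_le_pow_left₀ (by positivity) h7 2
  calc 1000000 * P = (1000 * √P) ^ 2 := by rw [mul_pow, sq (√P), hsq]; norm_num
    _ ≤ _ := h8

/-- number of edges from `X` into `Y` when every neighbour in `W` of a vertex of `X` is in `Y` -/
lemma ls_edges (W X Y : Finset V) (D : ℝ)
    (hdeg : ∀ v ∈ X, D ≤ 2 * (G.neighborFinset v ∩ W).card)
    (hY : ∀ v ∈ X, ∀ u ∈ W, G.Adj v u → u ∈ Y) :
    D * X.card ≤ 2 * eST G X Y := by
  have h1 : eST G X Y = ∑ v ∈ X, (Y.filter (fun u => G.Adj v u)).card := by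
    unfold eST
    rw [Finset.card_filter, Finset.sum_product]
    refine Finset.sum_congr rfl fun v _ => ?_
    rw [Finset.card_filter]
  rw [h1, Nat.cast_sum, Finset.mul_sum]
  calc D * X.card = ∑ _v ∈ X, D := by rw [Finset.sum_const, nsmul_eq_mul, mul_comm]
    _ ≤ ∑ v ∈ X, 2 * ((Y.filter (fun u => G.Adj v u)).card : ℝ) := by
      refine Finset.sum_le_sum fun v hv => (hdeg v hv).trans ?_
      refine mul_le_mul_of_nonneg_left ?_ (by norm_num)
      have : (G.neighborFinset v ∩ W).card ≤ (Y.filter (fun u => G.Adj v u)).card := by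
        refine Finset.card_le_card ?_
        intro u hu
        rw [Finset.mem_inter, SimpleGraph.mem_neighborFinset] at hu
        rw [Finset.mem_filter]
        exact ⟨hY v hv u hu.2 hu.1, hu.1⟩
      exact_mod_cast this

/-- expansion into `W` of the small sets -/
lemma ls_expand {d : ℕ} (hd : 1 ≤ d) (U W : Finset V) (w : ℝ) (hw : 0 < w)
    (hdeg : ∀ v ∈ U, w * d ≤ 2 * (G.neighborFinset v ∩ W).card)
    (hNB : NB G d U W ((w * d / 1000) ^ 2)) (X Y : Finset V) (hX : X ⊆ U) (hYW : Y ⊆ W)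
    (hY : ∀ v ∈ X, ∀ u ∈ W, G.Adj v u → u ∈ Y)
    (hXc : 50 * (X.card : ℝ) ≤ w * Fintype.card V) :
    3 * X.card ≤ Y.card := by
  by_contra hcon
  push Not at hcon
  rcases Nat.eq_zero_or_pos X.card with h0 | hpos
  · omega
  have hd0 : (0 : ℝ) < d := by exact_mod_cast hd
  have h1 := ls_edges G W X Y (w * d) (fun v hv => hdeg v (hX hv)) hY
  have h2 := ls_mix G U W (w * d / 1000) (by positivity) hNB X Y hX hYW
  have hX0 : (0 : ℝ) < X.card := by exact_mod_cast hpos
  have hn : (0 : ℝ) < Fintype.card V := by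
    exact_mod_cast lt_of_lt_of_le hpos (Finset.card_le_univ X)
  have hY3 : (Y.card : ℝ) ≤ 3 * X.card := by exact_mod_cast hcon.le
  have h3 : (eST G X Y : ℝ) ≤ (d : ℝ) / Fintype.card V * X.card * Y.card
      + w * d / 1000 * √(X.card * Y.card) := by
    have := (abs_le.1 h2).2
    linarith
  have h5 : √((X.card : ℝ) * Y.card) ≤ 2 * X.card := by
    rw [Real.sqrt_le_left (by positivity)]
    nlinarith
  have h6 : w * d / 1000 * √((X.card : ℝ) * Y.card) ≤ w * d / 1000 * (2 * X.card) :=
    mul_le_mul_of_nonneg_left h5 (by positivity)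
  have h8 : (d : ℝ) / Fintype.card V * X.card * Y.card ≤ w * d * X.card * (3 / 50) := by
    have e1 : (Y.card : ℝ) / Fintype.card V ≤ w * (3 / 50) := by
      rw [div_le_iff₀ hn]
      linarith
    calc (d : ℝ) / Fintype.card V * X.card * Y.card
        = (d : ℝ) * X.card * (Y.card / Fintype.card V) := by ring
      _ ≤ (d : ℝ) * X.card * (w * (3 / 50)) := mul_le_mul_of_nonneg_left e1 (by positivity)
      _ = _ := by ring
  have h9 : (0 : ℝ) < w * d * X.card := by positivity
  nlinarith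

end linkstage

/-- the two structures of Friedman and Pippenger in the subgraph induced on `U` -/
theorem ls_init {V : Type} [Fintype V] [DecidableEq V] (G : SimpleGraph V)
    [DecidableRel G.Adj] {d : ℕ} (hd : 1 ≤ d) (U W : Finset V) (hWU : W ⊆ U) (w : ℝ)
    (hN : 400 ≤ w * Fintype.card V) (hWc : w * Fintype.card V ≤ 2 * W.card)
    (hdeg : ∀ v ∈ U, w * d ≤ 2 * (G.neighborFinset v ∩ W).card)
    (hNB : NB G d U W ((w * d / 1000) ^ 2)) (K : ℕ)
    (hK : 10 * (K : ℝ) ≤ w * Fintype.card V) :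
    ∃ m h : ℕ, h ≤ Nat.clog 2 (Fintype.card V) ∧
      FPCtx (G.comap (Subtype.val : U → V)) (univ.filter (fun x : U => x.1 ∈ W)) m h
        (K + 2 ^ (h + 2)) ∧
      FPState (G.comap (Subtype.val : U → V)) (univ.filter (fun x : U => x.1 ∈ W)) m
        (univ \ (univ.filter (fun x : U => x.1 ∈ W)))
        (fun x => if x ∈ (univ.filter (fun x : U => x.1 ∈ W)) then 2 else 3) := by
  have hn0 : (0 : ℝ) ≤ Fintype.card V := Nat.cast_nonneg _
  have hw : 0 < w := by
    by_contra hcon
    push Not at hcon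
    nlinarith
  set N : ℝ := w * Fintype.card V with hNdef
  set m : ℕ := ⌊N / 100⌋₊ with hm
  have hm1 : (m : ℝ) ≤ N / 100 := Nat.floor_le (by positivity)
  have hm2 : N / 100 < m + 1 := Nat.lt_floor_add_one _
  have hm3 : 3 * N ≤ 400 * m := by linarith
  have hm4 : 1 ≤ m := by
    rw [hm]
    exact Nat.le_floor (by push_cast; linarith)
  have hWn : (W.card : ℝ) ≤ Fintype.card V := by exact_mod_cast Finset.card_le_univ W
  have hmn : m ≤ Fintype.card V := by
    have : (m : ℝ) ≤ Fintype.card V := by linarith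
    exact_mod_cast this
  -- the image of a set of the subtype
  set W' : Finset U := univ.filter (fun x : U => x.1 ∈ W) with hW'
  have hmemW' : ∀ x : U, x ∈ W' ↔ x.1 ∈ W := by
    intro x; rw [hW', Finset.mem_filter]; simp
  have im : ∀ X : Finset U, (X.map ⟨Subtype.val, Subtype.val_injective⟩).card = X.card :=
    fun X => Finset.card_map _
  have imU : ∀ X : Finset U, X.map ⟨Subtype.val, Subtype.val_injective⟩ ⊆ U := by
    intro X x hx
    rw [Finset.mem_map] at hx
    obtain ⟨y, _, rfl⟩ := hx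
    exact y.2
  have imW : ∀ X ⊆ W', X.map ⟨Subtype.val, Subtype.val_injective⟩ ⊆ W := by
    intro X hX x hx
    rw [Finset.mem_map] at hx
    obtain ⟨y, hy, rfl⟩ := hx
    exact (hmemW' y).1 (hX hy)
  have hW'c : W'.card = W.card := by
    rw [← im W']
    congr 1
    ext x
    rw [Finset.mem_map]
    constructor
    · rintro ⟨y, hy, rfl⟩
      exact (hmemW' y).1 hy
    · intro hx
      exact ⟨⟨x, hWU hx⟩, (hmemW' _).2 hx, rfl⟩
  -- no edges
  have hno : ∀ A B : Finset U, B ⊆ W' → (∀ a ∈ A, ∀ b ∈ B, ¬ G.Adj a.1 b.1) →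
      1000000 * ((A.card : ℝ) * B.card) ≤ N ^ 2 := by
    intro A B hB hAB
    have h1 := ls_noedge G hd U W w hw.le hNB (A.map ⟨Subtype.val, Subtype.val_injective⟩)
      (B.map ⟨Subtype.val, Subtype.val_injective⟩) (imU A) (imW B hB) (by
        unfold eST
        rw [Finset.card_eq_zero, Finset.filter_eq_empty_iff]
        rintro ⟨x, y⟩ hxy
        rw [Finset.mem_product, Finset.mem_map, Finset.mem_map] at hxy
        obtain ⟨⟨a, ha, rfl⟩, ⟨b, hb, rfl⟩⟩ := hxy
        exact hAB a ha b hb)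
    rw [im, im] at h1
    exact h1
  have hnbY : ∀ X : Finset U, X.biUnion (nb (G.comap (Subtype.val : U → V)) W') ⊆ W' := by
    intro X y hy
    rw [Finset.mem_biUnion] at hy
    obtain ⟨x, _, hy⟩ := hy
    exact nb_sub _ _ _ hy
  refine ⟨m, Nat.clog 2 m, Nat.clog_mono_right 2 hmn, ⟨hm4, ?_, ?_, ?_⟩, ⟨?_, ?_, ?_, ?_⟩⟩
  · exact Nat.le_pow_clog (by norm_num) m
  · -- join
    intro A _ B hBW hA hB _
    by_contra hcon
    push Not at hcon
    have h1 := hno A B hBW (fun a ha b hb => hcon a ha b hb)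
    have hA' : (m : ℝ) ≤ A.card := by exact_mod_cast hA
    have hB' : (m : ℝ) ≤ B.card := by exact_mod_cast hB
    have h2 : (m : ℝ) * m ≤ (A.card : ℝ) * B.card :=
      mul_le_mul hA' hB' (by positivity) (by positivity)
    have h3 : (3 * N) * (3 * N) ≤ (400 * m) * (400 * m) :=
      mul_le_mul hm3 hm3 (by positivity) (by positivity)
    nlinarith
  · -- big
    intro X hX1 hX2
    set Y := X.biUnion (nb (G.comap (Subtype.val : U → V)) W') with hY
    have hYW : Y ⊆ W' := hnbY X
    have h1 := hno X (W' \ Y) Finset.sdiff_subset (by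
      intro a ha b hb hab
      rw [Finset.mem_sdiff] at hb
      apply hb.2
      rw [hY, Finset.mem_biUnion]
      exact ⟨a, ha, mem_nb.2 ⟨hb.1, hab⟩⟩)
    have hX' : (m : ℝ) ≤ X.card := by exact_mod_cast hX1.le
    have hX2' : (X.card : ℝ) ≤ 2 * m := by exact_mod_cast hX2
    have hc0 : (0 : ℝ) ≤ (W' \ Y).card := by positivity
    have h2 : 3 * N * (W' \ Y).card ≤ 400 * X.card * (W' \ Y).card :=
      mul_le_mul_of_nonneg_right (by linarith) hc0
    have h3 : N * (7500 * ((W' \ Y).card : ℝ)) ≤ N * N := by nlinarith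
    have h4 : 7500 * ((W' \ Y).card : ℝ) ≤ N := le_of_mul_le_mul_left h3 (by positivity)
    have hcard : ((W' \ Y).card : ℝ) + Y.card = W.card := by
      have := Finset.card_sdiff_add_card_eq_card hYW
      rw [hW'c] at this
      exact_mod_cast this
    have hpow : ((2 ^ (Nat.clog 2 m + 2) : ℕ) : ℝ) ≤ 8 * m := by
      have h5 : 2 ^ (Nat.clog 2 m) ≤ 2 * m := by
        rcases Nat.lt_or_ge 1 m with hm' | hm'
        · have := Nat.pow_pred_clog_lt_self (b := 2) (by norm_num) hm'
          have hc : 1 ≤ Nat.clog 2 m := Nat.clog_pos (by norm_num) hm'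
          obtain ⟨c, hc'⟩ : ∃ c, Nat.clog 2 m = c + 1 := ⟨Nat.clog 2 m - 1, by omega⟩
          rw [hc'] at this ⊢
          rw [Nat.pred_succ] at this
          rw [pow_succ]
          omega
        · have : m = 1 := le_antisymm hm' hm4
          rw [this]; simp
      have : 2 ^ (Nat.clog 2 m + 2) ≤ 8 * m := by
        rw [pow_add]; omega
      exact_mod_cast this
    have hfin : (3 * (X.card : ℝ) + (K + ((2 ^ (Nat.clog 2 m + 2) : ℕ) : ℝ))) < Y.card := by
      have hNpos : 0 < N := by linarith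
      linarith
    exact_mod_cast hfin
  · intro x hx
    simp [hx]
  · intro x
    split_ifs <;> norm_num
  · intro x hx
    have : x ∈ W' := by
      by_contra hxW
      exact hx (by simp [hxW])
    simp only [this, if_true]
  · intro X hX
    have h1 : ∑ x ∈ X, (if x ∈ W' then 2 else 3) ≤ 3 * X.card := by
      calc ∑ x ∈ X, (if x ∈ W' then 2 else 3) ≤ ∑ _x ∈ X, 3 :=
            Finset.sum_le_sum fun x _ => by split_ifs <;> norm_num
        _ = 3 * X.card := by rw [Finset.sum_const, smul_eq_mul, mul_comm]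
    set Y := X.biUnion (nb (G.comap (Subtype.val : U → V)) W') with hY
    have hYW : Y ⊆ W' := hnbY X
    have h2 := ls_expand G hd U W w hw hdeg hNB (X.map ⟨Subtype.val, Subtype.val_injective⟩)
      (Y.map ⟨Subtype.val, Subtype.val_injective⟩) (imU X) (imW Y hYW) (by
        intro v hv u hu hvu
        rw [Finset.mem_map] at hv
        obtain ⟨x, hx, rfl⟩ := hv
        rw [Finset.mem_map]
        refine ⟨⟨u, hWU hu⟩, ?_, rfl⟩
        rw [hY, Finset.mem_biUnion]
        exact ⟨x, hx, mem_nb.2 ⟨(hmemW' _).2 hu, hvu⟩⟩) (by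
        rw [im]
        have : (X.card : ℝ) ≤ 2 * m := by exact_mod_cast hX
        linarith)
    rw [im, im] at h2
    have h3 : Y \ (univ \ W') = Y := by
      rw [Finset.sdiff_eq_self_iff_disjoint, Finset.disjoint_left]
      intro y hy hy'
      have := hYW hy
      simp [this] at hy'
    rw [h3]
    exact h1.trans h2

/-- **Row R3** -/
theorem link_stage {V ι : Type} [Fintype V] [DecidableEq V] [Fintype ι] (G : SimpleGraph V)
    [DecidableRel G.Adj] {d : ℕ} (hd : 1 ≤ d) (U W : Finset V) (hWU : W ⊆ U) (w : ℝ)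
    (hN : 400 ≤ w * Fintype.card V) (hWc : w * Fintype.card V ≤ 2 * W.card)
    (hdeg : ∀ v ∈ U, w * d ≤ 2 * (G.neighborFinset v ∩ W).card)
    (hNB : NB G d U W ((w * d / 1000) ^ 2)) (a b : ι → V) (q : ι → ℕ)
    (hinj : Function.Injective (Sum.elim a b)) (ha : ∀ i, a i ∈ U \ W) (hb : ∀ i, b i ∈ U \ W)
    (hq : ∀ i, 2 * Nat.clog 2 (Fintype.card V) + 2 ≤ q i)
    (hcap : 10 * ∑ i, (q i : ℝ) ≤ w * Fintype.card V) :
    ∃ S ⊆ W, S.card = ∑ i, q i ∧ Links G.Adj S a b q := by
  obtain ⟨m, h, hh, hc, hs⟩ := ls_init G hd U W hWU w hN hWc hdeg hNB (∑ i, q i) (by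
    push_cast; exact hcap)
  set W' : Finset U := univ.filter (fun x : U => x.1 ∈ W) with hW'
  have hmemW' : ∀ x : U, x ∈ W' ↔ x.1 ∈ W := by
    intro x; rw [hW', Finset.mem_filter]; simp
  have haU : ∀ i, a i ∈ U := fun i => (Finset.mem_sdiff.1 (ha i)).1
  have hbU : ∀ i, b i ∈ U := fun i => (Finset.mem_sdiff.1 (hb i)).1
  have haW : ∀ i, (⟨a i, haU i⟩ : U) ∉ W' := fun i h' =>
    (Finset.mem_sdiff.1 (ha i)).2 ((hmemW' _).1 h')
  have hbW : ∀ i, (⟨b i, hbU i⟩ : U) ∉ W' := fun i h' =>
    (Finset.mem_sdiff.1 (hb i)).2 ((hmemW' _).1 h')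
  have hcnt : ∀ v : U, (univ.filter (fun i => (⟨a i, haU i⟩ : U) = v)).card
      + (univ.filter (fun i => (⟨b i, hbU i⟩ : U) = v)).card ≤ 1 := by
    intro v
    have h1 : (univ.filter (fun i => (⟨a i, haU i⟩ : U) = v)).card
        + (univ.filter (fun i => (⟨b i, hbU i⟩ : U) = v)).card
        = ((univ.filter (fun i => (⟨a i, haU i⟩ : U) = v)).disjSum
          (univ.filter (fun i => (⟨b i, hbU i⟩ : U) = v))).card :=
      (Finset.card_disjSum _ _).symm
    rw [h1, Finset.card_le_one]
    intro x hx y hy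
    have key : ∀ x ∈ ((univ.filter (fun i => (⟨a i, haU i⟩ : U) = v)).disjSum
          (univ.filter (fun i => (⟨b i, hbU i⟩ : U) = v))), Sum.elim a b x = v.1 := by
      intro x hx
      rcases x with i | i
      · rw [Finset.inl_mem_disjSum, Finset.mem_filter] at hx
        exact congrArg Subtype.val hx.2
      · rw [Finset.inr_mem_disjSum, Finset.mem_filter] at hx
        exact congrArg Subtype.val hx.2
    exact hinj ((key x hx).trans (key y hy).symm)
  obtain ⟨S, h1, h2, h3, _⟩ := hs.multi_link hc (fun i => (⟨a i, haU i⟩ : U))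
    (fun i => (⟨b i, hbU i⟩ : U)) q (fun i => le_trans (by omega) (hq i)) (by
      have h0 : (univ \ W') ∩ W' = ∅ := by
        rw [← Finset.disjoint_iff_inter_eq_empty]
        exact Finset.sdiff_disjoint
      rw [h0, Finset.card_empty, zero_add])
    (fun i => by rw [Finset.mem_sdiff]; exact ⟨Finset.mem_univ _, haW i⟩)
    (fun i => by rw [Finset.mem_sdiff]; exact ⟨Finset.mem_univ _, hbW i⟩)
    (fun i hi => by
      have : Sum.elim a b (Sum.inl i) = Sum.elim a b (Sum.inr i) := congrArg Subtype.val hi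
      exact absurd (hinj this) (by simp))
    (fun v => by
      refine (hcnt v).trans ?_
      split_ifs <;> norm_num)
  obtain ⟨I, i1, i2, i3⟩ := h3
  refine ⟨S.map ⟨Subtype.val, Subtype.val_injective⟩, ?_, ?_, ?_⟩
  · intro x hx
    rw [Finset.mem_map] at hx
    obtain ⟨y, hy, rfl⟩ := hx
    have h5 := Finset.disjoint_left.1 h1 hy
    rw [Finset.mem_sdiff, not_and, not_not] at h5
    exact (hmemW' y).1 (h5 (Finset.mem_univ _))
  · rw [Finset.card_map, h2]
  · refine ⟨fun i => (I i).map Subtype.val, ?_, ?_, ?_⟩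
    · intro i
      have h5 := i1 i
      have e1 : a i :: ((I i).map Subtype.val ++ [b i])
          = ((⟨a i, haU i⟩ : U) :: (I i ++ [(⟨b i, hbU i⟩ : U)])).map Subtype.val := by
        simp
      rw [e1, List.isChain_map]
      exact h5
    · intro i
      rw [List.length_map, i2]
    · rw [Finset.map_val, ← i3]
      exact (map_sum (Multiset.mapAddMonoidHom (Subtype.val : U → V))
        (fun i => ((I i : List U) : Multiset U)) univ).symm

end Pool.Agent.HDT
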