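import Pool.Agent.HDT.ParamsDisc

/-!
MP_134267_co, Theorem HDT, row R13 (helper31): existence of the parameters.
-/

set_option autoImplicit false

namespace Pool.Agent.HDT

open Finset Pool.Agent.HD

theorem pt_discrete (n d t P h : ℕ) (lam : ℝ) (hh : h = Nat.clog 2 n) (ht : 2 ≤ t)
    (hP : 200 ≤ P) (hhP : h + 2 ≤ P) (hMl : 10 ^ 11 * (h + 1) * Fintype.card (Pr t) ≤ n)
    (hMu : n ≤ P * Fintype.card (Pr t)) (hst : 40 * t ≤ d) (hst2 : 10 ^ 4 * t ^ 2 ≤ n)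
    (hdn : d ≤ n) (hlam : 10 ^ 7 * lam ≤ d) (hd : 10 ^ 30 * P ^ 20 ≤ d) :
    ∃ (h κ B K Q N μ u : ℕ), ParamsT n d t lam h κ B K Q N μ u := by
  obtain ⟨M, hM⟩ : ∃ M, M = Fintype.card (Pr t) := ⟨_, rfl⟩
  rw [← hM] at hMl hMu
  have hcard := pt_card t
  rw [← hM] at hcard
  have hM1 : 1 ≤ M := by
    obtain ⟨s, rfl⟩ : ∃ s, t = s + 2 := ⟨t - 2, by omega⟩
    have : (s + 2) * (s + 2 - 1) = s * s + 3 * s + 2 := by
      rw [show s + 2 - 1 = s + 1 by omega]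
      ring
    omega
  have ht2 : t ≤ t ^ 2 := by nlinarith
  have hM2 : 2 * M ≤ t ^ 2 := by
    rw [hcard, sq]
    exact Nat.mul_le_mul_left _ (Nat.sub_le _ _)
  have hn' : n ≤ 2 * (n - t - 2 * M) := by omega
  obtain ⟨B, hB1, hB2⟩ := pt_B (n - t - 2 * M) M hM1 (by omega)
  have hBl : 10 ^ 11 * (h + 1) < 2 * B + 3 := by
    have : 10 ^ 11 * (h + 1) * M < (2 * B + 3) * M := by
      calc 10 ^ 11 * (h + 1) * M ≤ n := hMl
        _ ≤ 2 * (n - t - 2 * M) := hn'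
        _ < M * (2 * B + 3) := hB2
        _ = (2 * B + 3) * M := Nat.mul_comm _ _
    exact Nat.lt_of_mul_lt_mul_right this
  have hBu : 2 * B + 5 ≤ 2 * P := by
    have : (2 * B + 5) * M ≤ 2 * P * M := by
      have e1 : (2 * B + 5) * M = M * (2 * B + 1) + 4 * M := by ring
      have e2 : 2 * P * M = 2 * (P * M) := by ring
      omega
    exact Nat.le_of_mul_le_mul_right this (by omega)
  obtain ⟨κ, hκ1, hκ2⟩ : ∃ κ, 2 * κ + 4 + 3 * (2 * h + 2) ≤ B ∧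
      B ≤ 2 * κ + 5 + 3 * (2 * h + 2) := ⟨(B - 4 - 3 * (2 * h + 2)) / 2, by omega, by omega⟩
  have hP1 : 1 ≤ P := by omega
  obtain ⟨D, hD⟩ : ∃ D, D = (2 * κ + 1) * ((h + 2) * (B + 1)) := ⟨_, rfl⟩
  obtain ⟨E, hE⟩ : ∃ E, E = (h + 2) * (B + 1) := ⟨_, rfl⟩
  rw [← hE] at hD
  have hE1 : E ≤ P ^ 2 := by
    rw [hE, sq]
    exact Nat.mul_le_mul hhP (by omega)
  have hE2 : 10 ^ 5 ≤ E := by
    rw [hE]
    calc 10 ^ 5 = 1 * 10 ^ 5 := by norm_num
      _ ≤ (h + 2) * (B + 1) := Nat.mul_le_mul (by omega) (by omega)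
  have hD1 : D ≤ P ^ 3 := by
    rw [hD]
    calc (2 * κ + 1) * E ≤ P * P ^ 2 := Nat.mul_le_mul (by omega) hE1
      _ = P ^ 3 := by ring
  have hD0 : 1 ≤ D := by
    rw [hD]
    exact Nat.mul_pos (by omega) (by omega)
  have hDE : E ≤ D := by
    rw [hD]
    exact Nat.le_mul_of_pos_left _ (by omega)
  have hDκ : 2 * κ + 1 ≤ D := by
    rw [hD]
    exact Nat.le_mul_of_pos_right _ (by omega)
  have hPn : 10 ^ 30 * P ^ 20 ≤ n := hd.trans hdn
  obtain ⟨μ, hμ1, hμ2⟩ := pt_quot n D hD0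
  have hP3 : P ^ 3 ≤ P ^ 20 := Nat.pow_le_pow_right hP1 (by norm_num)
  have hμ0 : 1 ≤ μ := by
    by_contra hcon
    have : μ = 0 := by omega
    subst this
    omega
  have hμ3 : n ≤ 2 * (μ * D) := by
    have : (μ + 1) * D = μ * D + D := by ring
    have h2 : D ≤ μ * D := Nat.le_mul_of_pos_left _ hμ0
    omega
  have hμP : 10 ^ 29 * P ^ 17 ≤ μ := by
    have h1 : 10 ^ 30 * P ^ 20 ≤ 2 * (μ * P ^ 3) :=
      hPn.trans (hμ3.trans (Nat.mul_le_mul_left 2 (Nat.mul_le_mul_left μ hD1)))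
    have h2 : 10 ^ 29 * P ^ 17 * P ^ 3 ≤ μ * P ^ 3 := by
      have e : 10 ^ 30 * P ^ 20 = 10 * (10 ^ 29 * P ^ 17 * P ^ 3) := by ring
      omega
    exact Nat.le_of_mul_le_mul_right h2 (by positivity)
  have hμn : μ ≤ n := (Nat.le_mul_of_pos_right _ hD0).trans hμ1
  -- the unit
  obtain ⟨u, hu⟩ : ∃ u, u = 4000 * E := ⟨_, rfl⟩
  have hu1 : 1 ≤ u := by omega
  -- the number of labels
  obtain ⟨K, hK1, hK2⟩ : ∃ K, 1600 * u * n ≤ K * μ ∧ K * μ ≤ 1600 * u * n + μ := by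
    obtain ⟨q, hq1, hq2⟩ := pt_quot (1600 * u * n) μ hμ0
    refine ⟨q + 1, hq2.le, ?_⟩
    have : (q + 1) * μ = q * μ + μ := by ring
    omega
  have hun : n ≤ u * n := Nat.le_mul_of_pos_left _ hu1
  have hK3 : K * μ ≤ 1700 * u * n := by
    have e1 : 1600 * u * n = 1600 * (u * n) := by ring
    have e2 : 1700 * u * n = 1700 * (u * n) := by ring
    omega
  have hK4 : 1600 * u * D ≤ K := by
    have : 1600 * u * D * μ ≤ K * μ := by
      calc 1600 * u * D * μ = 1600 * u * (μ * D) := by ring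
        _ ≤ 1600 * u * n := Nat.mul_le_mul_left _ hμ1
        _ ≤ K * μ := hK1
    exact Nat.le_of_mul_le_mul_right this hμ0
  have hK5 : K ≤ 3400 * u * D := by
    have : K * μ ≤ 3400 * u * D * μ := by
      calc K * μ ≤ 1700 * u * n := hK3
        _ ≤ 1700 * u * (2 * (μ * D)) := Nat.mul_le_mul_left _ hμ3
        _ = 3400 * u * D * μ := by ring
    exact Nat.le_of_mul_le_mul_right this hμ0
  have hK6 : K ≤ 2 * 10 ^ 7 * P ^ 5 := by
    calc K ≤ 3400 * u * D := hK5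
      _ ≤ 3400 * (4000 * P ^ 2) * P ^ 3 := by
          apply Nat.mul_le_mul _ hD1
          apply Nat.mul_le_mul_left
          omega
      _ = 13600000 * P ^ 5 := by ring
      _ ≤ 2 * 10 ^ 7 * P ^ 5 := Nat.mul_le_mul_right _ (by norm_num)
  have hK0 : 1 ≤ K := by
    refine le_trans ?_ hK4
    exact Nat.mul_pos (by omega) hD0
  -- the number of levels
  obtain ⟨a, ha⟩ : ∃ a, a = (2 * κ + 1) * μ * 10 ^ 5 := ⟨_, rfl⟩
  have ha1 : 1 ≤ a := by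
    rw [ha]
    exact Nat.mul_pos (Nat.mul_pos (by omega) hμ0) (by norm_num)
  have ha2 : a ≤ n := by
    calc a = (2 * κ + 1) * μ * 10 ^ 5 := ha
      _ ≤ (2 * κ + 1) * μ * E := Nat.mul_le_mul_left _ hE2
      _ = μ * D := by rw [hD]; ring
      _ ≤ n := hμ1
  obtain ⟨N, hN, hN1, hN2⟩ := pt_N n a ha1 ha2
  have hnh : n ≤ 2 ^ h := by
    rw [hh]
    exact Nat.le_pow_clog (by norm_num) n
  have hPR : (200 : ℝ) ≤ P := by exact_mod_cast hP
  have hKR : (K : ℝ) ≤ 2 * 10 ^ 7 * (P : ℝ) ^ 5 := by exact_mod_cast hK6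
  have hK0R : (1 : ℝ) ≤ K := by exact_mod_cast hK0
  have hdR : (10 : ℝ) ^ 30 * (P : ℝ) ^ 20 ≤ d := by exact_mod_cast hd
  have hnR : (10 : ℝ) ^ 30 * (P : ℝ) ^ 20 ≤ n := by exact_mod_cast hPn
  have hμR : (10 : ℝ) ^ 29 * (P : ℝ) ^ 17 ≤ μ := by exact_mod_cast hμP
  refine ⟨h, κ, B, K, h + 2, N, μ, u, ?_⟩
  refine ⟨ht, hh, ?_, hst, hst2, ?_, ?_, hκ1, hκ2, ?_, hN, hμ0, hu1, hK1, hK3, ?_, ?_, ?_, ?_, ?_,
    ?_, ?_, ?_, by omega, ?_, hdn, hlam, ?_, ?_, ?_, ?_⟩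
  · -- hn
    have : 1 ≤ P ^ 20 := Nat.one_le_pow _ _ hP1
    omega
  · -- hB1
    rw [← hM]; exact hB1
  · rw [← hM]; exact hB2.le
  · -- hk
    omega
  · -- hμ
    calc (2 * κ + 1) * μ * (h + 2) * (B + 1) = μ * D := by rw [hD, hE]; ring
      _ ≤ n := hμ1
  · -- hN1
    calc (2 * κ + 1) * 100 ^ (N - 1) * μ * 10 ^ 5 = 100 ^ (N - 1) * a := by rw [ha]; ring
      _ ≤ n := hN1
  · -- hN2
    have e : 100 ^ N = 100 ^ (N - 1) * 100 := by
      rw [← pow_succ]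
      congr 1
      omega
    calc n ≤ 100 ^ N * a := hN2.le
      _ = (2 * κ + 1) * 100 ^ (N - 1) * μ * 10 ^ 7 := by rw [e, ha]; ring
  · -- hKu
    calc K ≤ 3400 * u * D := hK5
      _ = (2 * κ + 1) * u * (3400 * E) := by rw [hD]; ring
      _ ≤ (2 * κ + 1) * u * ((2 * κ + 1) * u) := by
          apply Nat.mul_le_mul_left
          refine le_trans ?_ (Nat.le_mul_of_pos_left u (by omega : 0 < 2 * κ + 1))
          omega
      _ = ((2 * κ + 1) * u) ^ 2 := by ring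
  · -- hKμ3
    calc n ^ 2 = n * n := by ring
      _ ≤ 2 * (μ * D) * n := Nat.mul_le_mul_right _ hμ3
      _ = (2 * κ + 1) * μ * (2 * E * n) := by rw [hD]; ring
      _ ≤ (2 * κ + 1) * μ * (90 * (1600 * u * n)) := by
          apply Nat.mul_le_mul_left
          calc 2 * E * n ≤ 144000 * u * n := Nat.mul_le_mul_right _ (by omega)
            _ = _ := by ring
      _ ≤ (2 * κ + 1) * μ * (90 * (K * μ)) :=
          Nat.mul_le_mul_left _ (Nat.mul_le_mul_left _ hK1)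
      _ = 90 * (2 * κ + 1) * μ ^ 2 * K := by ring
  · -- hK400
    have h1 : 10 ^ 30 ≤ μ := by
      have h2 : 200 ^ 17 ≤ P ^ 17 := Nat.pow_le_pow_left hP 17
      omega
    have : 400 * K * μ ≤ (2 * κ + 1) * u * n * μ := by
      calc 400 * K * μ = 400 * (K * μ) := by ring
        _ ≤ 400 * (1700 * u * n) := Nat.mul_le_mul_left _ hK3
        _ = u * n * 680000 := by ring
        _ ≤ u * n * ((2 * κ + 1) * μ) := by
            apply Nat.mul_le_mul_left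
            exact le_trans (by omega : 680000 ≤ μ)
              (Nat.le_mul_of_pos_left μ (by omega : 0 < 2 * κ + 1))
        _ = _ := by ring
    exact Nat.le_of_mul_le_mul_right this hμ0
  · -- hKk
    calc 1000 * (2 * κ + 1) ≤ 1600 * D := by omega
      _ ≤ 1600 * u * D := by
          apply Nat.mul_le_mul_right
          omega
      _ ≤ K := hK4
  · -- hKn
    have h1 : P ^ 5 ≤ P ^ 20 := Nat.pow_le_pow_right hP1 (by norm_num)
    omega
  · -- hdQK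
    have h1 : 10 ^ 13 * (h + 2) * K ≤ 10 ^ 13 * P * (2 * 10 ^ 7 * P ^ 5) :=
      Nat.mul_le_mul (Nat.mul_le_mul_left _ hhP) hK6
    have h2 : 10 ^ 13 * P * (2 * 10 ^ 7 * P ^ 5) = 2 * 10 ^ 20 * P ^ 6 := by ring
    have h3 : P ^ 6 ≤ P ^ 20 := Nat.pow_le_pow_right hP1 (by norm_num)
    omega
  · -- hQ8
    have h1 : (n : ℝ) ≤ 2 ^ h := by exact_mod_cast hnh
    calc 16 * (n : ℝ) ^ 3 ≤ 16 * (2 ^ h) ^ 3 := by
          apply mul_le_mul_of_nonneg_left _ (by norm_num)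
          exact pow_le_pow_left₀ (by positivity) h1 3
      _ ≤ 64 * (2 ^ h) ^ 3 := by
          apply mul_le_mul_of_nonneg_right (by norm_num)
          positivity
      _ = 8 ^ (h + 2) := by
          rw [pow_add, ← pow_mul, mul_comm h 3, pow_mul]
          norm_num
          ring
  · -- hexp1
    refine pt_exp hP (by omega) hnh (by positivity) hKR ?_
    rw [le_div_iff₀ (by positivity)]
    calc 10 * (P : ℝ) * (10 * K) = 100 * P * K := by ring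
      _ ≤ 100 * P * (2 * 10 ^ 7 * (P : ℝ) ^ 5) :=
          mul_le_mul_of_nonneg_left hKR (by positivity)
      _ = 2 * 10 ^ 9 * (P : ℝ) ^ 6 := by ring
      _ ≤ 10 ^ 30 * (P : ℝ) ^ 20 := by
          apply mul_le_mul (by norm_num) _ (by positivity) (by positivity)
          exact pow_le_pow_right₀ (by linarith) (by norm_num)
      _ ≤ d := hdR
  · -- hexp2
    have h1 : 16 * ((1 : ℕ) : ℝ) * (K : ℝ) < Real.exp (n / (4 * K ^ 3)) := by
      refine pt_exp (P := P) (h := 0) hP (by omega) (by norm_num) (by positivity) hKR ?_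
      rw [le_div_iff₀ (by positivity)]
      calc 10 * (P : ℝ) * (4 * (K : ℝ) ^ 3) = 40 * P * (K : ℝ) ^ 3 := by ring
        _ ≤ 40 * P * (2 * 10 ^ 7 * (P : ℝ) ^ 5) ^ 3 := by
            apply mul_le_mul_of_nonneg_left _ (by positivity)
            exact pow_le_pow_left₀ (by positivity) hKR 3
        _ = 320 * 10 ^ 21 * (P : ℝ) ^ 16 := by ring
        _ ≤ 10 ^ 30 * (P : ℝ) ^ 20 := by
            apply mul_le_mul (by norm_num) _ (by positivity) (by positivity)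
            exact pow_le_pow_right₀ (by linarith) (by norm_num)
        _ ≤ n := hnR
    simpa using h1
  · -- hexp3
    have hκP : ((κ : ℝ) + 2) ≤ P := by
      have : κ + 2 ≤ P := by omega
      exact_mod_cast this
    have hκ0 : (1 : ℝ) ≤ κ := by
      have : 1 ≤ κ := by omega
      exact_mod_cast this
    have h1 : 16 * ((1 : ℕ) : ℝ) * ((κ : ℝ) + 2) <
        Real.exp ((κ * μ : ℝ) / (4 * (κ + 2) ^ 3)) := by
      refine pt_exp (P := P) (h := 0) hP (by omega) (by norm_num) (by positivity) ?_ ?_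
      · have h2 : (P : ℝ) ^ 1 ≤ (P : ℝ) ^ 5 := pow_le_pow_right₀ (by linarith) (by norm_num)
        rw [pow_one] at h2
        have h4 : (0 : ℝ) ≤ (P : ℝ) ^ 5 := by positivity
        calc (κ : ℝ) + 2 ≤ P := hκP
          _ ≤ (P : ℝ) ^ 5 := h2
          _ = 1 * (P : ℝ) ^ 5 := (one_mul _).symm
          _ ≤ 2 * 10 ^ 7 * (P : ℝ) ^ 5 := mul_le_mul_of_nonneg_right (by norm_num) h4
      · rw [le_div_iff₀ (by positivity)]
        calc 10 * (P : ℝ) * (4 * ((κ : ℝ) + 2) ^ 3) ≤ 10 * (P : ℝ) * (4 * (P : ℝ) ^ 3) := by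
              apply mul_le_mul_of_nonneg_left _ (by positivity)
              apply mul_le_mul_of_nonneg_left _ (by norm_num)
              exact pow_le_pow_left₀ (by positivity) hκP 3
          _ = 40 * (P : ℝ) ^ 4 := by ring
          _ ≤ 10 ^ 29 * (P : ℝ) ^ 17 := by
              apply mul_le_mul (by norm_num) _ (by positivity) (by positivity)
              exact pow_le_pow_right₀ (by linarith) (by norm_num)
          _ ≤ μ := hμR
          _ ≤ κ * μ := by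
              have : (0 : ℝ) ≤ μ := by positivity
              exact le_mul_of_one_le_left this hκ0
    have h3 : (0 : ℝ) < (κ : ℝ) + 2 := by positivity
    push_cast at h1
    linarith

open Filter in
/-- the growth of the logarithm -/
theorem pt_asym (c₀ A : ℝ) (hc₀ : 0 < c₀) (hA : 0 < A) : ∃ n₀ : ℕ, ∀ n : ℕ, n₀ ≤ n →
    10 ≤ Real.log n ∧ A ^ 2 * Real.log n ^ 123 ≤ c₀ ^ 2 * n := by
  have hq : 0 < c₀ ^ 2 / A ^ 2 := by positivity
  have h1 : ∀ᶠ x : ℝ in atTop, ‖Real.log x ^ 123‖ ≤ (c₀ ^ 2 / A ^ 2) * ‖x‖ :=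
    (Real.isLittleO_pow_log_id_atTop (n := 123)).bound hq
  have h2 : ∀ᶠ x : ℝ in atTop, 10 ≤ Real.log x := Real.tendsto_log_atTop.eventually_ge_atTop 10
  have h4 : ∀ᶠ n : ℕ in atTop, ‖Real.log (n : ℝ) ^ 123‖ ≤ (c₀ ^ 2 / A ^ 2) * ‖(n : ℝ)‖ ∧
      10 ≤ Real.log (n : ℝ) := tendsto_natCast_atTop_atTop.eventually (h1.and h2)
  obtain ⟨n₀, hn₀⟩ := eventually_atTop.mp h4
  refine ⟨n₀, fun n hn => ?_⟩
  obtain ⟨ha, hb⟩ := hn₀ n hn
  refine ⟨hb, ?_⟩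
  have hL0 : 0 ≤ Real.log (n : ℝ) := by linarith
  rw [Real.norm_of_nonneg (pow_nonneg hL0 _), Real.norm_of_nonneg (Nat.cast_nonneg n)] at ha
  have hA2 : 0 < A ^ 2 := by positivity
  calc A ^ 2 * Real.log n ^ 123 ≤ A ^ 2 * ((c₀ ^ 2 / A ^ 2) * n) :=
        mul_le_mul_of_nonneg_left ha hA2.le
    _ = c₀ ^ 2 * n := by field_simp

theorem pt_clog (n : ℕ) (h : 10 ≤ Real.log n) :
    (Nat.clog 2 n : ℝ) ≤ 3 * Real.log n ∧ Real.log n ≤ Nat.clog 2 n ∧ 1 ≤ Nat.clog 2 n := by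
  have hn : 2 ≤ n := by
    by_contra hcon
    have : n = 0 ∨ n = 1 := by omega
    rcases this with rfl | rfl
    · norm_num at h
    · norm_num at h
  have h1 := Nat.pow_pred_clog_lt_self (b := 2) (x := n) (by norm_num) (by omega)
  have h2 := Nat.le_pow_clog (b := 2) (by norm_num) n
  obtain ⟨k, hk⟩ : ∃ k, Nat.clog 2 n = k + 1 := by
    refine ⟨Nat.clog 2 n - 1, ?_⟩
    have : 0 < Nat.clog 2 n := Nat.clog_pos (by norm_num) hn
    omega
  rw [hk] at h1 h2 ⊢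
  have hn0 : (0 : ℝ) < n := by
    have : 0 < n := by omega
    exact_mod_cast this
  have hl1 := Real.log_two_gt_d9
  have hl2 := Real.log_two_lt_d9
  refine ⟨?_, ?_, by omega⟩
  · have h3 : ((2 ^ k : ℕ) : ℝ) < n := by exact_mod_cast h1
    push_cast at h3
    have h4 := Real.log_lt_log (by positivity) h3
    rw [Real.log_pow] at h4
    push_cast
    nlinarith [(Nat.cast_nonneg k : (0 : ℝ) ≤ k)]
  · have h3 : (n : ℝ) ≤ ((2 ^ (k + 1) : ℕ) : ℝ) := by exact_mod_cast h2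
    push_cast at h3
    have h4 := Real.log_le_log hn0 h3
    rw [Real.log_pow] at h4
    have h5 : (0 : ℝ) ≤ ((k + 1 : ℕ) : ℝ) := Nat.cast_nonneg _
    nlinarith

theorem parametersT (c₀ : ℝ) (hc₀ : 0 < c₀) : ∃ C c : ℝ, 0 < C ∧ 0 < c ∧ c < 1 ∧
    ∀ (n d t : ℕ) (lam : ℝ), 0 ≤ lam → C ≤ n → C * lam ≤ d → d ≤ n → 2 ≤ t → (t : ℝ) ≤ c * d →
    (t : ℝ) ≤ c * √(n / Real.log n) → c₀ * √(n / (Real.log n) ^ 3) ≤ t →
    ∃ (h κ B K Q N μ u : ℕ), ParamsT n d t lam h κ B K Q N μ u := by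
  obtain ⟨C₁, hC₁⟩ : ∃ C₁ : ℕ, 4 / c₀ ^ 2 + 200 ≤ (C₁ : ℝ) := exists_nat_ge _
  have hc2 : 0 < c₀ ^ 2 := by positivity
  have hC1 : 4 / c₀ ^ 2 ≤ (C₁ : ℝ) := by linarith
  have hC2 : 200 ≤ C₁ := by
    have : (200 : ℝ) ≤ C₁ := by
      have : 0 < 4 / c₀ ^ 2 := by positivity
      linarith
    exact_mod_cast this
  have hC1R : (0 : ℝ) < C₁ := by
    have : 0 < C₁ := by omega
    exact_mod_cast this
  obtain ⟨A, hA⟩ : ∃ A : ℝ, A = 10 ^ 30 * (C₁ : ℝ) ^ 20 * 3 ^ 60 := ⟨_, rfl⟩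
  have hA0 : 0 < A := by rw [hA]; positivity
  obtain ⟨n₀, hn₀⟩ := pt_asym c₀ A hc₀ hA0
  refine ⟨max n₀ (10 ^ 7), 1 / 10 ^ 6, by positivity, by norm_num, by norm_num, ?_⟩
  intro n d t lam hlam0 hCn hClam hdn ht htd ht1 ht2
  have hnn : n₀ ≤ n := by
    have : (n₀ : ℝ) ≤ n := (le_max_left _ _).trans hCn
    exact_mod_cast this
  obtain ⟨hL10, hLn⟩ := hn₀ n hnn
  obtain ⟨hh1, hh2, hh3⟩ := pt_clog n hL10
  obtain ⟨h, hh⟩ : ∃ h, h = Nat.clog 2 n := ⟨_, rfl⟩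
  rw [← hh] at hh1 hh2 hh3
  obtain ⟨L, hL⟩ : ∃ L : ℝ, L = Real.log n := ⟨_, rfl⟩
  rw [← hL] at hL10 hLn hh1 hh2 ht1 ht2
  have hL0 : 0 < L := by linarith
  have hn0 : (0 : ℝ) < n := by
    have : (10 : ℝ) ^ 7 ≤ n := (le_max_right _ _).trans hCn
    linarith [show (0 : ℝ) < 10 ^ 7 by positivity]
  have htR : (0 : ℝ) ≤ t := Nat.cast_nonneg t
  -- upper bound of t ^ 2
  have hu : (t : ℝ) ^ 2 * L ≤ 1 / 10 ^ 12 * n := by
    have h1 : (t : ℝ) ^ 2 ≤ (1 / 10 ^ 6 * √(n / L)) ^ 2 := pow_le_pow_left₀ htR ht1 2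
    rw [mul_pow, Real.sq_sqrt (by positivity)] at h1
    calc (t : ℝ) ^ 2 * L ≤ ((1 / 10 ^ 6) ^ 2 * (n / L)) * L := mul_le_mul_of_nonneg_right h1 hL0.le
      _ = 1 / 10 ^ 12 * n := by
        field_simp
  -- lower bound of t ^ 2
  have hl : c₀ ^ 2 * n ≤ (t : ℝ) ^ 2 * L ^ 3 := by
    have h1 : (c₀ * √(n / L ^ 3)) ^ 2 ≤ (t : ℝ) ^ 2 := pow_le_pow_left₀ (by positivity) ht2 2
    rw [mul_pow, Real.sq_sqrt (by positivity)] at h1
    calc c₀ ^ 2 * n = (c₀ ^ 2 * (n / L ^ 3)) * L ^ 3 := by field_simp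
      _ ≤ (t : ℝ) ^ 2 * L ^ 3 := mul_le_mul_of_nonneg_right h1 (by positivity)
  have hcard := pt_card t
  obtain ⟨M, hM⟩ : ∃ M, M = Fintype.card (Pr t) := ⟨_, rfl⟩
  rw [← hM] at hcard
  have hM1 : 2 * M ≤ t ^ 2 := by
    rw [hcard, sq]
    exact Nat.mul_le_mul_left _ (Nat.sub_le _ _)
  have hM2 : t ^ 2 ≤ 4 * M := by
    have : t * t ≤ 2 * (t * (t - 1)) := by
      calc t * t ≤ t * (2 * (t - 1)) := Nat.mul_le_mul_left _ (by omega)
        _ = _ := by ring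
    rw [sq]
    omega
  have hM1R : 2 * (M : ℝ) ≤ (t : ℝ) ^ 2 := by exact_mod_cast hM1
  have hM2R : (t : ℝ) ^ 2 ≤ 4 * (M : ℝ) := by exact_mod_cast hM2
  have hhR : (1 : ℝ) ≤ h := by exact_mod_cast hh3
  refine pt_discrete n d t (C₁ * h ^ 3) h lam hh ht ?_ ?_ ?_ ?_ ?_ ?_ hdn ?_ ?_
  · calc 200 = 200 * 1 := by norm_num
      _ ≤ C₁ * h ^ 3 := Nat.mul_le_mul hC2 (Nat.one_le_pow _ _ hh3)
  · calc h + 2 ≤ 200 * h := by omega
      _ ≤ C₁ * h ^ 3 := Nat.mul_le_mul hC2 (Nat.le_self_pow (by norm_num) h)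
  · rw [← hM]
    have h1 : (10 : ℝ) ^ 11 * ((h : ℝ) + 1) * M ≤ n := by
      have h2 : (h : ℝ) + 1 ≤ 4 * L := by linarith
      have h3 : (M : ℝ) ≤ (t : ℝ) ^ 2 := by
        have : (0 : ℝ) ≤ M := Nat.cast_nonneg M
        linarith
      calc (10 : ℝ) ^ 11 * ((h : ℝ) + 1) * M ≤ 10 ^ 11 * (4 * L) * (t : ℝ) ^ 2 := by
            apply mul_le_mul _ h3 (Nat.cast_nonneg M) (by positivity)
            exact mul_le_mul_of_nonneg_left h2 (by positivity)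
        _ = 4 * 10 ^ 11 * ((t : ℝ) ^ 2 * L) := by ring
        _ ≤ 4 * 10 ^ 11 * (1 / 10 ^ 12 * n) := mul_le_mul_of_nonneg_left hu (by positivity)
        _ ≤ n := by linarith
    exact_mod_cast h1
  · rw [← hM]
    have h1 : (n : ℝ) ≤ (C₁ : ℝ) * (h : ℝ) ^ 3 * M := by
      have h2 : L ^ 3 ≤ (h : ℝ) ^ 3 := pow_le_pow_left₀ hL0.le hh2 3
      have h3 : c₀ ^ 2 * n ≤ c₀ ^ 2 * ((C₁ : ℝ) * (h : ℝ) ^ 3 * M) := by
        have h4 : 4 ≤ c₀ ^ 2 * C₁ := by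
          rw [div_le_iff₀ hc2] at hC1
          linarith
        calc c₀ ^ 2 * (n : ℝ) ≤ (t : ℝ) ^ 2 * L ^ 3 := hl
          _ ≤ (4 * M) * (h : ℝ) ^ 3 := mul_le_mul hM2R h2 (by positivity) (by positivity)
          _ = 4 * ((h : ℝ) ^ 3 * M) := by ring
          _ ≤ (c₀ ^ 2 * C₁) * ((h : ℝ) ^ 3 * M) :=
              mul_le_mul_of_nonneg_right h4 (by positivity)
          _ = _ := by ring
      exact le_of_mul_le_mul_left h3 hc2
    exact_mod_cast h1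
  · have h1 : 40 * (t : ℝ) ≤ d := by
      have : (0 : ℝ) ≤ d := Nat.cast_nonneg d
      linarith
    exact_mod_cast h1
  · have h1 : (10 : ℝ) ^ 4 * (t : ℝ) ^ 2 ≤ n := by
      have h2 : (t : ℝ) ^ 2 * 1 ≤ (t : ℝ) ^ 2 * L :=
        mul_le_mul_of_nonneg_left (by linarith) (by positivity)
      linarith
    exact_mod_cast h1
  · calc (10 : ℝ) ^ 7 * lam ≤ max (n₀ : ℝ) (10 ^ 7) * lam :=
          mul_le_mul_of_nonneg_right (le_max_right _ _) hlam0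
      _ ≤ d := hClam
  · have h1 : A * L ^ 60 ≤ t := by
      refine le_of_sq_le_sq ?_ htR
      have h2 : L ^ 3 * (A * L ^ 60) ^ 2 ≤ L ^ 3 * (t : ℝ) ^ 2 := by
        calc L ^ 3 * (A * L ^ 60) ^ 2 = A ^ 2 * L ^ 123 := by ring
          _ ≤ c₀ ^ 2 * n := hLn
          _ ≤ (t : ℝ) ^ 2 * L ^ 3 := hl
          _ = _ := by ring
      exact le_of_mul_le_mul_left h2 (by positivity)
    have h2 : (10 : ℝ) ^ 30 * ((C₁ : ℝ) * (h : ℝ) ^ 3) ^ 20 ≤ d := by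
      calc (10 : ℝ) ^ 30 * ((C₁ : ℝ) * (h : ℝ) ^ 3) ^ 20 =
            10 ^ 30 * (C₁ : ℝ) ^ 20 * (h : ℝ) ^ 60 := by ring
        _ ≤ 10 ^ 30 * (C₁ : ℝ) ^ 20 * (3 * L) ^ 60 := by
            apply mul_le_mul_of_nonneg_left _ (by positivity)
            exact pow_le_pow_left₀ (by positivity) hh1 60
        _ = A * L ^ 60 := by rw [hA]; ring
        _ ≤ t := h1
        _ ≤ d := by
            have : (0 : ℝ) ≤ d := Nat.cast_nonneg d
            linarith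
    exact_mod_cast h2

end Pool.Agent.HDT
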