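import Pool.Agent.HDT.Defs

/-!
MP_134267_co, Theorem HDT (helper88): the list of all numerical requirements.
-/

namespace Pool.Agent.HDT

open Finset Pool.Agent.HD

/-- numerical requirements of the construction. `h = clog n`, links of length `2h+2`, `h+2`
requests per absorber, `2κ+1` layers, `B+1` the mean length of the paths, `K` labels, unit
`100^(N+1-i) * u` labels for the level `i`, classes of `100^(N-i) * μ` requests -/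
structure ParamsT (n d t : ℕ) (lam : ℝ) (h κ B K Q N μ u : ℕ) : Prop where
  ht : 2 ≤ t
  hh : h = Nat.clog 2 n
  hn : 10 ^ 6 ≤ n
  hst : 40 * t ≤ d
  hst2 : 10 ^ 4 * t ^ 2 ≤ n
  hB1 : Fintype.card (Pr t) * (2 * B + 1) ≤ 2 * (n - t - 2 * Fintype.card (Pr t))
  hB2 : 2 * (n - t - 2 * Fintype.card (Pr t)) ≤ Fintype.card (Pr t) * (2 * B + 3)
  hκ1 : 2 * κ + 4 + 3 * (2 * h + 2) ≤ B
  hκ2 : B ≤ 2 * κ + 5 + 3 * (2 * h + 2)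
  hk : 10 ^ 10 * (2 * h + 2) ≤ 2 * κ + 1
  hN : 1 ≤ N
  hμ1 : 1 ≤ μ
  hu1 : 1 ≤ u
  hKμ1 : 1600 * u * n ≤ K * μ
  hKμ2 : K * μ ≤ 1700 * u * n
  hμ : (2 * κ + 1) * μ * (h + 2) * (B + 1) ≤ n
  hN1 : (2 * κ + 1) * 100 ^ (N - 1) * μ * 10 ^ 5 ≤ n
  hN2 : n ≤ (2 * κ + 1) * 100 ^ (N - 1) * μ * 10 ^ 7
  hKu : K ≤ ((2 * κ + 1) * u) ^ 2
  hKμ3 : n ^ 2 ≤ 90 * (2 * κ + 1) * μ ^ 2 * K
  hK400 : 400 * K ≤ (2 * κ + 1) * u * n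
  hKk : 1000 * (2 * κ + 1) ≤ K
  hKn : K ≤ n
  hQ : 1 ≤ Q
  hdQK : 10 ^ 13 * Q * K ≤ d
  hdn : d ≤ n
  hlam : 10 ^ 7 * lam ≤ d
  hQ8 : 16 * (n : ℝ) ^ 3 ≤ 8 ^ Q
  hexp1 : 16 * (n : ℝ) * K < Real.exp (d / (10 * K))
  hexp2 : 16 * (K : ℝ) < Real.exp (n / (4 * K ^ 3))
  hexp3 : 4 * ((κ : ℝ) + 2) < Real.exp ((κ * μ : ℝ) / (4 * (κ + 2) ^ 3))

end Pool.Agent.HDT
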