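import Pool.Agent.HDT.ParamsDef

/-!
MP_134267_co, Theorem HDT, row R13 (helper31): the discrete half of the choice of the parameters.
-/

set_option autoImplicit false

namespace Pool.Agent.HDT

open Finset Pool.Agent.HD

theorem pt_card (t : ℕ) : 2 * Fintype.card (Pr t) = t * (t - 1) := by
  classical
  have h1 : Fintype.card (Pr t) =
      ((univ : Finset (Fin t × Fin t)).filter (fun p => p.1 < p.2)).card :=
    Fintype.card_subtype _
  have h2 : ((univ : Finset (Fin t × Fin t)).filter (fun p => p.1 < p.2)).card =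
      ((univ : Finset (Fin t × Fin t)).filter (fun p => p.2 < p.1)).card := by
    refine Finset.card_bij (fun p _ => (p.2, p.1)) ?_ ?_ ?_
    · intro p hp
      simpa using hp
    · rintro ⟨a, b⟩ _ ⟨c, d⟩ _ h
      simp only [Prod.mk.injEq] at h ⊢
      exact ⟨h.2, h.1⟩
    · rintro ⟨a, b⟩ hp
      exact ⟨(b, a), by simpa using hp, rfl⟩
  have h3 : ((univ : Finset (Fin t × Fin t)).filter (fun p => p.1 < p.2)).card +
      ((univ : Finset (Fin t × Fin t)).filter (fun p => p.2 < p.1)).card =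
      (univ : Finset (Fin t)).offDiag.card := by
    rw [← Finset.card_union_of_disjoint]
    · congr 1
      ext ⟨a, b⟩
      simp only [mem_union, mem_filter, mem_univ, true_and, mem_offDiag]
      exact lt_or_lt_iff_ne
    · rw [Finset.disjoint_left]
      rintro ⟨a, b⟩ h h'
      simp only [mem_filter, mem_univ, true_and] at h h'
      exact absurd h (lt_asymm h')
  have h4 : (univ : Finset (Fin t)).offDiag.card = t * (t - 1) := by
    rw [Finset.offDiag_card, Finset.card_univ, Fintype.card_fin, Nat.mul_sub, mul_one]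
  rw [two_mul, ← h4, ← h3, h1]
  omega

/-- The real powers: `16 n K < exp x` for `10 P ≤ x`. -/
theorem pt_exp {P h n : ℕ} {K x : ℝ} (hP : 200 ≤ P) (hh : h ≤ P) (hn : n ≤ 2 ^ h)
    (hK0 : 0 ≤ K) (hK : K ≤ 2 * 10 ^ 7 * (P : ℝ) ^ 5) (hx : 10 * (P : ℝ) ≤ x) :
    16 * (n : ℝ) * K < Real.exp x := by
  have h1 : (2 : ℝ) ^ (10 * P) ≤ Real.exp x := by
    have h2 : (2 : ℝ) ≤ Real.exp 1 := by
      have := Real.add_one_le_exp (1 : ℝ)
      linarith
    calc (2 : ℝ) ^ (10 * P) ≤ Real.exp 1 ^ (10 * P) := pow_le_pow_left₀ (by norm_num) h2 _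
      _ = Real.exp (10 * P) := by
        rw [← Real.exp_nat_mul]
        push_cast
        ring_nf
      _ ≤ Real.exp x := Real.exp_le_exp.2 hx
  have h3 : (P : ℝ) < 2 ^ P := by exact_mod_cast P.lt_two_pow_self
  have hP' : (200 : ℝ) ≤ P := by exact_mod_cast hP
  have h4 : (n : ℝ) ≤ 2 ^ P := by
    calc (n : ℝ) ≤ ((2 ^ h : ℕ) : ℝ) := by exact_mod_cast hn
      _ = (2 : ℝ) ^ h := by push_cast; rfl
      _ ≤ 2 ^ P := pow_le_pow_right₀ (by norm_num) hh
  have h5 : (P : ℝ) ^ 9 ≤ (2 ^ P) ^ 9 := pow_le_pow_left₀ (by positivity) h3.le 9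
  have h6 : (16 : ℝ) * (2 * 10 ^ 7 * (P : ℝ) ^ 5) < (P : ℝ) ^ 9 := by
    have e : (P : ℝ) ^ 9 = (P : ℝ) ^ 4 * (P : ℝ) ^ 5 := by ring
    have h7 : (200 : ℝ) ^ 4 ≤ (P : ℝ) ^ 4 := pow_le_pow_left₀ (by norm_num) hP' 4
    have h8 : (0 : ℝ) < (P : ℝ) ^ 5 := by positivity
    rw [e]
    nlinarith
  have h9 : (0 : ℝ) < 2 ^ P := by positivity
  calc 16 * (n : ℝ) * K = n * (16 * K) := by ring
    _ ≤ 2 ^ P * (16 * K) := mul_le_mul_of_nonneg_right h4 (by positivity)
    _ ≤ 2 ^ P * (16 * (2 * 10 ^ 7 * (P : ℝ) ^ 5)) := by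
        apply mul_le_mul_of_nonneg_left _ h9.le
        linarith
    _ < 2 ^ P * (P : ℝ) ^ 9 := mul_lt_mul_of_pos_left h6 h9
    _ ≤ 2 ^ P * (2 ^ P) ^ 9 := mul_le_mul_of_nonneg_left h5 h9.le
    _ = 2 ^ (10 * P) := by ring
    _ ≤ Real.exp x := h1


/-- the mean length of the paths -/
theorem pt_B (n' M : ℕ) (hM : 1 ≤ M) (h : M ≤ 2 * n') :
    ∃ B : ℕ, M * (2 * B + 1) ≤ 2 * n' ∧ 2 * n' < M * (2 * B + 3) := by
  obtain ⟨r, hr⟩ := Nat.exists_eq_add_of_le h
  refine ⟨r / (2 * M), ?_, ?_⟩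
  · have h1 := Nat.div_mul_le_self r (2 * M)
    have h2 : M * (2 * (r / (2 * M)) + 1) = r / (2 * M) * (2 * M) + M := by ring
    omega
  · have h1 := Nat.lt_div_mul_add (a := r) (b := 2 * M) (by omega)
    have h2 : M * (2 * (r / (2 * M)) + 3) = r / (2 * M) * (2 * M) + 2 * M + M := by ring
    omega

/-- the quotient of `n` by `D` -/
theorem pt_quot (n D : ℕ) (hD : 1 ≤ D) : ∃ μ : ℕ, μ * D ≤ n ∧ n < (μ + 1) * D := by
  refine ⟨n / D, Nat.div_mul_le_self n D, ?_⟩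
  have h1 := Nat.lt_div_mul_add (a := n) (b := D) hD
  have h2 : (n / D + 1) * D = n / D * D + D := by ring
  omega

/-- the number of classes -/
theorem pt_N (n a : ℕ) (ha : 1 ≤ a) (h : a ≤ n) :
    ∃ N : ℕ, 1 ≤ N ∧ 100 ^ (N - 1) * a ≤ n ∧ n < 100 ^ N * a := by
  refine ⟨Nat.log 100 (n / a) + 1, by omega, ?_, ?_⟩
  · have h0 : n / a ≠ 0 := (Nat.div_pos h ha).ne'
    have h1 := Nat.pow_log_le_self 100 h0
    have h2 := Nat.div_mul_le_self n a
    calc 100 ^ (Nat.log 100 (n / a) + 1 - 1) * a = 100 ^ Nat.log 100 (n / a) * a := by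
          rw [Nat.add_sub_cancel]
      _ ≤ n / a * a := Nat.mul_le_mul_right _ h1
      _ ≤ n := h2
  · have h1 := Nat.lt_pow_succ_log_self (b := 100) (by norm_num) (n / a)
    have h2 := Nat.lt_div_mul_add (a := n) (b := a) ha
    calc n < n / a * a + a := h2
      _ = (n / a + 1) * a := by ring
      _ ≤ 100 ^ (Nat.log 100 (n / a) + 1) * a := Nat.mul_le_mul_right _ h1

end Pool.Agent.HDT
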