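import Pool.Agent.HDT.Defs
import Pool.Agent.HD.WalkGen

/-!
MP_134267_co, Theorem HDT, row R5 (helper28): the numbers of a stage, on top of `walk_gen`.
-/

namespace Pool.Agent.HDT

open Finset Pool.Agent.HD

/-- the numerical conditions of `walk_gen` for a stage of density `ω`; `N` vertices, `p = T / N` -/
theorem stage_walk_num (N D t k q ω ε : ℝ) (hdn : D ≤ N) (hD0 : 0 ≤ D) (hN0 : 0 < N)
    (ht : 1 ≤ t) (hk : 1 ≤ k) (hq : 1 ≤ q) (hω : ω * N = (2 * k + 1) * t) (hω1 : ω ≤ 1)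
    (hε0 : 0 ≤ ε) (hε : 100000 * ε ≤ 1) (hP : 10 ^ 12 * q * N ≤ D * t) :
    0 < ω ∧ t * D / (80 * N) ≤ ω * D / 40 / (2 * (k + 2)) ∧
    16 * (27 * ω * D / (k + 1) + q) ≤ 1000 * t * D / N ∧
    16 * (20 * (ε * ω * D) ^ 2 / (k + 1) + q * (1000 * ω * D)) ≤
      700 * ε ^ 2 * ω * (t / N) * D ^ 2 + 16000 * q * ω * D ∧
    64 * ((700 * ε ^ 2 * ω * (t / N) * D ^ 2 + 16000 * q * ω * D) / (k + 2) +
      q * (1000 * t * D / N + t * (D / N) ^ 2)) < (t * D / (80 * N)) ^ 2 ∧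
    k + 2 ≤ N ∧ 3 * q < ω * D / 40 / (10 * (k + 2)) ∧
    2 * (1000 * t * D / N) + 2 * (27 * ω * D) + (2 * k + 3) * t * (D / N) ^ 2 ≤
      1000 * ω * D := by
  have ht0 : 0 < t := by linarith
  have hk0 : 0 < k := by linarith
  have hq0 : 0 < q := by linarith
  have hω0 : 0 < ω := by
    by_contra hcon
    have h1 : ω * N ≤ 0 := mul_nonpos_of_nonpos_of_nonneg (not_lt.mp hcon) hN0.le
    have h2 : 0 < (2 * k + 1) * t := by positivity
    linarith
  obtain ⟨p, hp⟩ : ∃ p, p = t / N := ⟨_, rfl⟩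
  have hp0 : 0 < p := by rw [hp]; positivity
  have htp : t = p * N := by rw [hp]; field_simp
  have hωp : ω = (2 * k + 1) * p := by
    have h1 : ω * N = ((2 * k + 1) * p) * N := by rw [hω, htp]; ring
    exact mul_right_cancel₀ hN0.ne' h1
  -- `D p ≥ 10^12 q`
  have hDp : 10 ^ 12 * q ≤ D * p := by
    have h1 : 10 ^ 12 * q * N ≤ D * p * N := by
      calc 10 ^ 12 * q * N ≤ D * t := hP
        _ = D * p * N := by rw [htp]; ring
    exact le_of_mul_le_mul_right h1 hN0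
  have hDp0 : 0 < D * p := by nlinarith
  have hDpos : 0 < D := by
    rcases hD0.lt_or_eq with h | h
    · exact h
    · rw [← h] at hDp0; simp at hDp0
  have htq : 10 ^ 12 * q ≤ t := by
    have h1 : D * p ≤ N * p := mul_le_mul_of_nonneg_right hdn hp0.le
    have h2 : N * p = t := by rw [htp]; ring
    linarith
  have e1 : t * D / (80 * N) = D * p / 80 := by rw [htp]; field_simp
  have e2 : 1000 * t * D / N = 1000 * (D * p) := by rw [htp]; field_simp
  have e3 : t * (D / N) ^ 2 = (D * p) ^ 2 / t := by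
    rw [htp]; field_simp
  have e4 : t / N = p := hp.symm
  have hk21 : k + 2 ≤ 2 * k + 1 := by linarith
  have hωN : (2 * k + 1) * t ≤ N := by
    rw [← hω]
    calc ω * N ≤ 1 * N := mul_le_mul_of_nonneg_right hω1 hN0.le
      _ = N := one_mul N
  refine ⟨hω0, ?_, ?_, ?_, ?_, ?_, ?_, ?_⟩
  · rw [e1, hωp, div_div, div_le_div_iff₀ (by norm_num) (by positivity)]
    have h1 : D * p * (k + 2) ≤ D * p * (2 * k + 1) := mul_le_mul_of_nonneg_left hk21 hDp0.le
    nlinarith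
  · rw [e2, hωp]
    have h1 : 27 * ((2 * k + 1) * p) * D / (k + 1) ≤ 54 * (D * p) := by
      rw [div_le_iff₀ (by positivity)]
      nlinarith
    nlinarith
  · rw [e4]
    have h1 : 20 * (ε * ω * D) ^ 2 / (k + 1) ≤ 40 * (ε ^ 2 * ω * p * D ^ 2) := by
      rw [div_le_iff₀ (by positivity)]
      have h2 : ω ≤ 2 * (k + 1) * p := by rw [hωp]; nlinarith
      have h3 : ε ^ 2 * ω * D ^ 2 * ω ≤ ε ^ 2 * ω * D ^ 2 * (2 * (k + 1) * p) :=
        mul_le_mul_of_nonneg_left h2 (by positivity)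
      nlinarith
    have h4 : 0 ≤ ε ^ 2 * ω * p * D ^ 2 := by positivity
    nlinarith
  · rw [e1, e2, e3, e4]
    have h1 : (700 * ε ^ 2 * ω * p * D ^ 2 + 16000 * q * ω * D) / (k + 2) ≤
        1400 * (ε ^ 2 * (D * p) ^ 2) + 32000 * (q * (D * p)) := by
      rw [div_le_iff₀ (by positivity)]
      have h2 : ω ≤ 2 * (k + 2) * p := by rw [hωp]; nlinarith
      have h3 : (700 * ε ^ 2 * p * D ^ 2 + 16000 * q * D) * ω ≤
          (700 * ε ^ 2 * p * D ^ 2 + 16000 * q * D) * (2 * (k + 2) * p) :=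
        mul_le_mul_of_nonneg_left h2 (by positivity)
      nlinarith
    have h5 : ε ^ 2 * (D * p) ^ 2 ≤ (D * p) ^ 2 / 10 ^ 10 := by
      rw [le_div_iff₀ (by norm_num)]
      have h6 : (100000 * ε) ^ 2 ≤ 1 ^ 2 := pow_le_pow_left₀ (by positivity) hε 2
      have h7 : (100000 * ε) ^ 2 * (D * p) ^ 2 ≤ 1 ^ 2 * (D * p) ^ 2 :=
        mul_le_mul_of_nonneg_right h6 (by positivity)
      nlinarith
    have h8 : 10 ^ 12 * (q * (D * p)) ≤ (D * p) ^ 2 := by nlinarith
    have h9 : q * ((D * p) ^ 2 / t) ≤ (D * p) ^ 2 / 10 ^ 12 := by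
      rw [← mul_div_assoc, div_le_div_iff₀ ht0 (by norm_num)]
      have : (D * p) ^ 2 * (10 ^ 12 * q) ≤ (D * p) ^ 2 * t :=
        mul_le_mul_of_nonneg_left htq (by positivity)
      nlinarith
    have h10 : 0 < (D * p) ^ 2 := by positivity
    have h11 : q * (1000 * (D * p) + (D * p) ^ 2 / t) =
        1000 * (q * (D * p)) + q * ((D * p) ^ 2 / t) := by ring
    have h12 : (D * p / 80) ^ 2 = (D * p) ^ 2 / 6400 := by ring
    rw [h11, h12]
    nlinarith
  · nlinarith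
  · have h1 : D * p / 400 ≤ ω * D / 40 / (10 * (k + 2)) := by
      rw [hωp, div_div, div_le_div_iff₀ (by norm_num) (by positivity)]
      have h2 : D * p * (k + 2) ≤ D * p * (2 * k + 1) := mul_le_mul_of_nonneg_left hk21 hDp0.le
      nlinarith
    have h3 : 0 < q := hq0
    linarith
  · have h1 : (2 * k + 3) * t * (D / N) ^ 2 ≤ 2 * (ω * D) := by
      have h2 : (2 * k + 3) * t ≤ 2 * (ω * N) := by
        rw [hω]; nlinarith
      have h3 : (D / N) ^ 2 ≤ D / N := by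
        have h4 : D / N ≤ 1 := by rw [div_le_one hN0]; exact hdn
        have h5 : 0 ≤ D / N := by positivity
        nlinarith
      calc (2 * k + 3) * t * (D / N) ^ 2 ≤ 2 * (ω * N) * (D / N) :=
            mul_le_mul h2 h3 (by positivity) (by positivity)
        _ = 2 * (ω * D) := by field_simp
    have h6 : 3 * (D * p) ≤ ω * D := by rw [hωp]; nlinarith
    rw [e2]
    nlinarith

/-- `8 ^ Q < exp x` as soon as `3 Q < x` -/
theorem stage_walk_exp (Q : ℕ) (x : ℝ) (hx : 3 * (Q : ℝ) < x) : (8 : ℝ) ^ Q < Real.exp x := by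
  have he : (8 : ℝ) ≤ Real.exp 3 := by
    have h1 : (2 : ℝ) ≤ Real.exp 1 := by
      have := Real.add_one_le_exp (1 : ℝ)
      linarith
    have h2 : Real.exp 3 = Real.exp 1 ^ 3 := by
      rw [← Real.exp_nat_mul]; norm_num
    rw [h2]
    calc (8 : ℝ) = 2 ^ 3 := by norm_num
      _ ≤ Real.exp 1 ^ 3 := pow_le_pow_left₀ (by norm_num) h1 3
  calc (8 : ℝ) ^ Q ≤ Real.exp 3 ^ Q := pow_le_pow_left₀ (by norm_num) he Q
    _ = Real.exp (3 * Q) := by
      rw [← Real.exp_nat_mul, mul_comm]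
    _ < Real.exp x := Real.exp_lt_exp.mpr hx

/-- row norms of the centred adjacency matrix -/
theorem stage_walk_row {V : Type} [Fintype V] [DecidableEq V] (G : SimpleGraph V)
    [DecidableRel G.Adj] {d : ℕ} (hdn : d ≤ Fintype.card V) (S : Finset V) (u : V) :
    ∑ v ∈ S, Mx G d u v ^ 2 ≤ ((G.neighborFinset u ∩ S).card : ℝ) +
      S.card * ((d : ℝ) / Fintype.card V) ^ 2 := by
  have hc : (d : ℝ) / Fintype.card V ≤ 1 := by
    apply div_le_one_of_le₀ _ (Nat.cast_nonneg _)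
    exact_mod_cast hdn
  have hc0 : (0 : ℝ) ≤ (d : ℝ) / Fintype.card V := by positivity
  have h1 : ∀ v ∈ S, Mx G d u v ^ 2 ≤ (if G.Adj u v then (1 : ℝ) else 0) +
      ((d : ℝ) / Fintype.card V) ^ 2 := by
    intro v _
    show ((if G.Adj u v then (1 : ℝ) else 0) - (d : ℝ) / Fintype.card V) ^ 2 ≤ _
    split_ifs <;> nlinarith
  refine (Finset.sum_le_sum h1).trans (le_of_eq ?_)
  rw [Finset.sum_add_distrib, Finset.sum_const, nsmul_eq_mul, ← Finset.sum_filter,
    Finset.sum_const, nsmul_eq_mul, mul_one]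
  congr 3
  ext v
  rw [mem_filter, mem_inter, SimpleGraph.mem_neighborFinset, and_comm]

theorem stage_walk {V : Type} [Fintype V] [DecidableEq V] (G : SimpleGraph V)
    [DecidableRel G.Adj] {d : ℕ} (hdn : d ≤ Fintype.card V) (T κ Q : ℕ) (hT : 1 ≤ T)
    (hκ : 1 ≤ κ) (hQ : 1 ≤ Q) (ω ε : ℝ)
    (hω : ω * Fintype.card V = (2 * κ + 1) * T) (hω1 : ω ≤ 1) (hε0 : 0 ≤ ε)
    (hε : 100000 * ε ≤ 1)
    (A₀ A₁ Ro Re : Finset V) (hA₀ : A₀.card = T) (hA₁ : A₁.card = T) (hRo : Ro.card = κ * T)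
    (hRe : Re.card = (κ + 1) * T) (S : Finset V)
    (hS : A₀.val + A₁.val + Ro.val + Re.val = S.val)
    (hdo : ∀ v, ω * d ≤ 40 * (G.neighborFinset v ∩ Ro).card)
    (hde : ∀ v, ω * d ≤ 40 * (G.neighborFinset v ∩ Re).card)
    (huo : ∀ v, ((G.neighborFinset v ∩ Ro).card : ℝ) ≤ 27 * ω * d)
    (hue : ∀ v, ((G.neighborFinset v ∩ Re).card : ℝ) ≤ 27 * ω * d)
    (hl0 : ∀ v, (T : ℝ) * d ≤ 80 * Fintype.card V * (G.neighborFinset v ∩ A₀).card)
    (hl1 : ∀ v, (T : ℝ) * d ≤ 80 * Fintype.card V * (G.neighborFinset v ∩ A₁).card)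
    (hu0 : ∀ v, (Fintype.card V : ℝ) * (G.neighborFinset v ∩ A₀).card ≤ 1000 * T * d)
    (hu1 : ∀ v, (Fintype.card V : ℝ) * (G.neighborFinset v ∩ A₁).card ≤ 1000 * T * d)
    (hR : NB G d Ro S (20 * (ε * ω * d) ^ 2))
    (hn0 : NB G d A₀ S (300 * ε ^ 2 * ω * (T / Fintype.card V) * d ^ 2))
    (hn1 : NB G d A₁ S (300 * ε ^ 2 * ω * (T / Fintype.card V) * d ^ 2))
    (hP : 10 ^ 12 * (Q : ℝ) * Fintype.card V ≤ d * T)
    (hQ8 : 4 * ((Fintype.card V : ℝ) + 1) * Fintype.card V * Fintype.card V ≤ 8 ^ Q)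
    (h3 : 4 * ((κ : ℝ) + 2) < Real.exp ((κ * T : ℝ) / (4 * (κ + 2) ^ 3)))
    (σ : Fin T → V) (hσ : ∑ x, ({σ x} : Multiset V) = A₀.val) :
    ∃ π : Fin T → V, (∑ x, ({π x} : Multiset V) = A₁.val) ∧
      Lk G.Adj S σ π (fun _ => 2 * κ + 3) := by
  classical
  have hNpos : 0 < Fintype.card V := by
    have h1 : A₀.card ≤ Fintype.card V := Finset.card_le_univ _
    omega
  have hN0 : (0 : ℝ) < Fintype.card V := by exact_mod_cast hNpos
  have hT1 : (1 : ℝ) ≤ T := by exact_mod_cast hT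
  have hκ1 : (1 : ℝ) ≤ κ := by exact_mod_cast hκ
  have hQ1 : (1 : ℝ) ≤ Q := by exact_mod_cast hQ
  have hdn' : (d : ℝ) ≤ Fintype.card V := by exact_mod_cast hdn
  have hd0 : (0 : ℝ) ≤ d := Nat.cast_nonneg d
  obtain ⟨hω0, n1, n2, n3, n4, n5, n6, n7⟩ := stage_walk_num (Fintype.card V) d T κ Q ω ε hdn' hd0
    hN0 hT1 hκ1 hQ1 hω hω1 hε0 hε hP
  -- degrees
  have hup : ∀ (A : Finset V) (v : V),
      (Fintype.card V : ℝ) * (G.neighborFinset v ∩ A).card ≤ 1000 * T * d →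
      ((G.neighborFinset v ∩ A).card : ℝ) ≤ 1000 * T * d / Fintype.card V := by
    intro A v h
    rw [le_div_iff₀ hN0]
    linarith
  have hlo : ∀ (A : Finset V) (v : V),
      (T : ℝ) * d ≤ 80 * Fintype.card V * (G.neighborFinset v ∩ A).card →
      (T : ℝ) * d / (80 * Fintype.card V) ≤ ((G.neighborFinset v ∩ A).card : ℝ) := by
    intro A v h
    rw [div_le_iff₀ (by positivity)]
    linarith
  -- the cardinality of `S` and of the neighbourhoods in `S`
  have hcardS : S.card = (2 * κ + 3) * T := by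
    have h1 := congrArg Multiset.card hS
    rw [Multiset.card_add, Multiset.card_add, Multiset.card_add] at h1
    simp only [Finset.card_val] at h1
    rw [hA₀, hA₁, hRo, hRe] at h1
    rw [← h1]
    ring
  have hnbS : ∀ u, ((G.neighborFinset u ∩ S).card : ℝ) ≤
      2 * (1000 * T * d / Fintype.card V) + 2 * (27 * ω * d) := by
    intro u
    have h1 : (G.neighborFinset u ∩ S).card ≤ (G.neighborFinset u ∩ A₀).card +
        (G.neighborFinset u ∩ A₁).card + (G.neighborFinset u ∩ Ro).card +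
        (G.neighborFinset u ∩ Re).card := by
      have h2 : G.neighborFinset u ∩ S ⊆ (((G.neighborFinset u ∩ A₀) ∪
          (G.neighborFinset u ∩ A₁)) ∪ (G.neighborFinset u ∩ Ro)) ∪
          (G.neighborFinset u ∩ Re) := by
        intro v hv
        rw [mem_inter] at hv
        have h3 : v ∈ A₀.val + A₁.val + Ro.val + Re.val := by rw [hS]; exact hv.2
        rw [Multiset.mem_add, Multiset.mem_add, Multiset.mem_add] at h3
        simp only [mem_union, mem_inter]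
        rcases h3 with ((h3 | h3) | h3) | h3
        · exact Or.inl (Or.inl (Or.inl ⟨hv.1, h3⟩))
        · exact Or.inl (Or.inl (Or.inr ⟨hv.1, h3⟩))
        · exact Or.inl (Or.inr ⟨hv.1, h3⟩)
        · exact Or.inr ⟨hv.1, h3⟩
      refine (Finset.card_le_card h2).trans ?_
      refine (Finset.card_union_le _ _).trans ?_
      refine Nat.add_le_add_right ?_ _
      refine (Finset.card_union_le _ _).trans ?_
      exact Nat.add_le_add_right (Finset.card_union_le _ _) _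
    have h2 : ((G.neighborFinset u ∩ S).card : ℝ) ≤ (G.neighborFinset u ∩ A₀).card +
        (G.neighborFinset u ∩ A₁).card + (G.neighborFinset u ∩ Ro).card +
        (G.neighborFinset u ∩ Re).card := by exact_mod_cast h1
    have h3 := hup A₀ u (hu0 u)
    have h4 := hup A₁ u (hu1 u)
    have h5 := huo u
    have h6 := hue u
    linarith
  -- a norm bound with columns in `S` as a bound with all coordinates
  have hNB : ∀ (A : Finset V) (Λ Λ' : ℝ), NB G d A S Λ → Λ ≤ Λ' → 0 ≤ Λ' →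
      ∀ x : V → ℝ, ∑ u ∈ A, (∑ v ∈ S, Mx G d u v * x v) ^ 2 ≤ Λ' * ∑ v, x v ^ 2 := by
    intro A Λ Λ' h hΛ hΛ' x
    refine (h x).trans ?_
    have h1 : ∑ v ∈ S, x v ^ 2 ≤ ∑ v, x v ^ 2 :=
      Finset.sum_le_sum_of_subset_of_nonneg (Finset.subset_univ S) (fun v _ _ => sq_nonneg _)
    have h2 : 0 ≤ ∑ v ∈ S, x v ^ 2 := Finset.sum_nonneg (fun v _ => sq_nonneg _)
    calc Λ * ∑ v ∈ S, x v ^ 2 ≤ Λ' * ∑ v ∈ S, x v ^ 2 := mul_le_mul_of_nonneg_right hΛ h2
      _ ≤ Λ' * ∑ v, x v ^ 2 := mul_le_mul_of_nonneg_left h1 hΛ'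
  have hbig : 0 ≤ 300 * ε ^ 2 * ω * ((T : ℝ) / Fintype.card V) * (d : ℝ) ^ 2 := by positivity
  have hbig2 : 0 ≤ 400 * ε ^ 2 * ω * ((T : ℝ) / Fintype.card V) * (d : ℝ) ^ 2 +
      16000 * Q * ω * d := by positivity
  have hΛ1le : 300 * ε ^ 2 * ω * ((T : ℝ) / Fintype.card V) * (d : ℝ) ^ 2 ≤
      700 * ε ^ 2 * ω * ((T : ℝ) / Fintype.card V) * (d : ℝ) ^ 2 + 16000 * Q * ω * d := by
    linarith
  have hκN : (κ : ℝ) + 2 ≤ Fintype.card V := n5
  refine walk_gen G T κ Q hκ hQ A₀ A₁ Ro Re S hA₀ hA₁ hRo hRe S hS (Finset.Subset.refl S)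
    (ω * d / 40) (27 * ω * d) (20 * (ε * ω * d) ^ 2) (1000 * ω * d) (by positivity)
    (by positivity) (by positivity) ?_ ?_ (fun v _ => huo v) ?_
    (hNB Ro _ _ hR le_rfl (by positivity))
    (T * d / (80 * Fintype.card V)) (1000 * T * d / Fintype.card V)
    (700 * ε ^ 2 * ω * (T / Fintype.card V) * d ^ 2 + 16000 * Q * ω * d) (by positivity)
    (by positivity) (by positivity) (fun v _ => hlo A₀ v (hl0 v)) (fun v _ => hlo A₁ v (hl1 v))
    (fun v _ => hup A₀ v (hu0 v)) (fun v _ => hup A₁ v (hu1 v))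
    (hNB A₀ _ _ hn0 hΛ1le (by positivity)) (hNB A₁ _ _ hn1 hΛ1le (by positivity))
    n1 n2 n3 n4 ?_ ?_ ?_ h3 σ hσ
  · intro v _
    have := hdo v
    linarith
  · intro v _
    have := hde v
    linarith
  · intro u _
    refine (stage_walk_row G hdn S u).trans ?_
    have h1 := hnbS u
    rw [hcardS]
    push_cast
    linarith
  · refine le_trans ?_ hQ8
    apply mul_le_mul_of_nonneg_right _ hN0.le
    exact mul_le_mul_of_nonneg_left hκN (by positivity)
  · have h1 : ((κ + 1 : ℕ) : ℝ) ≤ (Fintype.card V : ℝ) := by push_cast; linarith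
    exact_mod_cast h1
  · refine lt_of_le_of_lt (le_trans ?_ hQ8) (stage_walk_exp Q _ n6)
    have h1 : (1 : ℝ) ≤ (Fintype.card V : ℝ) + 1 := by linarith
    have h2 : 4 * (Fintype.card V : ℝ) * (κ + 2) ≤ 4 * Fintype.card V * Fintype.card V :=
      mul_le_mul_of_nonneg_left hκN (by positivity)
    have h3 : 4 * (Fintype.card V : ℝ) * Fintype.card V * 1 ≤
        4 * Fintype.card V * Fintype.card V * (Fintype.card V + 1) :=
      mul_le_mul_of_nonneg_left h1 (by positivity)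
    calc 4 * (Fintype.card V : ℝ) * (κ + 2) ≤
        4 * Fintype.card V * Fintype.card V * (Fintype.card V + 1) := by linarith
      _ = 4 * ((Fintype.card V : ℝ) + 1) * Fintype.card V * Fintype.card V := by ring

end Pool.Agent.HDT
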