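import Pool.Agent.HDT.LinkStage
import Pool.Agent.HDT.StageWalk

/-!
MP_134267_co, Theorem HDT, row R6 (helper31): one stage = a walk through the layers followed by
links in the reserve.
-/

namespace Pool.Agent.HDT

open Finset Pool.Agent.HD

/-- norm bounds pass to smaller sets of rows and columns -/
theorem stage_nb_mono {V : Type} [Fintype V] [DecidableEq V] {G : SimpleGraph V}
    [DecidableRel G.Adj] {d : ℕ} {S S' T T' : Finset V} {Λ : ℝ} (h : NB G d S S' Λ)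
    (hS : T ⊆ S) (hS' : T' ⊆ S') : NB G d T T' Λ := by
  intro x
  have h1 := h (fun v => if v ∈ T' then x v else 0)
  have h2 : ∀ u, ∑ v ∈ S', Mx G d u v * (if v ∈ T' then x v else 0) =
      ∑ v ∈ T', Mx G d u v * x v := by
    intro u
    have e1 : ∀ v, Mx G d u v * (if v ∈ T' then x v else 0) =
        if v ∈ T' then Mx G d u v * x v else 0 := by
      intro v
      split_ifs <;> ring
    rw [Finset.sum_congr rfl (fun v _ => e1 v), ← Finset.sum_filter]
    congr 1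
    ext v
    simp only [Finset.mem_filter]
    constructor
    · rintro ⟨_, h⟩
      exact h
    · intro h
      exact ⟨hS' h, h⟩
  have h3 : ∑ v ∈ S', (if v ∈ T' then x v else 0) ^ 2 = ∑ v ∈ T', x v ^ 2 := by
    have e1 : ∀ v, (if v ∈ T' then x v else 0) ^ 2 = if v ∈ T' then x v ^ 2 else 0 := by
      intro v
      split_ifs <;> simp
    rw [Finset.sum_congr rfl (fun v _ => e1 v), ← Finset.sum_filter]
    congr 1
    ext v
    simp only [Finset.mem_filter]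
    constructor
    · rintro ⟨_, h⟩
      exact h
    · intro h
      exact ⟨hS' h, h⟩
  simp only [h2, h3] at h1
  refine le_trans ?_ h1
  exact Finset.sum_le_sum_of_subset_of_nonneg hS (fun u _ _ => sq_nonneg _)

/-- a set enumerated by `τ` is a linkage of one-vertex paths -/
theorem stage_single {V ι : Type} [Fintype ι] {adj : V → V → Prop} {S : Finset V} {τ : ι → V}
    (h : ∑ x, ({τ x} : Multiset V) = S.val) : Lk adj S τ τ (fun _ => 1) := by
  refine ⟨fun x => [τ x], ?_, ?_, ?_, ?_, ?_⟩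
  · intro x
    exact List.isChain_singleton _
  · intro x
    rfl
  · intro x
    rfl
  · intro x
    rfl
  · rw [← h]
    refine Finset.sum_congr rfl (fun x _ => ?_)
    rfl

/-- the members of an enumeration -/
theorem stage_mem {V ι : Type} [Fintype ι] {S : Finset V} {τ : ι → V}
    (h : ∑ x, ({τ x} : Multiset V) = S.val) (x : ι) : τ x ∈ S := by
  rw [← Finset.mem_val, ← h, Multiset.mem_sum]
  exact ⟨x, Finset.mem_univ _, by simp⟩

/-- enumerations of a set are injective -/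
theorem stage_inj {V ι : Type} [Fintype ι] {S : Finset V} {τ : ι → V}
    (h : ∑ x, ({τ x} : Multiset V) = S.val) : Function.Injective τ := by
  rw [layers_sum_singleton] at h
  intro a b hab
  have h2 : ((Finset.univ : Finset ι).val.map τ).Nodup := by
    rw [h]
    exact S.nodup
  exact Multiset.inj_on_of_nodup_map h2 a (Finset.mem_univ _) b (Finset.mem_univ _) hab

/-- the multiset of a disjoint union -/
theorem stage_union {V : Type} [DecidableEq V] {S T : Finset V} (h : Disjoint S T) :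
    (S ∪ T).val = S.val + T.val := by
  rw [Finset.union_val, Multiset.add_eq_union_iff_disjoint.2 (Finset.disjoint_val.2 h)]

theorem stage {V : Type} [Fintype V] [DecidableEq V] (G : SimpleGraph V)
    [DecidableRel G.Adj] {d : ℕ} (hd1 : 1 ≤ d) (hdn : d ≤ Fintype.card V) (T κ Q : ℕ)
    (hT : 1 ≤ T) (hκ : 1 ≤ κ) (hQ : 1 ≤ Q) (ω ε w : ℝ)
    (hω : ω * Fintype.card V = (2 * κ + 1) * T) (hω1 : ω ≤ 1) (hε0 : 0 ≤ ε)
    (hε : 100000 * ε ≤ 1)
    (A₀ A₁ Tg A Wp Wc Co Ce : Finset V) (sp ℓ : ℕ)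
    (hnd : (A₀.val + A₁.val + Tg.val + A.val + Wp.val + Wc.val).Nodup)
    (hA₀ : A₀.card = T) (hA₁ : A₁.card = T) (hTg : Tg.card = T)
    (hCo : Co ⊆ A) (hCe : Ce ⊆ A) (hCoe : Disjoint Co Ce)
    (hCoc : Co.card ≤ κ * T) (hCec : Ce.card ≤ (κ + 1) * T)
    (hA : A.card + Wp.card = (2 * κ + 1) * T + sp)
    (hdo : ∀ v, ω * d ≤ 40 * (G.neighborFinset v ∩ Co).card)
    (hde : ∀ v, ω * d ≤ 40 * (G.neighborFinset v ∩ Ce).card)
    (hu : ∀ v, ((G.neighborFinset v ∩ (A ∪ Wp)).card : ℝ) ≤ 27 * ω * d)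
    (hl0 : ∀ v, (T : ℝ) * d ≤ 80 * Fintype.card V * (G.neighborFinset v ∩ A₀).card)
    (hl1 : ∀ v, (T : ℝ) * d ≤ 80 * Fintype.card V * (G.neighborFinset v ∩ A₁).card)
    (hu0 : ∀ v, (Fintype.card V : ℝ) * (G.neighborFinset v ∩ A₀).card ≤ 1000 * T * d)
    (hu1 : ∀ v, (Fintype.card V : ℝ) * (G.neighborFinset v ∩ A₁).card ≤ 1000 * T * d)
    (hR : NB G d (A ∪ Wp) (A₀ ∪ A₁ ∪ A ∪ Wp) (20 * (ε * ω * d) ^ 2))
    (hn0 : NB G d A₀ (A₀ ∪ A₁ ∪ A ∪ Wp) (300 * ε ^ 2 * ω * (T / Fintype.card V) * d ^ 2))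
    (hn1 : NB G d A₁ (A₀ ∪ A₁ ∪ A ∪ Wp) (300 * ε ^ 2 * ω * (T / Fintype.card V) * d ^ 2))
    (hP : 10 ^ 12 * (Q : ℝ) * Fintype.card V ≤ d * T)
    (hQ8 : 4 * ((Fintype.card V : ℝ) + 1) * Fintype.card V * Fintype.card V ≤ 8 ^ Q)
    (h3 : 4 * ((κ : ℝ) + 2) < Real.exp ((κ * T : ℝ) / (4 * (κ + 2) ^ 3)))
    (hw : 400 ≤ w * Fintype.card V) (hwc : w * Fintype.card V ≤ 2 * Wc.card)
    (hwd : ∀ v, w * d ≤ 2 * (G.neighborFinset v ∩ Wc).card)
    (hwn : NB G d (A₁ ∪ Tg ∪ Wc) Wc ((w * d / 1000) ^ 2))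
    (hℓ : 2 * Nat.clog 2 (Fintype.card V) + 2 ≤ ℓ)
    (hcap : 10 * ((T : ℝ) * ℓ) ≤ w * Fintype.card V)
    (σ τ : Fin T → V) (hσ : ∑ x, ({σ x} : Multiset V) = A₀.val)
    (hτ : ∑ x, ({τ x} : Multiset V) = Tg.val) :
    ∀ S ⊆ Wp, S.card = sp → ∃ S' ⊆ Wc, S'.card = T * ℓ ∧
      Lk G.Adj (A₀ ∪ A₁ ∪ Tg ∪ A ∪ (Wp \ S) ∪ S') σ τ (fun _ => 2 * κ + 4 + ℓ) := by
  intro S hSW hSc
  -- the disjointness statements
  simp only [Multiset.nodup_add, Multiset.disjoint_add_left, Finset.disjoint_val] at hnd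
  obtain ⟨⟨⟨⟨⟨-, -, d01⟩, -, d0T, d1T⟩, -, ⟨d0A, d1A⟩, dTA⟩, -, ⟨⟨d0W, d1W⟩, dTW⟩, dAW⟩, -,
    ⟨⟨⟨d0C, d1C⟩, dTC⟩, dAC⟩, dWC⟩ := hnd
  have hWS : Wp \ S ⊆ Wp := Finset.sdiff_subset
  -- the layers
  obtain ⟨R, hR0⟩ : ∃ R, R = A ∪ (Wp \ S) := ⟨_, rfl⟩
  have hRW : R ⊆ A ∪ Wp := by
    rw [hR0]
    exact Finset.union_subset_union_right hWS
  have hAR : A ⊆ R := by
    rw [hR0]
    exact Finset.subset_union_left
  have hRc : R.card = (2 * κ + 1) * T := by
    rw [hR0, Finset.card_union_of_disjoint (dAW.mono_right hWS), Finset.card_sdiff_of_subset hSW,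
      hSc]
    have h1 := Finset.card_le_card hSW
    omega
  have hCeR : Ce ⊆ R := hCe.trans hAR
  have hc1 : (2 * κ + 1) * T = κ * T + (κ + 1) * T := by ring
  obtain ⟨Ro, hRo1, hRo2, hRo3⟩ := Finset.exists_subsuperset_card_eq
    (s := Co) (t := R \ Ce) (n := κ * T)
    (by
      intro v hv
      rw [Finset.mem_sdiff]
      exact ⟨hAR (hCo hv), fun h => (Finset.disjoint_left.1 hCoe) hv h⟩) hCoc
    (by
      rw [Finset.card_sdiff_of_subset hCeR]
      omega)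
  have hRoR : Ro ⊆ R := hRo2.trans Finset.sdiff_subset
  obtain ⟨Re, hRe0⟩ : ∃ Re, Re = R \ Ro := ⟨_, rfl⟩
  have hReR : Re ⊆ R := by
    rw [hRe0]
    exact Finset.sdiff_subset
  have hCeRe : Ce ⊆ Re := by
    intro v hv
    rw [hRe0, Finset.mem_sdiff]
    refine ⟨hCeR hv, fun h => ?_⟩
    have h2 := hRo2 h
    rw [Finset.mem_sdiff] at h2
    exact h2.2 hv
  have hRec : Re.card = (κ + 1) * T := by
    rw [hRe0, Finset.card_sdiff_of_subset hRoR]
    omega
  have hoe : Disjoint Ro Re := by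
    rw [hRe0]
    exact Finset.disjoint_sdiff
  have hRoe : Ro ∪ Re = R := by
    rw [hRe0]
    exact Finset.union_sdiff_of_subset hRoR
  have hRval : R.val = Ro.val + Re.val := by
    rw [← hRoe, stage_union hoe]
  have d0R : Disjoint A₀ R := by
    refine Disjoint.mono_right hRW ?_
    rw [Finset.disjoint_union_right]
    exact ⟨d0A, d0W⟩
  have d1R : Disjoint A₁ R := by
    refine Disjoint.mono_right hRW ?_
    rw [Finset.disjoint_union_right]
    exact ⟨d1A, d1W⟩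
  have dTR : Disjoint Tg R := by
    refine Disjoint.mono_right hRW ?_
    rw [Finset.disjoint_union_right]
    exact ⟨dTA, dTW⟩
  have dRC : Disjoint R Wc := by
    refine Disjoint.mono_left hRW ?_
    rw [Finset.disjoint_union_left]
    exact ⟨dAC, dWC⟩
  have d01R : Disjoint (A₀ ∪ A₁) R := by
    rw [Finset.disjoint_union_left]
    exact ⟨d0R, d1R⟩
  obtain ⟨S₀, hS₀⟩ : ∃ S₀, S₀ = A₀ ∪ A₁ ∪ R := ⟨_, rfl⟩
  have hS₀v : A₀.val + A₁.val + Ro.val + Re.val = S₀.val := by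
    rw [hS₀, stage_union d01R, stage_union d01, hRval]
    abel
  have hS₀W : S₀ ⊆ A₀ ∪ A₁ ∪ A ∪ Wp := by
    rw [hS₀]
    intro v hv
    simp only [Finset.mem_union] at hv ⊢
    have h1 := @hRW v
    simp only [Finset.mem_union] at h1
    tauto
  -- the walk
  have mono1 : ∀ (v : V) {X Y : Finset V}, X ⊆ Y →
      ((G.neighborFinset v ∩ X).card : ℝ) ≤ (G.neighborFinset v ∩ Y).card := by
    intro v X Y h
    exact_mod_cast Finset.card_le_card (Finset.inter_subset_inter_left h)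
  obtain ⟨π, hπ1, hπ2⟩ := stage_walk G hdn T κ Q hT hκ hQ ω ε hω hω1 hε0 hε A₀ A₁ Ro Re hA₀ hA₁
    hRo3 hRec S₀ hS₀v
    (fun v => (hdo v).trans (by have := mono1 v hRo1; linarith))
    (fun v => (hde v).trans (by have := mono1 v hCeRe; linarith))
    (fun v => (mono1 v (hRoR.trans hRW)).trans (hu v))
    (fun v => (mono1 v (hReR.trans hRW)).trans (hu v))
    hl0 hl1 hu0 hu1
    (stage_nb_mono hR (hRoR.trans hRW) hS₀W)
    (stage_nb_mono hn0 (Finset.Subset.refl _) hS₀W)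
    (stage_nb_mono hn1 (Finset.Subset.refl _) hS₀W)
    hP hQ8 h3 σ hσ
  -- the links
  obtain ⟨S', hS'1, hS'2, hS'3⟩ := link_stage G hd1 (A₁ ∪ Tg ∪ Wc) Wc Finset.subset_union_right w
    hw hwc (fun v _ => hwd v) hwn π τ (fun _ => ℓ)
    (by
      refine Function.Injective.sumElim (stage_inj hπ1) (stage_inj hτ) ?_
      intro a b hab
      exact (Finset.disjoint_left.1 d1T) (stage_mem hπ1 a) (hab ▸ stage_mem hτ b))
    (by
      intro i
      have h1 := stage_mem hπ1 i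
      rw [Finset.mem_sdiff, Finset.mem_union, Finset.mem_union]
      exact ⟨Or.inl (Or.inl h1), fun h => (Finset.disjoint_left.1 d1C) h1 h⟩)
    (by
      intro i
      have h1 := stage_mem hτ i
      rw [Finset.mem_sdiff, Finset.mem_union, Finset.mem_union]
      exact ⟨Or.inl (Or.inr h1), fun h => (Finset.disjoint_left.1 dTC) h1 h⟩)
    (fun _ => hℓ)
    (by
      rw [Finset.sum_const, Finset.card_univ, Fintype.card_fin, nsmul_eq_mul]
      exact hcap)
  refine ⟨S', hS'1, ?_, ?_⟩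
  · rw [hS'2, Finset.sum_const, Finset.card_univ, Fintype.card_fin, smul_eq_mul]
  have hfin := Lk.comp (S := A₀ ∪ A₁ ∪ Tg ∪ A ∪ (Wp \ S) ∪ S') hπ2 hS'3 (stage_single hτ) (by
    have e1 : A₀ ∪ A₁ ∪ Tg ∪ A ∪ (Wp \ S) ∪ S' = (S₀ ∪ Tg) ∪ S' := by
      rw [hS₀, hR0]
      ext v
      simp only [Finset.mem_union]
      tauto
    have dS₀T : Disjoint S₀ Tg := by
      rw [hS₀, Finset.disjoint_union_left, Finset.disjoint_union_left]
      exact ⟨⟨d0T, d1T⟩, dTR.symm⟩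
    have dS₀C : Disjoint (S₀ ∪ Tg) S' := by
      refine Disjoint.mono_right hS'1 ?_
      rw [Finset.disjoint_union_left, hS₀, Finset.disjoint_union_left, Finset.disjoint_union_left]
      exact ⟨⟨⟨d0C, d1C⟩, dRC⟩, dTC⟩
    rw [e1, stage_union dS₀C, stage_union dS₀T]
    abel)
  have e2 : (fun _ : Fin T => 2 * κ + 4 + ℓ) = fun _ => 2 * κ + 3 + ℓ + 1 := by
    funext _
    omega
  rw [e2]
  exact hfin

end Pool.Agent.HDT
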